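import Pool.Agent.CRC.Fam

/-!
# CRC: basic lemmas

Coordinates `zz`, `wW`, `mkZ`, the rotation `rot`, Hamiltonian fields and brackets, families which
are smooth locally in the parameter.
-/

set_option autoImplicit false

open scoped ContDiff Topology
open Set Function TopologicalSpace

namespace Pool.Agent.CRC

open Pool.Agent.Helper17 Pool.Agent.Helper42 Pool.Agent.H50.Susp

variable {n : ℕ}

/-! ### Coordinates -/

lemma wW_inl (p : Phase (n + 1)) (j : Fin n) : (wW n p) (Sum.inl j) = p (Sum.inl j.succ) := rfl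

lemma wW_inr (p : Phase (n + 1)) (j : Fin n) : (wW n p) (Sum.inr j) = p (Sum.inr j.succ) := rfl

@[simp] lemma wE_inl_zero (w : Phase n) : (wE n w) (Sum.inl 0) = 0 := rfl

@[simp] lemma wE_inr_zero (w : Phase n) : (wE n w) (Sum.inr 0) = 0 := rfl

@[simp] lemma wE_inl_succ (w : Phase n) (j : Fin n) :
    (wE n w) (Sum.inl j.succ) = w (Sum.inl j) := rfl

@[simp] lemma wE_inr_succ (w : Phase n) (j : Fin n) :
    (wE n w) (Sum.inr j.succ) = w (Sum.inr j) := rfl

@[simp] lemma mkZ_x (z : ℂ) (w : Phase n) : (mkZ z w) (Sum.inl 0) = z.re := by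
  simp [mkZ, eX, eY]

@[simp] lemma mkZ_y (z : ℂ) (w : Phase n) : (mkZ z w) (Sum.inr 0) = z.im := by
  simp [mkZ, eX, eY]

@[simp] lemma zz_re (p : Phase (n + 1)) : (zz p).re = p (Sum.inl 0) := rfl

@[simp] lemma zz_im (p : Phase (n + 1)) : (zz p).im = p (Sum.inr 0) := rfl

@[simp] lemma zz_mkZ (z : ℂ) (w : Phase n) : zz (mkZ z w) = z :=
  Complex.ext (by simp) (by simp)

@[simp] lemma wW_mkZ (z : ℂ) (w : Phase n) : wW n (mkZ z w) = w := by
  ext k
  rcases k with k | k
  · rw [wW_inl]; simp [mkZ, eX, eY]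
  · rw [wW_inr]; simp [mkZ, eX, eY]

lemma ext_zw {p q : Phase (n + 1)} (hz : zz p = zz q) (hw : wW n p = wW n q) : p = q := by
  ext k
  rcases k with k | k
  · refine Fin.cases (congrArg Complex.re hz) (fun j => ?_) k
    have := congrArg (fun v : Phase n => v (Sum.inl j)) hw
    simpa only [wW_inl] using this
  · refine Fin.cases (congrArg Complex.im hz) (fun j => ?_) k
    have := congrArg (fun v : Phase n => v (Sum.inr j)) hw
    simpa only [wW_inr] using this

lemma mkZ_eta (p : Phase (n + 1)) : mkZ (zz p) (wW n p) = p := ext_zw (by simp) (by simp)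

/-- the first complex coordinate as a continuous linear map -/
noncomputable def zzL (n : ℕ) : Phase (n + 1) →L[ℝ] ℂ :=
  LinearMap.toContinuousLinearMap
    { toFun := zz
      map_add' := fun p q => Complex.ext (by simp) (by simp)
      map_smul' := fun c p => Complex.ext (by simp) (by simp) }

lemma zzL_apply (p : Phase (n + 1)) : zzL n p = zz p := rfl

lemma contDiff_zz : ContDiff ℝ ∞ (zz : Phase (n + 1) → ℂ) := (zzL n).contDiff

lemma continuous_zz : Continuous (zz : Phase (n + 1) → ℂ) := (zzL n).continuous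

/-- the coordinates `(z_0, w)` as a linear isomorphism -/
noncomputable def zwE (n : ℕ) : Phase (n + 1) ≃L[ℝ] ℂ × Phase n :=
  LinearEquiv.toContinuousLinearEquiv
    { toFun := fun p => (zz p, wW n p)
      map_add' := fun p q => Prod.ext ((zzL n).map_add p q) ((wW n).map_add p q)
      map_smul' := fun c p => Prod.ext ((zzL n).map_smul c p) ((wW n).map_smul c p)
      invFun := fun q => mkZ q.1 q.2
      left_inv := mkZ_eta
      right_inv := fun _ => Prod.ext (zz_mkZ _ _) (wW_mkZ _ _) }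

lemma zwE_apply (p : Phase (n + 1)) : zwE n p = (zz p, wW n p) := rfl

lemma zwE_symm_apply (q : ℂ × Phase n) : (zwE n).symm q = mkZ q.1 q.2 := rfl

lemma mkZ_add (z z' : ℂ) (w w' : Phase n) : mkZ (z + z') (w + w') = mkZ z w + mkZ z' w' :=
  (zwE n).symm.map_add (z, w) (z', w')

lemma mkZ_smul (c : ℝ) (z : ℂ) (w : Phase n) : mkZ (c • z) (c • w) = c • mkZ z w :=
  (zwE n).symm.map_smul c (z, w)

lemma contDiff_mkZ : ContDiff ℝ ∞ (fun q : ℂ × Phase n => mkZ q.1 q.2) :=
  (zwE n).symm.contDiff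

lemma eX_eq : (eX 0 : Phase (n + 1)) = mkZ 1 0 := by
  simp [mkZ]

lemma eY_eq : (eY 0 : Phase (n + 1)) = mkZ Complex.I 0 := by
  simp [mkZ]

lemma mu_eq (p : Phase (n + 1)) : mu p = ‖zz p‖ ^ 2 / 2 := by
  rw [← Complex.normSq_eq_norm_sq, Complex.normSq_apply, mu, zz_re, zz_im]
  ring

lemma norm_sq_zw (p : Phase (n + 1)) : ‖p‖ ^ 2 = ‖zz p‖ ^ 2 + ‖wW n p‖ ^ 2 := by
  rw [← Complex.normSq_eq_norm_sq, Complex.normSq_apply]
  simp only [EuclideanSpace.norm_sq_eq, Fintype.sum_sum_type, Fin.sum_univ_succ, wW_inl, wW_inr,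
    Real.norm_eq_abs, sq_abs, zz_re, zz_im]
  ring

lemma norm_zz_le (p : Phase (n + 1)) : ‖zz p‖ ≤ ‖p‖ := by
  have h := norm_sq_zw p
  have h1 := sq_nonneg ‖wW n p‖
  exact (abs_le_of_sq_le_sq' (by nlinarith) (norm_nonneg p)).2

lemma norm_wW_le (p : Phase (n + 1)) : ‖wW n p‖ ≤ ‖p‖ := by
  have h := norm_sq_zw p
  have h1 := sq_nonneg ‖zz p‖
  exact (abs_le_of_sq_le_sq' (by nlinarith) (norm_nonneg p)).2

lemma omegaStd_zw (u v : Phase (n + 1)) : omegaStd u v =
    (starRingEnd ℂ (zz u) * zz v).im + omegaStd (wW n u) (wW n v) := by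
  simp only [omegaStd, Fin.sum_univ_succ, wW_inl, wW_inr, Complex.mul_im, Complex.conj_re,
    Complex.conj_im, zz_re, zz_im]
  ring

/-! ### Rotation -/

@[simp] lemma zz_rot (s : ℝ) (p : Phase (n + 1)) :
    zz (rot s p) = Complex.exp (s * Complex.I) * zz p := by
  rw [rot, zz_mkZ]

@[simp] lemma wW_rot (s : ℝ) (p : Phase (n + 1)) : wW n (rot s p) = wW n p := by
  rw [rot, wW_mkZ]

lemma rot_mkZ (s : ℝ) (z : ℂ) (w : Phase n) :
    rot s (mkZ z w) = mkZ (Complex.exp (s * Complex.I) * z) w := by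
  rw [rot, zz_mkZ, wW_mkZ]

lemma rot_zero (p : Phase (n + 1)) : rot 0 p = p := ext_zw (by simp) (by simp)

lemma rot_add (a b : ℝ) (p : Phase (n + 1)) : rot (a + b) p = rot a (rot b p) := by
  refine ext_zw ?_ (by simp)
  rw [zz_rot, zz_rot, zz_rot, ← mul_assoc, ← Complex.exp_add, Complex.ofReal_add, add_mul]

lemma rot_two_pi (s : ℝ) (p : Phase (n + 1)) : rot (s + 2 * Real.pi) p = rot s p := by
  refine ext_zw ?_ (by simp)
  rw [zz_rot, zz_rot]
  congr 1
  rw [Complex.ofReal_add, add_mul, Complex.exp_add]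
  have : Complex.exp (((2 * Real.pi : ℝ) : ℂ) * Complex.I) = 1 := by
    rw [Complex.ofReal_mul, Complex.ofReal_ofNat, Complex.exp_two_pi_mul_I]
  rw [this, mul_one]

lemma rot_neg_rot (s : ℝ) (p : Phase (n + 1)) : rot (-s) (rot s p) = p := by
  rw [← rot_add, neg_add_cancel, rot_zero]

lemma rot_rot_neg (s : ℝ) (p : Phase (n + 1)) : rot s (rot (-s) p) = p := by
  rw [← rot_add, add_neg_cancel, rot_zero]

/-- the rotation as a continuous linear map -/
noncomputable def rotL (n : ℕ) (s : ℝ) : Phase (n + 1) →L[ℝ] Phase (n + 1) :=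
  LinearMap.toContinuousLinearMap
    { toFun := rot s
      map_add' := fun p q => by
        refine ext_zw ?_ ?_
        · rw [zz_rot]
          change _ = zzL n (rot s p + rot s q)
          rw [map_add, zzL_apply, zzL_apply, zz_rot, zz_rot, ← mul_add]
          congr 1
        · rw [wW_rot, map_add, map_add, wW_rot, wW_rot]
      map_smul' := fun c p => by
        refine ext_zw ?_ ?_
        · rw [zz_rot]
          change _ = zzL n (c • rot s p)
          rw [map_smul, zzL_apply, zz_rot]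
          have h : zz (c • p) = c • zz p := (zzL n).map_smul c p
          rw [h, mul_smul_comm]
        · rw [wW_rot, map_smul, RingHom.id_apply, map_smul, wW_rot] }

lemma rotL_apply (s : ℝ) (p : Phase (n + 1)) : rotL n s p = rot s p := rfl

@[simp] lemma norm_zz_rot (s : ℝ) (p : Phase (n + 1)) : ‖zz (rot s p)‖ = ‖zz p‖ := by
  rw [zz_rot, norm_mul, Complex.norm_exp_ofReal_mul_I, one_mul]

@[simp] lemma norm_rot (s : ℝ) (p : Phase (n + 1)) : ‖rot s p‖ = ‖p‖ := by
  have h : ‖rot s p‖ ^ 2 = ‖p‖ ^ 2 := by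
    rw [norm_sq_zw, norm_sq_zw p, norm_zz_rot, wW_rot]
  exact (sq_eq_sq₀ (norm_nonneg _) (norm_nonneg _)).1 h

lemma mu_rot (s : ℝ) (p : Phase (n + 1)) : mu (rot s p) = mu p := by
  rw [mu_eq, mu_eq, norm_zz_rot]

lemma omegaStd_rot (s : ℝ) (u v : Phase (n + 1)) :
    omegaStd (rot s u) (rot s v) = omegaStd u v := by
  rw [omegaStd_zw, omegaStd_zw u v, wW_rot, wW_rot, zz_rot, zz_rot, map_mul]
  congr 2
  have h : starRingEnd ℂ (Complex.exp (s * Complex.I)) * Complex.exp (s * Complex.I) = 1 := by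
    rw [← Complex.exp_conj, ← Complex.exp_add]
    simp
  calc starRingEnd ℂ (Complex.exp (s * Complex.I)) * starRingEnd ℂ (zz u) *
        (Complex.exp (s * Complex.I) * zz v)
      = (starRingEnd ℂ (Complex.exp (s * Complex.I)) * Complex.exp (s * Complex.I)) *
        (starRingEnd ℂ (zz u) * zz v) := by ring
    _ = starRingEnd ℂ (zz u) * zz v := by rw [h, one_mul]

lemma continuous_expI : Continuous (fun s : ℝ => Complex.exp (s * Complex.I)) :=
  Complex.continuous_exp.comp (Complex.continuous_ofReal.mul continuous_const)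

/-- the rotations are a smooth family -/
lemma CF_rot : CF (fun (s : ℝ) (p : Phase (n + 1)) => rot s p) := by
  have hc : CF (fun (s : ℝ) (_ : Phase (n + 1)) => Real.cos s) := CF.param Real.continuous_cos
  have hs : CF (fun (s : ℝ) (_ : Phase (n + 1)) => Real.sin s) := CF.param Real.continuous_sin
  have h2 : CF (fun (_ : ℝ) (p : Phase (n + 1)) => zzL n p) := CF.const (zzL n).contDiff
  have h2' : CF (fun (_ : ℝ) (p : Phase (n + 1)) =>
      (ContinuousLinearMap.mul ℝ ℂ Complex.I) (zzL n p)) := CF.clm _ h2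
  have h3 : CF (fun (_ : ℝ) (p : Phase (n + 1)) => wW n p) := CF.const (wW n).contDiff
  have h4 : CF (fun (s : ℝ) (p : Phase (n + 1)) => Real.cos s • zzL n p +
      Real.sin s • (ContinuousLinearMap.mul ℝ ℂ Complex.I) (zzL n p)) :=
    CF.add (CF.smul hc h2) (CF.smul hs h2')
  have h5 := CF.clm (zwE n).symm.toContinuousLinearMap (CF.prodMk h4 h3)
  have h6 : (fun (s : ℝ) (p : Phase (n + 1)) => rot s p) = (fun (s : ℝ) (p : Phase (n + 1)) =>
      (zwE n).symm.toContinuousLinearMap (Real.cos s • zzL n p +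
      Real.sin s • (ContinuousLinearMap.mul ℝ ℂ Complex.I) (zzL n p), wW n p)) := by
    funext s p
    change mkZ _ _ = mkZ _ _
    congr 1
    rw [Complex.exp_mul_I, ← Complex.ofReal_cos, ← Complex.ofReal_sin, zzL_apply]
    simp only [ContinuousLinearMap.mul_apply', Complex.real_smul]
    ring
  rw [h6]
  exact h5

/-! ### Hamiltonian fields and brackets -/

lemma hamV_inrV {N : ℕ} (f : Phase N → ℝ) (p : Phase N) (j : Fin N) :
    (hamV f p) (Sum.inr j) = fderiv ℝ f p (eX j) := by
  have h1 := omegaStd_hamV f p (eX j)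
  simp [omegaStd, eX] at h1
  simpa [eX] using h1

lemma hamV_inlV {N : ℕ} (f : Phase N → ℝ) (p : Phase N) (j : Fin N) :
    (hamV f p) (Sum.inl j) = -fderiv ℝ f p (eY j) := by
  have h1 := omegaStd_hamV f p (eY j)
  simp [omegaStd, eY] at h1
  simpa [eY] using h1

lemma hamField_eqV {N : ℕ} (f : Phase N → ℝ) (p : Phase N) : hamField f p = hamV f p := by
  ext i
  rcases i with j | j
  · rw [hamV_inlV]
    rfl
  · rw [hamV_inrV]
    rfl

lemma hamV_mu (p : Phase (n + 1)) : hamV mu p = mkZ (Complex.I * zz p) 0 := by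
  refine ext_zw (Complex.ext ?_ ?_) ?_
  · rw [zz_re, hamV_inlV, fderiv_mu, zz_mkZ]
    simp [eY]
  · rw [zz_im, hamV_inrV, fderiv_mu, zz_mkZ]
    simp [eX]
  · ext k
    rw [wW_mkZ]
    rcases k with k | k
    · rw [wW_inl, hamV_inlV, fderiv_mu]
      simp [eY]
    · rw [wW_inr, hamV_inrV, fderiv_mu]
      simp [eX]

lemma hasDerivAt_rot (s : ℝ) (p : Phase (n + 1)) :
    HasDerivAt (fun s => rot s p) (hamV mu (rot s p)) s := by
  have h1 : HasDerivAt (fun s : ℝ => Complex.exp (s * Complex.I))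
      (Complex.exp (s * Complex.I) * Complex.I) s := by
    have h2 : HasDerivAt (fun s : ℝ => (s : ℂ) * Complex.I) Complex.I s := by
      simpa using (Complex.ofRealCLM.hasDerivAt (x := s)).mul_const Complex.I
    exact h2.cexp
  have h3 : HasDerivAt (fun s : ℝ => ((Complex.exp (s * Complex.I) * zz p, wW n p) : ℂ × Phase n))
      (Complex.exp (s * Complex.I) * Complex.I * zz p, 0) s :=
    (h1.mul_const (zz p)).prodMk (hasDerivAt_const s (wW n p))
  have h4 := (zwE n).symm.hasFDerivAt.comp_hasDerivAt s h3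
  rw [hamV_mu, zz_rot]
  have h5 : Complex.I * (Complex.exp (s * Complex.I) * zz p) =
      Complex.exp (s * Complex.I) * Complex.I * zz p := by ring
  rw [h5]
  exact h4

/-- The orbits of `mu` are the rotations. -/
lemma rot_uniq (c : ℝ → Phase (n + 1)) (hc : ∀ s, HasDerivAt c (hamV mu (c s)) s) (s : ℝ) :
    c s = rot s (c 0) := by
  have h1 : ∀ s, HasDerivAt (fun s => rot (-s) (c s)) 0 s := by
    intro s
    have hz : HasDerivAt (fun s => zz (c s)) (Complex.I * zz (c s)) s := by
      have := (zzL n).hasFDerivAt.comp_hasDerivAt s (hc s)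
      rw [hamV_mu, zzL_apply, zz_mkZ] at this
      exact this
    have hw : HasDerivAt (fun s => wW n (c s)) 0 s := by
      have := (wW n).hasFDerivAt.comp_hasDerivAt s (hc s)
      rw [hamV_mu, wW_mkZ] at this
      exact this
    have he : HasDerivAt (fun s : ℝ => Complex.exp (((-s : ℝ) : ℂ) * Complex.I))
        (Complex.exp (((-s : ℝ) : ℂ) * Complex.I) * (-Complex.I)) s := by
      have h2 : HasDerivAt (fun s : ℝ => ((-s : ℝ) : ℂ) * Complex.I) (-Complex.I) s := by
        have := ((Complex.ofRealCLM.hasDerivAt (x := s)).neg).mul_const Complex.I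
        simpa using this
      exact h2.cexp
    have h3 := (zwE n).symm.hasFDerivAt.comp_hasDerivAt s ((he.mul hz).prodMk hw)
    refine h3.congr_deriv ?_
    have h4 : Complex.exp (((-s : ℝ) : ℂ) * Complex.I) * (-Complex.I) * zz (c s) +
        Complex.exp (((-s : ℝ) : ℂ) * Complex.I) * (Complex.I * zz (c s)) = 0 := by ring
    rw [h4]
    exact (zwE n).symm.map_zero
  have h2 := is_const_of_deriv_eq_zero (fun s => (h1 s).differentiableAt)
    (fun s => (h1 s).deriv) s 0
  rw [neg_zero, rot_zero] at h2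
  rw [← h2, rot_rot_neg]

lemma pb_eq_omegaStd {N : ℕ} (f g : Phase N → ℝ) (p : Phase N) :
    pb f g p = omegaStd (hamV f p) (hamV g p) := by
  rw [pb, omegaStd_swap, omegaStd_hamV, neg_neg]

lemma pb_swap {N : ℕ} (f g : Phase N → ℝ) (p : Phase N) : pb f g p = -pb g f p := by
  rw [pb_eq_omegaStd, pb_eq_omegaStd, omegaStd_swap]

lemma pb_self {N : ℕ} (f : Phase N → ℝ) (p : Phase N) : pb f f p = 0 := fderiv_hamV_self f p

/-! ### Families which are smooth locally in the parameter -/

section param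

variable {T : Type} [TopologicalSpace T] {E : Type} [NormedAddCommGroup E] [NormedSpace ℝ E]

lemma CFk.of_nhds {k : ℕ} : ∀ {E' : Type} [NormedAddCommGroup E'] [NormedSpace ℝ E']
    {F : T → E → E'}, (∀ t₀ : T, ∃ U : Set T, IsOpen U ∧ t₀ ∈ U ∧
      CFk U E k E' (fun t x => F t x)) → CFk T E k E' F := by
  have hcont : ∀ {k : ℕ} {E' : Type} [NormedAddCommGroup E'] [NormedSpace ℝ E']
    {F : T → E → E'}, (∀ t₀ : T, ∃ U : Set T, IsOpen U ∧ t₀ ∈ U ∧
      CFk U E k E' (fun t x => F t x)) → Continuous (fun p : T × E => F p.1 p.2) := by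
    intro k E' _ _ F h
    rw [continuous_iff_continuousAt]
    rintro ⟨t, x⟩
    obtain ⟨U, hU, ht, hF⟩ := h t
    have h1 : ContinuousOn (fun p : T × E => F p.1 p.2) (U ×ˢ univ) := by
      rw [continuousOn_iff_continuous_domRestrict]
      have h2 := CFk.continuous hF
      exact h2.comp (f := fun q : (U ×ˢ (univ : Set E) : Set (T × E)) =>
        ((⟨q.1.1, q.2.1⟩ : U), q.1.2))
        (((continuous_fst.comp continuous_subtype_val).subtype_mk _).prodMk
          (continuous_snd.comp continuous_subtype_val))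
    exact h1.continuousAt ((hU.prod isOpen_univ).mem_nhds ⟨ht, trivial⟩)
  induction k with
  | zero =>
    intro E' _ _ F h
    exact hcont h
  | succ k ih =>
    intro E' _ _ F h
    refine ⟨hcont h, ?_, ?_⟩
    · intro t
      obtain ⟨U, -, ht, hF⟩ := h t
      exact hF.2.1 ⟨t, ht⟩
    · apply ih
      intro t
      obtain ⟨U, hU, ht, hF⟩ := h t
      exact ⟨U, hU, ht, hF.2.2⟩

/-- A family is smooth if it is so over the members of an open cover of the parameter space. -/
lemma CF.of_nhds {E' : Type} [NormedAddCommGroup E'] [NormedSpace ℝ E'] {F : T → E → E'}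
    (h : ∀ t₀ : T, ∃ U : Set T, IsOpen U ∧ t₀ ∈ U ∧ CF (fun (t : U) x => F t x)) : CF F := by
  intro k
  apply CFk.of_nhds
  intro t
  obtain ⟨U, hU, ht, hF⟩ := h t
  exact ⟨U, hU, ht, hF k⟩

end param

end Pool.Agent.CRC
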