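import Pool.Agent.CRC.St
import Pool.Agent.CRC.Basic

/-!
# CRC, ACT: the action of the orbits of a circle Hamiltonian
-/

set_option autoImplicit false
set_option maxSynthPendingDepth 3

open scoped ContDiff Topology NNReal
open Set Function TopologicalSpace Filter MeasureTheory

namespace Pool.Agent.CRC

open Pool.Agent.Helper17 Pool.Agent.Helper42 Pool.Agent.H50.Susp

namespace ACT

theorem hasDerivAt_of_slope {E : Type} [NormedAddCommGroup E] [NormedSpace ℝ E] {J K : ℝ → E}
    {s₀ : ℝ} (hK : ContinuousAt K s₀) (h : ∀ s, J s = J s₀ + (s - s₀) • K s) :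
    HasDerivAt J (K s₀) s₀ := by
  rw [hasDerivAt_iff_tendsto_slope]
  have h1 : Tendsto K (𝓝[≠] s₀) (𝓝 (K s₀)) := hK.mono_left nhdsWithin_le_nhds
  refine h1.congr' ?_
  filter_upwards [self_mem_nhdsWithin] with s hs
  have hs' : s - s₀ ≠ 0 := sub_ne_zero.2 hs
  rw [slope_def_module, h s, add_sub_cancel_left, smul_smul, inv_mul_cancel₀ hs', one_smul]

theorem cpar {T : Type} [TopologicalSpace T] {E E' : Type} [NormedAddCommGroup E]
    [NormedSpace ℝ E] [NormedAddCommGroup E'] [NormedSpace ℝ E'] {F : T → E → E'} (h : CF F)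
    (x : E) : Continuous (fun s => F s x) :=
  h.continuous.comp (Continuous.prodMk_left x)

theorem cparD {T : Type} [TopologicalSpace T] {E E' : Type} [NormedAddCommGroup E]
    [NormedSpace ℝ E] [NormedAddCommGroup E'] [NormedSpace ℝ E'] {F : T → E → E'} (h : CF F)
    (x v : E) : Continuous (fun s => fderiv ℝ (F s) x v) :=
  (cpar h.fderiv x).clm_apply continuous_const

variable {n : ℕ} {R : ℝ} {f : Phase (n + 1) → ℝ} {Φ : ℝ → Phase (n + 1) → Phase (n + 1)}

theorem CF_field (hf : Circ R f) (hF : Fl R f Φ) :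
    CF (fun (s : ℝ) (x : Phase (n + 1)) => hamV f (Φ s x)) :=
  (CF_hamV (T := ℝ) (f := fun _ => f) (CF.const hf.smooth)).comp hF.cf

/-- the variation of the flow -/
theorem hasDerivAt_J (hf : Circ R f) (hF : Fl R f Φ) (p v : Phase (n + 1)) (s₀ : ℝ) :
    HasDerivAt (fun s => fderiv ℝ (Φ s) p v) (fderiv ℝ (fun x => hamV f (Φ s₀ x)) p v) s₀ := by
  set μ : Measure ℝ := volume.restrict (Icc (0 : ℝ) 1) with hμ
  set G : ℝ × ℝ → Phase (n + 1) → Phase (n + 1) :=
    fun q x => hamV f (Φ (s₀ + q.2 * (q.1 - s₀)) x) with hG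
  have hGcf : CF G := (CF_field hf hF).base (h := fun q : ℝ × ℝ => s₀ + q.2 * (q.1 - s₀))
    (by fun_prop)
  set I : ℝ → Phase (n + 1) → Phase (n + 1) := fun s x => ∫ z in Icc (0 : ℝ) 1, G (s, z) x ∂μ
    with hI
  have hIcf : CF I := CF.setIntegral isCompact_Icc μ hGcf
  have hres : μ.restrict (Icc (0 : ℝ) 1) = volume.restrict (Icc (0 : ℝ) 1) := by
    rw [hμ, Measure.restrict_restrict measurableSet_Icc, inter_self]
  have hint : ∀ s x, Φ s x = Φ s₀ x + (s - s₀) • I s x := by
    intro s x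
    have hd : ∀ z : ℝ, HasDerivAt (fun z : ℝ => Φ (s₀ + z * (s - s₀)) x)
        ((s - s₀) • hamV f (Φ (s₀ + z * (s - s₀)) x)) z := by
      intro z
      have h1 : HasDerivAt (fun z : ℝ => s₀ + z * (s - s₀)) (1 * (s - s₀)) z :=
        ((hasDerivAt_id z).mul_const (s - s₀)).const_add s₀
      have h2 := (hF.der (s₀ + z * (s - s₀)) x).scomp z h1
      rw [one_mul] at h2
      exact h2
    have c0 : Continuous (fun z : ℝ => G (s, z) x) :=
      (cpar hGcf x).comp (Continuous.prodMk_right s)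
    have hc : Continuous (fun z : ℝ => (s - s₀) • hamV f (Φ (s₀ + z * (s - s₀)) x)) :=
      c0.const_smul (s - s₀)
    have h3 := intervalIntegral.integral_eq_sub_of_hasDerivAt (a := 0) (b := 1)
      (fun z _ => hd z) (hc.intervalIntegrable 0 1)
    rw [intervalIntegral.integral_smul, intervalIntegral.integral_of_le zero_le_one,
      ← integral_Icc_eq_integral_Ioc] at h3
    have h4 : I s x = ∫ z in Icc (0 : ℝ) 1, hamV f (Φ (s₀ + z * (s - s₀)) x) := by
      simp only [hI, hG, hres]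
    rw [h4, h3]
    simp
  have hI0 : I s₀ = fun x => hamV f (Φ s₀ x) := by
    funext x
    simp only [hI, hG, sub_self, mul_zero, add_zero, hres]
    simp
  have hslope : ∀ s, fderiv ℝ (Φ s) p v = fderiv ℝ (Φ s₀) p v + (s - s₀) • fderiv ℝ (I s) p v := by
    intro s
    have h1 : Φ s = fun x => Φ s₀ x + (s - s₀) • I s x := funext (hint s)
    have h2 : HasFDerivAt (fun x => Φ s₀ x + (s - s₀) • I s x)
        (fderiv ℝ (Φ s₀) p + (s - s₀) • fderiv ℝ (I s) p) p :=
      (hF.cf.differentiable s₀ p).hasFDerivAt.add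
        ((hIcf.differentiable s p).hasFDerivAt.const_smul (s - s₀))
    have h3 : fderiv ℝ (Φ s) p = fderiv ℝ (Φ s₀) p + (s - s₀) • fderiv ℝ (I s) p := by
      conv_lhs => rw [h1]
      exact h2.fderiv
    rw [h3]
    rfl
  have hK : ContinuousAt (fun s => fderiv ℝ (I s) p v) s₀ := (cparD hIcf p v).continuousAt
  have h5 := hasDerivAt_of_slope hK hslope
  rw [hI0] at h5
  exact h5

/-- the integrand of the action -/
noncomputable def gA (f : Phase (n + 1) → ℝ) (Φ : ℝ → Phase (n + 1) → Phase (n + 1)) (s : ℝ)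
    (x : Phase (n + 1)) : ℝ := omegaStd (Φ s x) (hamV f (Φ s x))

theorem CF_gA (hf : Circ R f) (hF : Fl R f Φ) : CF (gA f Φ) := by
  have h1 : CF (fun (s : ℝ) (x : Phase (n + 1)) => (omegaB (n + 1)) (Φ s x)) :=
    hF.cf.clm (omegaB (n + 1))
  exact h1.clm_apply (CF_field hf hF)

theorem fderiv_gA (hf : Circ R f) (hF : Fl R f Φ) (s : ℝ) (x v : Phase (n + 1)) :
    fderiv ℝ (gA f Φ s) x v = omegaStd (fderiv ℝ (Φ s) x v) (hamV f (Φ s x)) +
      omegaStd (Φ s x) (fderiv ℝ (fun x => hamV f (Φ s x)) x v) := by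
  have h1 : HasFDerivAt (fun x => (omegaB (n + 1)) (Φ s x))
      ((omegaB (n + 1)).comp (fderiv ℝ (Φ s) x)) x :=
    (omegaB (n + 1)).hasFDerivAt.comp x (hF.cf.differentiable s x).hasFDerivAt
  have h2 : HasFDerivAt (fun x => hamV f (Φ s x)) (fderiv ℝ (fun x => hamV f (Φ s x)) x) x :=
    ((CF_field hf hF).differentiable s x).hasFDerivAt
  have h3 := h1.clm_apply h2
  have h4 : fderiv ℝ (gA f Φ s) x = _ := h3.fderiv
  rw [h4]
  show omegaStd (Φ s x) (fderiv ℝ (fun x => hamV f (Φ s x)) x v) +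
    omegaStd (fderiv ℝ (Φ s) x v) (hamV f (Φ s x)) = _
  rw [add_comm]

/-- the action -/
noncomputable def Act (f : Phase (n + 1) → ℝ) (Φ : ℝ → Phase (n + 1) → Phase (n + 1))
    (x : Phase (n + 1)) : ℝ := ∫ s in Icc (0 : ℝ) (2 * Real.pi), gA f Φ s x

theorem two_pi_pos' : (0 : ℝ) < 2 * Real.pi := Real.two_pi_pos

theorem hasFDerivAt_Act (hf : Circ R f) (hF : Fl R f Φ) (x : Phase (n + 1)) :
    HasFDerivAt (Act f Φ) (∫ s in Icc (0 : ℝ) (2 * Real.pi), fderiv ℝ (gA f Φ s) x) x := by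
  set μ : Measure ℝ := volume.restrict (Icc (0 : ℝ) (2 * Real.pi)) with hμ
  have hres : μ.restrict (Icc (0 : ℝ) (2 * Real.pi)) = volume.restrict (Icc 0 (2 * Real.pi)) := by
    rw [hμ, Measure.restrict_restrict measurableSet_Icc, inter_self]
  have hcf : CF (fun (q : Unit × ℝ) x => gA f Φ q.2 x) := (CF_gA hf hF).base continuous_snd
  have h1 := hasFDerivAt_setIntegral (T := Unit) (S := Icc (0 : ℝ) (2 * Real.pi)) isCompact_Icc μ
    hcf.continuous hcf.differentiable hcf.fderiv.continuous () x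
  rw [hres] at h1
  exact h1

theorem fderiv_Act (hf : Circ R f) (hF : Fl R f Φ) (x v : Phase (n + 1)) :
    fderiv ℝ (Act f Φ) x v = 2 * (2 * Real.pi) * fderiv ℝ f x v := by
  have hcg : Continuous (fun s => fderiv ℝ (gA f Φ s) x) := cpar (CF_gA hf hF).fderiv x
  rw [(hasFDerivAt_Act hf hF x).fderiv]
  rw [ContinuousLinearMap.integral_apply (hcg.continuousOn.integrableOn_compact isCompact_Icc)]
  have hderiv : ∀ s, HasDerivAt (fun s => omegaStd (Φ s x) (fderiv ℝ (Φ s) x v))
      (omegaStd (hamV f (Φ s x)) (fderiv ℝ (Φ s) x v) +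
        omegaStd (Φ s x) (fderiv ℝ (fun x => hamV f (Φ s x)) x v)) s := by
    intro s
    exact ((omegaB (n + 1)).hasFDerivAt.comp_hasDerivAt s (hF.der s x)).clm_apply
      (hasDerivAt_J hf hF x v s)
  have hen : ∀ s, omegaStd (fderiv ℝ (Φ s) x v) (hamV f (Φ s x)) = fderiv ℝ f x v := by
    intro s
    rw [omegaStd_swap, omegaStd_hamV, neg_neg]
    have h1 : HasFDerivAt (fun x => f (Φ s x)) ((fderiv ℝ f (Φ s x)).comp (fderiv ℝ (Φ s) x)) x :=
      (hf.smooth.differentiable (by simp) (Φ s x)).hasFDerivAt.comp x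
        (hF.cf.differentiable s x).hasFDerivAt
    have h2 : (fun x => f (Φ s x)) = f := funext fun x => hF.cons s x
    rw [h2] at h1
    have h3 := h1.fderiv
    rw [h3]
    rfl
  have hcd : Continuous (fun s => omegaStd (hamV f (Φ s x)) (fderiv ℝ (Φ s) x v) +
        omegaStd (Φ s x) (fderiv ℝ (fun x => hamV f (Φ s x)) x v)) := by
    have c1 : Continuous (fun s => Φ s x) := cpar hF.cf x
    have c2 : Continuous (fun s => fderiv ℝ (Φ s) x v) := cparD hF.cf x v
    have c3 : Continuous (fun s => hamV f (Φ s x)) := cpar (CF_field hf hF) x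
    have c4 : Continuous (fun s => fderiv ℝ (fun x => hamV f (Φ s x)) x v) :=
      cparD (CF_field hf hF) x v
    exact (((omegaB (n + 1)).continuous.comp c3).clm_apply c2).add
      (((omegaB (n + 1)).continuous.comp c1).clm_apply c4)
  have hz : ∫ s in (0 : ℝ)..(2 * Real.pi), (omegaStd (hamV f (Φ s x)) (fderiv ℝ (Φ s) x v) +
        omegaStd (Φ s x) (fderiv ℝ (fun x => hamV f (Φ s x)) x v)) = 0 := by
    rw [intervalIntegral.integral_eq_sub_of_hasDerivAt (fun s _ => hderiv s)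
      (hcd.intervalIntegrable _ _)]
    have h1 : Φ (2 * Real.pi) = Φ 0 := by
      funext y
      have h2 := hF.per 0 y
      rwa [zero_add] at h2
    rw [h1, sub_self]
  rw [integral_Icc_eq_integral_Ioc, ← intervalIntegral.integral_of_le two_pi_pos'.le]
  have hpt : ∀ s, fderiv ℝ (gA f Φ s) x v =
      (omegaStd (hamV f (Φ s x)) (fderiv ℝ (Φ s) x v) +
        omegaStd (Φ s x) (fderiv ℝ (fun x => hamV f (Φ s x)) x v)) + 2 * fderiv ℝ f x v := by
    intro s
    rw [fderiv_gA hf hF, hen s]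
    have h1 : omegaStd (hamV f (Φ s x)) (fderiv ℝ (Φ s) x v) = -fderiv ℝ f x v := by
      rw [omegaStd_swap, hen s]
    rw [h1]
    ring
  simp only [hpt]
  rw [intervalIntegral.integral_add (hcd.intervalIntegrable _ _)
    (continuous_const.intervalIntegrable _ _), hz, intervalIntegral.integral_const]
  simp only [sub_zero, zero_add, smul_eq_mul]
  ring

theorem Act_sub_const (hf : Circ R f) (hF : Fl R f Φ) (x y : Phase (n + 1)) :
    Act f Φ x - 2 * (2 * Real.pi) * f x = Act f Φ y - 2 * (2 * Real.pi) * f y := by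
  have hd : ∀ x, HasFDerivAt (fun x => Act f Φ x - 2 * (2 * Real.pi) * f x)
      (fderiv ℝ (Act f Φ) x - (2 * (2 * Real.pi)) • fderiv ℝ f x) x := fun x =>
    (hasFDerivAt_Act hf hF x).differentiableAt.hasFDerivAt.sub
      ((hf.smooth.differentiable (by simp) x).hasFDerivAt.const_mul (2 * (2 * Real.pi)))
  refine is_const_of_fderiv_eq_zero (𝕜 := ℝ)
    (f := fun x => Act f Φ x - 2 * (2 * Real.pi) * f x) (fun x => (hd x).differentiableAt)
    (fun x => ?_) x y
  rw [(hd x).fderiv]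
  ext v
  show fderiv ℝ (Act f Φ) x v - (2 * (2 * Real.pi)) * fderiv ℝ f x v = 0
  rw [fderiv_Act hf hF, sub_self]

theorem hamV_std (hf : Circ R f) (p : Phase (n + 1)) (hp : R < ‖p‖) : hamV f p = hamV mu p := by
  have h1 : f =ᶠ[𝓝 p] mu := by
    filter_upwards [(isOpen_outside R).mem_nhds hp] with q hq
    exact hf.std q hq
  simp only [hamV]
  rw [h1.fderiv_eq]

theorem Act_std (hf : Circ R f) (hF : Fl R f Φ) (x : Phase (n + 1)) (hx : R < ‖x‖) :
    Act f Φ x = 2 * (2 * Real.pi) * f x := by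
  have h1 : ∀ s, gA f Φ s x = 2 * mu x := by
    intro s
    have h2 : R < ‖rot s x‖ := by rwa [norm_rot]
    rw [gA, hF.std s x hx, hamV_std hf _ h2, hamV_mu, omegaStd_zw]
    rw [zz_mkZ, wW_mkZ]
    have h3 : mu x = mu (rot s x) := (mu_rot s x).symm
    rw [h3, mu_eq, ← Complex.normSq_eq_norm_sq, Complex.normSq_apply]
    simp [omegaStd]
    ring
  simp only [Act, h1]
  rw [hf.std x hx]
  have h4 : (volume : Measure ℝ).real (Icc (0 : ℝ) (2 * Real.pi)) = 2 * Real.pi := by
    rw [Real.volume_real_Icc_of_le two_pi_pos'.le, sub_zero]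
  rw [setIntegral_const, h4, smul_eq_mul]
  ring

theorem Act_eq (hf : Circ R f) (hF : Fl R f Φ) (x : Phase (n + 1)) :
    Act f Φ x = 2 * (2 * Real.pi) * f x := by
  set y : Phase (n + 1) := (|R| + 1) • eY 0 with hy
  have hy1 : R < ‖y‖ := by
    rw [hy, norm_smul, norm_eY, mul_one, Real.norm_eq_abs]
    have h1 := le_abs_self R
    have h2 := le_abs_self (|R| + 1)
    linarith
  have h1 := Act_sub_const hf hF x y
  rw [Act_std hf hF y hy1, sub_self] at h1
  linarith

theorem zero_of_fixed (hf : Circ R f) (hF : Fl R f Φ) (x : Phase (n + 1))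
    (hx : ∀ s, Φ s x = x) : f x = 0 := by
  have h1 : hamV f x = 0 := by
    have h2 := hF.der 0 x
    have h3 : (fun s => Φ s x) = fun _ => x := funext hx
    rw [h3, hx 0] at h2
    exact h2.unique (hasDerivAt_const 0 x)
  have h4 : Act f Φ x = 0 := by
    have h5 : ∀ s, gA f Φ s x = 0 := by
      intro s
      rw [gA, hx s, h1]
      exact ((omegaB (n + 1)) x).map_zero
    simp only [Act, h5]
    simp
  have h6 := Act_eq hf hF x
  rw [h4] at h6
  have h7 : (2 * (2 * Real.pi)) ≠ 0 := (mul_pos two_pos two_pi_pos').ne'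
  exact (mul_eq_zero.1 h6.symm).resolve_left h7

theorem fixed_of_crit (hF : Fl R f Φ) (x : Phase (n + 1)) (hx : fderiv ℝ f x = 0) (s : ℝ) :
    Φ s x = x := by
  have h1 : hamV f x = 0 := by
    rw [hamV, hx, map_zero, neg_zero]
  exact (hF.uniq (fun _ => x) (fun s => by rw [h1]; exact hasDerivAt_const s x) s).symm

theorem mu_nonneg (p : Phase (n + 1)) : 0 ≤ mu p := by
  rw [mu_eq]
  positivity

theorem nonneg (hf : Circ R f) (hF : Fl R f Φ) (p : Phase (n + 1)) : 0 ≤ f p := by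
  by_contra hcon
  have hp : f p < 0 := lt_of_not_ge hcon
  have hin : ∀ x, f x < 0 → x ∈ Metric.closedBall (0 : Phase (n + 1)) R := by
    intro x hx
    by_contra hx'
    have h1 : R < ‖x‖ := by simpa using hx'
    have h2 := mu_nonneg x
    rw [← hf.std x h1] at h2
    linarith
  obtain ⟨q, hq, hmin⟩ := (isCompact_closedBall (0 : Phase (n + 1)) R).exists_isMinOn
    ⟨p, hin p hp⟩ hf.smooth.continuous.continuousOn
  have hqp : f q ≤ f p := hmin (hin p hp)
  have hglob : ∀ x, f q ≤ f x := by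
    intro x
    by_cases hx : f x < 0
    · exact hmin (hin x hx)
    · linarith
  have hcrit : fderiv ℝ f q = 0 := IsLocalMin.fderiv_eq_zero (Eventually.of_forall hglob)
  have h0 := zero_of_fixed hf hF q (fixed_of_crit hF q hcrit)
  linarith

end ACT

open ACT in
theorem thm_ACT : St_ACT := by
  intro n R f Φ hf hF
  have hcrit : ∀ p, f p = 0 → fderiv ℝ f p = 0 := fun p hp =>
    IsLocalMin.fderiv_eq_zero (Eventually.of_forall fun x => by
      rw [hp]
      exact nonneg hf hF x)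
  refine ⟨nonneg hf hF, fun p => ⟨hcrit p, fun h => ?_⟩, fun p => ⟨fun h s => ?_, fun h => ?_⟩⟩
  · exact zero_of_fixed hf hF p (fixed_of_crit hF p h)
  · exact fixed_of_crit hF p (hcrit p h) s
  · exact zero_of_fixed hf hF p h

end Pool.Agent.CRC
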