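import Pool.Agent.CRC.St
import Pool.Agent.CRC.Basic

/-!
# CRC AVG: the average of `rot (-s) ∘ Φ s` (helper68)
-/

set_option autoImplicit false

open scoped ContDiff Topology
open Set Function TopologicalSpace MeasureTheory

namespace Pool.Agent.CRC

open Pool.Agent.Helper17 Pool.Agent.Helper42 Pool.Agent.H50.Susp

namespace AVG

/-- the average -/
noncomputable def av {n : ℕ} (Φ : ℝ → Phase (n + 1) → Phase (n + 1)) (p : Phase (n + 1)) :
    Phase (n + 1) :=
  (2 * Real.pi)⁻¹ • ∫ s in Icc 0 (2 * Real.pi), rot (-s) (Φ s p)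
    ∂((volume : Measure ℝ).restrict (Icc 0 (2 * Real.pi)))

theorem av_eq {n : ℕ} (Φ : ℝ → Phase (n + 1) → Phase (n + 1)) (p : Phase (n + 1)) :
    av Φ p = (2 * Real.pi)⁻¹ • ∫ s in (0 : ℝ)..(2 * Real.pi), rot (-s) (Φ s p) := by
  unfold av
  rw [Measure.restrict_restrict_of_subset (Subset.refl _), integral_Icc_eq_integral_Ioc,
    ← intervalIntegral.integral_of_le Real.two_pi_pos.le]

theorem av_cf {n : ℕ} {T : Type} [TopologicalSpace T]
    (Φ : T → ℝ → Phase (n + 1) → Phase (n + 1)) (h : CF (fun (q : T × ℝ) p => Φ q.1 q.2 p)) :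
    CF (fun t p => av (Φ t) p) := by
  have h1 : CF (fun (q : T × ℝ) (p : Phase (n + 1)) => rot (-q.2) p) :=
    CF.base (T := ℝ) (h := fun q : T × ℝ => -q.2) continuous_snd.neg CF_rot
  have h2 : CF (fun (q : T × ℝ) (p : Phase (n + 1)) => rot (-q.2) (Φ q.1 q.2 p)) :=
    CF.comp h1 h
  have h3 := CF.setIntegral (S := Icc 0 (2 * Real.pi)) isCompact_Icc
    ((volume : Measure ℝ).restrict (Icc 0 (2 * Real.pi))) h2
  exact CF.smul (CF.param (c := fun _ : T => (2 * Real.pi)⁻¹) continuous_const) h3

theorem continuous_rot {n : ℕ} (p : ℝ → Phase (n + 1)) (hp : Continuous p) (c : ℝ → ℝ)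
    (hc : Continuous c) : Continuous fun s => rot (c s) (p s) := by
  have h : Continuous fun q : ℝ × Phase (n + 1) => rot q.1 q.2 := (CF_rot (n := n)).continuous
  have h2 : Continuous fun s : ℝ => ((c s, p s) : ℝ × Phase (n + 1)) := hc.prodMk hp
  have h3 := h.comp h2
  have h4 : ((fun q : ℝ × Phase (n + 1) => rot q.1 q.2) ∘
      fun s => ((c s, p s) : ℝ × Phase (n + 1))) = fun s => rot (c s) (p s) := by
    funext s
    rfl
  rw [h4] at h3
  exact h3

end AVG

open AVG

theorem thm_AVG : St_AVG := by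
  intro n T _ R f Φ hΦ hFl
  have hcont : ∀ t p, Continuous fun s => Φ t s p := by
    intro t p
    exact Continuous.comp (g := fun q : (T × ℝ) × Phase (n + 1) => Φ q.1.1 q.1.2 q.2)
      hΦ.continuous ((continuous_const.prodMk continuous_id).prodMk continuous_const)
  have hstd : ∀ t p, (∀ s, Φ t s p = rot s p) → av (Φ t) p = p := by
    intro t p h
    rw [av_eq]
    have h1 : ∀ s : ℝ, rot (-s) (Φ t s p) = p := by
      intro s
      rw [h, rot_neg_rot]
    simp only [h1]
    rw [intervalIntegral.integral_const, sub_zero, smul_smul,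
      inv_mul_cancel₀ Real.two_pi_pos.ne', one_smul]
  refine ⟨fun t => av (Φ t), av_cf Φ hΦ, fun t a p => ?_, fun t p hp => ?_, fun t ht p => ?_⟩
  · show av (Φ t) (Φ t a p) = rot a (av (Φ t) p)
    rw [av_eq, av_eq, ← rotL_apply a, map_smul]
    congr 1
    have h1 : ∀ s, rot (-s) (Φ t s (Φ t a p)) =
        (fun s => rot (a - s) (Φ t s p)) (s + a) := by
      intro s
      show _ = rot (a - (s + a)) (Φ t (s + a) p)
      rw [(hFl t).add, show a - (s + a) = -s by ring]
    have h2 : (∫ s in (0 : ℝ)..(2 * Real.pi), rot (-s) (Φ t s (Φ t a p))) =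
        ∫ s in a..(a + 2 * Real.pi), rot (a - s) (Φ t s p) := by
      simp only [h1]
      rw [intervalIntegral.integral_comp_add_right (fun s => rot (a - s) (Φ t s p)) a,
        zero_add, add_comm (2 * Real.pi) a]
    have h3 : Function.Periodic (fun s => rot (a - s) (Φ t s p)) (2 * Real.pi) := by
      intro s
      show rot (a - (s + 2 * Real.pi)) (Φ t (s + 2 * Real.pi) p) = rot (a - s) (Φ t s p)
      rw [(hFl t).per, ← rot_two_pi (a - (s + 2 * Real.pi)),
        show a - (s + 2 * Real.pi) + 2 * Real.pi = a - s by ring]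
    rw [h2, h3.intervalIntegral_add_eq a 0, zero_add,
      ← ContinuousLinearMap.intervalIntegral_comp_comm]
    · refine intervalIntegral.integral_congr fun s _ => ?_
      show rot (a - s) (Φ t s p) = rot a (rot (-s) (Φ t s p))
      rw [← rot_add, sub_eq_add_neg]
    · exact (continuous_rot _ (hcont t p) _ continuous_neg).intervalIntegrable _ _
  · exact hstd t p fun s => (hFl t).std s p hp
  · refine hstd t p fun s => ?_
    have h1 : f t = mu := funext ht
    have h2 := (hFl t).uniq (fun s => rot s p) (fun s => by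
      rw [h1]
      exact hasDerivAt_rot s p) s
    rw [rot_zero] at h2
    exact h2.symm

end Pool.Agent.CRC
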