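import Pool.Agent.CRC.St
import Pool.Agent.CRC.Basic

/-!
# CRC, module BRK: brackets (helper40)
-/

set_option autoImplicit false
set_option maxSynthPendingDepth 3

open scoped ContDiff Topology
open Set Function TopologicalSpace Filter

namespace Pool.Agent.CRC

open Pool.Agent.Helper17 Pool.Agent.Helper42 Pool.Agent.H50.Susp

namespace BRK

variable {N : ℕ}

/-- derivative of a function with `‖a‖ ^ 2 = 2 f` -/
lemma fderiv_half {f : Phase N → ℝ} {a : Phase N → ℂ} (ha : ContDiff ℝ ∞ a)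
    (h : ∀ p, ‖a p‖ ^ 2 = 2 * f p) (p v : Phase N) :
    fderiv ℝ f p v = (a p).re * fderiv ℝ (fun q => (a q).re) p v +
      (a p).im * fderiv ℝ (fun q => (a q).im) p v := by
  have hx : HasFDerivAt (fun q => (a q).re) (fderiv ℝ (fun q => (a q).re) p) p :=
    ((Complex.reCLM.contDiff.comp ha).differentiable (by simp) p).hasFDerivAt
  have hy : HasFDerivAt (fun q => (a q).im) (fderiv ℝ (fun q => (a q).im) p) p :=
    ((Complex.imCLM.contDiff.comp ha).differentiable (by simp) p).hasFDerivAt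
  have h3 := ((hx.mul hx).add (hy.mul hy)).mul_const (2 : ℝ)⁻¹
  have hf : f = fun q => ((a q).re * (a q).re + (a q).im * (a q).im) * (2 : ℝ)⁻¹ := by
    funext q
    have h4 := h q
    rw [Complex.sq_norm, Complex.normSq_apply] at h4
    linarith
  have h5 := h3.congr_of_eventuallyEq (Eventually.of_forall fun q => congrFun hf q)
  rw [h5.fderiv]
  simp only [smul_apply, add_apply, smul_eq_mul]
  ring

lemma pb_re {f : Phase N → ℝ} {a : Phase N → ℂ} (ha : ContDiff ℝ ∞ a)
    (h : ∀ p, ‖a p‖ ^ 2 = 2 * f p) (p : Phase N) :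
    pb f (fun q => (a q).re) p = -((a p).im * pb (fun q => (a q).re) (fun q => (a q).im) p) := by
  rw [pb_swap, pb, fderiv_half ha h, fderiv_hamV_self, pb]
  ring

lemma pb_im {f : Phase N → ℝ} {a : Phase N → ℂ} (ha : ContDiff ℝ ∞ a)
    (h : ∀ p, ‖a p‖ ^ 2 = 2 * f p) (p : Phase N) :
    pb f (fun q => (a q).im) p = (a p).re * pb (fun q => (a q).re) (fun q => (a q).im) p := by
  rw [pb_swap, pb, fderiv_half ha h, fderiv_hamV_self,
    pb_swap (fun q => (a q).re) (fun q => (a q).im), pb]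
  ring

lemma fderiv_cpx {a : Phase N → ℂ} (ha : ContDiff ℝ ∞ a) (p v : Phase N) :
    fderiv ℝ a p v = ⟨fderiv ℝ (fun q => (a q).re) p v, fderiv ℝ (fun q => (a q).im) p v⟩ := by
  have h := (ha.differentiable (by simp) p).hasFDerivAt
  have hx : HasFDerivAt (fun q => (a q).re) (Complex.reCLM.comp (fderiv ℝ a p)) p :=
    Complex.reCLM.hasFDerivAt.comp p h
  have hy : HasFDerivAt (fun q => (a q).im) (Complex.imCLM.comp (fderiv ℝ a p)) p :=
    Complex.imCLM.hasFDerivAt.comp p h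
  rw [hx.fderiv, hy.fderiv]
  rfl

lemma hasDerivAt_exp (c : ℂ) (s : ℝ) : HasDerivAt (fun s : ℝ => Complex.exp (s * c))
    (Complex.exp (s * c) * c) s := by
  have h2 : HasDerivAt (fun s : ℝ => (s : ℂ) * c) c s := by
    simpa using (Complex.ofRealCLM.hasDerivAt (x := s)).mul_const c
  exact h2.cexp

lemma one {n : ℕ} {R : ℝ} {f : Phase (n + 1) → ℝ} {Φ : ℝ → Phase (n + 1) → Phase (n + 1)}
    {a : Phase (n + 1) → ℂ} (hFl : Fl R f Φ) (ha : ContDiff ℝ ∞ a)
    (h : ∀ p, ‖a p‖ ^ 2 = 2 * f p)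
    (hw : ∀ s p, a (Φ s p) = Complex.exp (s * Complex.I) * a p) (p : Phase (n + 1))
    (hp : a p ≠ 0) : pb (fun q => (a q).re) (fun q => (a q).im) p = 1 := by
  have h1 : HasDerivAt (fun s => a (Φ s p)) (fderiv ℝ a (Φ 0 p) (hamV f (Φ 0 p))) 0 :=
    ((ha.differentiable (by simp) (Φ 0 p)).hasFDerivAt).comp_hasDerivAt 0 (hFl.der 0 p)
  have h2 : HasDerivAt (fun s : ℝ => a (Φ s p))
      (Complex.exp ((0 : ℝ) * Complex.I) * Complex.I * a p) 0 := by
    have h3 : (fun s : ℝ => a (Φ s p)) = fun s : ℝ => Complex.exp (s * Complex.I) * a p :=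
      funext fun s => hw s p
    rw [h3]
    exact (hasDerivAt_exp Complex.I 0).mul_const (a p)
  have h3 := h1.unique h2
  rw [hFl.zero, Complex.ofReal_zero, zero_mul, Complex.exp_zero, one_mul, fderiv_cpx ha] at h3
  have hr := congrArg Complex.re h3
  have hi := congrArg Complex.im h3
  simp only [Complex.mul_re, Complex.mul_im, Complex.I_re, Complex.I_im, zero_mul, one_mul,
    zero_sub, zero_add] at hr hi
  have h4 := pb_re ha h p
  have h5 := pb_im ha h p
  rw [pb, hr] at h4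
  rw [pb, hi] at h5
  by_cases hx : (a p).re = 0
  · have hy : (a p).im ≠ 0 := fun hy => hp (Complex.ext hx hy)
    have h6 : (a p).im * pb (fun q => (a q).re) (fun q => (a q).im) p = (a p).im * 1 := by
      linarith
    exact mul_left_cancel₀ hy h6
  · have h6 : (a p).re * pb (fun q => (a q).re) (fun q => (a q).im) p = (a p).re * 1 := by
      linarith
    exact mul_left_cancel₀ hx h6

lemma two {n : ℕ} {R R' : ℝ} {f : Phase (n + 1) → ℝ} {Φ : ℝ → Phase (n + 1) → Phase (n + 1)}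
    {a : Phase (n + 1) → ℂ} (hFl : Fl R f Φ) (ha : Ex R' a)
    (h : ∀ p, ‖a p‖ ^ 2 = 2 * f p) (s : ℝ) (p : Phase (n + 1)) :
    a (Φ s p) = Complex.exp (s * Complex.I) * a p := by
  have h0 : ∀ q, fderiv ℝ a q (hamV f q) = Complex.I * a q := by
    intro q
    have h4 := pb_re ha.smooth h q
    have h5 := pb_im ha.smooth h q
    rw [ha.br, mul_one] at h4 h5
    rw [fderiv_cpx ha.smooth]
    apply Complex.ext
    · simp only [Complex.mul_re, Complex.I_re, Complex.I_im, zero_mul, one_mul, zero_sub]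
      exact h4
    · simp only [Complex.mul_im, Complex.I_re, Complex.I_im, zero_mul, one_mul, zero_add]
      exact h5
  have h1 : ∀ s, HasDerivAt (fun s => a (Φ s p)) (Complex.I * a (Φ s p)) s := by
    intro s
    have := ((ha.smooth.differentiable (by simp) (Φ s p)).hasFDerivAt).comp_hasDerivAt s
      (hFl.der s p)
    rw [h0] at this
    exact this
  have h2 : ∀ s : ℝ, HasDerivAt (fun s : ℝ => Complex.exp (s * (-Complex.I)) * a (Φ s p)) 0 s := by
    intro s
    refine ((hasDerivAt_exp (-Complex.I) s).mul (h1 s)).congr_deriv ?_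
    ring
  have h3 := is_const_of_deriv_eq_zero (fun s => (h2 s).differentiableAt)
    (fun s => (h2 s).deriv) s 0
  simp only [Complex.ofReal_zero, zero_mul, Complex.exp_zero, one_mul, hFl.zero] at h3
  rw [← h3, ← mul_assoc, ← Complex.exp_add]
  simp

lemma three {n : ℕ} (R : ℝ) (φ : SympCt (n + 1))
    (hφ : ∀ p, R < ‖p‖ → (φ : Equiv.Perm (Phase (n + 1))) p = p) :
    Ex R (fun p => zz ((φ : Equiv.Perm (Phase (n + 1))) p)) := by
  refine ⟨contDiff_zz.comp φ.2.1, fun p hp => by rw [hφ p hp], fun p => ?_⟩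
  have h1 : hamV (fun q => (zz ((φ : Equiv.Perm (Phase (n + 1))) q)).re) p =
      fderiv ℝ (φ : Equiv.Perm (Phase (n + 1))).symm ((φ : Equiv.Perm (Phase (n + 1))) p) (eY 0) :=
    hamV_symp φ (fun _ => rfl) p
  have h2 : HasFDerivAt (fun q => (zz ((φ : Equiv.Perm (Phase (n + 1))) q)).im)
      ((coordL (Sum.inr 0)).comp (fderiv ℝ (φ : Equiv.Perm (Phase (n + 1))) p)) p :=
    (coordL (Sum.inr 0)).hasFDerivAt.comp p (SympCt.differentiable φ p).hasFDerivAt
  have h3 : (fderiv ℝ (φ : Equiv.Perm (Phase (n + 1))) p).comp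
      (fderiv ℝ (φ : Equiv.Perm (Phase (n + 1))).symm ((φ : Equiv.Perm (Phase (n + 1))) p)) =
      ContinuousLinearMap.id ℝ _ := by
    have h4 : HasFDerivAt (fun p => (φ : Equiv.Perm (Phase (n + 1)))
        ((φ : Equiv.Perm (Phase (n + 1))).symm p)) _ ((φ : Equiv.Perm (Phase (n + 1))) p) :=
      HasFDerivAt.comp _ (SympCt.differentiable φ _).hasFDerivAt
        (((SympCt.contDiff_symm φ).differentiable (by simp) _).hasFDerivAt)
    simp only [Equiv.apply_symm_apply, Equiv.symm_apply_apply] at h4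
    exact h4.unique (hasFDerivAt_id _)
  rw [pb, h2.fderiv, h1]
  have h5 := congrArg (fun L : Phase (n + 1) →L[ℝ] Phase (n + 1) => L (eY 0)) h3
  change coordL (Sum.inr 0) ((fderiv ℝ (φ : Equiv.Perm (Phase (n + 1))) p).comp
      (fderiv ℝ (φ : Equiv.Perm (Phase (n + 1))).symm ((φ : Equiv.Perm (Phase (n + 1))) p))
      (eY 0)) = 1
  rw [h3, ContinuousLinearMap.id_apply, coordL_apply, eY_inr]

lemma four {n : ℕ} (R : ℝ) (a : Phase (n + 1) → ℂ) (ha : Ex R a) : Dense {p | a p ≠ 0} := by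
  intro p
  by_contra hp
  have h1 : ∀ᶠ q in 𝓝 p, a q = 0 := by
    rw [mem_closure_iff_frequently, not_frequently] at hp
    filter_upwards [hp] with q hq
    by_contra h
    exact hq h
  have h2 : (fun q => (a q).im) =ᶠ[𝓝 p] fun _ => (0 : ℝ) := by
    filter_upwards [h1] with q hq
    rw [hq, Complex.zero_im]
  have h3 := ha.br p
  rw [pb, h2.fderiv_eq] at h3
  simp at h3

end BRK

theorem thm_BRK : St_BRK := fun _ =>
  ⟨fun _ _ _ _ hFl ha h hw p hp => BRK.one hFl ha h hw p hp,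
    fun _ _ _ _ _ hFl ha h s p => BRK.two hFl ha h s p, fun R φ h => BRK.three R φ h,
    fun R a ha => BRK.four R a ha⟩

end Pool.Agent.CRC
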