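import Pool.Agent.CRC.St

/-!
# CRC CLF: logarithms on convex sets (helper68)
-/

set_option autoImplicit false

open scoped ContDiff Topology
open Set Function

namespace Pool.Agent.CRC

namespace CLF

/-- convex sets are locally path connected -/
theorem locallyPathConnected {E : Type} [NormedAddCommGroup E] [NormedSpace ℝ E] {C : Set E}
    (hC : Convex ℝ C) : LocallyPathConnectedSpace C := by
  refine LocallyPathConnectedSpace.of_bases (fun x : C => Metric.nhds_basis_ball) ?_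
  intro x ε hε
  rw [Topology.IsInducing.subtypeVal.isPathConnected_iff]
  have h1 : (Subtype.val '' Metric.ball x ε : Set E) = C ∩ Metric.ball (x : E) ε := by
    ext y
    constructor
    · rintro ⟨z, hz, rfl⟩
      exact ⟨z.2, hz⟩
    · rintro ⟨hy, hy'⟩
      exact ⟨⟨y, hy⟩, hy', rfl⟩
  rw [h1]
  exact (hC.inter (convex_ball _ _)).isPathConnected ⟨x, x.2, Metric.mem_ball_self hε⟩

theorem lift {E : Type} [NormedAddCommGroup E] [NormedSpace ℝ E] (C : Set E) (g : E → ℂ)
    (hC : Convex ℝ C) (hg : ContinuousOn g C) (hn : ∀ x ∈ C, ‖g x‖ = 1) :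
    ∃ γ : E → ℝ, ContinuousOn γ C ∧ ∀ x ∈ C, g x = Complex.exp (γ x * Complex.I) := by
  classical
  rcases C.eq_empty_or_nonempty with rfl | ⟨x₀, hx₀⟩
  · exact ⟨fun _ => 0, continuousOn_empty _, fun x hx => absurd hx (notMem_empty x)⟩
  have _ : LocallyPathConnectedSpace C := locallyPathConnected hC
  have _ : ContractibleSpace C := hC.contractibleSpace ⟨x₀, hx₀⟩
  have _ : SimplyConnectedSpace C := inferInstance
  let f : C(C, Circle) := ⟨fun x => ⟨g x, mem_sphere_zero_iff_norm.2 (hn x x.2)⟩,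
    Continuous.subtype_mk (continuousOn_iff_continuous_domRestrict.1 hg) _⟩
  obtain ⟨F, ⟨-, hF⟩, -⟩ := Circle.isCoveringMap_exp.existsUnique_continuousMap_lifts f
    ⟨x₀, hx₀⟩ (Complex.arg (g x₀)) (by
      show Circle.exp (Complex.arg ((f ⟨x₀, hx₀⟩ : Circle) : ℂ)) = f ⟨x₀, hx₀⟩
      exact Circle.exp_arg _)
  refine ⟨fun x => if h : x ∈ C then F ⟨x, h⟩ else 0, ?_, fun x hx => ?_⟩
  · rw [continuousOn_iff_continuous_domRestrict]
    have h1 : C.domRestrict (fun x => if h : x ∈ C then F ⟨x, h⟩ else 0) = F := by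
      funext x
      show (if h : (x : E) ∈ C then F ⟨x, h⟩ else 0) = F x
      rw [dif_pos x.2]
    rw [h1]
    exact F.continuous
  · have h1 : Circle.exp (F ⟨x, hx⟩) = f ⟨x, hx⟩ := congrFun hF ⟨x, hx⟩
    have h2 : ((Circle.exp (F ⟨x, hx⟩) : Circle) : ℂ) = g x := by
      rw [h1]
      rfl
    rw [Circle.coe_exp] at h2
    show g x = Complex.exp (((if h : x ∈ C then F ⟨x, h⟩ else 0 : ℝ) : ℂ) * Complex.I)
    rw [dif_pos hx, h2]

theorem smooth {E : Type} [NormedAddCommGroup E] [NormedSpace ℝ E] (C : Set E) (g : E → ℂ)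
    (γ : E → ℝ) (hC : IsOpen C) (hg : ContDiffOn ℝ ∞ g C) (hγ : ContinuousOn γ C)
    (h : ∀ x ∈ C, g x = Complex.exp (γ x * Complex.I)) : ContDiffOn ℝ ∞ γ C := by
  intro x₀ hx₀
  refine ContDiffAt.contDiffWithinAt ?_
  have hgx : ContDiffAt ℝ ∞ g x₀ := hg.contDiffAt (hC.mem_nhds hx₀)
  have hγx : ContinuousAt γ x₀ := hγ.continuousAt (hC.mem_nhds hx₀)
  have h0 : g x₀ ≠ 0 := by
    rw [h x₀ hx₀]
    exact Complex.exp_ne_zero _
  have h1 : ContDiffAt ℝ ∞ (fun x => γ x₀ + (Complex.log (g x / g x₀)).im) x₀ := by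
    have h2 : ContDiffAt ℝ ∞ (fun x => g x / g x₀) x₀ := hgx.div_const _
    have h3 : ContDiffAt ℝ ∞ Complex.log (g x₀ / g x₀) := by
      refine (Complex.contDiffAt_log ?_).restrict_scalars ℝ
      rw [div_self h0]
      exact Complex.one_mem_slitPlane
    have h4 : ContDiffAt ℝ ∞ (fun x => Complex.log (g x / g x₀)) x₀ :=
      ContDiffAt.comp (g := Complex.log) (f := fun x => g x / g x₀) x₀ h3 h2
    exact contDiffAt_const.add (Complex.imCLM.contDiff.contDiffAt.comp x₀ h4)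
  refine h1.congr_of_eventuallyEq ?_
  have h2 : ∀ᶠ x in 𝓝 x₀, |γ x - γ x₀| < Real.pi := by
    have h3 : ContinuousAt (fun x => |γ x - γ x₀|) x₀ :=
      (hγx.sub continuousAt_const).abs
    have h4 : (fun x => |γ x - γ x₀|) x₀ < Real.pi := by
      simp [Real.pi_pos]
    exact h3.eventually_lt continuousAt_const h4
  filter_upwards [h2, hC.mem_nhds hx₀] with x hx hxC
  rw [abs_lt] at hx
  have h3 : g x / g x₀ = Complex.exp (((γ x - γ x₀ : ℝ) : ℂ) * Complex.I) := by
    rw [h x hxC, h x₀ hx₀, ← Complex.exp_sub]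
    congr 1
    push_cast
    ring
  have h4 : Complex.log (g x / g x₀) = ((γ x - γ x₀ : ℝ) : ℂ) * Complex.I := by
    rw [h3]
    refine Complex.log_exp ?_ ?_
    · simp
      linarith
    · simp
      linarith
  rw [h4]
  simp

end CLF

theorem thm_CLF : St_CLF := by
  intro E _ _
  exact ⟨fun C g hC hg hn => CLF.lift C g hC hg hn,
    fun C g γ hC hg hγ h => CLF.smooth C g γ hC hg hγ h⟩

end Pool.Agent.CRC
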