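import Pool.Agent.CRC.Fam

/-!
# CRC: statements of the modules

Circle theorem for MP_ec5dc5_gt (architect helper16); paper: HUNT_ec5dc5_circle_helper16.md in the
team store. Every `def St_X : Prop` is one module `Pool/Agent/CRC/X.lean` with
`theorem thm_X (h.. : St_..) : St_X` in the namespace `Pool.Agent.CRC`; the hypotheses may be any of
the statements listed after `needs`. `Pool/Agent/CRC/Basic.lean` has lemmas on `zz`, `mkZ`, `wW`,
`rot`, `mu`, `pb`. Families: `CF F` for `F : T → E → E'` (all derivatives in `E` jointly continuous),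
see `Pool/Agent/Helper17/CFamily.lean`, `CFInt.lean` (`CF.setIntegral`), `SympFamily.lean`
(`mkSymp`, `continuous_of_CF`, `CF_of_continuous`), `Pool/Agent/H50/Susp/{GFlow,Straighten}.lean`
(`exists_global_flow`, `CF.of_local`, `exists_bound_of_support`),
`Pool/Agent/Helper42/Susp/CFInverse.lean` (`exists_CF_inverse`).
-/

set_option autoImplicit false

open scoped ContDiff Topology
open Set Function TopologicalSpace

namespace Pool.Agent.CRC

open Pool.Agent.Helper17 Pool.Agent.Helper42 Pool.Agent.H50.Susp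

/-! ## Part G: groups, flows, exact pairs -/

/-- **FLW** (3 h). Flows of circle Hamiltonians. `exists_global_flow` for `X t p = hamV (f t) p` (the
derivative is bounded: outside the ball it is the derivative of the linear field `hamV mu`, on
the ball by compactness; model: `exists_straightFam` in `H50/Susp/Straighten.lean`). `per`: the
orbits are Hamiltonian orbits, so periodic. `symp`: the proof of `hsymp` in `exists_straightFam`
(`fderiv_hamV_symm`). `cons`: `fderiv_hamV_self`. `std`: for `R < ‖p‖` the curve `s ↦ rot s p` stays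
outside the ball, where `hamV (f t) = hamV mu` (uniqueness `ode_unique_univ`). `ball`: otherwise
`Φ s p` is outside, and `p = Φ (-s) (Φ s p) = rot (-s) (..)` is outside. `cf`, and the family on `T × ℝ`:
`CF` on `T × Icc (-M) M` for all `M` (a local statement in the parameter; with periodicity
`s ∈ Icc (-M) M` is enough; write `CF` near `s₀` with a clamp of `s`). needs: nothing -/
def St_FLW : Prop := ∀ (n : ℕ) (T : Type) [TopologicalSpace T] [CompactSpace T] (R : ℝ)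
  (f : T → Phase (n + 1) → ℝ), CF f → (∀ t, Circ R (f t)) →
  ∃ Φ : T → ℝ → Phase (n + 1) → Phase (n + 1),
    CF (fun (q : T × ℝ) p => Φ q.1 q.2 p) ∧ ∀ t, Fl R (f t) (Φ t)

/-- **MOM** (1.5 h). For `φ` symplectic the Hamiltonian orbits of `mu ∘ φ` are the preimages of the
orbits of `mu` (chain rule and `omegaStd_hamV`), so they are `c s = φ⁻¹ (rot s (φ (c 0)))` and have
period `2 π`; conversely these curves are orbits. needs: nothing -/
def St_MOM : Prop := ∀ (n : ℕ) (φ : SympCt (n + 1)) (c : ℝ → Phase (n + 1)),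
  ((∀ s, HasDerivAt c (hamV (fun p => mu ((φ : Equiv.Perm (Phase (n + 1))) p)) (c s)) s) ↔
    ∀ s, c s = (φ : Equiv.Perm (Phase (n + 1))).symm
      (rot s ((φ : Equiv.Perm (Phase (n + 1))) (c 0))))

/-- **TOP** (1.5 h). Continuous maps to `CircHam n` and families: copies of
`continuous_nt_of_CF` and `CF_of_continuous_nt` in `Pool/Agent/Helper42/NT/Top.lean` (the whole file
with `stdX` replaced by `mu`). needs: nothing -/
def St_TOP : Prop := ∀ n : ℕ,
  (∀ (T : Type) [TopologicalSpace T] (F : T → Phase (n + 1) → ℝ) (K : Compacts (Phase (n + 1)))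
    (g : T → CircHam n), CF F → (∀ t, ∀ x ∉ K, F t x = mu x) → (∀ t x, (g t).1 x = F t x) →
    Continuous g) ∧
  (∀ (T : Type) [TopologicalSpace T] [CompactSpace T] (f : T → CircHam n), Continuous f →
    CF (fun t x => (f t).1 x) ∧
      ∃ K : Compacts (Phase (n + 1)), ∀ t, ∀ x ∉ K, (f t).1 x = mu x)

/-- **MUC** (2 h). The continuous map `φ ↦ |z_0 ∘ φ| ^ 2 / 2`. It is enough to show continuity on every
`SympSupp (n + 1) K` (direct limit, `continuous_iSup_dom`, `continuous_coinduced_dom`; model: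
`continuous_pr` in `Helper42/NT/Pair.lean` or `continuous_pairMap` with `CF_supp` in
`Helper42/Susp/PairMap.lean`); there `CF` and `St_TOP` (1). needs: MOM, TOP -/
def St_MUC : Prop := ∀ n : ℕ, ∃ q : C(SympCt (n + 1), CircHam n),
  ∀ φ p, (q φ).1 p = mu ((φ : Equiv.Perm (Phase (n + 1))) p)

/-- **UNI** (1.5 h). `χ = φ ψ⁻¹` preserves `z_0`: `χ (z, w) = (z, χ_z w)`; it commutes with the flows
of `x_0` and `y_0` (translations in `y_0`, `x_0`; same argument as for `MOM`, or: `χ` symplectic gives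
`D χ (eY 0) = eY 0`, `D χ (eX 0) = eX 0` as `D χ` preserves `omegaStd` and the functionals `x_0`, `y_0`), so
`χ (p + a • eX 0) = χ p + a • eX 0`, and this is `p + a • eX 0` for large `a`. needs: nothing -/
def St_UNI : Prop := ∀ (n : ℕ) (φ ψ : SympCt (n + 1)),
  (∀ p, zz ((φ : Equiv.Perm (Phase (n + 1))) p) = zz ((ψ : Equiv.Perm (Phase (n + 1))) p)) → φ = ψ

/-- **EXA** (3 h). The invariant coordinates of an exact pair `a = x + i y`. `θ` is the flow of
`hamV x` (`exists_global_flow`; outside the ball it is the translation `∂/∂y_0`), `a (θ σ p) = a p + i σ`.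
Choose `C` with `|a| < C` on the ball of radius `R`, and `L` large. For `Im a(p) > C - L` put
`w p := wW (θ_L p)`: `θ_L p` has `Im a > C`, so it is outside the ball, where `θ` is a translation; so `w` is
invariant under `θ_σ` there. It is also invariant under the flow of `hamV y`: `θ_L` is symplectic and
`y ∘ θ_L = y + L`, so `D θ_L (hamV y) = hamV y`, which is `-∂/∂x_0` at `θ_L p`. For `|z_0 p| > C` (and
`Im a(p) > C - L`) or `‖wW p‖ > R`: `w p = wW p` (the region `{|z| > C, Im z > C - L}` is connected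
by segments in the directions `x_0`, `y_0`). For `L` large the two descriptions glue to `w` on all of
`Phase (n + 1)` with `w = wW` outside a ball of radius `R'` (`CF.of_local`). needs: nothing -/
def St_EXA : Prop := ∀ (n : ℕ) (T : Type) [TopologicalSpace T] [CompactSpace T] (R : ℝ)
  (a : T → Phase (n + 1) → ℂ), CF a → (∀ t, Ex R (a t)) →
  ∃ (R' : ℝ) (w : T → Phase (n + 1) → Phase n) (θ : T → ℝ → Phase (n + 1) → Phase (n + 1)),
    R ≤ R' ∧ CF w ∧ (∀ t p, R' < ‖p‖ → w t p = wW n p) ∧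
    (∀ t p, fderiv ℝ (w t) p (hamV (fun q => (a t q).re) p) = 0) ∧
    (∀ t p, fderiv ℝ (w t) p (hamV (fun q => (a t q).im) p) = 0) ∧
    (∀ t σ, ContDiff ℝ ∞ (θ t σ)) ∧
    (∀ t σ p u v, omegaStd (fderiv ℝ (θ t σ) p u) (fderiv ℝ (θ t σ) p v) = omegaStd u v) ∧
    (∀ t σ p, a t (θ t σ p) = a t p + (σ : ℂ) * Complex.I) ∧
    (∀ t σ p, w t (θ t σ p) = w t p) ∧
    ∀ t p, ∃ σ, R' < ‖θ t σ p‖

/-- **EXR** (2 h). Exact pairs are coordinates of symplectomorphisms: `φ t p = mkZ (a t p) (w t p)`,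
the identity for `R' < ‖p‖`, `φ (θ_σ p) = φ p + σ • eY 0`. Symplectic: for `Ω = φ^* ω - ω` one has
`θ_σ^* Ω = Ω`, and `Ω = 0` near `θ_σ p` for a suitable `σ` (`φ = id` near a point with `R' < ‖·‖`). (So the
two equations on `fderiv (w t)` in `St_EXA` are not even needed.) `mkSymp`, `continuous_of_CF`.
needs: EXA -/
def St_EXR : Prop := ∀ (n : ℕ) (T : Type) [TopologicalSpace T] [CompactSpace T] (R : ℝ)
  (a : T → Phase (n + 1) → ℂ), CF a → (∀ t, Ex R (a t)) →
  ∃ φ : T → SympCt (n + 1), Continuous φ ∧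
    ∀ t p, zz ((φ t : Equiv.Perm (Phase (n + 1))) p) = a t p

/-- **BRK** (1.5 h). Brackets. (1) `a` of weight one with `|a| ^ 2 = 2 f`: differentiate
`a (Φ s p) = e^{is} a(p)` at `s = 0`: `{f, a} = i a`; and `f = (x^2 + y^2)/2` gives
`{f, x} = - y {x, y}`, `{f, y} = x {x, y}`. (2) for an exact pair `{f, a} = i a`, so `a (c s) = e^{is} a(c 0)`
along orbits. (3) the coordinate `z_0 ∘ φ` of a symplectomorphism is an exact pair. (4) an exact
pair is a submersion, so `{a ≠ 0}` is dense. needs: nothing -/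
def St_BRK : Prop := ∀ n : ℕ,
  (∀ (R : ℝ) (f : Phase (n + 1) → ℝ) (Φ : ℝ → Phase (n + 1) → Phase (n + 1))
    (a : Phase (n + 1) → ℂ), Fl R f Φ → ContDiff ℝ ∞ a → (∀ p, ‖a p‖ ^ 2 = 2 * f p) →
    (∀ s p, a (Φ s p) = Complex.exp (s * Complex.I) * a p) →
    ∀ p, a p ≠ 0 → pb (fun q => (a q).re) (fun q => (a q).im) p = 1) ∧
  (∀ (R R' : ℝ) (f : Phase (n + 1) → ℝ) (Φ : ℝ → Phase (n + 1) → Phase (n + 1))
    (a : Phase (n + 1) → ℂ), Fl R f Φ → Ex R' a → (∀ p, ‖a p‖ ^ 2 = 2 * f p) →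
    ∀ s p, a (Φ s p) = Complex.exp (s * Complex.I) * a p) ∧
  (∀ (R : ℝ) (φ : SympCt (n + 1)), (∀ p, R < ‖p‖ → (φ : Equiv.Perm (Phase (n + 1))) p = p) →
    Ex R (fun p => zz ((φ : Equiv.Perm (Phase (n + 1))) p))) ∧
  (∀ (R : ℝ) (a : Phase (n + 1) → ℂ), Ex R a → Dense {p | a p ≠ 0})

/-- **EXP** (1.5 h). Change of the phase of an exact pair: with `f = |a| ^ 2 / 2` and `b = a e^{iη}`,
`{f, b} = (i a + i a {f, η}) e^{iη}`. If `{f, η} = 0` this is `i b` and `|b| ^ 2 = 2 f` gives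
`i b {Re b, Im b} = i b`, so the bracket is `1` where `a ≠ 0`, a dense set (`St_BRK` (4)). Conversely
`{f, b} = i b` gives `{f, η} = 0` where `a ≠ 0`. needs: BRK -/
def St_EXP : Prop := ∀ (n : ℕ) (R : ℝ) (f : Phase (n + 1) → ℝ) (a : Phase (n + 1) → ℂ)
  (η : Phase (n + 1) → ℝ), Ex R a → (∀ p, ‖a p‖ ^ 2 = 2 * f p) → ContDiff ℝ ∞ η →
  (∀ p, R < ‖p‖ → η p = 0) →
  (Ex R (fun p => a p * Complex.exp (η p * Complex.I)) ↔ ∀ p, pb f η p = 0)

/-! ## Part L: logarithms, division, local lifts -/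

/-- **DIV** (3 h). Division by `z` in families, with explicit formulas. (1) weight one:
`B (z, w) = 2 ∫₀¹ τ (∂_z b)(τ z, w) dτ`, `∂_z = (∂_x - i ∂_y)/2`: along the ray, `β(r) = r b(r z, w)/z`..; direct
check: weight one gives `z ∂_z b - z̄ ∂_z̄ b = b`, so `d/dτ (τ b(τ z, w)) = 2 τ z (∂_z b)(τ z, w)`, integrate over
`[0,1]`. (2) invariant, zero at `z = 0`: `k (z, w) = ∫₀¹ ∫₀¹ σ τ (Δ_z h)(σ τ z, w) dσ dτ` with the Laplacian
`Δ_z = ∂_x² + ∂_y²` (invariance: `r ∂_r (r ∂_r h) = r² Δ_z h`); or apply (1) to the function `∂_x h - i ∂_y h`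
composed with conjugation / use `∂_x h + i ∂_y h` (weight one): it is `z B`, `B` real, and
`h (z, w) = ∫₀¹ |z|² τ B (τ z, w) dτ`. `CF.setIntegral`. The weights of `B`, `k`: clear for `z ≠ 0`, by
continuity for `z = 0`. needs: nothing -/
def St_DIV : Prop := ∀ (T W : Type) [TopologicalSpace T] [NormedAddCommGroup W] [NormedSpace ℝ W],
  (∀ b : T → ℂ × W → ℂ, CF b →
    (∀ (t : T) (s : ℝ) (z : ℂ) (w : W),
      b t (Complex.exp (s * Complex.I) * z, w) = Complex.exp (s * Complex.I) * b t (z, w)) →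
    ∃ B : T → ℂ × W → ℂ, CF B ∧ (∀ t z w, b t (z, w) = z * B t (z, w)) ∧
      ∀ (t : T) (s : ℝ) (z : ℂ) (w : W), B t (Complex.exp (s * Complex.I) * z, w) = B t (z, w)) ∧
  (∀ h : T → ℂ × W → ℝ, CF h →
    (∀ (t : T) (s : ℝ) (z : ℂ) (w : W), h t (Complex.exp (s * Complex.I) * z, w) = h t (z, w)) →
    (∀ t w, h t (0, w) = 0) →
    ∃ k : T → ℂ × W → ℝ, CF k ∧ (∀ t z w, h t (z, w) = ‖z‖ ^ 2 * k t (z, w)) ∧
      ∀ (t : T) (s : ℝ) (z : ℂ) (w : W), k t (Complex.exp (s * Complex.I) * z, w) = k t (z, w))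

/-- **CLF** (2 h). Logarithms on convex sets. (1) continuous lift: `Circle.exp : ℝ → Circle` is a
covering map and a convex set is simply connected and locally path connected
(`IsCoveringMap.existsUnique_continuousMap_lifts` or similar; convex sets: `Convex` →
`ContractibleSpace`, locally path connected from the balls), or by hand: on a convex set `C` with a
point `x₀ ∈ C` lift the paths `τ ↦ g (x₀ + τ (x - x₀))`. (2) a continuous logarithm of a smooth
function on an open set is smooth (locally `Complex.log (g x / g x₀)`). needs: nothing -/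
def St_CLF : Prop := ∀ (E : Type) [NormedAddCommGroup E] [NormedSpace ℝ E],
  (∀ (C : Set E) (g : E → ℂ), Convex ℝ C → ContinuousOn g C → (∀ x ∈ C, ‖g x‖ = 1) →
    ∃ γ : E → ℝ, ContinuousOn γ C ∧ ∀ x ∈ C, g x = Complex.exp (γ x * Complex.I)) ∧
  (∀ (C : Set E) (g : E → ℂ) (γ : E → ℝ), IsOpen C → ContDiffOn ℝ ∞ g C → ContinuousOn γ C →
    (∀ x ∈ C, g x = Complex.exp (γ x * Complex.I)) → ContDiffOn ℝ ∞ γ C)

/-- **LOG** (2 h). Compactly supported logarithms in families. (1) with a point `P`, `‖P‖ > R`, and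
`θ_x(v) = Im (conj B(x) · D B(x) v)` put `η(p) = ∫₀¹ (θ_{τ p}(p) - θ_{τ P}(P)) dτ`: then `e^{iη(p)} = B(p)/B(P)`
(ODE for `B (τ p)`), `CF` by `CF.setIntegral`; outside the ball `η` is continuous with values in
`2 π ℤ`, `η(P) = 0`, and the complement of the ball is connected (dimension `2 N + 2 ≥ 2`). (2) the
difference is continuous with values in `2 π ℤ`, zero far away. needs: nothing -/
def St_LOG : Prop := ∀ (N : ℕ) (R : ℝ),
  (∀ (T : Type) [TopologicalSpace T] (B : T → Phase (N + 1) → ℂ), CF B → (∀ t p, ‖B t p‖ = 1) →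
    (∀ t p, R < ‖p‖ → B t p = 1) →
    ∃ η : T → Phase (N + 1) → ℝ, CF η ∧ (∀ t p, R < ‖p‖ → η t p = 0) ∧
      ∀ t p, B t p = Complex.exp (η t p * Complex.I)) ∧
  (∀ η η' : Phase (N + 1) → ℝ, Continuous η → Continuous η' → (∀ p, R < ‖p‖ → η p = 0) →
    (∀ p, R < ‖p‖ → η' p = 0) →
    (∀ p, Complex.exp (η p * Complex.I) = Complex.exp (η' p * Complex.I)) → η = η')

/-- **FIB** (2 h). Exact pairs with the same modulus differ by a phase. (1) `a t = z_0 ∘ φ t` (`St_EXR`),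
`b' = b ∘ φ⁻¹` is of weight one for `rot` (`St_BRK` (2) for `b` and `f = |a| ^ 2 / 2 = mu ∘ φ`, whose flow is
`φ⁻¹ rot φ` by `St_MOM`; the flow of `f t` exists: it is `Fl` directly, or use `St_FLW`), `St_DIV` (1) with
`W = Phase n`: `b' = z_0 B`, `|B| = 1` (where `z_0 ≠ 0`, dense), `B = 1` far away; `B ∘ φ` is `1` for
`R < ‖p‖` (where `a ≠ 0`, by continuity everywhere); `St_LOG` (1). (2) `a ≠ 0` on a dense set, `St_LOG` (2).
needs: EXR, BRK, MOM, DIV, LOG, FLW -/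
def St_FIB : Prop := ∀ (n : ℕ) (R : ℝ),
  (∀ (T : Type) [TopologicalSpace T] [CompactSpace T] (a b : T → Phase (n + 1) → ℂ), CF a → CF b →
    (∀ t, Ex R (a t)) → (∀ t, Ex R (b t)) → (∀ t p, ‖a t p‖ = ‖b t p‖) →
    ∃ η : T → Phase (n + 1) → ℝ, CF η ∧ (∀ t p, R < ‖p‖ → η t p = 0) ∧
      ∀ t p, b t p = a t p * Complex.exp (η t p * Complex.I)) ∧
  (∀ (a : Phase (n + 1) → ℂ) (η η' : Phase (n + 1) → ℝ), Ex R a → Continuous η → Continuous η' →
    (∀ p, R < ‖p‖ → η p = 0) → (∀ p, R < ‖p‖ → η' p = 0) →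
    (∀ p, a p * Complex.exp (η p * Complex.I) = a p * Complex.exp (η' p * Complex.I)) → η = η')

/-- **AVG** (1.5 h). `A t p = (2 π)⁻¹ ∫_0^{2π} rot (-s) (Φ t s p) ds`; `CF` by `CF.setIntegral` (parameter
space `T × ℝ`), equivariance by a substitution and periodicity; for `R < ‖p‖` and for `f t = mu` the
integrand is `p` (`Fl.std`, `Fl.uniq`). needs: nothing -/
def St_AVG : Prop := ∀ (n : ℕ) (T : Type) [TopologicalSpace T] (R : ℝ)
  (f : T → Phase (n + 1) → ℝ) (Φ : T → ℝ → Phase (n + 1) → Phase (n + 1)),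
  CF (fun (q : T × ℝ) p => Φ q.1 q.2 p) → (∀ t, Fl R (f t) (Φ t)) →
  ∃ A : T → Phase (n + 1) → Phase (n + 1), CF A ∧ (∀ t s p, A t (Φ t s p) = rot s (A t p)) ∧
    (∀ t p, R < ‖p‖ → A t p = p) ∧ ∀ t, (∀ p, f t p = mu p) → ∀ p, A t p = p

/-- **LOC** (3 h). Local section near `mu`. `Φ` from `St_FLW`, `A` from `St_AVG`. On a closed neighbourhood
`C` of `t₀` (tube lemma on the ball): `‖fderiv (A t) p - id‖ < 1/2`, so `exists_CF_inverse` (parameter space
`C`) gives the inverses `G t`. `F t = f t ∘ G t` is invariant under `rot`, `F = mu` far away; for `z_0 p = 0`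
`G t p` is a fixed point of `Φ t`, so critical; so `F` is constant on `{z_0 = 0}` (connected, derivative
zero), `0` at infinity (`n = 0`: the point `0`; `{z_0 = 0}` is a point and `F t 0 = 0` must come from
elsewhere: use `St_ACT`: `f = 0` at fixed points; use it in general). `St_DIV` (2) in the coordinates
`(zz p, wW p)`: `F = |z|^2 k`, `k = 1/2` for `t = t₀` and far away, so (tube lemma, smaller `C`) `k > 0`.
`a t p = (zz · √(2 k t)) (A t p)`: `CF`, weight one, `|a|^2 = 2 f`, standard far away; `Ex` by `St_BRK` (1) and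
density of `{zz (A t p) ≠ 0}`. needs: FLW, AVG, ACT, DIV, BRK -/
def St_LOC : Prop := ∀ (n : ℕ) (T : Type) [TopologicalSpace T] [CompactSpace T] [T2Space T]
  (R : ℝ) (f : T → Phase (n + 1) → ℝ) (t₀ : T), CF f → (∀ t, Circ R (f t)) →
  (∀ p, f t₀ p = mu p) →
  ∃ C : Set T, IsClosed C ∧ t₀ ∈ interior C ∧ ∃ a : C → Phase (n + 1) → ℂ, CF a ∧
    (∀ t, Ex R (a t)) ∧ ∀ (t : C) (p : Phase (n + 1)), ‖a t p‖ ^ 2 = 2 * f t p

/-- **LO2** (1 h). Local lifts everywhere: `f' t = f t ∘ φ⁻¹` for `f t₀ = mu ∘ φ` (`f'` is `Circ R'` for some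
`R'`: transport of orbits as in `St_MOM`), `St_LOC` for `f'`, and `a t = a' t ∘ φ`. needs: LOC, MOM, BRK -/
def St_LO2 : Prop := ∀ (n : ℕ) (T : Type) [TopologicalSpace T] [CompactSpace T] [T2Space T]
  (R : ℝ) (f : T → Phase (n + 1) → ℝ) (t₀ : T) (φ : SympCt (n + 1)), CF f →
  (∀ t, Circ R (f t)) → (∀ p, f t₀ p = mu ((φ : Equiv.Perm (Phase (n + 1))) p)) →
  ∃ (C : Set T) (R' : ℝ), IsClosed C ∧ t₀ ∈ interior C ∧ ∃ a : C → Phase (n + 1) → ℂ, CF a ∧
    (∀ t, Ex R' (a t)) ∧ ∀ (t : C) (p : Phase (n + 1)), ‖a t p‖ ^ 2 = 2 * f t p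

/-- **LIF** (3 h). Gluing of local lifts over a finite closed cover. Partition of unity `κ` subordinate
to the interiors (`BumpCovering`/`PartitionOfUnity` for the normal space `T`, finite index). For `j`, `l`
the families `a j`, `a l` over the compact space `C j ∩ C l` differ by `η^{jl}` (`St_FIB` (1)),
`{f, η^{jl}} = 0` (`St_EXP`), cocycle by `St_FIB` (2). `A t = a j t · exp (i ∑_l κ_l(t) η^{jl}_t)` for `t ∈ C j`
(terms with `κ_l(t) = 0` are `0`) is independent of `j`; exact by `St_EXP`; `CF`: local in `t` (a family is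
`CF` if it is so over the members of an open cover of `T`). Same proof for `A t = a j t` if no other
`C l` contains `t`. needs: FIB, EXP -/
def St_LIF : Prop := ∀ (n : ℕ) (T : Type) [TopologicalSpace T] [CompactSpace T] [T2Space T]
  (R : ℝ) (f : T → Phase (n + 1) → ℝ) (ι : Type) [Finite ι] (C : ι → Set T)
  (a : ∀ j, C j → Phase (n + 1) → ℂ), (∀ j, IsClosed (C j)) → (∀ t, ∃ j, t ∈ interior (C j)) →
  (∀ j, CF (a j)) → (∀ j t, Ex R (a j t)) →
  (∀ j (t : C j) (p : Phase (n + 1)), ‖a j t p‖ ^ 2 = 2 * f t p) → CF f →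
  ∃ A : T → Phase (n + 1) → ℂ, CF A ∧ (∀ t, Ex R (A t)) ∧ (∀ t p, ‖A t p‖ ^ 2 = 2 * f t p) ∧
    ∀ (t : T) (j : ι) (ht : t ∈ C j), (∀ l, t ∈ C l → l = j) → ∀ p, A t p = a j ⟨t, ht⟩ p

/-- **ONT** (1.5 h). Every circle Hamiltonian is `|z_0 ∘ φ| ^ 2 / 2`. `St_FLW` with `T = Unit`, `St_UFN`,
`St_GLU` (see part T); `{f > 0}` is dense (`St_SLC`: near a zero there are points with `α ≠ 0`); `Ex` by
`St_BRK` (1) and density; `St_EXR`; `f = |a| ^ 2 / 2 = mu ∘ φ`.
needs: FLW, ACT, UFN, SLC, GLU, BRK, EXR -/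
def St_ONT : Prop := ∀ (n : ℕ) (R : ℝ) (f : Phase (n + 1) → ℝ), Circ R f →
  ∃ φ : SympCt (n + 1), ∀ p, f p = mu ((φ : Equiv.Perm (Phase (n + 1))) p)

/-- **LFA** (2 h). The lifting property. Families and `R`: `St_TOP` (2) (`Circ R (f t)` from the data in
`CircHam`). For `t ∈ T₀` use `N` with `a = z_0 ∘ g` (`CF_of_continuous` for the compact space `N`, `St_BRK` (3));
for `t ∉ T₀` a closed neighbourhood from `St_LO2`, `St_ONT`, intersected with a closed neighbourhood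
of `t` disjoint from `T₀`. Finite subcover, a common `R`, `St_LIF`; then `St_EXR`, and `St_UNI` on `T₀`.
needs: TOP, LO2, LIF, EXR, UNI, BRK, ONT -/
def St_LFA : Prop := ∀ (n : ℕ) (q : C(SympCt (n + 1), CircHam n)),
  (∀ φ p, (q φ).1 p = mu ((φ : Equiv.Perm (Phase (n + 1))) p)) → LiftP q

/-- **HGP** (3 h). A continuous map with the lifting property is surjective and bijective on homotopy
groups. Surjective on `π_k`: `f ∘ clamp` with `clamp : I^k → I^k` (every coordinate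
`t ↦ projIcc (3 t - 1)`) is homotopic to `f` rel boundary and constant on the closed neighbourhood
`N = {∃ i, t_i ≤ 1/4 ∨ 3/4 ≤ t_i}` of the boundary `T₀`; lift with `g = x` on `N`. Injective: `T = I × I^k`
(homotopy `H (clamp s, clamp t)`), `N = {s ≤ 1/4} ∪ {3/4 ≤ s} ∪ {∃ i, ..}`, `g = φ (clamp t)` for `s ≤ 1/2`,
`ψ (clamp t)` for `1/2 ≤ s` (both are `x` for `1/4 < s < 3/4` on `N`). (3) as `prStar_mul` in
`Pool/Agent/Helper42/NT/Star.lean`. needs: nothing -/
def St_HGP : Prop := ∀ (X Y : Type) [TopologicalSpace X] [TopologicalSpace Y] (q : C(X, Y)) (x : X)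
  (y : Y) (h : q x = y),
  (LiftP q → Surjective q ∧ ∀ k, Bijective (hgMap k q x y h)) ∧
  ∀ (k : ℕ) (a b : HomotopyGroup (Fin (k + 1)) X x),
    hgMap (k + 1) q x y h (a * b) = hgMap (k + 1) q x y h a * hgMap (k + 1) q x y h b

/-! ## Part T: every circle Hamiltonian is standard -/

/-- **ACT** (2 h). The action. `A(x) = (2 π)⁻¹ ∫_0^{2π} (1/2) omegaStd (Φ s x) (hamV f (Φ s x)) ds` has
the same derivative as `f` (first variation: derivative of the integrand in the direction `v` with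
`J s = D (Φ s) v`, `d/ds J = D (hamV f) J`; integrate `d/ds (1/2 omegaStd (Φ s x) (J s))` over a period, and
`omegaStd (J s) (hamV f (Φ s x)) = D f (J s) = D f_x v`; mind the signs: `omegaStd (hamV f p) v = - D f v`) and
agrees with it for `R < ‖x‖`; so `A = f`. At fixed points of `Φ`: `f = 0`. Critical points are fixed points
(`Fl.uniq`). A negative minimum of `f` (`f = mu ≥ 0` far away) would be a critical point with `f < 0`.
Zeros are minima, so critical. needs: nothing -/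
def St_ACT : Prop := ∀ (n : ℕ) (R : ℝ) (f : Phase (n + 1) → ℝ)
  (Φ : ℝ → Phase (n + 1) → Phase (n + 1)), Circ R f → Fl R f Φ →
  (∀ p, 0 ≤ f p) ∧ (∀ p, f p = 0 ↔ fderiv ℝ f p = 0) ∧ ∀ p, f p = 0 ↔ ∀ s, Φ s p = p

/-- **VEC** (3 h). The invariant field `V` with `D f (V) = 1` on `{f > 0}`: average over `Φ` of
`grad f / ‖grad f‖ ^ 2` (`(D Φ_s)⁻¹ = D Φ_{-s}`), `V = 0` on `{f = 0}`; far away it is `z/|z|^2 ∂_z` (real radial).
For `ε > 0`: `V_ε = χ(f/ε) V`, `χ` smooth, `0` on `(-∞, 1/2]`, `1` on `[1, ∞)`; the derivative is bounded: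
compactness of the ball, and explicit outside. needs: ACT -/
def St_VEC : Prop := ∀ (n : ℕ) (R : ℝ) (f : Phase (n + 1) → ℝ)
  (Φ : ℝ → Phase (n + 1) → Phase (n + 1)), Circ R f → Fl R f Φ →
  ∃ V : Phase (n + 1) → Phase (n + 1),
    (∀ ε : ℝ, 0 < ε → ∃ Vε : Phase (n + 1) → Phase (n + 1), ContDiff ℝ ∞ Vε ∧
      (∃ l : ℝ, ∀ p, ‖fderiv ℝ Vε p‖ ≤ l) ∧ ∀ p, ε ≤ f p → Vε p = V p) ∧
    (∀ p, 0 < f p → fderiv ℝ f p (V p) = 1) ∧
    (∀ s p, 0 < f p → fderiv ℝ (Φ s) p (V p) = V (Φ s p)) ∧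
    ∀ p, R < ‖p‖ → 0 < f p → V p = mkZ (zz p / ((‖zz p‖ ^ 2 : ℝ) : ℂ)) 0

/-- **UFN** (3 h). The function `u`. For `ε > 0` let `θ` be the flow of `V_ε` (`exists_global_flow` with
`T = Unit`); for `f p ≥ ε`, `τ ≥ 0`: `f (θ_τ p) = f p + τ`, and `θ_τ p` does not depend on `ε` (uniqueness), and
commutes with `Φ_s` (uniqueness). Let `C > f, mu` on the ball and `L ≥ C`; on `{f > ε}` put
`u p = zz (θ_L p)/|zz (θ_L p)|`: `f (θ_L p) > C`, so `θ_L p` is outside the ball, where `V` is radial and `u` is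
constant along `V`: independent of `L`, `ε`. Smooth on `{f > ε}` for every `ε`. Far away: for `‖wW p‖ > R` or
`|z_0 p| > R` the forward flow line is radial and stays outside the ball. needs: ACT, VEC -/
def St_UFN : Prop := ∀ (n : ℕ) (R : ℝ) (f : Phase (n + 1) → ℝ)
  (Φ : ℝ → Phase (n + 1) → Phase (n + 1)), Circ R f → Fl R f Φ →
  ∃ (R' : ℝ) (u : Phase (n + 1) → ℂ), UF R' f Φ u

/-- **LIN** (2 h). Linearisation at a zero `p` of `f`: `L x = (2 π)⁻¹ ∫_0^{2π} D Φ_{-s}(p) (Φ s x - p) ds`.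
(`D Φ_s(p)` is a one-parameter group: chain rule and `Φ s p = p`; continuity: `CF.fderiv`.)
needs: ACT -/
def St_LIN : Prop := ∀ (n : ℕ) (R : ℝ) (f : Phase (n + 1) → ℝ)
  (Φ : ℝ → Phase (n + 1) → Phase (n + 1)), Circ R f → Fl R f Φ → ∀ p, f p = 0 →
  Continuous (fun s => fderiv ℝ (Φ s) p) ∧
  fderiv ℝ (Φ 0) p = ContinuousLinearMap.id ℝ (Phase (n + 1)) ∧
  (∀ a b, fderiv ℝ (Φ (a + b)) p = (fderiv ℝ (Φ a) p).comp (fderiv ℝ (Φ b) p)) ∧
  (∀ s, fderiv ℝ (Φ (s + 2 * Real.pi)) p = fderiv ℝ (Φ s) p) ∧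
  ∃ L : Phase (n + 1) → Phase (n + 1), ContDiff ℝ ∞ L ∧
    (∀ s x, L (Φ s x) = fderiv ℝ (Φ s) p (L x)) ∧ L p = 0 ∧
    fderiv ℝ L p = ContinuousLinearMap.id ℝ (Phase (n + 1))

/-- **LAL** (3 h). Linear circle actions which are free outside the fixed vectors and admit an
equivariant map to the circle there have rank two. Invariant inner product (average). On the
orthogonal complement `M` of the fixed vectors the generator `B` is antisymmetric and injective;
an eigenvector `v` of the symmetric `B²` with eigenvalue `-κ²` has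
`Q s v = cos(κ s) v + sin(κ s)/κ B v`; period `2 π` gives `κ ∈ ℤ`, and `Q (2π/κ) v = v` gives with `ũ` that
`e^{2 π i/κ} = 1`, so `κ = 1`. So `B² = -1` on `M`, `M` is a complex vector space, `Q s = e^{is}`. If
`M` has two `ℂ`-independent vectors `v`, `v'`: `h(a) = ũ(a v + √(1 - |a|²) v')` is continuous on the closed disc
and `h(a) = a ũ(v)` for `|a| = 1`: lift `h = e^{iγ}` (`St_CLF` (1)), `γ(e^{iθ}) - θ` is constant on
`[0, 2π]`, contradiction. So `M ≅ ℂ`; `α` is the projection to `M` followed by this. needs: CLF -/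
def St_LAL : Prop := ∀ (E : Type) [NormedAddCommGroup E] [NormedSpace ℝ E] [FiniteDimensional ℝ E]
  (Q : ℝ → (E →L[ℝ] E)) (u : E → ℂ), Continuous Q → Q 0 = ContinuousLinearMap.id ℝ E →
  (∀ a b, Q (a + b) = (Q a).comp (Q b)) → (∀ s, Q (s + 2 * Real.pi) = Q s) →
  (∃ s v, Q s v ≠ v) → ContinuousOn u {v | ∃ s, Q s v ≠ v} →
  (∀ v, (∃ s, Q s v ≠ v) → ‖u v‖ = 1) →
  (∀ s v, (∃ s, Q s v ≠ v) → u (Q s v) = Complex.exp (s * Complex.I) * u v) →
  ∃ α : E →L[ℝ] ℂ, Surjective α ∧ (∀ s v, α (Q s v) = Complex.exp (s * Complex.I) * α v) ∧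
    ∀ v, α v = 0 ↔ ∀ s, Q s v = v

/-- **NTR** (2 h). The linearisation is not trivial: otherwise, with `L` of `St_LIN`, `L (Φ s x) = L x`
and `L` is injective near `p`, so `Φ s x = x` near `p`; the set of the `p` with `f p = 0` and
`D Φ_s(p) = id` for all `s` is open and closed, so everything, but `f = mu` far away.
needs: ACT, LIN -/
def St_NTR : Prop := ∀ (n : ℕ) (R : ℝ) (f : Phase (n + 1) → ℝ)
  (Φ : ℝ → Phase (n + 1) → Phase (n + 1)), Circ R f → Fl R f Φ → ∀ p, f p = 0 →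
  ∃ s v, fderiv ℝ (Φ s) p v ≠ v

/-- **LCH** (3 h). Global smooth maps `α`, `β` of weight one and zero, a chart at `p`. `Q s = D Φ_s(p)`;
local inverse `ψ` of `L` at `p` (inverse function theorem), and an invariant neighbourhood of `0` (balls
of the invariant norm, or: `Φ_s` of a small neighbourhood is in the domain for all `s`), so
`ψ (Q s v) = Φ s (ψ v)` for small `v`; for `v` not fixed `f (ψ v) > 0` (`St_ACT`), and
`ũ(v) = u (ψ (δ v/(2 (1 + ‖v‖)))) ` (small multiple of `v`, with an invariant norm: the average of `‖Q s v‖²`,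
square root) is continuous, equivariant. `St_LAL` gives `α₀`; `α = α₀ ∘ L`. The fixed vectors `F₀` have
dimension `2 n` (`α₀` surjective with kernel `F₀`); `β = (iso F₀ ≅ Phase n) ∘ (average of Q s) ∘ L`.
`(α, β)` at `p`: `v ↦ (α₀ v, iso (avg v))` is injective. needs: ACT, UFN, LIN, NTR, LAL -/
def St_LCH : Prop := ∀ (n : ℕ) (R : ℝ) (f : Phase (n + 1) → ℝ)
  (Φ : ℝ → Phase (n + 1) → Phase (n + 1)), Circ R f → Fl R f Φ → ∀ p, f p = 0 →
  ∃ (α : Phase (n + 1) → ℂ) (β : Phase (n + 1) → Phase n), ContDiff ℝ ∞ α ∧ ContDiff ℝ ∞ β ∧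
    (∀ s x, α (Φ s x) = Complex.exp (s * Complex.I) * α x) ∧ (∀ s x, β (Φ s x) = β x) ∧
    α p = 0 ∧ β p = 0 ∧ Bijective (fderiv ℝ (fun x => (α x, β x)) p)

/-- **SLC** (2.5 h). Slices at the zeros of `f`, arbitrarily small. Inverse function theorem for
`Ψ = (α, β)` at `p`: `Ψ` is injective on an open `O' ⊆ O`, `Ψ (O')` open, smooth inverse `ψ`
(`HasStrictFDerivAt.toOpenPartialHomeomorph`, `ContDiffAt.to_localInverse` at every point). Tube
lemma: an open `O₁ ∋ p` with `Φ s (O₁) ⊆ O'` for all `s` (`s ∈ [0, 2π]` is enough). `δ` with the polydisc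
in `Ψ (O₁)`, `U = O₁ ∩ Ψ⁻¹ (polydisc)`; it is invariant as `Φ s x ∈ O'` has `Ψ (Φ s x)` in the polydisc, so
`Φ s x = ψ (..) ∈ U`. The second part: `x ∈ U`, `α x = 0` iff `x` is fixed iff `f x = 0`.
needs: ACT, LCH -/
def St_SLC : Prop := ∀ (n : ℕ) (R : ℝ) (f : Phase (n + 1) → ℝ)
  (Φ : ℝ → Phase (n + 1) → Phase (n + 1)), Circ R f → Fl R f Φ →
  (∀ (p : Phase (n + 1)) (O : Set (Phase (n + 1))), f p = 0 → IsOpen O → p ∈ O →
    ∃ (U : Set (Phase (n + 1))) (δ : ℝ) (α : Phase (n + 1) → ℂ) (β : Phase (n + 1) → Phase n)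
      (ψ : ℂ × Phase n → Phase (n + 1)), Slice Φ U δ α β ψ ∧ p ∈ U ∧ U ⊆ O) ∧
  (∀ (U : Set (Phase (n + 1))) (δ : ℝ) (α : Phase (n + 1) → ℂ) (β : Phase (n + 1) → Phase n)
      (ψ : ℂ × Phase n → Phase (n + 1)), Slice Φ U δ α β ψ → ∀ x ∈ U, (f x = 0 ↔ α x = 0))

/-- **LSO** (3 h). Local solutions. In a slice `f ∘ ψ` is invariant and zero for `z = 0`; multiply by an
invariant cut-off function (equal to `1` on the polydisc of radius `δ/2`, support in the polydisc of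
radius `δ`) and apply `St_DIV` (2) (`T = Unit`): `f (ψ (z, w)) = |z|² k (z, w)` on the smaller polydisc. `k > 0`:
for `z ≠ 0` as `f > 0`; if `k (0, w) = 0` then `f ∘ ψ` has vanishing second derivative at `(0, w)`, so `D (hamV f)`
vanishes at `x = ψ (0, w)`, so `D Φ_s (x) = id` for all `s`, but `α (Φ s y) = e^{is} α y`, differentiated at `x`,
shows that this is false. `a = α √(2 k (α, β))`. The slice of the statement is the restriction to the
polydisc of radius `δ/2`. needs: ACT, DIV, SLC -/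
def St_LSO : Prop := ∀ (n : ℕ) (R : ℝ) (f : Phase (n + 1) → ℝ)
  (Φ : ℝ → Phase (n + 1) → Phase (n + 1)), Circ R f → Fl R f Φ →
  ∀ (p : Phase (n + 1)) (O : Set (Phase (n + 1))), f p = 0 → IsOpen O → p ∈ O →
    ∃ (U : Set (Phase (n + 1))) (δ : ℝ) (α : Phase (n + 1) → ℂ) (β : Phase (n + 1) → Phase n)
      (ψ : ℂ × Phase n → Phase (n + 1)) (m : Phase (n + 1) → ℝ), Slice Φ U δ α β ψ ∧ p ∈ U ∧
      U ⊆ O ∧ ContDiffOn ℝ ∞ m U ∧ (∀ x ∈ U, 0 < m x) ∧ ∀ x ∈ U, 2 * f x = ‖α x‖ ^ 2 * m x ^ 2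

/-- **PAT** (2 h). Patches around the zeros of `f`. `a = α m`; on `U ∩ {f > 0}` the function
`g = a/(√(2 f) u) = α/(|α| u)` is invariant and of modulus one; `G (r, w) = 1/u (ψ (r, w))` on the convex open
set `{0 < r < δ, ‖w‖ < δ}` of `ℝ × Phase n` has a smooth logarithm `γ` (`St_CLF`); `η x = γ (|α x|, β x)`
(`x = Φ_s (ψ (|α x|, β x))` with `e^{is} = α x/|α x|`). needs: SLC, LSO, CLF, ACT -/
def St_PAT : Prop := ∀ (n : ℕ) (R R' : ℝ) (f : Phase (n + 1) → ℝ)
  (Φ : ℝ → Phase (n + 1) → Phase (n + 1)) (u : Phase (n + 1) → ℂ), Circ R f → Fl R f Φ →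
  UF R' f Φ u → ∀ p, f p = 0 → ∃ (U : Set (Phase (n + 1))) (a : Phase (n + 1) → ℂ)
    (η : Phase (n + 1) → ℝ), Patch f Φ u U a η ∧ p ∈ U ∧ Bornology.IsBounded U

/-- **RAT** (3 h). Two patches differ by a smooth function across the zeros of `f`. Take a slice
`U₀ ⊆ U ∩ U'` at `x` (`St_SLC`). `a` and `a'` are of weight one on `U₀ ∩ {f > 0}` (the formula in `Patch`,
`UF.wt`), and zero on `{f = 0}`, so of weight one on `U₀`; in the slice (with a cut-off)
`St_DIV` (1): `a (ψ (z, w)) = z b (z, w)`, `a' = z b'`, `|b| = |b'| > 0` (`|z|² |b|² = 2 f > 0` for `z ≠ 0`; at `z = 0`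
by the argument for `k > 0` in `St_LSO`: use the slice of `St_LSO`: `|b| = m > 0`). So `a/a' = G` is smooth of
modulus one near `x`, `G = e^{iζ₀}` on a smaller slice `N` (polydisc, convex, `St_CLF`), and
`η - η' - ζ₀` is continuous on `N ∩ {f > 0}` with values in `2 π ℤ`; this set is connected (the image of
`(disc ∖ 0) × ball` under `ψ`). needs: SLC, LSO, DIV, CLF, ACT -/
def St_RAT : Prop := ∀ (n : ℕ) (R R' : ℝ) (f : Phase (n + 1) → ℝ)
  (Φ : ℝ → Phase (n + 1) → Phase (n + 1)) (u : Phase (n + 1) → ℂ), Circ R f → Fl R f Φ →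
  UF R' f Φ u → ∀ (U U' : Set (Phase (n + 1))) (a a' : Phase (n + 1) → ℂ)
    (η η' : Phase (n + 1) → ℝ), Patch f Φ u U a η → Patch f Φ u U' a' η' →
    ∀ x ∈ U ∩ U', f x = 0 → ∃ (O : Set (Phase (n + 1))) (ζ : Phase (n + 1) → ℝ), IsOpen O ∧ x ∈ O ∧
      ContDiffOn ℝ ∞ ζ O ∧ ∀ y ∈ O, 0 < f y → η y - η' y = ζ y

/-- **PTU** (2.5 h). Invariant partition of unity near `{f = 0}`. Smooth functions `χ' i ≥ 0` with
`tsupport ⊆ U i` and `∑ χ' i = 1` on a closed neighbourhood `s` of `{f = 0}` inside `⋃ U i`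
(`SmoothPartitionOfUnity.exists_isSubordinate`), `χ i x = (2 π)⁻¹ ∫_0^{2π} χ' i (Φ s x) ds` (smooth:
`CF.setIntegral`). `V` = the points whose whole orbit is in the interior of `s` (open by the tube
lemma). The support of the average is in the union of the `Φ_s (tsupport χ' i)`, a closed subset of
`U i`. needs: ACT -/
def St_PTU : Prop := ∀ (n : ℕ) (R : ℝ) (f : Phase (n + 1) → ℝ)
  (Φ : ℝ → Phase (n + 1) → Phase (n + 1)), Circ R f → Fl R f Φ → ∀ (ι : Type) [Fintype ι]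
  (U : ι → Set (Phase (n + 1))), (∀ i, IsOpen (U i)) → (∀ i s, ∀ x ∈ U i, Φ s x ∈ U i) →
  (∀ x, f x = 0 → ∃ i, x ∈ U i) →
  ∃ χ : ι → Phase (n + 1) → ℝ, (∀ i, ContDiff ℝ ∞ (χ i)) ∧ (∀ i s x, χ i (Φ s x) = χ i x) ∧
    (∀ i, tsupport (χ i) ⊆ U i) ∧ ∃ V : Set (Phase (n + 1)), IsOpen V ∧ (∀ x, f x = 0 → x ∈ V) ∧
      ∀ x ∈ V, ∑ i, χ i x = 1

/-- **GLU** (3 h). The global solution. Finitely many bounded patches cover `{f = 0} ∩ closedBall 0 R₁`
(`R₁` larger than `R`, `R'`), and `(zz, 0)` is a patch on `{R₁ < ‖x‖}`. `χ` from `St_PTU`,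
`η = ∑ χ i η i` on `{f > 0}`, `a = √(2 f) u e^{iη}` there, `0` on `{f = 0}`. Near a zero `x` in the patch `j`:
`a = a_j exp (i (η - η_j))` on `{f > 0}`, `η - η_j = ∑ χ i (η i - η_j)` near `x` (`∑ χ i = 1` on `V`), every term
extends smoothly (`St_RAT` if `x ∈ tsupport χ i ⊆ U i`, zero near `x` otherwise); on `{f = 0}` both sides
are `0`. On `{f > 0}` every `χ i η i` is smooth (support). `a = zz` outside a ball containing all
bounded patches. needs: ACT, PAT, RAT, PTU -/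
def St_GLU : Prop := ∀ (n : ℕ) (R R' : ℝ) (f : Phase (n + 1) → ℝ)
  (Φ : ℝ → Phase (n + 1) → Phase (n + 1)) (u : Phase (n + 1) → ℂ), Circ R f → Fl R f Φ →
  UF R' f Φ u → ∃ (R'' : ℝ) (a : Phase (n + 1) → ℂ), ContDiff ℝ ∞ a ∧
    (∀ p, ‖a p‖ ^ 2 = 2 * f p) ∧ (∀ s p, a (Φ s p) = Complex.exp (s * Complex.I) * a p) ∧
    ∀ p, R'' < ‖p‖ → a p = zz p

/-! ## The theorem -/

/-- **FIN** (2 h). The theorem: (1) surjectivity, (2), (3) the fibres, (4) homotopy groups
(`c k = hgMap k q 1 CircHam.std _`). needs: MUC, LFA, HGP, TOP, ONT, FIB, EXP, BRK, EXR, MOM, UNI -/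
def St_FIN : Prop := ∀ n : ℕ,
  (∀ f : CircHam n, ∃ φ : SympCt (n + 1), ∀ p, f.1 p = mu ((φ : Equiv.Perm (Phase (n + 1))) p)) ∧
  (∀ φ ψ : SympCt (n + 1),
    (∀ p, mu ((ψ : Equiv.Perm (Phase (n + 1))) p) = mu ((φ : Equiv.Perm (Phase (n + 1))) p)) ↔
    ∃ η : Phase (n + 1) → ℝ, ContDiff ℝ ∞ η ∧ HasCompactSupport η ∧
      (∀ p, fderiv ℝ η p
        (hamField (fun q => mu ((φ : Equiv.Perm (Phase (n + 1))) q)) p) = 0) ∧
      ∀ p, zz ((ψ : Equiv.Perm (Phase (n + 1))) p) =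
        zz ((φ : Equiv.Perm (Phase (n + 1))) p) * Complex.exp (η p * Complex.I)) ∧
  (∀ (φ : SympCt (n + 1)) (η : Phase (n + 1) → ℝ), ContDiff ℝ ∞ η → HasCompactSupport η →
    (∀ p, fderiv ℝ η p
      (hamField (fun q => mu ((φ : Equiv.Perm (Phase (n + 1))) q)) p) = 0) →
    ∃! ψ : SympCt (n + 1), ∀ p, zz ((ψ : Equiv.Perm (Phase (n + 1))) p) =
      zz ((φ : Equiv.Perm (Phase (n + 1))) p) * Complex.exp (η p * Complex.I)) ∧
  ∃ c : ∀ k : ℕ, PiG k (n + 1) → PiC k n,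
    (∀ k (φ : LoopG k (n + 1)) (f : LoopC k n), IsMoment φ f → c k φ.cls = f.cls) ∧
    (∀ k (φ : LoopG k (n + 1)), ∃ f : LoopC k n, IsMoment φ f) ∧
    (∀ k, Bijective (c k)) ∧ ∀ k, IsHom (c (k + 1))

end Pool.Agent.CRC
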