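import Mathlib
import Pool.Agent.CRC.St
import Pool.Agent.Helper17.CFInt

/-!
# CRC, module DIV: division by the first complex coordinate in families
-/

set_option autoImplicit false

open scoped ContDiff Topology
open Set Function TopologicalSpace

namespace Pool.Agent.CRC

open Pool.Agent.Helper17

namespace DIV

open MeasureTheory

variable {T W : Type} [TopologicalSpace T] [NormedAddCommGroup W] [NormedSpace ℝ W]

lemma CF_scale : CF (fun (q : T × ℝ) (x : ℂ × W) => ((q.2 : ℝ) • x.1, x.2)) :=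
  (CF.smul (CF.param continuous_snd) (CF.const contDiff_fst)).prodMk (CF.const contDiff_snd)

lemma CF_scaled {E' : Type} [NormedAddCommGroup E'] [NormedSpace ℝ E'] {F : T → ℂ × W → E'}
    (hF : CF F) : CF (fun (q : T × ℝ) (x : ℂ × W) => q.2 • F q.1 (q.2 • x.1, x.2)) :=
  CF.smul (CF.param continuous_snd)
    (CF.comp (F := fun (q : T × ℝ) => F q.1) (hF.base continuous_fst) CF_scale)

lemma CF_int {E' : Type} [NormedAddCommGroup E'] [NormedSpace ℝ E'] {F : T → ℂ × W → E'}
    (hF : CF F) :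
    CF (fun t (x : ℂ × W) => ∫ τ in (0:ℝ)..1, τ • F t (τ • x.1, x.2)) := by
  have h2 := (CF_scaled hF).setIntegral (isCompact_Icc (a := (0:ℝ)) (b := 1))
    (volume.restrict (Icc 0 1))
  have e : (fun t (x : ℂ × W) => ∫ τ in (0:ℝ)..1, τ • F t (τ • x.1, x.2)) =
      fun t x => ∫ z in Icc (0:ℝ) 1, z • F t (z • x.1, x.2) ∂(volume.restrict (Icc 0 1)) := by
    funext t x
    rw [Measure.restrict_restrict measurableSet_Icc, inter_self,
      intervalIntegral.integral_of_le zero_le_one, integral_Icc_eq_integral_Ioc]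
  rw [e]
  exact h2

/-- the integrand is continuous in the scaling parameter -/
lemma cont_scaled {E' : Type} [NormedAddCommGroup E'] [NormedSpace ℝ E'] {F : T → ℂ × W → E'}
    (hF : CF F) (t : T) (x : ℂ × W) : Continuous (fun τ : ℝ => τ • F t (τ • x.1, x.2)) :=
  (CF_scaled hF).continuous.comp
    (g := fun p : (T × ℝ) × (ℂ × W) => p.1.2 • F p.1.1 (p.1.2 • p.2.1, p.2.2))
    (f := fun τ : ℝ => ((t, τ), x)) ((Continuous.prodMk_right t).prodMk continuous_const)

lemma hasDerivAt_rot (z : ℂ) (w : W) :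
    HasDerivAt (fun s : ℝ => (Complex.exp (s * Complex.I) * z, w)) (Complex.I * z, (0 : W)) 0 := by
  have h1 : HasDerivAt (fun s : ℝ => Complex.exp (s * Complex.I) * z) (Complex.I * z) 0 := by
    have h2 : HasDerivAt (fun s : ℝ => (s : ℂ) * Complex.I) (1 * Complex.I) 0 :=
      (Complex.ofRealCLM.hasDerivAt (x := (0 : ℝ))).mul_const Complex.I
    have h3 := (h2.cexp).mul_const z
    refine h3.congr_deriv ?_
    simp
  exact h1.prodMk (hasDerivAt_const _ _)

lemma hasDerivAt_ray (z : ℂ) (w : W) (τ : ℝ) :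
    HasDerivAt (fun s : ℝ => (s • z, w)) (z, (0 : W)) τ := by
  have h1 : HasDerivAt (fun s : ℝ => s • z) ((1 : ℝ) • z) τ := (hasDerivAt_id τ).smul_const z
  rw [one_smul] at h1
  exact h1.prodMk (hasDerivAt_const _ _)

/-- a real linear map in terms of its values on `1` and `I` -/
lemma clm_eq {E' : Type} [NormedAddCommGroup E'] [NormedSpace ℝ E'] (A : ℂ × W →L[ℝ] E') (z : ℂ) :
    A (z, 0) = z.re • A (1, 0) + z.im • A (Complex.I, 0) := by
  rw [← map_smul, ← map_smul, ← map_add]
  congr 1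
  ext
  · simp
  · simp

/-- the linear map `A ↦ A 1 - i A i` -/
noncomputable def dz (W : Type) [NormedAddCommGroup W] [NormedSpace ℝ W] :
    (ℂ × W →L[ℝ] ℂ) →L[ℝ] ℂ :=
  ContinuousLinearMap.apply ℝ ℂ ((1 : ℂ), (0 : W)) -
    Complex.I • ContinuousLinearMap.apply ℝ ℂ (Complex.I, (0 : W))

lemma dz_apply (A : ℂ × W →L[ℝ] ℂ) : dz W A = A (1, 0) - Complex.I * A (Complex.I, 0) := rfl

/-- the gradient of a real linear map, as a complex number -/
noncomputable def gr (W : Type) [NormedAddCommGroup W] [NormedSpace ℝ W] :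
    (ℂ × W →L[ℝ] ℝ) →L[ℝ] ℂ :=
  Complex.ofRealCLM.comp (ContinuousLinearMap.apply ℝ ℝ ((1 : ℂ), (0 : W))) +
    Complex.I • Complex.ofRealCLM.comp (ContinuousLinearMap.apply ℝ ℝ (Complex.I, (0 : W)))

lemma gr_apply (A : ℂ × W →L[ℝ] ℝ) :
    gr W A = (A (1, 0) : ℂ) + Complex.I * (A (Complex.I, 0) : ℂ) := rfl

/-- weight one functions: the infinitesimal relation -/
lemma wt_one {b : T → ℂ × W → ℂ} (hb : CF b)
    (wt : ∀ (t : T) (s : ℝ) (z : ℂ) (w : W),
      b t (Complex.exp (s * Complex.I) * z, w) = Complex.exp (s * Complex.I) * b t (z, w))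
    (t : T) (z : ℂ) (w : W) :
    fderiv ℝ (b t) (z, w) (Complex.I * z, 0) = Complex.I * b t (z, w) := by
  have h0 : (Complex.exp (((0 : ℝ) : ℂ) * Complex.I) * z, w) = (z, w) := by simp
  have h1 : HasDerivAt (fun s : ℝ => b t (Complex.exp (s * Complex.I) * z, w))
      (fderiv ℝ (b t) (z, w) (Complex.I * z, 0)) 0 := by
    have h2 := (hb.differentiable t (Complex.exp (((0 : ℝ) : ℂ) * Complex.I) * z, w)).hasFDerivAt
    have h3 := h2.comp_hasDerivAt (0 : ℝ) (hasDerivAt_rot z w)
    rw [h0] at h3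
    exact h3
  have h4 : HasDerivAt (fun s : ℝ => Complex.exp (s * Complex.I) * b t (z, w))
      (Complex.I * b t (z, w)) 0 := by
    have h5 : HasDerivAt (fun s : ℝ => (s : ℂ) * Complex.I) (1 * Complex.I) 0 :=
      (Complex.ofRealCLM.hasDerivAt (x := (0 : ℝ))).mul_const Complex.I
    have h6 := (h5.cexp).mul_const (b t (z, w))
    refine h6.congr_deriv ?_
    simp
  have e : (fun s : ℝ => b t (Complex.exp (s * Complex.I) * z, w)) =
      fun s : ℝ => Complex.exp (s * Complex.I) * b t (z, w) := funext fun s => wt t s z w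
  rw [e] at h1
  exact h1.unique h4

theorem part1 (b : T → ℂ × W → ℂ) (hb : CF b)
    (wt : ∀ (t : T) (s : ℝ) (z : ℂ) (w : W),
      b t (Complex.exp (s * Complex.I) * z, w) = Complex.exp (s * Complex.I) * b t (z, w)) :
    ∃ B : T → ℂ × W → ℂ, CF B ∧ (∀ t z w, b t (z, w) = z * B t (z, w)) ∧
      ∀ (t : T) (s : ℝ) (z : ℂ) (w : W), B t (Complex.exp (s * Complex.I) * z, w) = B t (z, w) := by
  have hF : CF (fun t x => dz W (fderiv ℝ (b t) x)) := hb.fderiv.clm (dz W)
  have main : ∀ t z w, b t (z, w) =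
      z * ∫ τ in (0:ℝ)..1, τ • dz W (fderiv ℝ (b t) (τ • z, w)) := by
    intro t z w
    have h1 : ∀ τ : ℝ, HasDerivAt (fun τ : ℝ => τ • b t (τ • z, w))
        (z * (τ • dz W (fderiv ℝ (b t) (τ • z, w)))) τ := by
      intro τ
      have h2 := (hb.differentiable t (τ • z, w)).hasFDerivAt.comp_hasDerivAt τ
        (hasDerivAt_ray z w τ)
      have h3 := (hasDerivAt_id τ).smul h2
      refine h3.congr_deriv ?_
      have h4 := wt_one hb wt t (τ • z) w
      have h5 : (Complex.I * (τ • z), (0 : W)) = τ • (Complex.I * z, (0 : W)) := by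
        ext <;> simp [mul_comm, mul_left_comm]
      rw [h5, map_smul, clm_eq _ (Complex.I * z)] at h4
      rw [clm_eq _ z, dz_apply]
      simp only [Complex.real_smul, Complex.mul_re, Complex.mul_im, Complex.I_re, Complex.I_im,
        zero_mul, one_mul, zero_sub, zero_add, Complex.ofReal_neg, id, Function.comp,
        Complex.ofReal_one] at h4 ⊢
      have hI := Complex.I_mul_I
      have hz := Complex.re_add_im z
      linear_combination Complex.I * h4 + (b t (τ * z, w) +
        τ * z.im * fderiv ℝ (b t) (τ * z, w) (Complex.I, 0)) * hI +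
        τ * (fderiv ℝ (b t) (τ * z, w) (1, 0) -
          Complex.I * fderiv ℝ (b t) (τ * z, w) (Complex.I, 0)) * hz
    have h7 := intervalIntegral.integral_eq_sub_of_hasDerivAt (a := 0) (b := 1)
      (fun τ _ => h1 τ) (((continuous_const.mul (cont_scaled hF t (z, w)))).intervalIntegrable _ _)
    rw [intervalIntegral.integral_const_mul] at h7
    rw [h7]
    simp
  refine ⟨fun t x => ∫ τ in (0:ℝ)..1, τ • dz W (fderiv ℝ (b t) (τ • x.1, x.2)), CF_int hF,
    main, ?_⟩
  intro t s z w
  rcases eq_or_ne z 0 with rfl | hz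
  · simp
  · have h1 := wt t s z w
    rw [main t (Complex.exp (s * Complex.I) * z) w, main t z w] at h1
    have hne : Complex.exp (s * Complex.I) * z ≠ 0 := mul_ne_zero (Complex.exp_ne_zero _) hz
    apply mul_left_cancel₀ hne
    rw [← mul_assoc] at h1
    exact h1

/-- the rotation of the first coordinate -/
noncomputable def rt (W : Type) [NormedAddCommGroup W] [NormedSpace ℝ W] (e : ℂ) :
    ℂ × W →L[ℝ] ℂ × W :=
  ((ContinuousLinearMap.mul ℝ ℂ e).comp (ContinuousLinearMap.fst ℝ ℂ W)).prod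
    (ContinuousLinearMap.snd ℝ ℂ W)

lemma rt_apply (e : ℂ) (z : ℂ) (w : W) : rt W e (z, w) = (e * z, w) := rfl

/-- weight of the gradient -/
lemma wt_gr {h : T → ℂ × W → ℝ} (hh : CF h)
    (wt : ∀ (t : T) (s : ℝ) (z : ℂ) (w : W),
      h t (Complex.exp (s * Complex.I) * z, w) = h t (z, w)) (t : T) (s : ℝ) (z : ℂ) (w : W) :
    gr W (fderiv ℝ (h t) (Complex.exp (s * Complex.I) * z, w)) =
      Complex.exp (s * Complex.I) * gr W (fderiv ℝ (h t) (z, w)) := by
  set e := Complex.exp (s * Complex.I) with he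
  have h1 : (h t) ∘ (rt W e) = h t := funext fun x => wt t s x.1 x.2
  have h2 : fderiv ℝ (h t) (z, w) = (fderiv ℝ (h t) (e * z, w)).comp (rt W e) := by
    have h3 := (hh.differentiable t (rt W e (z, w))).hasFDerivAt.comp (z, w)
      (rt W e).hasFDerivAt
    rw [h1] at h3
    exact h3.fderiv
  have hre : e.re = Real.cos s := Complex.exp_ofReal_mul_I_re s
  have him : e.im = Real.sin s := Complex.exp_ofReal_mul_I_im s
  have h4 : fderiv ℝ (h t) (z, w) (1, 0) =
      Real.cos s * fderiv ℝ (h t) (e * z, w) (1, 0) +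
        Real.sin s * fderiv ℝ (h t) (e * z, w) (Complex.I, 0) := by
    rw [h2, ContinuousLinearMap.comp_apply, rt_apply, mul_one, clm_eq, hre, him, smul_eq_mul,
      smul_eq_mul]
  have h5 : fderiv ℝ (h t) (z, w) (Complex.I, 0) =
      -Real.sin s * fderiv ℝ (h t) (e * z, w) (1, 0) +
        Real.cos s * fderiv ℝ (h t) (e * z, w) (Complex.I, 0) := by
    rw [h2, ContinuousLinearMap.comp_apply, rt_apply, clm_eq, Complex.mul_I_re, Complex.mul_I_im,
      hre, him, smul_eq_mul, smul_eq_mul]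
  have hcs := Real.cos_sq_add_sin_sq s
  rw [gr_apply, gr_apply, h4, h5]
  apply Complex.ext
  · simp only [Complex.add_re, Complex.mul_re, Complex.ofReal_re, Complex.I_re, Complex.I_im,
      Complex.ofReal_im, hre, him, Complex.add_im, Complex.mul_im]
    linear_combination (-fderiv ℝ (h t) (e * z, w) (1, 0)) * hcs
  · simp only [Complex.add_re, Complex.mul_re, Complex.ofReal_re, Complex.I_re, Complex.I_im,
      Complex.ofReal_im, hre, him, Complex.add_im, Complex.mul_im]
    linear_combination (-fderiv ℝ (h t) (e * z, w) (Complex.I, 0)) * hcs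

theorem part2 (h : T → ℂ × W → ℝ) (hh : CF h)
    (wt : ∀ (t : T) (s : ℝ) (z : ℂ) (w : W),
      h t (Complex.exp (s * Complex.I) * z, w) = h t (z, w))
    (h0 : ∀ t w, h t (0, w) = 0) :
    ∃ k : T → ℂ × W → ℝ, CF k ∧ (∀ t z w, h t (z, w) = ‖z‖ ^ 2 * k t (z, w)) ∧
      ∀ (t : T) (s : ℝ) (z : ℂ) (w : W), k t (Complex.exp (s * Complex.I) * z, w) = k t (z, w) := by
  obtain ⟨B, hB, hbB, hBw⟩ := part1 (fun t x => gr W (fderiv ℝ (h t) x)) (hh.fderiv.clm (gr W))
    (wt_gr hh wt)
  have hF : CF (fun t x => (B t x).re) := hB.clm Complex.reCLM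
  refine ⟨fun t x => ∫ τ in (0:ℝ)..1, τ • (B t (τ • x.1, x.2)).re, CF_int hF, ?_, ?_⟩
  · intro t z w
    have h1 : ∀ τ : ℝ, HasDerivAt (fun τ : ℝ => h t (τ • z, w))
        (‖z‖ ^ 2 * (τ • (B t (τ • z, w)).re)) τ := by
      intro τ
      have h2 := (hh.differentiable t (τ • z, w)).hasFDerivAt.comp_hasDerivAt τ
        (hasDerivAt_ray z w τ)
      refine h2.congr_deriv ?_
      have h3 := hbB t (τ • z) w
      rw [gr_apply] at h3
      have h4 := congrArg Complex.re h3
      have h5 := congrArg Complex.im h3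
      simp only [Complex.add_re, Complex.mul_re, Complex.ofReal_re, Complex.I_re, Complex.I_im,
        Complex.ofReal_im, Complex.add_im, Complex.mul_im, Complex.smul_re, Complex.smul_im,
        smul_eq_mul, zero_mul, one_mul, mul_zero, sub_zero, add_zero, zero_add] at h4 h5
      rw [clm_eq, h4, h5, ← Complex.normSq_eq_norm_sq, Complex.normSq_apply]
      simp only [smul_eq_mul]
      ring
    have h7 := intervalIntegral.integral_eq_sub_of_hasDerivAt (a := 0) (b := 1)
      (fun τ _ => h1 τ) (((continuous_const.mul (cont_scaled hF t (z, w)))).intervalIntegrable _ _)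
    rw [intervalIntegral.integral_const_mul] at h7
    simp only at h7 ⊢
    rw [h7, one_smul, zero_smul, h0, sub_zero]
  · intro t s z w
    refine intervalIntegral.integral_congr fun τ _ => ?_
    simp only
    have e1 : τ • (Complex.exp (s * Complex.I) * z) = Complex.exp (s * Complex.I) * (τ • z) :=
      (mul_smul_comm τ _ z).symm
    rw [e1, hBw]

end DIV

theorem thm_DIV : St_DIV := by
  intro T W _ _ _
  exact ⟨DIV.part1, DIV.part2⟩

end Pool.Agent.CRC
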