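import Pool.Agent.CRC.St

/-!
# The invariant coordinates of an exact pair
-/

set_option autoImplicit false
set_option maxSynthPendingDepth 3

open scoped ContDiff Topology NNReal
open Set Function Filter TopologicalSpace

namespace Pool.Agent.CRC

open Pool.Agent.Helper17 Pool.Agent.Helper42 Pool.Agent.H50.Susp

namespace EXA

lemma wW_eX (n : ℕ) : wW n (eX 0) = 0 := by
  ext k
  rcases k with k | k <;> simp [wW, wLin, eX]

lemma wW_eY (n : ℕ) : wW n (eY 0) = 0 := by
  ext k
  rcases k with k | k <;> simp [wW, wLin, eY]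

variable {N : ℕ}

lemma sharp_coordL_inr (i : Fin N) : sharp N (coordL (Sum.inr i)) = eX i := by
  rw [← sub_eq_zero]
  apply eq_zero_of_omegaStd
  intro v
  rw [omegaStd_sub_left, omegaStd_sharp]
  simp [coordL_apply, omegaStd, eX]

lemma hamV_of_std_inr {f : Phase N → ℝ} {R : ℝ} {i : Fin N}
    (h : ∀ p, R < ‖p‖ → f p = p (Sum.inr i)) {p : Phase N} (hp : R < ‖p‖) :
    hamV f p = -eX i := by
  rw [hamV, fderiv_of_std h hp, sharp_coordL_inr]

lemma le_side_add (i : Fin N) (p : Phase N) : ‖p‖ ≤ ‖side i p‖ + |p (Sum.inr i)| := by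
  have h2 : p = side i p + p (Sum.inr i) • eY i := by simp [side]
  calc ‖p‖ = ‖side i p + p (Sum.inr i) • eY i‖ := by rw [← h2]
    _ ≤ ‖side i p‖ + ‖p (Sum.inr i) • (eY i : Phase N)‖ := norm_add_le _ _
    _ = ‖side i p‖ + |p (Sum.inr i)| := by rw [norm_smul, norm_eY, mul_one, Real.norm_eq_abs]

end EXA

open EXA in
theorem thm_EXA : St_EXA := by
  intro n T _ _ R₀ a ha hEx
  set R : ℝ := max R₀ 0 with hRdef
  have hR0 : 0 ≤ R := le_max_right _ _
  have hstd : ∀ t p, R < ‖p‖ → a t p = zz p := fun t p hp =>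
    (hEx t).std p (lt_of_le_of_lt (le_max_left _ _) hp)
  set f : T → Phase (n + 1) → ℝ := fun t p => (a t p).re with hf
  set g : T → Phase (n + 1) → ℝ := fun t p => (a t p).im with hg
  have cf : CF f := ha.clm Complex.reCLM
  have cg : CF g := ha.clm Complex.imCLM
  have fstd : ∀ t p, R < ‖p‖ → f t p = p (Sum.inl 0) := fun t p hp => by
    simp only [hf]; rw [hstd t p hp]; rfl
  have gstd : ∀ t p, R < ‖p‖ → g t p = p (Sum.inr 0) := fun t p hp => by
    simp only [hg]; rw [hstd t p hp]; rfl
  have hone : ∀ t p, fderiv ℝ (g t) p (hamV (f t) p) = 1 := fun t p => (hEx t).br p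
  -- the flow
  set X : T → Phase (n + 1) → Phase (n + 1) := fun t p => hamV (f t) p with hXdef
  have hX : CF X := CF_hamV cf
  have hX1 : ∀ t p, R < ‖p‖ → X t p = eY 0 := fun t p hp => hamV_of_std (fstd t) hp
  have hXd : ∀ t p, R < ‖p‖ → fderiv ℝ (X t) p = 0 := by
    intro t p hp
    have h1 : X t =ᶠ[𝓝 p] fun _ => eY 0 := by
      filter_upwards [(isOpen_outside R).mem_nhds hp] with q hq
      exact hX1 t q hq
    rw [h1.fderiv_eq]
    exact fderiv_const_apply _
  obtain ⟨ℓ, hℓ0, hℓ⟩ := exists_bound_of_support hX.fderiv.continuous hXd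
  obtain ⟨θ, hθ0, hθd, hθg, hθCF, hval⟩ := exists_global_flow X hX hℓ
  have hL : ∀ t, LipschitzWith (Real.toNNReal ℓ) (X t) := by
    intro t
    apply LipschitzWith.of_dist_le_mul
    intro x y
    rw [dist_eq_norm, dist_eq_norm, Real.coe_toNNReal _ hℓ0]
    exact convex_univ.norm_image_sub_le_of_norm_fderiv_le (𝕜 := ℝ)
      (fun z _ => hX.differentiable t z) (fun z _ => hℓ t z) (mem_univ y) (mem_univ x)
  -- straight motion
  have straight : ∀ t p (c : ℝ), (∀ u ∈ Icc (0 : ℝ) 1, R < ‖p + (u * c) • (eY 0 : Phase (n + 1))‖) →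
      θ t c p = p + c • eY 0 := by
    intro t p c hc
    obtain ⟨r, A, r0, -, hr, -, r1, -⟩ := hval t c p
    have hLc : LipschitzWith (‖c‖₊ * Real.toNNReal ℓ) (fun y => c • X t y) :=
      (lipschitzWith_smul (α := ℝ) (β := Phase (n + 1)) c).comp (hL t)
    have h1 := ode_unique hLc hr (r' := fun u => p + (u * c) • eY 0) (by
      intro s hs
      have h2 : HasDerivAt (fun u : ℝ => p + (u * c) • (eY 0 : Phase (n + 1)))
          ((1 * c) • eY 0) s :=
        (((hasDerivAt_id s).mul_const c).smul_const (eY 0)).const_add p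
      refine h2.congr_deriv ?_
      rw [hX1 t _ (hc s hs), one_mul]) (by simp [r0])
    have h2 := h1 (right_mem_Icc.2 zero_le_one)
    rw [← r1, h2]
    simp only [one_mul]
  have hfix : ∀ c : ℝ, CF (fun t p => θ t c p) := by
    intro c
    have hm : c ∈ Icc (-|c|) |c| := ⟨neg_abs_le c, le_abs_self c⟩
    exact (hθCF |c|).base (h := fun t : T => (t, (⟨c, hm⟩ : Icc (-|c|) |c|)))
      (continuous_id.prodMk continuous_const)
  -- the functions along the flow
  have hgθ : ∀ t (c : ℝ) p, g t (θ t c p) = g t p + c := by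
    intro t c p
    have hd : ∀ s, HasDerivAt (fun s => g t (θ t s p) - s)
        (fderiv ℝ (g t) (θ t s p) (X t (θ t s p)) - 1) s := fun s =>
      ((cg.differentiable t _).hasFDerivAt.comp_hasDerivAt s (hθd t p s)).sub (hasDerivAt_id s)
    have h1 := is_const_of_deriv_eq_zero (f := fun s => g t (θ t s p) - s)
      (fun s => (hd s).differentiableAt) (fun s => by
        rw [(hd s).deriv]
        have := hone t (θ t s p)
        simp only [hXdef]
        rw [this, sub_self]) c 0
    simp only [hθ0, sub_zero] at h1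
    linarith
  have hfθ : ∀ t (c : ℝ) p, f t (θ t c p) = f t p := by
    intro t c p
    have hd : ∀ s, HasDerivAt (fun s => f t (θ t s p))
        (fderiv ℝ (f t) (θ t s p) (X t (θ t s p))) s := fun s =>
      (cf.differentiable t _).hasFDerivAt.comp_hasDerivAt s (hθd t p s)
    have h1 := is_const_of_deriv_eq_zero (f := fun s => f t (θ t s p))
      (fun s => (hd s).differentiableAt) (fun s => by
        rw [(hd s).deriv]; exact fderiv_hamV_self (f t) _) c 0
    simpa only [hθ0] using h1
  have hsymp : ∀ t (c : ℝ) p u v, omegaStd (fderiv ℝ (θ t c) p u) (fderiv ℝ (θ t c) p v) =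
      omegaStd u v := by
    intro t c p u v
    obtain ⟨r, A, r0, A0, hr, hA, r1, A1⟩ := hval t c p
    have hder : ∀ s ∈ Icc (0 : ℝ) 1, HasDerivAt (fun s => omegaStd (A s u) (A s v)) 0 s := by
      intro s hs
      set D := fderiv ℝ (X t) (r s) with hD
      have hau : HasDerivAt (fun s => A s u) ((c • D.comp (A s)) u) s := by
        have := (hA s hs).clm_apply (hasDerivAt_const s u)
        simpa using this
      have hav : HasDerivAt (fun s => A s v) ((c • D.comp (A s)) v) s := by
        have := (hA s hs).clm_apply (hasDerivAt_const s v)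
        simpa using this
      have h1 : HasDerivAt (fun s => omegaStd (A s u) (A s v))
          (omegaStd ((c • D.comp (A s)) u) (A s v) + omegaStd (A s u) ((c • D.comp (A s)) v)) s := by
        exact ((omegaB (n + 1)).hasFDerivAt.comp_hasDerivAt s hau).clm_apply hav
      refine h1.congr_deriv ?_
      have h2 := fderiv_hamV_symm (cf.contDiff t) (r s) (A s u) (A s v)
      have h3 : (c • D.comp (A s)) u = c • (D (A s u)) := rfl
      have h4 : (c • D.comp (A s)) v = c • (D (A s v)) := rfl
      rw [h3, h4, omegaStd_smul_left, omegaStd_smul_right, ← mul_add]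
      have h5 : omegaStd (D (A s u)) (A s v) + omegaStd (A s u) (D (A s v)) = 0 := h2
      rw [h5, mul_zero]
    have hconst := (convex_Icc (0 : ℝ) 1).norm_image_sub_le_of_norm_hasDerivWithin_le
      (f := fun s => omegaStd (A s u) (A s v)) (f' := fun _ => 0) (C := 0)
      (fun t ht => (hder t ht).hasDerivWithinAt)
      (fun t _ => by simp) (left_mem_Icc.2 zero_le_one) (right_mem_Icc.2 zero_le_one)
    rw [zero_mul, norm_le_zero_iff, sub_eq_zero] at hconst
    rw [← A1, hconst, A0]
    simp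
  -- the time needed
  obtain ⟨C, hC0, hC⟩ := exists_bound_of_support (G := fun t (p : Phase (n + 1)) =>
    g t p - p (Sum.inr 0)) (R := R) (cg.continuous.sub
      ((coordL (Sum.inr 0)).continuous.comp continuous_snd)) (by
      intro t p hp
      change g t p - p (Sum.inr 0) = 0
      rw [gstd t p hp, sub_self])
  set τ₀ : ℝ → ℝ := fun b => b + R + 2 * C + 1 with hτ₀
  have hτ₀mono : Monotone τ₀ := by
    intro b b' hab
    simp only [hτ₀]
    linarith
  have hτ₀nn : ∀ b, 0 ≤ b → 0 ≤ τ₀ b := fun b hb => by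
    simp only [hτ₀]; positivity
  have hup : ∀ t (q : Phase (n + 1)) (c : ℝ), 0 ≤ c → R < q (Sum.inr 0) →
      θ t c q = q + c • eY 0 := by
    intro t q c hc hq
    apply straight t q c
    intro u hu
    have h1 := abs_coord_le (q + (u * c) • (eY 0 : Phase (n + 1))) (Sum.inr 0)
    simp only [PiLp.add_apply, PiLp.smul_apply, eY_inr, smul_eq_mul, mul_one] at h1
    have h2 : R < q (Sum.inr 0) + u * c := by nlinarith [hu.1]
    have h3 := le_abs_self (q (Sum.inr 0) + u * c)
    linarith
  have harr : ∀ t (q : Phase (n + 1)) (c : ℝ), τ₀ |q (Sum.inr 0)| ≤ c →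
      R < (θ t c q) (Sum.inr 0) := by
    intro t q c hc
    have h1 := hgθ t c q
    have h2 := hC t (θ t c q)
    have h3 := hC t q
    rw [Real.norm_eq_abs, abs_le] at h2 h3
    have h4 : |q (Sum.inr 0)| + R + 2 * C + 1 ≤ c := hc
    have h5 := neg_abs_le (q (Sum.inr 0))
    linarith [h2.2, h3.1]
  set w : T → Phase (n + 1) → Phase n := fun t p => wW n (θ t (τ₀ |p (Sum.inr 0)|) p) with hwdef
  have hw : ∀ t p (c : ℝ), τ₀ |p (Sum.inr 0)| ≤ c → w t p = wW n (θ t c p) := by
    intro t p c hc
    set c₀ := τ₀ |p (Sum.inr 0)| with hc₀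
    have h1 : θ t c p = θ t (c - c₀) (θ t c₀ p) := by
      rw [← hθg]; congr 1; ring
    rw [h1, hup t _ (c - c₀) (by linarith) (harr t p c₀ le_rfl), map_add, map_smul, wW_eY,
      smul_zero, add_zero]
  have hopen : ∀ b : ℝ, IsOpen {p : Phase (n + 1) | |p (Sum.inr 0)| < b} := fun b =>
    isOpen_lt ((coordL (Sum.inr 0)).continuous.abs) continuous_const
  have cw : CF w := by
    apply CF.of_local
    intro x
    set b := |x (Sum.inr 0)| + 1 with hb
    refine ⟨{p | |p (Sum.inr 0)| < b}, fun t p => wW n (θ t (τ₀ b) p), hopen b,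
      by simp [hb], (hfix _).clm (wW n), ?_⟩
    intro t p hp
    exact hw t p _ (hτ₀mono (le_of_lt hp))
  have hwθ : ∀ t (σ : ℝ) p, w t (θ t σ p) = w t p := by
    intro t σ p
    set c := max (τ₀ |(θ t σ p) (Sum.inr 0)|) (τ₀ |p (Sum.inr 0)| - σ) with hc
    rw [hw t (θ t σ p) c (le_max_left _ _), ← hθg, hw t p (c + σ)]
    have := le_max_right (τ₀ |(θ t σ p) (Sum.inr 0)|) (τ₀ |p (Sum.inr 0)| - σ)
    rw [← hc] at this
    linarith
  -- the derivative of the flow
  have hinv : ∀ t (c : ℝ) p v, ∃ u, fderiv ℝ (θ t c) p u = v := by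
    intro t c p v
    refine ⟨fderiv ℝ (θ t (-c)) (θ t c p) v, ?_⟩
    have h4 : HasFDerivAt (fun q => θ t c (θ t (-c) q))
        ((fderiv ℝ (θ t c) (θ t (-c) (θ t c p))).comp (fderiv ℝ (θ t (-c)) (θ t c p)))
        (θ t c p) :=
      HasFDerivAt.comp _ ((hfix c).differentiable t _).hasFDerivAt
        ((hfix (-c)).differentiable t _).hasFDerivAt
    have h5 : (fun q => θ t c (θ t (-c) q)) = fun q => q := by
      funext q
      rw [← hθg, add_neg_cancel, hθ0]
    have h6 : θ t (-c) (θ t c p) = p := by rw [← hθg, neg_add_cancel, hθ0]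
    rw [h5, h6] at h4
    exact congrArg (fun L : Phase (n + 1) →L[ℝ] Phase (n + 1) => L v)
      (h4.unique (hasFDerivAt_id _))
  have hYθ : ∀ t (c : ℝ) p, fderiv ℝ (θ t c) p (hamV (g t) p) = hamV (g t) (θ t c p) := by
    intro t c p
    rw [← sub_eq_zero]
    apply eq_zero_of_omegaStd
    intro v
    obtain ⟨u, rfl⟩ := hinv t c p v
    rw [omegaStd_sub_left, hsymp, omegaStd_hamV, omegaStd_hamV]
    have h1 : HasFDerivAt (fun q => g t (θ t c q))
        ((fderiv ℝ (g t) (θ t c p)).comp (fderiv ℝ (θ t c) p)) p :=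
      (cg.differentiable t _).hasFDerivAt.comp p ((hfix c).differentiable t _).hasFDerivAt
    have h2 : (fun q => g t (θ t c q)) = fun q => g t q + c := by
      funext q
      exact hgθ t c q
    rw [h2] at h1
    have h3 := h1.unique ((cg.differentiable t p).hasFDerivAt.add_const c)
    have h4 := congrArg (fun L : Phase (n + 1) →L[ℝ] ℝ => L u) h3
    simp only [ContinuousLinearMap.comp_apply] at h4
    rw [h4]
    ring
  have hwY : ∀ t p, fderiv ℝ (w t) p (hamV (g t) p) = 0 := by
    intro t p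
    set b := |p (Sum.inr 0)| + 1 with hb
    have h1 : w t =ᶠ[𝓝 p] fun q => wW n (θ t (τ₀ b) q) := by
      filter_upwards [(hopen b).mem_nhds (show |p (Sum.inr 0)| < b by simp [hb])] with q hq
      exact hw t q _ (hτ₀mono (le_of_lt hq))
    have h2 : HasFDerivAt (fun q => wW n (θ t (τ₀ b) q)) ((wW n).comp (fderiv ℝ (θ t (τ₀ b)) p)) p :=
      (wW n).hasFDerivAt.comp p ((hfix _).differentiable t _).hasFDerivAt
    rw [h1.fderiv_eq, h2.fderiv, ContinuousLinearMap.comp_apply, hYθ]
    have h3 : R < (θ t (τ₀ b) p) (Sum.inr 0) := harr t p _ (hτ₀mono (by simp [hb]))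
    have h4 : R < ‖θ t (τ₀ b) p‖ :=
      lt_of_lt_of_le h3 ((le_abs_self _).trans (abs_coord_le _ _))
    rw [hamV_of_std_inr (gstd t) h4, map_neg, wW_eX, neg_zero]
  have hwX : ∀ t p, fderiv ℝ (w t) p (hamV (f t) p) = 0 := by
    intro t p
    have h1 : HasDerivAt (fun s => w t (θ t s p)) (fderiv ℝ (w t) (θ t 0 p) (X t (θ t 0 p))) 0 :=
      (cw.differentiable t _).hasFDerivAt.comp_hasDerivAt 0 (hθd t p 0)
    have h2 : (fun s => w t (θ t s p)) = fun _ => w t p := by
      funext s
      exact hwθ t s p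
    rw [h2, hθ0] at h1
    exact h1.unique (hasDerivAt_const _ _)
  -- far away
  have hside : ∀ t p, R < ‖side 0 p‖ → w t p = wW n p := by
    intro t p hp
    simp only [hwdef]
    rw [straight t p, map_add, map_smul, wW_eY, smul_zero, add_zero]
    intro u hu
    refine lt_of_lt_of_le ?_ (norm_side_le 0 _)
    rw [side_add_smul]
    exact hp
  have hhor : ∀ t p, R < |p (Sum.inr 0)| → w t p = wW n p := by
    intro t p hp
    have hnorm : ∀ s : ℝ, R < ‖p + s • (eX 0 : Phase (n + 1))‖ := by
      intro s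
      have h1 := abs_coord_le (p + s • (eX 0 : Phase (n + 1))) (Sum.inr 0)
      simp only [PiLp.add_apply, PiLp.smul_apply, smul_eq_mul] at h1
      have h2 : (eX 0 : Phase (n + 1)) (Sum.inr 0) = 0 := by simp [eX]
      rw [h2, mul_zero, add_zero] at h1
      linarith
    have hd : ∀ s : ℝ, HasDerivAt (fun s : ℝ => w t (p + s • eX 0)) 0 s := by
      intro s
      have h2 : HasDerivAt (fun s : ℝ => p + s • (eX 0 : Phase (n + 1))) ((1 : ℝ) • eX 0) s :=
        ((hasDerivAt_id s).smul_const (eX 0)).const_add p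
      have h3 := (cw.differentiable t (p + s • eX 0)).hasFDerivAt.comp_hasDerivAt s h2
      refine h3.congr_deriv ?_
      have h4 := hwY t (p + s • eX 0)
      rw [hamV_of_std_inr (gstd t) (hnorm s), map_neg, neg_eq_zero] at h4
      rw [one_smul, h4]
    have h1 : ∀ s : ℝ, w t (p + s • eX 0) = w t p := by
      intro s
      have := is_const_of_deriv_eq_zero (f := fun s : ℝ => w t (p + s • eX 0))
        (fun s => (hd s).differentiableAt) (fun s => (hd s).deriv) s 0
      simpa using this
    set s : ℝ := R + 1 + |p (Sum.inl 0)| with hs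
    rw [← h1 s, hside t, map_add, map_smul, wW_eX, smul_zero, add_zero]
    have h5 := abs_coord_le (side 0 (p + s • (eX 0 : Phase (n + 1)))) (Sum.inl 0)
    have h6 : (side 0 (p + s • (eX 0 : Phase (n + 1)))) (Sum.inl 0) = p (Sum.inl 0) + s := by
      simp [side, eX, eY]
    rw [h6] at h5
    have h7 := le_abs_self (p (Sum.inl 0) + s)
    have h8 := neg_abs_le (p (Sum.inl 0))
    linarith
  refine ⟨2 * R, w, θ, ?_, cw, ?_, ?_, ?_, ?_, ?_, ?_, ?_, ?_⟩
  · have := le_max_left R₀ 0
    linarith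
  · intro t p hp
    rcases lt_or_ge R |p (Sum.inr 0)| with h | h
    · exact hhor t p h
    · apply hside t p
      have := le_side_add 0 p
      linarith
  · exact hwX
  · exact hwY
  · intro t σ
    exact (hfix σ).contDiff t
  · exact hsymp
  · intro t σ p
    apply Complex.ext
    · have := hfθ t σ p
      simpa [hf] using this
    · have := hgθ t σ p
      simpa [hg] using this
  · exact hwθ
  · intro t p
    refine ⟨2 * R + 1 + 2 * C + |p (Sum.inr 0)|, ?_⟩
    have h1 := hgθ t (2 * R + 1 + 2 * C + |p (Sum.inr 0)|) p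
    have h2 := hC t (θ t (2 * R + 1 + 2 * C + |p (Sum.inr 0)|) p)
    have h3 := hC t p
    rw [Real.norm_eq_abs, abs_le] at h2 h3
    have h4 := neg_abs_le (p (Sum.inr 0))
    have h5 := (le_abs_self _).trans
      (abs_coord_le (θ t (2 * R + 1 + 2 * C + |p (Sum.inr 0)|) p) (Sum.inr 0))
    linarith [h2.2, h3.1]

end Pool.Agent.CRC
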