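import Pool.Agent.CRC.BRK

/-!
# CRC, module EXP: change of the phase of an exact pair (helper40)
-/

set_option autoImplicit false
set_option maxSynthPendingDepth 3

open scoped ContDiff Topology
open Set Function TopologicalSpace Filter

namespace Pool.Agent.CRC

open Pool.Agent.Helper17 Pool.Agent.Helper42 Pool.Agent.H50.Susp

namespace EXP

variable {N : ℕ}

lemma continuous_pb {f g : Phase N → ℝ} (hf : ContDiff ℝ ∞ f) (hg : ContDiff ℝ ∞ g) :
    Continuous (pb f g) := by
  unfold pb
  refine (hg.continuous_fderiv (by simp)).clm_apply ?_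
  unfold hamV
  exact ((sharp N).continuous.comp (hf.continuous_fderiv (by simp))).neg

lemma contDiff_half {f : Phase N → ℝ} {a : Phase N → ℂ} (ha : ContDiff ℝ ∞ a)
    (h : ∀ p, ‖a p‖ ^ 2 = 2 * f p) : ContDiff ℝ ∞ f := by
  have hx : ContDiff ℝ ∞ fun q => (a q).re := Complex.reCLM.contDiff.comp ha
  have hy : ContDiff ℝ ∞ fun q => (a q).im := Complex.imCLM.contDiff.comp ha
  have hf : f = fun q => ((a q).re * (a q).re + (a q).im * (a q).im) * (2 : ℝ)⁻¹ := by
    funext q
    have h4 := h q
    rw [Complex.sq_norm, Complex.normSq_apply] at h4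
    linarith
  rw [hf]
  exact ((hx.mul hx).add (hy.mul hy)).mul contDiff_const

/-- the derivative along the Hamiltonian field of `f` -/
lemma fderiv_ham {f : Phase N → ℝ} {a : Phase N → ℂ} (ha : ContDiff ℝ ∞ a)
    (h : ∀ p, ‖a p‖ ^ 2 = 2 * f p) (p : Phase N) : fderiv ℝ a p (hamV f p) =
      Complex.I * a p * (pb (fun q => (a q).re) (fun q => (a q).im) p : ℝ) := by
  have h4 := BRK.pb_re ha h p
  have h5 := BRK.pb_im ha h p
  rw [BRK.fderiv_cpx ha]
  apply Complex.ext
  · simp only [Complex.mul_re, Complex.mul_im, Complex.I_re, Complex.I_im, Complex.ofReal_re,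
      Complex.ofReal_im, zero_mul, one_mul, zero_sub, mul_zero, sub_zero]
    rw [neg_mul]
    exact h4
  · simp only [Complex.mul_re, Complex.mul_im, Complex.I_re, Complex.I_im, Complex.ofReal_re,
      Complex.ofReal_im, zero_mul, one_mul, zero_add, mul_zero]
    exact h5

lemma smooth_b {a : Phase N → ℂ} {η : Phase N → ℝ} (ha : ContDiff ℝ ∞ a)
    (hη : ContDiff ℝ ∞ η) : ContDiff ℝ ∞ fun p => a p * Complex.exp (η p * Complex.I) :=
  ha.mul ((((Complex.ofRealCLM.contDiff (𝕜 := ℝ)).comp hη).mul contDiff_const).cexp)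

lemma norm_b (a : Phase N → ℂ) (η : Phase N → ℝ) (p : Phase N) :
    ‖a p * Complex.exp (η p * Complex.I)‖ = ‖a p‖ := by
  rw [norm_mul, Complex.norm_exp_ofReal_mul_I, mul_one]

lemma br_b {f : Phase N → ℝ} {a : Phase N → ℂ} {η : Phase N → ℝ} (ha : ContDiff ℝ ∞ a)
    (hη : ContDiff ℝ ∞ η) (h : ∀ p, ‖a p‖ ^ 2 = 2 * f p) (p : Phase N) (hp : a p ≠ 0)
    (h1 : pb (fun q => (a q).re) (fun q => (a q).im) p = 1) :
    pb (fun q => (a q * Complex.exp (η q * Complex.I)).re)
      (fun q => (a q * Complex.exp (η q * Complex.I)).im) p = 1 + pb f η p := by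
  have hb := smooth_b ha hη
  have hbn : ∀ p, ‖a p * Complex.exp (η p * Complex.I)‖ ^ 2 = 2 * f p := fun p => by
    rw [norm_b, h]
  have h2 := fderiv_ham hb hbn p
  have h3 := fderiv_ham ha h p
  rw [h1, Complex.ofReal_one, mul_one] at h3
  have h4 : HasFDerivAt η (fderiv ℝ η p) p := (hη.differentiable (by simp) p).hasFDerivAt
  have h5 : HasFDerivAt a (fderiv ℝ a p) p := (ha.differentiable (by simp) p).hasFDerivAt
  have h6 : HasFDerivAt (fun q => (η q : ℂ) * Complex.I)
      ((ContinuousLinearMap.smulRight (fderiv ℝ η p) Complex.I)) p := by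
    have h7 := h4.smul_const Complex.I
    refine h7.congr_of_eventuallyEq (Eventually.of_forall fun q => ?_)
    exact (Complex.real_smul).symm
  have h7 := h5.mul h6.cexp
  have h7' : fderiv ℝ (fun p => a p * Complex.exp (η p * Complex.I)) p = _ := h7.fderiv
  rw [h7'] at h2
  simp only [smul_apply, add_apply, smul_eq_mul, ContinuousLinearMap.smulRight_apply,
    Complex.real_smul, h3] at h2
  have h8 : Complex.exp (η p * Complex.I) ≠ 0 := Complex.exp_ne_zero _
  have h9 : Complex.I * a p * Complex.exp (η p * Complex.I) *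
      ((pb (fun q => (a q * Complex.exp (η q * Complex.I)).re)
      (fun q => (a q * Complex.exp (η q * Complex.I)).im) p : ℝ) : ℂ) =
      Complex.I * a p * Complex.exp (η p * Complex.I) * ((1 + pb f η p : ℝ) : ℂ) := by
    have h10 : ((pb f η p : ℝ) : ℂ) = ((fderiv ℝ η p (hamV f p) : ℝ) : ℂ) := rfl
    rw [Complex.ofReal_add, Complex.ofReal_one, h10]
    linear_combination -h2
  exact_mod_cast mul_left_cancel₀ (mul_ne_zero (mul_ne_zero Complex.I_ne_zero hp) h8) h9

end EXP

theorem thm_EXP : St_EXP := by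
  intro n R f a η ha h hη h0
  have hb := EXP.smooth_b ha.smooth hη
  have hf := EXP.contDiff_half ha.smooth h
  have hre : ContDiff ℝ ∞ fun q => (a q * Complex.exp (η q * Complex.I)).re :=
    Complex.reCLM.contDiff.comp hb
  have him : ContDiff ℝ ∞ fun q => (a q * Complex.exp (η q * Complex.I)).im :=
    Complex.imCLM.contDiff.comp hb
  have heq := Continuous.ext_on (BRK.four R a ha) (EXP.continuous_pb hre him)
    (continuous_const.add (EXP.continuous_pb hf hη)) (g := fun p => 1 + pb f η p)
    fun p hp => EXP.br_b ha.smooth hη h p hp (ha.br p)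
  constructor
  · intro hE p
    have h1 := congrFun heq p
    rw [hE.br p] at h1
    linarith
  · intro hz
    refine ⟨hb, fun p hp => ?_, fun p => ?_⟩
    · show a p * Complex.exp (η p * Complex.I) = zz p
      rw [h0 p hp, ha.std p hp, Complex.ofReal_zero, zero_mul, Complex.exp_zero, mul_one]
    · rw [congrFun heq p, hz p, add_zero]

end Pool.Agent.CRC
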