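import Pool.Agent.CRC.St
import Pool.Agent.CRC.Basic

/-!
# CRC, module EXR: exact pairs are coordinates of symplectomorphisms
-/

set_option autoImplicit false

open scoped ContDiff Topology
open Set Function TopologicalSpace

namespace Pool.Agent.CRC

open Pool.Agent.Helper17 Pool.Agent.Helper42 Pool.Agent.H50.Susp

namespace EXR

/-- a smooth map which is a translation up to a symplectic map, and the identity near the image -/
theorem symp_of_translate {N : ℕ} (F θ : Phase N → Phase N) (c : Phase N) (R' : ℝ)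
    (hF : ContDiff ℝ ∞ F) (hθ : ContDiff ℝ ∞ θ) (hid : ∀ p, R' < ‖p‖ → F p = p)
    (hFθ : ∀ p, F (θ p) = F p + c) (p : Phase N) (hp : R' < ‖θ p‖) (u : Phase N) :
    fderiv ℝ F p u = fderiv ℝ θ p u := by
  have h1 : fderiv ℝ F (θ p) = ContinuousLinearMap.id ℝ (Phase N) := by
    have hev : F =ᶠ[𝓝 (θ p)] id := by
      have hop : IsOpen {q : Phase N | R' < ‖q‖} := isOpen_lt continuous_const continuous_norm
      exact Filter.eventuallyEq_of_mem (hop.mem_nhds hp) fun q hq => hid q hq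
    rw [hev.fderiv_eq, fderiv_id]
  have h2 : fderiv ℝ (fun q => F (θ q)) p = (fderiv ℝ F (θ p)).comp (fderiv ℝ θ p) :=
    fderiv_comp p (hF.differentiable (by simp) _) (hθ.differentiable (by simp) _)
  have h3 : fderiv ℝ (fun q => F (θ q)) p = fderiv ℝ F p := by
    have h4 : (fun q => F (θ q)) = fun q => F q + c := funext hFθ
    rw [h4, fderiv_add_const]
  rw [← h3, h2, h1]
  rfl

end EXR

/-- **EXR** -/
theorem thm_EXR (hEXA : St_EXA) : St_EXR := by
  intro n T _ _ R a ha hEx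
  obtain ⟨R', w, θ, hRR, hw, hwstd, -, -, hθs, hθo, haθ, hwθ, hfar⟩ := hEXA n T R a ha hEx
  have hFcf : CF (fun (t : T) (p : Phase (n + 1)) => mkZ (a t p) (w t p)) :=
    CF.clm (zwE n).symm.toContinuousLinearMap (CF.prodMk ha hw)
  have hFs : ∀ t, ContDiff ℝ ∞ (fun p : Phase (n + 1) => mkZ (a t p) (w t p)) :=
    fun t => hFcf.contDiff t
  have hFid : ∀ t p, R' < ‖p‖ → mkZ (a t p) (w t p) = p := by
    intro t p hp
    rw [(hEx t).std p (hRR.trans_lt hp), hwstd t p hp, mkZ_eta]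
  have hFθ : ∀ t σ p, mkZ (a t (θ t σ p)) (w t (θ t σ p)) =
      mkZ (a t p) (w t p) + mkZ ((σ : ℂ) * Complex.I) 0 := by
    intro t σ p
    rw [haθ, hwθ, ← mkZ_add, add_zero]
  have hsymp : ∀ t p u v, omegaStd (fderiv ℝ (fun p : Phase (n + 1) => mkZ (a t p) (w t p)) p u)
      (fderiv ℝ (fun p : Phase (n + 1) => mkZ (a t p) (w t p)) p v) = omegaStd u v := by
    intro t p u v
    obtain ⟨σ, hσ⟩ := hfar t p
    rw [EXR.symp_of_translate _ (θ t σ) _ R' (hFs t) (hθs t σ) (hFid t) (hFθ t σ) p hσ u,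
      EXR.symp_of_translate _ (θ t σ) _ R' (hFs t) (hθs t σ) (hFid t) (hFθ t σ) p hσ v, hθo]
  have hK : ∀ t, ∀ x ∉ Metric.closedBall (0 : Phase (n + 1)) R', mkZ (a t x) (w t x) = x := by
    intro t x hx
    refine hFid t x ?_
    rw [Metric.mem_closedBall, dist_zero_right, not_le] at hx
    exact hx
  refine ⟨fun t => mkSymp (fun p => mkZ (a t p) (w t p)) (hFs t)
    ⟨Metric.closedBall 0 R', isCompact_closedBall 0 R', hK t⟩ (hsymp t), ?_, ?_⟩
  · exact continuous_of_CF hFcf ⟨Metric.closedBall 0 R', isCompact_closedBall 0 R'⟩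
      (fun t x hx => hK t x hx) (fun t x => rfl)
  · intro t p
    rw [mkSymp_apply, zz_mkZ]

end Pool.Agent.CRC
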