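import Pool.Agent.CRC.St
import Pool.Agent.CRC.Basic
import Pool.Agent.Helper42.Susp.GroupOps

/-!
# CRC, module FIB: exact pairs with the same modulus differ by a phase

Circle theorem for MP_ec5dc5_gt (architect helper16).
-/

set_option autoImplicit false

open scoped ContDiff Topology
open Set Function TopologicalSpace

namespace Pool.Agent.CRC

open Pool.Agent.Helper17 Pool.Agent.Helper42 Pool.Agent.H50.Susp

section

variable {n : ℕ}

/-- the modulus of an exact pair is a circle Hamiltonian -/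
lemma FIB_circ (hMOM : St_MOM) {R : ℝ} {a : Phase (n + 1) → ℂ} (ha : Ex R a)
    (φ : SympCt (n + 1)) (hφ : ∀ p, zz ((φ : Equiv.Perm (Phase (n + 1))) p) = a p) :
    Circ R (fun p => mu ((φ : Equiv.Perm (Phase (n + 1))) p)) where
  smooth := contDiff_mu.comp φ.2.1
  std p hp := by
    rw [mu_eq, hφ, ha.std p hp, ← mu_eq]
  per c hc := by
    have h1 := (hMOM n φ c).1 (fun s => by
      have h2 := hc s
      rw [hamField_eqV] at h2
      exact h2)
    intro s
    rw [h1, h1 s, rot_two_pi]

/-- the flow of the modulus of an exact pair -/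
lemma FIB_flow (hMOM : St_MOM) {R : ℝ} (φ : SympCt (n + 1))
    {Φ : ℝ → Phase (n + 1) → Phase (n + 1)}
    (hΦ : Fl R (fun p => mu ((φ : Equiv.Perm (Phase (n + 1))) p)) Φ) (s : ℝ)
    (p : Phase (n + 1)) : Φ s p = (φ : Equiv.Perm (Phase (n + 1))).symm
      (rot s ((φ : Equiv.Perm (Phase (n + 1))) p)) := by
  have h1 := (hMOM n φ (fun s => Φ s p)).1 (fun s => hΦ.der s p) s
  simp only [hΦ.zero] at h1
  exact h1

end

theorem thm_FIB (hEXR : St_EXR) (hBRK : St_BRK) (hMOM : St_MOM) (hDIV : St_DIV) (hLOG : St_LOG)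
    (hFLW : St_FLW) : St_FIB := by
  intro n R
  refine ⟨?_, ?_⟩
  · intro T _ _ a b ha hb hea heb hab
    obtain ⟨φ, hφc, hφ⟩ := hEXR n T R a ha hea
    obtain ⟨hφCF, -⟩ := CF_of_continuous hφc
    obtain ⟨hψCF, -⟩ := CF_of_continuous (continuous_inv_family hφc)
    have hψ : ∀ t x, (((φ t)⁻¹ : SympCt (n + 1)) : Equiv.Perm (Phase (n + 1))) x =
        (φ t : Equiv.Perm (Phase (n + 1))).symm x := fun t x => rfl
    -- the Hamiltonians and their flows
    have hfCF : CF (fun t p => mu ((φ t : Equiv.Perm (Phase (n + 1))) p)) :=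
      hφCF.comp_smooth (g := mu) (fun _ _ => contDiff_mu.contDiffAt)
    obtain ⟨Φ, -, hΦ⟩ := hFLW n T R _ hfCF (fun t => FIB_circ hMOM (hea t) (φ t) (hφ t))
    have hnb : ∀ t p, ‖b t p‖ ^ 2 = 2 * mu ((φ t : Equiv.Perm (Phase (n + 1))) p) := by
      intro t p
      rw [← hab, mu_eq, hφ]
      ring
    have hwt : ∀ t s p, b t ((φ t : Equiv.Perm (Phase (n + 1))).symm (rot s p)) =
        Complex.exp (s * Complex.I) * b t ((φ t : Equiv.Perm (Phase (n + 1))).symm p) := by
      intro t s p
      have h1 := (hBRK n).2.1 R R _ (Φ t) (b t) (hΦ t) (heb t) (hnb t) s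
        ((φ t : Equiv.Perm (Phase (n + 1))).symm p)
      rw [FIB_flow hMOM (φ t) (hΦ t), Equiv.apply_symm_apply] at h1
      exact h1
    -- division
    have hb' : CF (fun t (q : ℂ × Phase n) =>
        b t ((φ t : Equiv.Perm (Phase (n + 1))).symm (mkZ q.1 q.2))) := by
      have h1 : CF (fun (t : T) (q : ℂ × Phase n) => (mkZ q.1 q.2 : Phase (n + 1))) :=
        CF.const contDiff_mkZ
      exact hb.comp (hψCF.comp h1)
    obtain ⟨B, hB, hbB, hBi⟩ := (hDIV T (Phase n)).1 _ hb' (by
      intro t s z w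
      have h1 := hwt t s (mkZ z w)
      rw [rot_mkZ] at h1
      exact h1)
    have hzφ : CF (fun t p => ((zz ((φ t : Equiv.Perm (Phase (n + 1))) p),
        wW n ((φ t : Equiv.Perm (Phase (n + 1))) p)) : ℂ × Phase n)) :=
      (hφCF.clm (zzL n)).prodMk (hφCF.clm (wW n))
    have hB' : CF (fun t p => B t (zz ((φ t : Equiv.Perm (Phase (n + 1))) p),
        wW n ((φ t : Equiv.Perm (Phase (n + 1))) p))) := hB.comp hzφ
    have heq : ∀ t p, b t p = a t p * B t (zz ((φ t : Equiv.Perm (Phase (n + 1))) p),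
        wW n ((φ t : Equiv.Perm (Phase (n + 1))) p)) := by
      intro t p
      have h1 : b t ((φ t : Equiv.Perm (Phase (n + 1))).symm
          (mkZ (zz ((φ t : Equiv.Perm (Phase (n + 1))) p))
            (wW n ((φ t : Equiv.Perm (Phase (n + 1))) p)))) = _ :=
        hbB t (zz ((φ t : Equiv.Perm (Phase (n + 1))) p))
          (wW n ((φ t : Equiv.Perm (Phase (n + 1))) p))
      rw [mkZ_eta, Equiv.symm_apply_apply] at h1
      rw [← hφ t p]
      exact h1
    have hcont : ∀ t, Continuous (fun p => B t (zz ((φ t : Equiv.Perm (Phase (n + 1))) p),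
        wW n ((φ t : Equiv.Perm (Phase (n + 1))) p))) := fun t => (hB'.contDiff t).continuous
    have hnorm : ∀ t p, ‖B t (zz ((φ t : Equiv.Perm (Phase (n + 1))) p),
        wW n ((φ t : Equiv.Perm (Phase (n + 1))) p))‖ = 1 := by
      intro t
      have h1 := Continuous.ext_on ((hBRK n).2.2.2 R (a t) (hea t)) (hcont t).norm
        (continuous_const (y := (1 : ℝ))) (by
          intro p hp
          have h2 : ‖a t p‖ ≠ 0 := norm_ne_zero_iff.2 hp
          have h3 := hab t p
          rw [heq t p, norm_mul] at h3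
          exact mul_left_cancel₀ h2 (by rw [← h3, mul_one]))
      exact fun p => congrFun h1 p
    have hout : ∀ t p, R < ‖p‖ → B t (zz ((φ t : Equiv.Perm (Phase (n + 1))) p),
        wW n ((φ t : Equiv.Perm (Phase (n + 1))) p)) = 1 := by
      intro t p hp
      have hO : IsOpen {p : Phase (n + 1) | R < ‖p‖} := isOpen_lt continuous_const continuous_norm
      have hd := (hBRK n).2.2.2 R (a t) (hea t)
      have hcl : p ∈ closure ({p : Phase (n + 1) | R < ‖p‖} ∩ {p | a t p ≠ 0}) :=
        hd.open_subset_closure_inter hO hp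
      have hS : IsClosed {p : Phase (n + 1) | B t (zz ((φ t : Equiv.Perm (Phase (n + 1))) p),
          wW n ((φ t : Equiv.Perm (Phase (n + 1))) p)) = 1} :=
        isClosed_eq (hcont t) continuous_const
      refine closure_minimal ?_ hS hcl
      rintro q ⟨hq, hq0⟩
      have h3 := heq t q
      rw [(heb t).std q hq, (hea t).std q hq] at h3
      have hq1 : zz q ≠ 0 := by
        rw [← (hea t).std q hq]
        exact hq0
      exact mul_left_cancel₀ hq1 (by rw [← h3, mul_one])
    obtain ⟨η, hη, hη0, hηB⟩ := (hLOG n R).1 T _ hB' hnorm hout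
    refine ⟨η, hη, hη0, fun t p => ?_⟩
    rw [← hηB, ← heq]
  · intro a η η' hea hη hη' h0 h0' h
    refine (hLOG n R).2 η η' hη hη' h0 h0' ?_
    have hc : ∀ {η : Phase (n + 1) → ℝ}, Continuous η →
        Continuous (fun p => Complex.exp (η p * Complex.I)) := fun hη =>
      ((Complex.continuous_ofReal.comp hη).mul continuous_const).cexp
    have h1 := Continuous.ext_on ((hBRK n).2.2.2 R a hea) (hc hη) (hc hη') (by
      intro p hp
      exact mul_left_cancel₀ hp (h p))
    exact fun p => congrFun h1 p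

end Pool.Agent.CRC
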