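import Pool.Agent.CRC.St
import Pool.Agent.CRC.Basic

/-!
# CRC LO2: local lifts everywhere
-/

set_option autoImplicit false

open scoped ContDiff Topology
open Set Function TopologicalSpace

namespace Pool.Agent.CRC

open Pool.Agent.Helper17 Pool.Agent.Helper42 Pool.Agent.H50.Susp

/-- Symplectomorphisms transport Hamiltonian fields. -/
lemma fderiv_symp_hamV {N : ℕ} (φ : SympCt N) {g : Phase N → ℝ} (hg : Differentiable ℝ g)
    (p : Phase N) :
    fderiv ℝ (φ : Equiv.Perm (Phase N)) p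
      (hamV (fun q => g ((φ : Equiv.Perm (Phase N)) q)) p) =
      hamV g ((φ : Equiv.Perm (Phase N)) p) := by
  rw [← sub_eq_zero]
  apply eq_zero_of_omegaStd
  intro w
  have hw : fderiv ℝ (φ : Equiv.Perm (Phase N)) p
      (fderiv ℝ ((φ⁻¹ : SympCt N) : Equiv.Perm (Phase N)) ((φ : Equiv.Perm (Phase N)) p) w) = w := by
    have h := SympCt.fderiv_fderiv_inv φ ((φ : Equiv.Perm (Phase N)) p) w
    rwa [SympCt.inv_apply_self] at h
  set v := fderiv ℝ ((φ⁻¹ : SympCt N) : Equiv.Perm (Phase N)) ((φ : Equiv.Perm (Phase N)) p) w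
  have hc : fderiv ℝ (fun q => g ((φ : Equiv.Perm (Phase N)) q)) p v =
      fderiv ℝ g ((φ : Equiv.Perm (Phase N)) p) (fderiv ℝ (φ : Equiv.Perm (Phase N)) p v) := by
    have h := ((hg ((φ : Equiv.Perm (Phase N)) p)).hasFDerivAt.comp p
      (SympCt.differentiable φ p).hasFDerivAt).fderiv
    exact congrArg (fun L : Phase N →L[ℝ] ℝ => L v) h
  rw [omegaStd_sub_left, omegaStd_hamV]
  conv_lhs => enter [1]; rw [← hw]
  rw [φ.2.2.2.1 p, omegaStd_hamV, hc, hw]
  ring

lemma symp_orbit {N : ℕ} (φ : SympCt N) {g : Phase N → ℝ} (hg : Differentiable ℝ g)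
    {c : ℝ → Phase N}
    (hc : ∀ s, HasDerivAt c (hamV (fun q => g ((φ : Equiv.Perm (Phase N)) q)) (c s)) s) (s : ℝ) :
    HasDerivAt (fun s => (φ : Equiv.Perm (Phase N)) (c s))
      (hamV g ((φ : Equiv.Perm (Phase N)) (c s))) s := by
  have h := (SympCt.differentiable φ (c s)).hasFDerivAt.comp_hasDerivAt s (hc s)
  rw [fderiv_symp_hamV φ hg] at h
  exact h

lemma symp_symm_eq {N : ℕ} (φ : SympCt N) (p : Phase N) :
    (φ : Equiv.Perm (Phase N)).symm p = ((φ⁻¹ : SympCt N) : Equiv.Perm (Phase N)) p := rfl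

lemma exists_symp_radius {N : ℕ} (φ : SympCt N) (R : ℝ) : ∃ R' : ℝ, R ≤ R' ∧
    (∀ p : Phase N, R' < ‖p‖ → (φ : Equiv.Perm (Phase N)) p = p) ∧
    ∀ p : Phase N, R' < ‖p‖ → ((φ⁻¹ : SympCt N) : Equiv.Perm (Phase N)) p = p := by
  obtain ⟨K, hK, hφ⟩ := φ.2.2.2.2
  obtain ⟨r, hr⟩ := hK.isBounded.subset_closedBall (0 : Phase N)
  have h1 : ∀ p : Phase N, max R r < ‖p‖ → (φ : Equiv.Perm (Phase N)) p = p := by
    intro p hp
    apply hφ
    intro hpK
    have := hr hpK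
    rw [mem_closedBall_zero_iff] at this
    exact absurd hp (not_lt.2 (this.trans (le_max_right _ _)))
  refine ⟨max R r, le_max_left _ _, h1, fun p hp => ?_⟩
  conv_lhs => rw [← h1 p hp]
  exact SympCt.inv_apply_self φ p

lemma Circ.comp_symp {n : ℕ} {R R' : ℝ} {f : Phase (n + 1) → ℝ} (hf : Circ R f)
    (φ : SympCt (n + 1)) (hR : R ≤ R')
    (hφ : ∀ p, R' < ‖p‖ → (φ : Equiv.Perm (Phase (n + 1))) p = p) :
    Circ R' (fun p => f ((φ : Equiv.Perm (Phase (n + 1))) p)) := by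
  refine ⟨hf.smooth.comp (SympCt.contDiff φ), fun p hp => ?_, fun c hc => ?_⟩
  · rw [hφ p hp, hf.std p (hR.trans_lt hp)]
  · have h1 : ∀ s, HasDerivAt c
        (hamV (fun q => f ((φ : Equiv.Perm (Phase (n + 1))) q)) (c s)) s := by
      intro s
      rw [← hamField_eqV]
      exact hc s
    have h2 := symp_orbit φ (hf.smooth.differentiable (by simp)) h1
    have h3 := hf.per (fun s => (φ : Equiv.Perm (Phase (n + 1))) (c s)) (fun s => by
      rw [hamField_eqV]
      exact h2 s)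
    intro s
    exact (φ : Equiv.Perm (Phase (n + 1))).injective (h3 s)

lemma pb_comp_symp {N : ℕ} (φ : SympCt N) {f g : Phase N → ℝ} (hf : Differentiable ℝ f)
    (hg : Differentiable ℝ g) (p : Phase N) :
    pb (fun q => f ((φ : Equiv.Perm (Phase N)) q)) (fun q => g ((φ : Equiv.Perm (Phase N)) q)) p =
      pb f g ((φ : Equiv.Perm (Phase N)) p) := by
  have h := ((hg ((φ : Equiv.Perm (Phase N)) p)).hasFDerivAt.comp p
      (SympCt.differentiable φ p).hasFDerivAt).fderiv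
  rw [pb, pb, ← fderiv_symp_hamV φ hf]
  exact congrArg (fun L : Phase N →L[ℝ] ℝ => L _) h

lemma Ex.comp_symp {n : ℕ} {R R' : ℝ} {a : Phase (n + 1) → ℂ} (ha : Ex R a)
    (φ : SympCt (n + 1)) (hR : R ≤ R')
    (hφ : ∀ p, R' < ‖p‖ → (φ : Equiv.Perm (Phase (n + 1))) p = p) :
    Ex R' (fun p => a ((φ : Equiv.Perm (Phase (n + 1))) p)) := by
  refine ⟨ha.smooth.comp (SympCt.contDiff φ), fun p hp => ?_, fun p => ?_⟩
  · rw [hφ p hp, ha.std p (hR.trans_lt hp)]
  · have hd : Differentiable ℝ a := ha.smooth.differentiable (by simp)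
    have h1 : Differentiable ℝ (fun q => (a q).re) := Complex.reCLM.differentiable.comp hd
    have h2 : Differentiable ℝ (fun q => (a q).im) := Complex.imCLM.differentiable.comp hd
    rw [← ha.br ((φ : Equiv.Perm (Phase (n + 1))) p)]
    exact pb_comp_symp φ h1 h2 p

theorem thm_LO2 (hLOC : St_LOC) : St_LO2 := by
  intro n T _ _ _ R f t₀ φ hf hc h0
  obtain ⟨R', hR, h1, h2⟩ := exists_symp_radius φ R
  obtain ⟨C, hC, ht, a, ha, hE, hn⟩ := hLOC n T R'
    (fun t p => f t (((φ⁻¹ : SympCt (n + 1)) : Equiv.Perm (Phase (n + 1))) p)) t₀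
    (hf.comp (CF.const (SympCt.contDiff φ⁻¹))) (fun t => (hc t).comp_symp φ⁻¹ hR h2)
    (fun p => by
      change f t₀ _ = _
      rw [h0, SympCt.apply_inv_self])
  refine ⟨C, R', hC, ht, fun t p => a t ((φ : Equiv.Perm (Phase (n + 1))) p),
    ha.comp (CF.const (SympCt.contDiff φ)), fun t => (hE t).comp_symp φ le_rfl h1, fun t p => ?_⟩
  rw [hn]
  change 2 * f t _ = _
  rw [SympCt.inv_apply_self]

end Pool.Agent.CRC
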