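import Pool.Agent.CRC.St
import Pool.Agent.CRC.Basic
import Pool.Agent.CRC.LO2

/-!
# CRC FIN: the theorem
-/

set_option autoImplicit false

open scoped ContDiff Topology
open Set Function TopologicalSpace

namespace Pool.Agent.CRC

open Pool.Agent.Helper17 Pool.Agent.Helper42 Pool.Agent.H50.Susp

lemma norm_zz_sq_eq {n : ℕ} (p : Phase (n + 1)) : ‖zz p‖ ^ 2 = 2 * mu p := by
  rw [mu_eq]
  ring

lemma exists_radius_of_hasCompactSupport {N : ℕ} {η : Phase N → ℝ} (h : HasCompactSupport η)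
    (R : ℝ) : ∃ R' : ℝ, R ≤ R' ∧ ∀ p, R' < ‖p‖ → η p = 0 := by
  obtain ⟨r, hr⟩ := h.isCompact.isBounded.subset_closedBall (0 : Phase N)
  refine ⟨max R r, le_max_left _ _, fun p hp => ?_⟩
  by_contra hne
  have h1 := hr (subset_tsupport η hne)
  rw [mem_closedBall_zero_iff] at h1
  exact absurd hp (not_lt.2 (h1.trans (le_max_right _ _)))

lemma hasCompactSupport_of_radius {N : ℕ} {η : Phase N → ℝ} {R : ℝ}
    (h : ∀ p, R < ‖p‖ → η p = 0) : HasCompactSupport η := by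
  refine HasCompactSupport.intro (isCompact_closedBall (0 : Phase N) R) fun p hp => ?_
  rw [mem_closedBall_zero_iff, not_le] at hp
  exact h p hp

/-- Two symplectomorphisms with the same `|z_0| ^ 2 / 2`. -/
lemma exists_phase (hFIB : St_FIB) (hEXP : St_EXP) (hBRK : St_BRK) {n : ℕ}
    (φ ψ : SympCt (n + 1))
    (h : ∀ p, mu ((ψ : Equiv.Perm (Phase (n + 1))) p) = mu ((φ : Equiv.Perm (Phase (n + 1))) p)) :
    ∃ η : Phase (n + 1) → ℝ, ContDiff ℝ ∞ η ∧ HasCompactSupport η ∧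
      (∀ p, fderiv ℝ η p
        (hamField (fun q => mu ((φ : Equiv.Perm (Phase (n + 1))) q)) p) = 0) ∧
      ∀ p, zz ((ψ : Equiv.Perm (Phase (n + 1))) p) =
        zz ((φ : Equiv.Perm (Phase (n + 1))) p) * Complex.exp (η p * Complex.I) := by
  obtain ⟨R, -, hφ, -⟩ := exists_symp_radius φ 0
  obtain ⟨R', hR', hψ, -⟩ := exists_symp_radius ψ R
  have ha : Ex R' (fun p => zz ((φ : Equiv.Perm (Phase (n + 1))) p)) :=
    (hBRK n).2.2.1 R' φ fun p hp => hφ p (hR'.trans_lt hp)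
  have hb : Ex R' (fun p => zz ((ψ : Equiv.Perm (Phase (n + 1))) p)) := (hBRK n).2.2.1 R' ψ hψ
  have hn : ∀ p, ‖zz ((φ : Equiv.Perm (Phase (n + 1))) p)‖ =
      ‖zz ((ψ : Equiv.Perm (Phase (n + 1))) p)‖ := by
    intro p
    have h1 := h p
    rw [mu_eq, mu_eq] at h1
    exact (sq_eq_sq₀ (norm_nonneg _) (norm_nonneg _)).1 (by linarith)
  obtain ⟨η, hη, h0, he⟩ := (hFIB n R').1 Unit (fun _ p => zz ((φ : Equiv.Perm (Phase (n + 1))) p))
    (fun _ p => zz ((ψ : Equiv.Perm (Phase (n + 1))) p)) (CF.const ha.smooth)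
    (CF.const hb.smooth) (fun _ => ha) (fun _ => hb) (fun _ => hn)
  have hηs : ContDiff ℝ ∞ (η ()) := hη.contDiff ()
  refine ⟨η (), hηs, hasCompactSupport_of_radius (h0 ()), fun p => ?_, he ()⟩
  have h1 := (hEXP n R' (fun q => mu ((φ : Equiv.Perm (Phase (n + 1))) q))
    (fun p => zz ((φ : Equiv.Perm (Phase (n + 1))) p)) (η ()) ha
    (fun p => norm_zz_sq_eq _) hηs (h0 ())).1
  have h2 : Ex R' (fun p => zz ((φ : Equiv.Perm (Phase (n + 1))) p) *
      Complex.exp (η () p * Complex.I)) := by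
    have h3 : (fun p => zz ((φ : Equiv.Perm (Phase (n + 1))) p) *
      Complex.exp (η () p * Complex.I)) = fun p => zz ((ψ : Equiv.Perm (Phase (n + 1))) p) :=
      funext fun p => (he () p).symm
    rw [h3]
    exact hb
  rw [hamField_eqV]
  exact h1 h2 p

lemma exists_unique_of_phase (hEXP : St_EXP) (hBRK : St_BRK) (hEXR : St_EXR) (hUNI : St_UNI)
    {n : ℕ} (φ : SympCt (n + 1)) (η : Phase (n + 1) → ℝ) (hη : ContDiff ℝ ∞ η)
    (hc : HasCompactSupport η) (h : ∀ p, fderiv ℝ η p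
      (hamField (fun q => mu ((φ : Equiv.Perm (Phase (n + 1))) q)) p) = 0) :
    ∃! ψ : SympCt (n + 1), ∀ p, zz ((ψ : Equiv.Perm (Phase (n + 1))) p) =
      zz ((φ : Equiv.Perm (Phase (n + 1))) p) * Complex.exp (η p * Complex.I) := by
  obtain ⟨R, -, hφ, -⟩ := exists_symp_radius φ 0
  obtain ⟨R', hR', h0⟩ := exists_radius_of_hasCompactSupport hc R
  have ha : Ex R' (fun p => zz ((φ : Equiv.Perm (Phase (n + 1))) p)) :=
    (hBRK n).2.2.1 R' φ fun p hp => hφ p (hR'.trans_lt hp)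
  have hb := (hEXP n R' (fun q => mu ((φ : Equiv.Perm (Phase (n + 1))) q))
    (fun p => zz ((φ : Equiv.Perm (Phase (n + 1))) p)) η ha
    (fun p => norm_zz_sq_eq _) hη h0).2 (fun p => by
      have h1 := h p
      rw [hamField_eqV] at h1
      exact h1)
  obtain ⟨ψ, -, hψ⟩ := hEXR n Unit R' (fun _ p => zz ((φ : Equiv.Perm (Phase (n + 1))) p) *
    Complex.exp (η p * Complex.I)) (CF.const hb.smooth) (fun _ => hb)
  refine ⟨ψ (), hψ (), fun ψ' hψ' => ?_⟩
  refine hUNI n ψ' (ψ ()) fun p => ?_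
  rw [hψ' p, hψ () p]

theorem thm_FIN (hMUC : St_MUC) (hLFA : St_LFA) (hHGP : St_HGP) (hFIB : St_FIB) (hEXP : St_EXP)
    (hBRK : St_BRK) (hEXR : St_EXR) (hUNI : St_UNI) : St_FIN := by
  intro n
  obtain ⟨q, hq⟩ := hMUC n
  have hq1 : q 1 = CircHam.std := by
    apply Subtype.ext
    funext p
    rw [hq]
    rfl
  have hL : LiftP q := hLFA n q hq
  obtain ⟨hsurj, hbij⟩ := (hHGP (SympCt (n + 1)) (CircHam n) q 1 CircHam.std hq1).1 hL
  refine ⟨fun f => ?_, fun φ ψ => ⟨exists_phase hFIB hEXP hBRK φ ψ, ?_⟩,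
    fun φ η hη hc h => exists_unique_of_phase hEXP hBRK hEXR hUNI φ η hη hc h,
    fun k => hgMap k q 1 CircHam.std hq1, ?_, ?_, hbij, ?_⟩
  · obtain ⟨φ, hφ⟩ := hsurj f
    refine ⟨φ, fun p => ?_⟩
    rw [← hφ, hq]
  · rintro ⟨η, -, -, -, h⟩ p
    rw [mu_eq, mu_eq, h p, norm_mul, Complex.norm_exp_ofReal_mul_I, mul_one]
  · intro k φ f hf
    change Quotient.mk _ _ = Quotient.mk _ _
    congr 1
    apply GenLoop.ext
    intro t
    change q (φ.1 t) = f.1 t
    apply Subtype.ext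
    funext p
    rw [hq]
    exact (hf t p).symm
  · intro k φ
    refine ⟨⟨q.comp φ.1, fun t ht => ?_⟩, fun t p => ?_⟩
    · change q (φ.1 t) = CircHam.std
      rw [φ.2 t ht, hq1]
    · change (q (φ.1 t)).1 p = _
      rw [hq]
      rfl
  · intro k a b
    exact (hHGP (SympCt (n + 1)) (CircHam n) q 1 CircHam.std hq1).2 k a b

end Pool.Agent.CRC
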