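import Pool.Agent.CRC.St

/-!
# CRC, FLW: flows of circle Hamiltonians
-/

set_option autoImplicit false
set_option maxSynthPendingDepth 3

open scoped ContDiff Topology NNReal
open Set Function TopologicalSpace Filter

namespace Pool.Agent.CRC

open Pool.Agent.Helper17 Pool.Agent.Helper42 Pool.Agent.H50.Susp

namespace FLW

/-! ### The field of `mu` -/

theorem sharp_coordR {N : ℕ} (i : Fin N) : sharp N (coordL (Sum.inr i)) = eX i := by
  rw [← sub_eq_zero]
  apply eq_zero_of_omegaStd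
  intro v
  rw [omegaStd_sub_left, omegaStd_sharp]
  simp [coordL_apply, omegaStd, eX]

theorem fderiv_mu' {n : ℕ} (p : Phase (n + 1)) : fderiv ℝ (mu : Phase (n + 1) → ℝ) p =
    p (Sum.inl 0) • coordL (Sum.inl 0) + p (Sum.inr 0) • coordL (Sum.inr 0) := by
  ext v
  rw [fderiv_mu]
  rfl

/-- the field of `mu`, as a linear map -/
noncomputable def Jm (n : ℕ) : Phase (n + 1) →L[ℝ] Phase (n + 1) :=
  (coordL (Sum.inl 0) : Phase (n + 1) →L[ℝ] ℝ).smulRight (eY 0) -
    (coordL (Sum.inr 0) : Phase (n + 1) →L[ℝ] ℝ).smulRight (eX 0)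

theorem Jm_apply {n : ℕ} (p : Phase (n + 1)) :
    Jm n p = p (Sum.inl 0) • eY 0 - p (Sum.inr 0) • eX 0 := rfl

theorem hamV_mu {n : ℕ} (p : Phase (n + 1)) : hamV mu p = Jm n p := by
  rw [hamV, fderiv_mu', map_add, map_smul, map_smul, sharp_coordL, sharp_coordR, Jm_apply,
    smul_neg, neg_add, neg_neg, sub_eq_add_neg]

theorem hamField_eq {N : ℕ} (f : Phase N → ℝ) (p : Phase N) : hamField f p = hamV f p := by
  rw [← sub_eq_zero]
  apply eq_zero_of_omegaStd
  intro v
  rw [omegaStd_sub_left, omegaStd_hamV]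
  have h1 : v = ∑ k : Fin N ⊕ Fin N, v k • EuclideanSpace.single k (1 : ℝ) := by
    ext k
    rcases k with k | k <;> simp [Pi.single_apply]
  have h2 : fderiv ℝ f p v = ∑ i : Fin N, (v (Sum.inl i) * fderiv ℝ f p
      (EuclideanSpace.single (Sum.inl i) 1) + v (Sum.inr i) * fderiv ℝ f p
      (EuclideanSpace.single (Sum.inr i) 1)) := by
    conv_lhs => rw [h1]
    rw [map_sum, Fintype.sum_sum_type, ← Finset.sum_add_distrib]
    refine Finset.sum_congr rfl fun i _ => ?_
    rw [map_smul, map_smul, smul_eq_mul, smul_eq_mul]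
  rw [h2]
  simp only [omegaStd, hamField, Sum.elim_inl, Sum.elim_inr]
  rw [← sub_eq_zero, sub_zero, sub_neg_eq_add, ← Finset.sum_add_distrib]
  refine Finset.sum_eq_zero fun i _ => ?_
  ring

/-! ### Rotations -/

theorem mkZ_inl0 {n : ℕ} (z : ℂ) (w : Phase n) : (mkZ z w : Phase (n + 1)) (Sum.inl 0) = z.re := by
  simp [mkZ, eX, eY, wE, embLin]

theorem mkZ_inr0 {n : ℕ} (z : ℂ) (w : Phase n) : (mkZ z w : Phase (n + 1)) (Sum.inr 0) = z.im := by
  simp [mkZ, eX, eY, wE, embLin]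

theorem mkZ_inlS {n : ℕ} (z : ℂ) (w : Phase n) (j : Fin n) :
    (mkZ z w : Phase (n + 1)) (Sum.inl j.succ) = w (Sum.inl j) := by
  simp [mkZ, eX, eY, wE, embLin]

theorem mkZ_inrS {n : ℕ} (z : ℂ) (w : Phase n) (j : Fin n) :
    (mkZ z w : Phase (n + 1)) (Sum.inr j.succ) = w (Sum.inr j) := by
  simp [mkZ, eX, eY, wE, embLin]

theorem norm_mkZ {n : ℕ} (z : ℂ) (w : Phase n) :
    ‖(mkZ z w : Phase (n + 1))‖ ^ 2 = ‖z‖ ^ 2 + ‖w‖ ^ 2 := by
  rw [EuclideanSpace.norm_sq_eq, EuclideanSpace.norm_sq_eq, Fintype.sum_sum_type,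
    Fintype.sum_sum_type, Fin.sum_univ_succ, Fin.sum_univ_succ]
  simp only [mkZ_inl0, mkZ_inr0, mkZ_inlS, mkZ_inrS]
  rw [← Complex.normSq_eq_norm_sq, Complex.normSq_apply, Real.norm_eq_abs, Real.norm_eq_abs,
    sq_abs, sq_abs]
  ring

theorem mkZ_self {n : ℕ} (p : Phase (n + 1)) : mkZ (zz p) (wW n p) = p := by
  ext k
  rcases k with k | k
  · refine Fin.cases ?_ (fun j => ?_) k
    · rw [mkZ_inl0]; rfl
    · rw [mkZ_inlS]; rfl
  · refine Fin.cases ?_ (fun j => ?_) k
    · rw [mkZ_inr0]; rfl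
    · rw [mkZ_inrS]; rfl

theorem norm_rot {n : ℕ} (s : ℝ) (p : Phase (n + 1)) : ‖rot s p‖ = ‖p‖ := by
  have h1 : ‖rot s p‖ ^ 2 = ‖p‖ ^ 2 := by
    conv_rhs => rw [← mkZ_self p]
    rw [rot, norm_mkZ, norm_mkZ, norm_mul, Complex.norm_exp_ofReal_mul_I, one_mul]
  exact (pow_left_inj₀ (norm_nonneg _) (norm_nonneg _) two_ne_zero).1 h1

theorem rot_zero {n : ℕ} (p : Phase (n + 1)) : rot 0 p = p := by
  rw [rot]
  simp [mkZ_self]

theorem hasDerivAt_rot {n : ℕ} (p : Phase (n + 1)) (s : ℝ) :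
    HasDerivAt (fun s => rot s p) (hamV mu (rot s p)) s := by
  have h1 : ∀ s : ℝ, rot s p = (Real.cos s * p (Sum.inl 0) - Real.sin s * p (Sum.inr 0)) • eX 0 +
      (Real.sin s * p (Sum.inl 0) + Real.cos s * p (Sum.inr 0)) • eY 0 + wE n (wW n p) := by
    intro s
    have h2 : (Complex.exp (s * Complex.I) * zz p).re =
        Real.cos s * p (Sum.inl 0) - Real.sin s * p (Sum.inr 0) := by
      rw [Complex.mul_re, Complex.exp_ofReal_mul_I_re, Complex.exp_ofReal_mul_I_im]
      rfl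
    have h3 : (Complex.exp (s * Complex.I) * zz p).im =
        Real.sin s * p (Sum.inl 0) + Real.cos s * p (Sum.inr 0) := by
      rw [Complex.mul_im, Complex.exp_ofReal_mul_I_re, Complex.exp_ofReal_mul_I_im]
      exact add_comm _ _
    rw [rot, mkZ, h2, h3]
  have h4 : (fun s => rot s p) = fun s =>
      (Real.cos s * p (Sum.inl 0) - Real.sin s * p (Sum.inr 0)) • eX 0 +
      (Real.sin s * p (Sum.inl 0) + Real.cos s * p (Sum.inr 0)) • eY 0 + wE n (wW n p) :=
    funext h1
  have ha : HasDerivAt (fun s => Real.cos s * p (Sum.inl 0) - Real.sin s * p (Sum.inr 0))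
      (-Real.sin s * p (Sum.inl 0) - Real.cos s * p (Sum.inr 0)) s :=
    ((Real.hasDerivAt_cos s).mul_const _).sub ((Real.hasDerivAt_sin s).mul_const _)
  have hb : HasDerivAt (fun s => Real.sin s * p (Sum.inl 0) + Real.cos s * p (Sum.inr 0))
      (Real.cos s * p (Sum.inl 0) + -Real.sin s * p (Sum.inr 0)) s :=
    ((Real.hasDerivAt_sin s).mul_const _).add ((Real.hasDerivAt_cos s).mul_const _)
  rw [h4]
  refine (((ha.smul_const (eX 0 : Phase (n + 1))).add
    (hb.smul_const (eY 0 : Phase (n + 1)))).add_const (wE n (wW n p))).congr_deriv ?_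
  have h5 : (rot s p) (Sum.inl 0) = Real.cos s * p (Sum.inl 0) - Real.sin s * p (Sum.inr 0) := by
    rw [rot, mkZ_inl0, Complex.mul_re, Complex.exp_ofReal_mul_I_re, Complex.exp_ofReal_mul_I_im]
    rfl
  have h6 : (rot s p) (Sum.inr 0) = Real.sin s * p (Sum.inl 0) + Real.cos s * p (Sum.inr 0) := by
    rw [rot, mkZ_inr0, Complex.mul_im, Complex.exp_ofReal_mul_I_re, Complex.exp_ofReal_mul_I_im]
    exact add_comm _ _
  rw [hamV_mu, Jm_apply, h5, h6]
  module

/-! ### Families: locality in the parameter -/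

theorem CFk_param_local {P : Type} [TopologicalSpace P] {E : Type} [NormedAddCommGroup E]
    [NormedSpace ℝ E] {k : ℕ} : ∀ {E' : Type} [NormedAddCommGroup E'] [NormedSpace ℝ E']
    {F : P → E → E'}, (∀ q : P, ∃ (O : Set P) (G : P → E → E'), IsOpen O ∧ q ∈ O ∧
      CFk P E k E' G ∧ ∀ r ∈ O, F r = G r) → CFk P E k E' F := by
  have hcont : ∀ {E' : Type} [NormedAddCommGroup E'] [NormedSpace ℝ E'] {k : ℕ}
      {F : P → E → E'}, (∀ q : P, ∃ (O : Set P) (G : P → E → E'), IsOpen O ∧ q ∈ O ∧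
      CFk P E k E' G ∧ ∀ r ∈ O, F r = G r) → Continuous (fun p : P × E => F p.1 p.2) := by
    intro E' _ _ k F h
    rw [continuous_iff_continuousAt]
    rintro ⟨q, x⟩
    obtain ⟨O, G, hO, hq, hG, hFG⟩ := h q
    have h1 : ContinuousAt (fun p : P × E => G p.1 p.2) (q, x) :=
      (CFk.continuous hG).continuousAt
    refine h1.congr ?_
    have h2 : O ×ˢ (univ : Set E) ∈ 𝓝 (q, x) := (hO.prod isOpen_univ).mem_nhds ⟨hq, trivial⟩
    filter_upwards [h2] with p hp
    exact (congrFun (hFG p.1 hp.1) p.2).symm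
  induction k with
  | zero =>
    intro E' _ _ F h
    exact hcont h
  | succ k ih =>
    intro E' _ _ F h
    refine ⟨hcont h, ?_, ?_⟩
    · intro q
      obtain ⟨O, G, hO, hq, hG, hFG⟩ := h q
      rw [hFG q hq]
      exact hG.2.1 q
    · apply ih
      intro q
      obtain ⟨O, G, hO, hq, hG, hFG⟩ := h q
      exact ⟨O, fun r x => fderiv ℝ (G r) x, hO, hq, hG.2.2, fun r hr => by rw [hFG r hr]⟩

end FLW

open FLW in
theorem thm_FLW : St_FLW := by
  intro n T _ _ R f hcf hC
  set X : T → Phase (n + 1) → Phase (n + 1) := fun t p => hamV (f t) p with hXdef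
  have hX : CF X := CF_hamV hcf
  have hXout : ∀ t p, R < ‖p‖ → f t =ᶠ[𝓝 p] mu := by
    intro t p hp
    filter_upwards [(isOpen_outside R).mem_nhds hp] with q hq
    exact (hC t).std q hq
  have hX1 : ∀ t p, R < ‖p‖ → X t p = hamV mu p := by
    intro t p hp
    simp only [hXdef, hamV]
    rw [(hXout t p hp).fderiv_eq]
  have hXd : ∀ t p, R < ‖p‖ → fderiv ℝ (X t) p = Jm n := by
    intro t p hp
    have h1 : X t =ᶠ[𝓝 p] fun q => Jm n q := by
      filter_upwards [(isOpen_outside R).mem_nhds hp] with q hq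
      rw [hX1 t q hq, hamV_mu]
    rw [h1.fderiv_eq]
    exact (Jm n).fderiv
  obtain ⟨ℓ', hℓ0', hℓ'⟩ := exists_bound_of_support (G := fun t p => fderiv ℝ (X t) p - Jm n)
    (R := R) (hX.fderiv.continuous.sub continuous_const) (fun t p hp => by
      simp only [hXd t p hp, sub_self])
  set ℓ := ℓ' + ‖Jm n‖ with hℓdef
  have hℓ0 : 0 ≤ ℓ := add_nonneg hℓ0' (norm_nonneg _)
  have hℓ : ∀ t p, ‖fderiv ℝ (X t) p‖ ≤ ℓ := by
    intro t p
    have h1 : fderiv ℝ (X t) p = (fderiv ℝ (X t) p - Jm n) + Jm n := by abel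
    rw [h1]
    exact (norm_add_le _ _).trans (add_le_add (hℓ' t p) le_rfl)
  obtain ⟨θ, hθ0, hθd, hθg, hθCF, hval⟩ := exists_global_flow X hX hℓ
  have hL : ∀ t, LipschitzWith (Real.toNNReal ℓ) (X t) := by
    intro t
    apply LipschitzWith.of_dist_le_mul
    intro x y
    rw [dist_eq_norm, dist_eq_norm, Real.coe_toNNReal _ hℓ0]
    exact convex_univ.norm_image_sub_le_of_norm_fderiv_le (𝕜 := ℝ)
      (fun z _ => hX.differentiable t z) (fun z _ => hℓ t z) (mem_univ y) (mem_univ x)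
  have huniq : ∀ t (c : ℝ → Phase (n + 1)), (∀ s, HasDerivAt c (hamV (f t) (c s)) s) →
      ∀ s, c s = θ t s (c 0) := by
    intro t c hc s
    have h1 : c = fun s => θ t s (c 0) :=
      ode_unique_univ (hL t) (a := 0) hc (fun s => hθd t _ s) (by simp only [hθ0])
    exact congrFun h1 s
  have hcons : ∀ t s p, f t (θ t s p) = f t p := by
    intro t c p
    have hd : ∀ s, HasDerivAt (fun s => f t (θ t s p))
        (fderiv ℝ (f t) (θ t s p) (X t (θ t s p))) s := fun s =>
      (hcf.differentiable t _).hasFDerivAt.comp_hasDerivAt s (hθd t p s)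
    have h1 := is_const_of_deriv_eq_zero (f := fun s => f t (θ t s p))
      (fun s => (hd s).differentiableAt) (fun s => by
        rw [(hd s).deriv]; exact fderiv_hamV_self (f t) _) c 0
    simpa only [hθ0] using h1
  have hstd : ∀ t s p, R < ‖p‖ → θ t s p = rot s p := by
    intro t s p hp
    have h1 := huniq t (fun s => rot s p) (fun s => by
      have h2 := hasDerivAt_rot p s
      have h3 : R < ‖rot s p‖ := by rwa [norm_rot]
      rw [← hX1 t _ h3] at h2
      exact h2) s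
    simp only [rot_zero] at h1
    exact h1.symm
  have hper : ∀ t s p, θ t (s + 2 * Real.pi) p = θ t s p := by
    intro t s p
    exact (hC t).per (fun s => θ t s p) (fun s => by
      rw [hamField_eq]
      exact hθd t p s) s
  have hball : ∀ t s p, ‖p‖ ≤ R → ‖θ t s p‖ ≤ R := by
    intro t s p hp
    by_contra hcon
    have h1 : R < ‖θ t s p‖ := lt_of_not_ge hcon
    have h2 : θ t (-s) (θ t s p) = p := by
      rw [← hθg, neg_add_cancel, hθ0]
    have h3 := hstd t (-s) _ h1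
    rw [h2] at h3
    have h4 : ‖p‖ = ‖θ t s p‖ := by
      conv_lhs => rw [h3]
      exact norm_rot _ _
    linarith
  have hsymp : ∀ t (c : ℝ) p u v, omegaStd (fderiv ℝ (θ t c) p u) (fderiv ℝ (θ t c) p v) =
      omegaStd u v := by
    intro t c p u v
    obtain ⟨r, A, r0, A0, hr, hA, r1, A1⟩ := hval t c p
    have hder : ∀ s ∈ Icc (0 : ℝ) 1, HasDerivAt (fun s => omegaStd (A s u) (A s v)) 0 s := by
      intro s hs
      set D := fderiv ℝ (X t) (r s) with hD
      have hau : HasDerivAt (fun s => A s u) ((c • D.comp (A s)) u) s := by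
        have := (hA s hs).clm_apply (hasDerivAt_const s u)
        simpa using this
      have hav : HasDerivAt (fun s => A s v) ((c • D.comp (A s)) v) s := by
        have := (hA s hs).clm_apply (hasDerivAt_const s v)
        simpa using this
      have h1 : HasDerivAt (fun s => omegaStd (A s u) (A s v))
          (omegaStd ((c • D.comp (A s)) u) (A s v) + omegaStd (A s u) ((c • D.comp (A s)) v)) s := by
        exact ((omegaB (n + 1)).hasFDerivAt.comp_hasDerivAt s hau).clm_apply hav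
      refine h1.congr_deriv ?_
      have h2 := fderiv_hamV_symm (hcf.contDiff t) (r s) (A s u) (A s v)
      have h3 : (c • D.comp (A s)) u = c • (D (A s u)) := rfl
      have h4 : (c • D.comp (A s)) v = c • (D (A s v)) := rfl
      rw [h3, h4, omegaStd_smul_left, omegaStd_smul_right, ← mul_add]
      have h5 : omegaStd (D (A s u)) (A s v) + omegaStd (A s u) (D (A s v)) = 0 := h2
      rw [h5, mul_zero]
    have hconst := (convex_Icc (0 : ℝ) 1).norm_image_sub_le_of_norm_hasDerivWithin_le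
      (f := fun s => omegaStd (A s u) (A s v)) (f' := fun _ => 0) (C := 0)
      (fun t ht => (hder t ht).hasDerivWithinAt)
      (fun t _ => by simp) (left_mem_Icc.2 zero_le_one) (right_mem_Icc.2 zero_le_one)
    rw [zero_mul, norm_le_zero_iff, sub_eq_zero] at hconst
    rw [← A1, hconst, A0]
    simp
  have hCF : CF (fun (q : T × ℝ) p => θ q.1 q.2 p) := by
    intro k
    apply CFk_param_local
    rintro ⟨t₀, s₀⟩
    have hM : -(|s₀| + 1) ≤ |s₀| + 1 := by
      have := abs_nonneg s₀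
      linarith
    refine ⟨{q | |q.2| < |s₀| + 1}, fun q p => θ q.1 (projIcc (-(|s₀| + 1)) (|s₀| + 1) hM q.2) p,
      isOpen_lt (continuous_snd.abs) continuous_const, ?_, ?_, ?_⟩
    · show |s₀| < |s₀| + 1
      linarith
    · exact (hθCF (|s₀| + 1)).base (h := fun q : T × ℝ =>
        (q.1, projIcc (-(|s₀| + 1)) (|s₀| + 1) hM q.2))
        (continuous_fst.prodMk (continuous_projIcc.comp continuous_snd)) k
    · rintro ⟨t, s⟩ hs
      have h1 : s ∈ Icc (-(|s₀| + 1)) (|s₀| + 1) := by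
        have h2 : |s| < |s₀| + 1 := hs
        exact ⟨(abs_lt.1 h2).1.le, (abs_lt.1 h2).2.le⟩
      funext p
      show θ t s p = θ t (projIcc (-(|s₀| + 1)) (|s₀| + 1) hM s) p
      rw [projIcc_of_mem hM h1]
  refine ⟨θ, hCF, fun t => ⟨?_, hθ0 t, fun s p => hθd t p s, hθg t, hper t, hsymp t, hstd t,
    hball t, hcons t, huniq t⟩⟩
  exact hCF.base (h := fun s : ℝ => (t, s)) (continuous_const.prodMk continuous_id)

end Pool.Agent.CRC
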