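import Pool.Agent.CRC.St

/-!
# CRC / GLU: the global solution of `|a| ^ 2 = 2 f`
-/

set_option autoImplicit false

open scoped ContDiff Topology
open Set Function TopologicalSpace

namespace Pool.Agent.CRC

open Pool.Agent.Helper17 Pool.Agent.Helper42 Pool.Agent.H50.Susp

namespace GLU

variable {n : ℕ}

theorem zz_contDiff : ContDiff ℝ ∞ (zz : Phase (n + 1) → ℂ) := by
  have h1 : ContDiff ℝ ∞ (fun p : Phase (n + 1) => p (Sum.inl 0)) :=
    ContinuousLinearMap.contDiff (𝕜 := ℝ)
      (EuclideanSpace.proj (Sum.inl (0 : Fin (n + 1))) : Phase (n + 1) →L[ℝ] ℝ)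
  have h2 : ContDiff ℝ ∞ (fun p : Phase (n + 1) => p (Sum.inr 0)) :=
    ContinuousLinearMap.contDiff (𝕜 := ℝ)
      (EuclideanSpace.proj (Sum.inr (0 : Fin (n + 1))) : Phase (n + 1) →L[ℝ] ℝ)
  have h3 : (zz : Phase (n + 1) → ℂ) = fun p => Complex.ofRealCLM (p (Sum.inl 0)) +
      Complex.ofRealCLM (p (Sum.inr 0)) * Complex.I := by
    funext p
    apply Complex.ext <;> simp [zz]
  rw [h3]
  exact (Complex.ofRealCLM.contDiff.comp h1).add
    ((Complex.ofRealCLM.contDiff.comp h2).mul contDiff_const)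

theorem norm_zz_sq (p : Phase (n + 1)) : ‖zz p‖ ^ 2 = 2 * mu p := by
  rw [Complex.sq_norm, Complex.normSq_apply]
  simp only [zz, mu]
  ring

theorem norm_rot (s : ℝ) (p : Phase (n + 1)) : ‖rot s p‖ = ‖p‖ := by
  have hsq : ∀ q : Phase (n + 1), ‖q‖ = Real.sqrt ((q (Sum.inl 0)) ^ 2 +
      (∑ j : Fin n, (q (Sum.inl j.succ)) ^ 2) + ((q (Sum.inr 0)) ^ 2 +
      ∑ j : Fin n, (q (Sum.inr j.succ)) ^ 2)) := by
    intro q
    rw [EuclideanSpace.norm_eq]
    congr 1
    simp only [Real.norm_eq_abs, sq_abs]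
    rw [Fintype.sum_sum_type, Fin.sum_univ_succ, Fin.sum_univ_succ]
  have h1 : ∀ j : Fin n, (rot s p) (Sum.inl j.succ) = p (Sum.inl j.succ) := by
    intro j
    simp [rot, mkZ, eX, eY, wE, embLin, wW, wLin]
  have h2 : ∀ j : Fin n, (rot s p) (Sum.inr j.succ) = p (Sum.inr j.succ) := by
    intro j
    simp [rot, mkZ, eX, eY, wE, embLin, wW, wLin]
  have h3 : (rot s p) (Sum.inl 0) = (Complex.exp (s * Complex.I) * zz p).re := by
    simp [rot, mkZ, eX, eY, wE, embLin, wW, wLin]
  have h4 : (rot s p) (Sum.inr 0) = (Complex.exp (s * Complex.I) * zz p).im := by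
    simp [rot, mkZ, eX, eY, wE, embLin, wW, wLin]
  have h5 : (rot s p) (Sum.inl 0) ^ 2 + (rot s p) (Sum.inr 0) ^ 2 =
      p (Sum.inl 0) ^ 2 + p (Sum.inr 0) ^ 2 := by
    have h6 : ‖Complex.exp (s * Complex.I) * zz p‖ ^ 2 = ‖zz p‖ ^ 2 := by
      rw [norm_mul, Complex.norm_exp_ofReal_mul_I, one_mul]
    rw [Complex.sq_norm, Complex.sq_norm, Complex.normSq_apply, Complex.normSq_apply] at h6
    rw [h3, h4]
    have h7 : (zz p).re = p (Sum.inl 0) := rfl
    have h8 : (zz p).im = p (Sum.inr 0) := rfl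
    rw [h7, h8] at h6
    linarith
  rw [hsq, hsq]
  congr 1
  simp only [h1, h2]
  linarith

theorem cda_exp {g : Phase (n + 1) → ℝ} {x : Phase (n + 1)} (hg : ContDiffAt ℝ ∞ g x) :
    ContDiffAt ℝ ∞ (fun y => Complex.exp ((g y : ℂ) * Complex.I)) x :=
  ((Complex.ofRealCLM.contDiff.contDiffAt.comp x hg).mul contDiffAt_const).cexp

theorem sqrt_u {R R' : ℝ} {f : Phase (n + 1) → ℝ} {Φ : ℝ → Phase (n + 1) → Phase (n + 1)}
    {u : Phase (n + 1) → ℂ} (hC : Circ R f) (hu : UF R' f Φ u) {p : Phase (n + 1)}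
    (h1 : R < ‖p‖) (h2 : R' < ‖p‖) : (Real.sqrt (2 * f p) : ℂ) * u p = zz p := by
  have h3 : 2 * f p = ‖zz p‖ ^ 2 := by rw [norm_zz_sq, hC.std p h1]
  rw [h3, Real.sqrt_sq (norm_nonneg _)]
  rcases lt_or_ge 0 (f p) with h4 | h4
  · rw [hu.std p h2 h4]
    have h5 : (‖zz p‖ : ℂ) ≠ 0 := by
      intro h6
      have h7 : ‖zz p‖ = 0 := by exact_mod_cast h6
      rw [h7] at h3
      norm_num at h3
      linarith
    field_simp
  · have h5 : ‖zz p‖ = 0 := by
      have h6 : ‖zz p‖ ^ 2 ≤ 0 := by linarith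
      have h7 := sq_nonneg ‖zz p‖
      exact pow_eq_zero_iff (two_ne_zero) |>.1 (le_antisymm h6 h7)
    rw [h5, norm_eq_zero.1 h5]
    simp

theorem patch0 {R R' : ℝ} {f : Phase (n + 1) → ℝ} {Φ : ℝ → Phase (n + 1) → Phase (n + 1)}
    {u : Phase (n + 1) → ℂ} (hC : Circ R f) (hF : Fl R f Φ) (hu : UF R' f Φ u) :
    Patch f Φ u {x | max R R' < ‖x‖} zz (fun _ => 0) := by
  refine ⟨isOpen_lt continuous_const continuous_norm, ?_, zz_contDiff.contDiffOn, ?_,
    contDiffOn_const, fun _ _ _ _ => rfl, ?_⟩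
  · intro s x hx
    have hx' : max R R' < ‖x‖ := hx
    show max R R' < ‖Φ s x‖
    rw [hF.std s x (lt_of_le_of_lt (le_max_left _ _) hx'), norm_rot]
    exact hx'
  · intro x hx
    have hx' : max R R' < ‖x‖ := hx
    rw [norm_zz_sq, hC.std x (lt_of_le_of_lt (le_max_left _ _) hx')]
  · intro x hx _
    have hx' : max R R' < ‖x‖ := hx
    rw [sqrt_u hC hu (lt_of_le_of_lt (le_max_left _ _) hx')
      (lt_of_le_of_lt (le_max_right _ _) hx')]
    simp

end GLU

open GLU in
theorem thm_GLU (hACT : St_ACT) (hPAT : St_PAT) (hRAT : St_RAT) (hPTU : St_PTU) : St_GLU := by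
  classical
  intro n R R' f Φ u hC hF hu
  obtain ⟨hf0, -, -⟩ := hACT n R f Φ hC hF
  have hfc : Continuous f := hC.smooth.continuous
  have hK : IsCompact ({x | f x = 0} ∩ Metric.closedBall (0 : Phase (n + 1)) (max R R')) :=
    (isCompact_closedBall 0 _).inter_left (isClosed_eq hfc continuous_const)
  choose! Up Ap Ep hPp hmem hbd using hPAT n R R' f Φ u hC hF hu
  obtain ⟨t, htK, htc⟩ := hK.elim_nhds_subcover Up
    (fun p hp => (hPp p hp.1).openU.mem_nhds (hmem p hp.1))
  let U : Option ↥t → Set (Phase (n + 1)) := fun i =>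
    i.elim {x | max R R' < ‖x‖} (fun p => Up p)
  let A : Option ↥t → Phase (n + 1) → ℂ := fun i => i.elim zz (fun p => Ap p)
  let E : Option ↥t → Phase (n + 1) → ℝ := fun i => i.elim (fun _ => 0) (fun p => Ep p)
  have hP : ∀ i, Patch f Φ u (U i) (A i) (E i) := by
    rintro (_ | p)
    · exact patch0 hC hF hu
    · exact hPp p (htK p p.2).1
  have hcov : ∀ x, f x = 0 → ∃ i, x ∈ U i := by
    intro x hx
    rcases lt_or_ge (max R R') ‖x‖ with h1 | h1
    · exact ⟨none, h1⟩
    · have h2 := htc ⟨hx, by simpa using h1⟩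
      rw [mem_iUnion₂] at h2
      obtain ⟨p, hp, h3⟩ := h2
      exact ⟨some ⟨p, hp⟩, h3⟩
  obtain ⟨χ, hχs, hχi, hχt, V, hVo, hV0, hV1⟩ := hPTU n R f Φ hC hF (Option ↥t) U
    (fun i => (hP i).openU) (fun i s x hx => (hP i).inv s x hx) hcov
  have hχ0 : ∀ i x, x ∉ U i → χ i x = 0 := by
    intro i x hx
    by_contra h
    exact hx (hχt i (subset_tsupport _ h))
  let η : Phase (n + 1) → ℝ := fun x => ∑ i, χ i x * E i x
  let a : Phase (n + 1) → ℂ := fun x =>
    (Real.sqrt (2 * f x) : ℂ) * u x * Complex.exp ((η x : ℂ) * Complex.I)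
  have ha0 : ∀ x, f x = 0 → a x = 0 := by
    intro x hx
    simp [a, hx]
  -- a bound for the bounded patches
  have hbU : Bornology.IsBounded (⋃ p : ↥t, Up p) := by
    rw [Bornology.isBounded_iUnion]
    exact fun p => hbd p (htK p p.2).1
  obtain ⟨R₂, hR₂⟩ := hbU.subset_closedBall 0
  refine ⟨max (max R R') R₂, a, ?_, ?_, ?_, ?_⟩
  · rw [contDiff_iff_contDiffAt]
    intro x
    rcases (hf0 x).lt_or_eq with hx | hx
    · -- positive
      have hnb : {y | 0 < f y} ∈ 𝓝 x := (isOpen_lt continuous_const hfc).mem_nhds hx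
      have h1 : ContDiffAt ℝ ∞ (fun y => ((Real.sqrt (2 * f y) : ℝ) : ℂ)) x := by
        have h2 : ContDiffAt ℝ ∞ (fun y => Real.sqrt (2 * f y)) x :=
          (contDiffAt_const.mul hC.smooth.contDiffAt).sqrt (by positivity)
        exact Complex.ofRealCLM.contDiff.contDiffAt.comp x h2
      have h3 : ContDiffAt ℝ ∞ u x := hu.smooth.contDiffAt hnb
      have h4 : ContDiffAt ℝ ∞ η x := by
        refine ContDiffAt.sum fun i _ => ?_
        by_cases hxi : x ∈ U i
        · refine (hχs i).contDiffAt.mul ?_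
          exact (hP i).sη.contDiffAt
            (((hP i).openU.inter (isOpen_lt continuous_const hfc)).mem_nhds ⟨hxi, hx⟩)
        · have h5 : x ∉ tsupport (χ i) := fun h => hxi (hχt i h)
          have h6 : (fun y => χ i y * E i y) =ᶠ[𝓝 x] fun _ => 0 := by
            have h7 : χ i =ᶠ[𝓝 x] 0 := notMem_tsupport_iff_eventuallyEq.1 h5
            filter_upwards [h7] with y hy
            rw [hy]
            simp
          exact contDiffAt_const.congr_of_eventuallyEq h6
      exact (h1.mul h3).mul (cda_exp h4)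
    · -- a zero
      have hx0 : f x = 0 := hx.symm
      have hxV := hV0 x hx0
      obtain ⟨j, hj⟩ : ∃ j, χ j x ≠ 0 := by
        by_contra hcon
        push Not at hcon
        have h1 := hV1 x hxV
        rw [Finset.sum_eq_zero fun i _ => hcon i] at h1
        exact zero_ne_one h1
      have hxj : x ∈ U j := by
        by_contra h
        exact hj (hχ0 j x h)
      have key : ∀ i, ∃ T : Phase (n + 1) → ℝ, ContDiffAt ℝ ∞ T x ∧
          ∀ᶠ y in 𝓝 x, 0 < f y → χ i y * (E i y - E j y) = T y := by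
        intro i
        by_cases hxi : x ∈ tsupport (χ i)
        · obtain ⟨O, ζ, hO, hxO, hζ, hζe⟩ := hRAT n R R' f Φ u hC hF hu (U i) (U j) (A i) (A j)
            (E i) (E j) (hP i) (hP j) x ⟨hχt i hxi, hxj⟩ hx0
          refine ⟨fun y => χ i y * ζ y, (hχs i).contDiffAt.mul (hζ.contDiffAt (hO.mem_nhds hxO)),
            ?_⟩
          filter_upwards [hO.mem_nhds hxO] with y hy hfy
          rw [hζe y hy hfy]
        · refine ⟨fun _ => 0, contDiffAt_const, ?_⟩
          have h7 : χ i =ᶠ[𝓝 x] 0 := notMem_tsupport_iff_eventuallyEq.1 hxi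
          filter_upwards [h7] with y hy _
          rw [hy]
          simp
      choose T hTs hTe using key
      have hsum : ContDiffAt ℝ ∞ (fun y => ∑ i, T i y) x := ContDiffAt.sum fun i _ => hTs i
      have heq : a =ᶠ[𝓝 x] fun y => A j y * Complex.exp (((∑ i, T i y : ℝ) : ℂ) * Complex.I) := by
        have h8 : ∀ᶠ y in 𝓝 x, ∀ i, 0 < f y → χ i y * (E i y - E j y) = T i y :=
          Filter.eventually_all.2 hTe
        filter_upwards [h8, hVo.mem_nhds hxV, (hP j).openU.mem_nhds hxj] with y hy hyV hyj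
        rcases (hf0 y).lt_or_eq with hfy | hfy
        · have h9 : η y = E j y + ∑ i, T i y := by
            have h10 : ∑ i, T i y = ∑ i, χ i y * (E i y - E j y) :=
              Finset.sum_congr rfl fun i _ => (hy i hfy).symm
            rw [h10]
            simp only [mul_sub, Finset.sum_sub_distrib, ← Finset.sum_mul]
            rw [hV1 y hyV]
            simp [η]
          show (Real.sqrt (2 * f y) : ℂ) * u y * Complex.exp ((η y : ℂ) * Complex.I) = _
          rw [(hP j).eq y hyj hfy, h9]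
          push_cast
          rw [add_mul, Complex.exp_add]
          ring
        · have h9 := ha0 y hfy.symm
          have h10 := (hP j).na y hyj
          rw [← hfy, mul_zero] at h10
          have h11 : A j y = 0 := norm_eq_zero.1 ((pow_eq_zero_iff two_ne_zero).1 h10)
          rw [h9, h11, zero_mul]
      exact (((hP j).sa.contDiffAt ((hP j).openU.mem_nhds hxj)).mul
        (cda_exp hsum)).congr_of_eventuallyEq heq
  · intro p
    rcases (hf0 p).lt_or_eq with hp | hp
    · show ‖(Real.sqrt (2 * f p) : ℂ) * u p * Complex.exp ((η p : ℂ) * Complex.I)‖ ^ 2 = _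
      rw [norm_mul, norm_mul, Complex.norm_exp_ofReal_mul_I, hu.norm p hp, mul_one, mul_one,
        Complex.norm_real, Real.norm_eq_abs, sq_abs, Real.sq_sqrt (by linarith)]
    · rw [ha0 p hp.symm, ← hp]
      simp
  · intro s p
    rcases (hf0 p).lt_or_eq with hp | hp
    · have h1 : η (Φ s p) = η p := by
        refine Finset.sum_congr rfl fun i _ => ?_
        rw [hχi i s p]
        by_cases hpi : p ∈ U i
        · rw [(hP i).iη s p hpi hp]
        · rw [hχ0 i p hpi, zero_mul, zero_mul]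
      show (Real.sqrt (2 * f (Φ s p)) : ℂ) * u (Φ s p) *
        Complex.exp ((η (Φ s p) : ℂ) * Complex.I) = Complex.exp (s * Complex.I) *
          ((Real.sqrt (2 * f p) : ℂ) * u p * Complex.exp ((η p : ℂ) * Complex.I))
      rw [h1, hF.cons s p, hu.wt s p hp]
      ring
    · rw [ha0 p hp.symm, ha0 (Φ s p) (by rw [hF.cons s p, hp.symm]), mul_zero]
  · intro p hp
    have h1 : max R R' < ‖p‖ := lt_of_le_of_lt (le_max_left _ _) hp
    have h2 : R₂ < ‖p‖ := lt_of_le_of_lt (le_max_right _ _) hp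
    have h3 : η p = 0 := by
      refine Finset.sum_eq_zero fun i _ => ?_
      rcases i with _ | q
      · show _ * (0 : ℝ) = 0
        rw [mul_zero]
      · rw [hχ0 (some q) p ?_, zero_mul]
        intro h4
        have h5 := hR₂ (mem_iUnion.2 ⟨q, h4⟩)
        rw [mem_closedBall_zero_iff] at h5
        linarith
    show (Real.sqrt (2 * f p) : ℂ) * u p * Complex.exp ((η p : ℂ) * Complex.I) = _
    rw [sqrt_u hC hu (lt_of_le_of_lt (le_max_left _ _) h1)
      (lt_of_le_of_lt (le_max_right _ _) h1), h3]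
    simp

end Pool.Agent.CRC
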