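import Pool.Agent.CRC.St

/-!
# CRC, module HGP: maps with the lifting property and homotopy groups
-/

set_option autoImplicit false

open scoped Topology
open Set Function TopologicalSpace

namespace Pool.Agent.CRC

namespace HGP

/-- The clamp of the interval, at time `s`. -/
noncomputable def cl1 (s t : unitInterval) : unitInterval :=
  projIcc 0 1 zero_le_one ((1 + 2 * (s : ℝ)) * t - s)

lemma continuous_cl1 : Continuous fun q : unitInterval × unitInterval => cl1 q.1 q.2 :=
  continuous_projIcc.comp (by fun_prop)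

lemma cl1_zero (t : unitInterval) : cl1 0 t = t := by
  unfold cl1
  have h : (1 + 2 * ((0 : unitInterval) : ℝ)) * t - ((0 : unitInterval) : ℝ) = t := by
    rw [Set.Icc.coe_zero]
    ring
  rw [h, projIcc_val]

lemma cl1_bot (s : unitInterval) : cl1 s 0 = 0 := by
  apply projIcc_of_le_left
  rw [Set.Icc.coe_zero]
  linarith [s.2.1]

lemma cl1_top (s : unitInterval) : cl1 s 1 = 1 := by
  apply projIcc_of_right_le
  rw [Set.Icc.coe_one]
  linarith [s.2.1]

lemma cl1_left (t : unitInterval) (h : (t : ℝ) ≤ 1 / 4) : cl1 1 t = 0 := by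
  apply projIcc_of_le_left
  rw [Set.Icc.coe_one]
  linarith

lemma cl1_right (t : unitInterval) (h : 3 / 4 ≤ (t : ℝ)) : cl1 1 t = 1 := by
  apply projIcc_of_right_le
  rw [Set.Icc.coe_one]
  linarith

variable {k : ℕ}

/-- The clamp of the cube. -/
noncomputable def clk (s : unitInterval) (t : Fin k → unitInterval) : Fin k → unitInterval :=
  fun i => cl1 s (t i)

lemma continuous_clk :
    Continuous fun q : unitInterval × (Fin k → unitInterval) => clk q.1 q.2 :=
  continuous_pi fun i => continuous_cl1.comp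
    (continuous_fst.prodMk ((continuous_apply i).comp continuous_snd))

/-- The clamp at time one. -/
noncomputable def clC (k : ℕ) : C(Fin k → unitInterval, Fin k → unitInterval) :=
  ⟨clk 1, continuous_clk.comp (continuous_const.prodMk continuous_id)⟩

lemma clk_bdry (s : unitInterval) (t : Fin k → unitInterval) (ht : t ∈ Cube.boundary (Fin k)) :
    clk s t ∈ Cube.boundary (Fin k) := by
  obtain ⟨i, hi | hi⟩ := ht
  · refine ⟨i, Or.inl ?_⟩
    show cl1 s (t i) = 0
    rw [hi, cl1_bot]
  · refine ⟨i, Or.inr ?_⟩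
    show cl1 s (t i) = 1
    rw [hi, cl1_top]

/-- The collar of the boundary. -/
def col (k : ℕ) : Set (Fin k → unitInterval) :=
  {t | ∃ i, (t i : ℝ) ≤ 1 / 4 ∨ 3 / 4 ≤ (t i : ℝ)}

lemma clk_col (t : Fin k → unitInterval) (ht : t ∈ col k) :
    clC k t ∈ Cube.boundary (Fin k) := by
  obtain ⟨i, hi | hi⟩ := ht
  · exact ⟨i, Or.inl (cl1_left _ hi)⟩
  · exact ⟨i, Or.inr (cl1_right _ hi)⟩

lemma isClosed_col : IsClosed (col k) := by
  have h : col k = ⋃ i : Fin k, {t | (t i : ℝ) ≤ 1 / 4} ∪ {t | 3 / 4 ≤ (t i : ℝ)} := by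
    ext t
    simp [col]
  rw [h]
  refine isClosed_iUnion_of_finite fun i => IsClosed.union ?_ ?_
  · exact isClosed_le (continuous_subtype_val.comp (continuous_apply i)) continuous_const
  · exact isClosed_le continuous_const (continuous_subtype_val.comp (continuous_apply i))

lemma isClosed_bdry : IsClosed (Cube.boundary (Fin k)) := by
  have h : Cube.boundary (Fin k) =
      ⋃ i : Fin k, {t : Fin k → unitInterval | t i = 0} ∪ {t | t i = 1} := by
    ext t
    simp [Cube.boundary]
  rw [h]
  refine isClosed_iUnion_of_finite fun i => IsClosed.union ?_ ?_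
  · exact isClosed_eq (continuous_apply i) continuous_const
  · exact isClosed_eq (continuous_apply i) continuous_const

/-- The open collar. -/
lemma bdry_open : ∃ O : Set (Fin k → unitInterval), IsOpen O ∧ Cube.boundary (Fin k) ⊆ O ∧
    O ⊆ col k := by
  refine ⟨⋃ i : Fin k, {t | (t i : ℝ) < 1 / 4} ∪ {t | 3 / 4 < (t i : ℝ)}, ?_, ?_, ?_⟩
  · refine isOpen_iUnion fun i => IsOpen.union ?_ ?_
    · exact isOpen_lt (continuous_subtype_val.comp (continuous_apply i)) continuous_const
    · exact isOpen_lt continuous_const (continuous_subtype_val.comp (continuous_apply i))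
  · rintro t ⟨i, hi | hi⟩
    · refine mem_iUnion.mpr ⟨i, Or.inl ?_⟩
      show ((t i : unitInterval) : ℝ) < 1 / 4
      rw [hi, Set.Icc.coe_zero]
      norm_num
    · refine mem_iUnion.mpr ⟨i, Or.inr ?_⟩
      show 3 / 4 < ((t i : unitInterval) : ℝ)
      rw [hi, Set.Icc.coe_one]
      norm_num
  · intro t ht
    obtain ⟨i, hi | hi⟩ := mem_iUnion.mp ht
    · exact ⟨i, Or.inl (le_of_lt hi)⟩
    · exact ⟨i, Or.inr (le_of_lt hi)⟩

lemma homotopic_cl {Z : Type} [TopologicalSpace Z] (f : C(Fin k → unitInterval, Z)) (z : Z)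
    (hf : ∀ t ∈ Cube.boundary (Fin k), f t = z) :
    f.HomotopicRel (f.comp (clC k)) (Cube.boundary (Fin k)) :=
  ⟨{ toFun := fun p => f (clk p.1 p.2)
     continuous_toFun := f.continuous.comp continuous_clk
     map_zero_left := fun t => by
      show f (clk 0 t) = f t
      congr 1
      funext i
      exact cl1_zero (t i)
     map_one_left := fun t => rfl
     prop' := fun s t ht => by
      show f (clk s t) = f t
      rw [hf t ht, hf _ (clk_bdry s t ht)] }⟩

variable {X Y : Type} [TopologicalSpace X] [TopologicalSpace Y] (q : C(X, Y)) (x : X) (y : Y)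
  (h : q x = y)

include h in
lemma surj_pi (hq : LiftP q) (k : ℕ) : Surjective (hgMap k q x y h) := by
  intro b
  induction b using Quotient.inductionOn with
  | h f =>
  obtain ⟨O, hO, hO1, hO2⟩ := bdry_open (k := k)
  obtain ⟨G, hG1, hG2⟩ := hq (Fin k → unitInterval) (f.1.comp (clC k)) (col k)
    (Cube.boundary (Fin k)) isClosed_col isClosed_bdry
    (fun t ht => mem_interior.mpr ⟨O, hO2, hO, hO1 ht⟩) (ContinuousMap.const _ x)
    (fun t => by
      show q x = f.1 (clC k t)
      rw [h, f.2 _ (clk_col t.1 t.2)])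
  refine ⟨Quotient.mk _ ⟨G, fun t ht => hG2 t ht⟩, ?_⟩
  refine Quotient.sound ?_
  show (q.comp G).HomotopicRel f.1 (Cube.boundary (Fin k))
  have e : q.comp G = f.1.comp (clC k) := ContinuousMap.ext hG1
  rw [e]
  exact (homotopic_cl f.1 y f.2).symm

include h in
lemma inj_pi (hq : LiftP q) (k : ℕ) : Injective (hgMap k q x y h) := by
  intro a a' haa
  induction a using Quotient.inductionOn with
  | h γ =>
  induction a' using Quotient.inductionOn with
  | h γ' =>
  obtain ⟨H⟩ : (q.comp γ.1).HomotopicRel (q.comp γ'.1) (Cube.boundary (Fin k)) :=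
    Quotient.exact haa
  obtain ⟨O, hO, hO1, hO2⟩ := bdry_open (k := k)
  have hx : ∀ t ∈ col k, γ.1 (clC k t) = x := fun t ht => γ.2 _ (clk_col t ht)
  have hx' : ∀ t ∈ col k, γ'.1 (clC k t) = x := fun t ht => γ'.2 _ (clk_col t ht)
  have hHx : ∀ s, ∀ t ∈ col k, H (s, clC k t) = y := fun s t ht => by
    rw [H.eq_fst s (clk_col t ht)]
    show q (γ.1 (clC k t)) = y
    rw [hx t ht, h]
  set f : C(unitInterval × (Fin k → unitInterval), Y) :=
    ⟨fun p => H (cl1 1 p.1, clC k p.2), H.continuous.comp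
      ((continuous_cl1.comp (continuous_const.prodMk continuous_fst)).prodMk
        ((clC k).continuous.comp continuous_snd))⟩ with hf
  set N : Set (unitInterval × (Fin k → unitInterval)) :=
    {p | (p.1 : ℝ) ≤ 1 / 4} ∪ {p | 3 / 4 ≤ (p.1 : ℝ)} ∪ {p | p.2 ∈ col k} with hN
  set T₀ : Set (unitInterval × (Fin k → unitInterval)) :=
    {p | p.1 = 0} ∪ {p | p.1 = 1} ∪ {p | p.2 ∈ Cube.boundary (Fin k)} with hT₀
  have hNc : IsClosed N := by
    refine IsClosed.union (IsClosed.union ?_ ?_) ?_
    · exact isClosed_le (continuous_subtype_val.comp continuous_fst) continuous_const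
    · exact isClosed_le continuous_const (continuous_subtype_val.comp continuous_fst)
    · exact isClosed_col.preimage continuous_snd
  have hTc : IsClosed T₀ := by
    refine IsClosed.union (IsClosed.union ?_ ?_) ?_
    · exact isClosed_eq continuous_fst continuous_const
    · exact isClosed_eq continuous_fst continuous_const
    · exact isClosed_bdry.preimage continuous_snd
  have hTN : T₀ ⊆ interior N := by
    intro p hp
    refine mem_interior.mpr ⟨{p | (p.1 : ℝ) < 1 / 4} ∪ {p | 3 / 4 < (p.1 : ℝ)} ∪ {p | p.2 ∈ O},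
      ?_, ?_, ?_⟩
    · refine union_subset_union (union_subset_union ?_ ?_) ?_
      · intro p hp
        have h1 : (p.1 : ℝ) < 1 / 4 := hp
        exact h1.le
      · intro p hp
        have h1 : 3 / 4 < (p.1 : ℝ) := hp
        exact h1.le
      · exact fun p hp => hO2 hp
    · refine IsOpen.union (IsOpen.union ?_ ?_) ?_
      · exact isOpen_lt (continuous_subtype_val.comp continuous_fst) continuous_const
      · exact isOpen_lt continuous_const (continuous_subtype_val.comp continuous_fst)
      · exact hO.preimage continuous_snd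
    · rcases hp with (hp | hp) | hp
      · refine Or.inl (Or.inl ?_)
        show (p.1 : ℝ) < 1 / 4
        rw [show p.1 = 0 from hp, Set.Icc.coe_zero]
        norm_num
      · refine Or.inl (Or.inr ?_)
        show 3 / 4 < (p.1 : ℝ)
        rw [show p.1 = 1 from hp, Set.Icc.coe_one]
        norm_num
      · exact Or.inr (hO1 hp)
  set g : C(N, X) := ⟨fun p => if ((p.1.1 : unitInterval) : ℝ) ≤ 1 / 2 then γ.1 (clC k p.1.2)
      else γ'.1 (clC k p.1.2), by
    refine Continuous.if_le ?_ ?_ ?_ continuous_const ?_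
    · exact γ.1.continuous.comp ((clC k).continuous.comp
        (continuous_snd.comp continuous_subtype_val))
    · exact γ'.1.continuous.comp ((clC k).continuous.comp
        (continuous_snd.comp continuous_subtype_val))
    · exact continuous_subtype_val.comp (continuous_fst.comp continuous_subtype_val)
    · rintro ⟨p, hp⟩ h0
      have h1 : (p.1 : ℝ) = 1 / 2 := h0
      rcases hp with (hp | hp) | hp
      · have h2 : (p.1 : ℝ) ≤ 1 / 4 := hp
        rw [h1] at h2
        norm_num at h2
      · have h2 : 3 / 4 ≤ (p.1 : ℝ) := hp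
        rw [h1] at h2
        norm_num at h2
      · show γ.1 (clC k p.2) = γ'.1 (clC k p.2)
        rw [hx _ hp, hx' _ hp]⟩ with hg
  obtain ⟨G, -, hG2⟩ := hq (unitInterval × (Fin k → unitInterval)) f N T₀ hNc hTc hTN g (by
    rintro ⟨p, hp⟩
    show q (if ((p.1 : unitInterval) : ℝ) ≤ 1 / 2 then γ.1 (clC k p.2) else γ'.1 (clC k p.2)) =
      H (cl1 1 p.1, clC k p.2)
    rcases hp with (hp | hp) | hp
    · have h2 : (p.1 : ℝ) ≤ 1 / 4 := hp
      rw [if_pos (by linarith), cl1_left _ h2, H.apply_zero]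
      rfl
    · have h2 : 3 / 4 ≤ (p.1 : ℝ) := hp
      rw [if_neg (by linarith), cl1_right _ h2, H.apply_one]
      rfl
    · rw [hHx _ _ hp, hx _ hp, hx' _ hp, ite_self, h])
  have s2 : (γ.1.comp (clC k)).HomotopicRel (γ'.1.comp (clC k)) (Cube.boundary (Fin k)) :=
    ⟨{ toFun := fun p => G p
       continuous_toFun := G.continuous
       map_zero_left := fun t => by
        rw [hG2 (0, t) (Or.inl (Or.inl rfl))]
        show (if ((0 : unitInterval) : ℝ) ≤ 1 / 2 then γ.1 (clC k t) else γ'.1 (clC k t)) = _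
        rw [if_pos (by rw [Set.Icc.coe_zero]; norm_num)]
        rfl
       map_one_left := fun t => by
        rw [hG2 (1, t) (Or.inl (Or.inr rfl))]
        show (if ((1 : unitInterval) : ℝ) ≤ 1 / 2 then γ.1 (clC k t) else γ'.1 (clC k t)) = _
        rw [if_neg (by rw [Set.Icc.coe_one]; norm_num)]
        rfl
       prop' := fun s t ht => by
        have hc : t ∈ col k := hO2 (hO1 ht)
        show G (s, t) = γ.1 (clC k t)
        rw [hG2 (s, t) (Or.inr ht)]
        show (if (s : ℝ) ≤ 1 / 2 then γ.1 (clC k t) else γ'.1 (clC k t)) = _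
        rw [hx _ hc, hx' _ hc, ite_self] }⟩
  exact Quotient.sound (((homotopic_cl γ.1 x γ.2).trans s2).trans
    (homotopic_cl γ'.1 x γ'.2).symm)

lemma surj (hq : LiftP q) : Surjective q := by
  intro y'
  have hc : Continuous fun t : (∅ : Set Unit) => (t.2.elim : X) :=
    continuous_of_const fun a => a.2.elim
  obtain ⟨G, hG, -⟩ := hq Unit (ContinuousMap.const _ y') ∅ ∅ isClosed_empty isClosed_empty
    (empty_subset _) ⟨_, hc⟩ (fun t => t.2.elim)
  exact ⟨G (), hG ()⟩

/-- The class of a loop. -/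
def hm {N Z : Type} [TopologicalSpace Z] {z : Z} (f : GenLoop N Z z) : HomotopyGroup N Z z :=
  Quotient.mk _ f

lemma hm_mul {Z : Type} [TopologicalSpace Z] {z : Z} (k : ℕ) (f g : GenLoop (Fin (k + 1)) Z z) :
    hm f * hm g = hm (GenLoop.transAt 0 g f) :=
  HomotopyGroup.mul_spec (i := (0 : Fin (k + 1))) (p := f) (q := g)

lemma mul_pi (k : ℕ) (a b : HomotopyGroup (Fin (k + 1)) X x) :
    hgMap (k + 1) q x y h (a * b) = hgMap (k + 1) q x y h a * hgMap (k + 1) q x y h b := by
  obtain ⟨γ, rfl⟩ : ∃ γ : GenLoop (Fin (k + 1)) X x, hm γ = a :=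
    Quotient.inductionOn a fun f => ⟨f, rfl⟩
  obtain ⟨γ', rfl⟩ : ∃ γ : GenLoop (Fin (k + 1)) X x, hm γ = b :=
    Quotient.inductionOn b fun f => ⟨f, rfl⟩
  have hb : ∀ γ : GenLoop (Fin (k + 1)) X x, ∀ t ∈ Cube.boundary (Fin (k + 1)),
      (q.comp γ.1) t = y := by
    intro γ t ht
    show q (γ.1 t) = y
    rw [γ.2 t ht, h]
  have e : ∀ γ : GenLoop (Fin (k + 1)) X x, hgMap (k + 1) q x y h (hm γ) =
      hm ⟨q.comp γ.1, hb γ⟩ := fun γ => rfl
  rw [hm_mul, e, e, e, hm_mul]
  congr 1
  apply Subtype.ext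
  apply ContinuousMap.ext
  intro t
  show q (if (t 0 : ℝ) ≤ 1 / 2
      then γ'.1 (Function.update t 0 <| Set.projIcc 0 1 zero_le_one (2 * t 0))
      else γ.1 (Function.update t 0 <| Set.projIcc 0 1 zero_le_one (2 * t 0 - 1))) =
    if (t 0 : ℝ) ≤ 1 / 2
      then q (γ'.1 (Function.update t 0 <| Set.projIcc 0 1 zero_le_one (2 * t 0)))
      else q (γ.1 (Function.update t 0 <| Set.projIcc 0 1 zero_le_one (2 * t 0 - 1)))
  split_ifs <;> rfl

end HGP

theorem thm_HGP : St_HGP := fun _ _ _ _ q x y h =>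
  ⟨fun hq => ⟨HGP.surj q hq, fun k => ⟨HGP.inj_pi q x y h hq k, HGP.surj_pi q x y h hq k⟩⟩,
    fun k a b => HGP.mul_pi q x y h k a b⟩

end Pool.Agent.CRC
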