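import Pool.Agent.CRC.St

/-!
# CRC LAL: linear circle actions with an equivariant map to the circle (helper68)

The Fourier coefficients of order at least two of `s ↦ Q s v` vanish: for `k ≥ 2` a vector `w` with
`Q (2 π / k) w = w` is fixed. So `Q s v = P v + cos s • A v + sin s • (Q (π / 2) v - P v)` with
`P = (1 + Q π) / 2`, `A = 1 - P`, and `J = Q (π / 2)` is a complex structure on the range of `A`.
-/

set_option autoImplicit false

open scoped ContDiff Topology
open Set Function

namespace Pool.Agent.CRC.LAL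

open Real

/-- A continuous periodic function whose Fourier coefficients of order at least two vanish. -/
theorem three_term (f : ℝ → ℝ) (hf : Continuous f) (hper : Function.Periodic f (2 * π))
    (h : ∀ n : ℕ, 2 ≤ n → (∫ s in (0 : ℝ)..(2 * π), Real.cos (n * s) * f s) = 0 ∧
      (∫ s in (0 : ℝ)..(2 * π), Real.sin (n * s) * f s) = 0) (s : ℝ) :
    f s = (f 0 + f π) / 2 + Real.cos s * ((f 0 - f π) / 2) +
      Real.sin s * (f (π / 2) - (f 0 + f π) / 2) := by
  have _ : Fact (0 < 2 * π) := ⟨Real.two_pi_pos⟩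
  have hcont : Continuous (hper.lift : AddCircle (2 * π) → ℝ) :=
    continuous_coinduced_dom.2 hf
  let F : C(AddCircle (2 * π), ℂ) := ⟨fun x => (hper.lift x : ℂ),
    Complex.continuous_ofReal.comp hcont⟩
  have hF : ∀ x : ℝ, F (x : AddCircle (2 * π)) = (f x : ℂ) := fun x => rfl
  -- the coefficients
  have hexp : ∀ (n : ℤ) (x : ℝ), @fourier (2 * π) n (x : AddCircle (2 * π)) =
      Complex.exp ((n * x : ℝ) * Complex.I) := by
    intro n x
    rw [fourier_coe_apply]
    congr 1
    have : (π : ℂ) ≠ 0 := by exact_mod_cast Real.pi_ne_zero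
    push_cast
    field_simp
  have hco : ∀ n : ℤ, fourierCoeff F n = (1 / (2 * π)) • ((((∫ s in (0 : ℝ)..(2 * π),
      Real.cos (n * s) * f s) : ℝ) : ℂ) - (((∫ s in (0 : ℝ)..(2 * π),
      Real.sin (n * s) * f s) : ℝ) : ℂ) * Complex.I) := by
    intro n
    rw [fourierCoeff_eq_intervalIntegral F n 0]
    congr 1
    rw [zero_add, ← intervalIntegral.integral_ofReal, ← intervalIntegral.integral_ofReal,
      ← intervalIntegral.integral_mul_const, ← intervalIntegral.integral_sub]
    · refine intervalIntegral.integral_congr fun x _ => ?_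
      show @fourier (2 * π) (-n) (x : AddCircle (2 * π)) • F (x : AddCircle (2 * π)) = _
      rw [hexp, hF, Complex.exp_mul_I, smul_eq_mul]
      push_cast
      have e1 : (-(n : ℂ) * (x : ℂ)) = -((n : ℂ) * x) := by ring
      rw [e1, Complex.cos_neg, Complex.sin_neg]
      ring
    · refine Continuous.intervalIntegrable ?_ _ _
      fun_prop
    · refine Continuous.intervalIntegrable ?_ _ _
      fun_prop
  have hzero : ∀ n : ℤ, n ∉ ({-1, 0, 1} : Finset ℤ) → fourierCoeff F n = 0 := by
    intro n hn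
    simp only [Finset.mem_insert, Finset.mem_singleton, not_or] at hn
    rw [hco]
    rcases le_total 0 n with h0 | h0
    · obtain ⟨m, rfl⟩ := Int.eq_ofNat_of_zero_le h0
      obtain ⟨h1, h2⟩ := h m (by omega)
      have e1 : (∫ s in (0 : ℝ)..(2 * π), Real.cos (((m : ℤ) : ℝ) * s) * f s) = 0 := by
        refine Eq.trans (intervalIntegral.integral_congr fun s _ => ?_) h1
        show Real.cos (((m : ℤ) : ℝ) * s) * f s = Real.cos (m * s) * f s
        rw [Int.cast_natCast]
      have e2 : (∫ s in (0 : ℝ)..(2 * π), Real.sin (((m : ℤ) : ℝ) * s) * f s) = 0 := by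
        refine Eq.trans (intervalIntegral.integral_congr fun s _ => ?_) h2
        show Real.sin (((m : ℤ) : ℝ) * s) * f s = Real.sin (m * s) * f s
        rw [Int.cast_natCast]
      rw [e1, e2]
      simp
    · obtain ⟨m, hm⟩ := Int.eq_ofNat_of_zero_le (neg_nonneg.2 h0)
      have hn' : n = -(m : ℤ) := by omega
      obtain ⟨h1, h2⟩ := h m (by omega)
      have e1 : (∫ s in (0 : ℝ)..(2 * π), Real.cos ((n : ℝ) * s) * f s) = 0 := by
        refine Eq.trans (intervalIntegral.integral_congr fun s _ => ?_) h1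
        show Real.cos ((n : ℝ) * s) * f s = Real.cos (m * s) * f s
        rw [hn']
        push_cast
        rw [neg_mul, Real.cos_neg]
      have e2 : (∫ s in (0 : ℝ)..(2 * π), Real.sin ((n : ℝ) * s) * f s) = 0 := by
        have e3 : (∫ s in (0 : ℝ)..(2 * π), Real.sin ((n : ℝ) * s) * f s) =
            -∫ s in (0 : ℝ)..(2 * π), Real.sin (m * s) * f s := by
          rw [← intervalIntegral.integral_neg]
          refine intervalIntegral.integral_congr fun s _ => ?_
          show Real.sin ((n : ℝ) * s) * f s = -(Real.sin (m * s) * f s)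
          rw [hn']
          push_cast
          rw [neg_mul, Real.sin_neg]
          ring
        rw [e3, h2, neg_zero]
      rw [e1, e2]
      simp
  have hsum : Summable (fourierCoeff F) := summable_of_ne_finset_zero (s := {-1, 0, 1}) hzero
  have hval : ∀ x : ℝ, (f x : ℂ) = fourierCoeff F (-1) * Complex.exp (-(x * Complex.I)) +
      fourierCoeff F 0 + fourierCoeff F 1 * Complex.exp (x * Complex.I) := by
    intro x
    have h1 := has_pointwise_sum_fourier_series_of_summable hsum (x : AddCircle (2 * π))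
    have h2 : HasSum (fun i : ℤ => fourierCoeff F i • @fourier (2 * π) i (x : AddCircle (2 * π)))
        (∑ i ∈ ({-1, 0, 1} : Finset ℤ), fourierCoeff F i •
          @fourier (2 * π) i (x : AddCircle (2 * π))) := by
      refine hasSum_sum_of_ne_finset_zero fun i hi => ?_
      rw [hzero i hi, zero_smul]
    have h3 := h1.unique h2
    rw [hF] at h3
    rw [h3, Finset.sum_insert (by decide), Finset.sum_insert (by decide), Finset.sum_singleton]
    rw [hexp, hexp, hexp]
    simp only [smul_eq_mul]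
    push_cast
    simp
    ring
  -- evaluation
  set a := fourierCoeff F 0 with ha
  set b := fourierCoeff F 1 with hb
  set d := fourierCoeff F (-1) with hd
  have v0 := hval 0
  have v1 := hval π
  have v2 := hval (π / 2)
  have vs := hval s
  have e0 : Complex.exp (((0 : ℝ) : ℂ) * Complex.I) = 1 := by simp
  have e0' : Complex.exp (-(((0 : ℝ) : ℂ) * Complex.I)) = 1 := by simp
  have e1 : Complex.exp ((π : ℂ) * Complex.I) = -1 := Complex.exp_pi_mul_I
  have e1' : Complex.exp (-((π : ℂ) * Complex.I)) = -1 := by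
    rw [Complex.exp_neg, e1]
    norm_num
  have e2 : Complex.exp (((π / 2 : ℝ) : ℂ) * Complex.I) = Complex.I := by
    rw [Complex.exp_mul_I]
    push_cast
    rw [Complex.cos_pi_div_two, Complex.sin_pi_div_two]
    ring
  have e2' : Complex.exp (-(((π / 2 : ℝ) : ℂ) * Complex.I)) = -Complex.I := by
    rw [Complex.exp_neg, e2, Complex.inv_I]
  rw [e0, e0'] at v0
  rw [e1, e1'] at v1
  rw [e2, e2'] at v2
  have e3' : Complex.exp (-((s : ℂ) * Complex.I)) =
      Complex.cos s - Complex.sin s * Complex.I := by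
    rw [← neg_mul, Complex.exp_mul_I, Complex.cos_neg, Complex.sin_neg]
    ring
  rw [Complex.exp_mul_I, e3'] at vs
  have hfin : (f s : ℂ) = (((f 0 + f π) / 2 + Real.cos s * ((f 0 - f π) / 2) +
      Real.sin s * (f (π / 2) - (f 0 + f π) / 2) : ℝ) : ℂ) := by
    push_cast
    rw [vs]
    rw [v0, v1, v2]
    ring
  exact_mod_cast hfin


section

variable {E : Type} [NormedAddCommGroup E] [NormedSpace ℝ E] [FiniteDimensional ℝ E]
  {Q : ℝ → (E →L[ℝ] E)} {u : E → ℂ}

omit [FiniteDimensional ℝ E] in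
/-- a vector fixed by `Q t`, `e^{it} ≠ 1`, is fixed -/
theorem fix_of (hu1 : ∀ v, (∃ s, Q s v ≠ v) → ‖u v‖ = 1)
    (hu2 : ∀ s v, (∃ s, Q s v ≠ v) → u (Q s v) = Complex.exp (s * Complex.I) * u v)
    {t : ℝ} {w : E} (hfix : Q t w = w) (ht : Complex.exp ((t : ℂ) * Complex.I) ≠ 1) :
    ∀ s, Q s w = w := by
  by_contra hcon
  push Not at hcon
  have h1 := hu2 t w hcon
  rw [hfix] at h1
  have h2 : u w ≠ 0 := by
    intro h0
    have h3 := hu1 w hcon
    rw [h0, norm_zero] at h3
    exact zero_ne_one h3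
  have h4 : (Complex.exp ((t : ℂ) * Complex.I) - 1) * u w = 0 := by
    rw [sub_mul, one_mul, ← h1, sub_self]
  rcases mul_eq_zero.1 h4 with h5 | h5
  · exact ht (sub_eq_zero.1 h5)
  · exact h2 h5

/-- the average of `g s • Q s v` for a function `g` which changes its sign under the translation by
`π / n` is zero -/
theorem avg_zero (hQ : Continuous Q) (hadd : ∀ a b, Q (a + b) = (Q a).comp (Q b))
    (hper : ∀ s, Q (s + 2 * π) = Q s)
    (hu1 : ∀ v, (∃ s, Q s v ≠ v) → ‖u v‖ = 1)
    (hu2 : ∀ s v, (∃ s, Q s v ≠ v) → u (Q s v) = Complex.exp (s * Complex.I) * u v)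
    (v : E) (n : ℕ) (hn : 2 ≤ n) (g : ℝ → ℝ) (hg : Continuous g)
    (hgp : Function.Periodic g (2 * π)) (hg1 : ∀ s, g (s - π / n) = -g s) :
    (∫ s in (0 : ℝ)..(2 * π), g s • Q s v) = 0 := by
  have hn0 : (0 : ℝ) < n := by
    have : 0 < n := by omega
    exact_mod_cast this
  have hQv : Continuous fun s => Q s v := hQ.clm_apply continuous_const
  set w := ∫ s in (0 : ℝ)..(2 * π), g s • Q s v with hw
  have htr : ∀ t : ℝ, Q t w = ∫ s in (0 : ℝ)..(2 * π), g (s - t) • Q s v := by
    intro t
    have h1 : Q t w = ∫ s in (0 : ℝ)..(2 * π), g s • Q (s + t) v := by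
      rw [hw, ← ContinuousLinearMap.intervalIntegral_comp_comm]
      · refine intervalIntegral.integral_congr fun s _ => ?_
        show Q t (g s • Q s v) = g s • Q (s + t) v
        rw [map_smul, add_comm s t, hadd]
        rfl
      · exact (hg.smul hQv).intervalIntegrable _ _
    have h2 : (∫ s in (0 : ℝ)..(2 * π), g s • Q (s + t) v) =
        ∫ s in t..(t + 2 * π), g (s - t) • Q s v := by
      have h3 := intervalIntegral.integral_comp_add_right (a := 0) (b := 2 * π)
        (fun s => g (s - t) • Q s v) t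
      simp only [add_sub_cancel_right, zero_add] at h3
      rw [h3, add_comm t (2 * π)]
    have h4 : Function.Periodic (fun s => g (s - t) • Q s v) (2 * π) := by
      intro s
      show g (s + 2 * π - t) • Q (s + 2 * π) v = _
      rw [hper, show s + 2 * π - t = (s - t) + 2 * π by ring, hgp]
    rw [h1, h2, h4.intervalIntegral_add_eq t 0, zero_add]
  have hneg : Q (π / n) w = -w := by
    rw [htr, hw, ← intervalIntegral.integral_neg]
    refine intervalIntegral.integral_congr fun s _ => ?_
    show g (s - π / n) • Q s v = -(g s • Q s v)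
    rw [hg1, neg_smul]
  have hfix : Q (2 * (π / n)) w = w := by
    rw [two_mul, hadd]
    show Q (π / n) (Q (π / n) w) = w
    rw [hneg, map_neg, hneg, neg_neg]
  have hall : ∀ s, Q s w = w := by
    refine fix_of hu1 hu2 hfix fun h3 => ?_
    rw [Complex.exp_eq_one_iff] at h3
    obtain ⟨m, hm⟩ := h3
    have h5 : (2 * (π / n) : ℝ) = m * (2 * π) := by
      have h6 : ((2 * (π / n) : ℝ) : ℂ) * Complex.I = ((m * (2 * π) : ℝ) : ℂ) * Complex.I := by
        rw [hm]
        push_cast
        ring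
      have h7 := mul_right_cancel₀ Complex.I_ne_zero h6
      exact_mod_cast h7
    have h6 : (1 : ℝ) = m * n := by
      have hpi := Real.pi_pos
      field_simp at h5
      linarith
    have h7 : (1 : ℤ) = m * n := by exact_mod_cast h6
    have h8 : (n : ℤ) ∣ 1 := ⟨m, by rw [h7]; ring⟩
    have h9 := Int.le_of_dvd one_pos h8
    omega
  have h2 : w = -w := by rw [← hneg, hall]
  have h3 : (2 : ℝ) • w = 0 := by
    rw [two_smul]
    nth_rewrite 1 [h2]
    exact neg_add_cancel w
  exact (smul_eq_zero.1 h3).resolve_left two_ne_zero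

/-- the formula for `Q s v` -/
theorem formula (hQ : Continuous Q) (h0 : Q 0 = ContinuousLinearMap.id ℝ E)
    (hadd : ∀ a b, Q (a + b) = (Q a).comp (Q b)) (hper : ∀ s, Q (s + 2 * π) = Q s)
    (hu1 : ∀ v, (∃ s, Q s v ≠ v) → ‖u v‖ = 1)
    (hu2 : ∀ s v, (∃ s, Q s v ≠ v) → u (Q s v) = Complex.exp (s * Complex.I) * u v)
    (v : E) (s : ℝ) :
    Q s v = (1 / 2 : ℝ) • (v + Q π v) + Real.cos s • ((1 / 2 : ℝ) • (v - Q π v)) +
      Real.sin s • (Q (π / 2) v - (1 / 2 : ℝ) • (v + Q π v)) := by
  have hQv : Continuous fun s => Q s v := hQ.clm_apply continuous_const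
  refine eq_of_sub_eq_zero ?_
  refine (Module.forall_dual_apply_eq_zero_iff ℝ _).1 fun ℓ => ?_
  rw [map_sub, sub_eq_zero]
  have hcont : Continuous fun s => ℓ (Q s v) :=
    (LinearMap.continuous_of_finiteDimensional ℓ).comp hQv
  have key := three_term (fun s => ℓ (Q s v)) hcont (fun s => by
    show ℓ (Q (s + 2 * π) v) = ℓ (Q s v)
    rw [hper]) (fun n hn => by
    have hn0 : (n : ℝ) ≠ 0 := by
      have : n ≠ 0 := by omega
      exact_mod_cast this
    let L : E →L[ℝ] ℝ := LinearMap.toContinuousLinearMap ℓ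
    have hint : ∀ g : ℝ → ℝ, Continuous g →
        (∫ s in (0 : ℝ)..(2 * π), g s • Q s v) = 0 →
        (∫ s in (0 : ℝ)..(2 * π), g s * ℓ (Q s v)) = 0 := by
      intro g hg h1
      have h2 : L (∫ s in (0 : ℝ)..(2 * π), g s • Q s v) = 0 := by rw [h1, map_zero]
      rw [← ContinuousLinearMap.intervalIntegral_comp_comm] at h2
      · refine Eq.trans (intervalIntegral.integral_congr fun s _ => ?_) h2
        show g s * ℓ (Q s v) = ℓ (g s • Q s v)
        rw [map_smul, smul_eq_mul]
      · exact (hg.smul hQv).intervalIntegrable _ _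
    constructor
    · refine hint (fun s => Real.cos (n * s)) (by fun_prop)
        (avg_zero hQ hadd hper hu1 hu2 v n hn _ (by fun_prop) ?_ ?_)
      · intro s
        show Real.cos (n * (s + 2 * π)) = Real.cos (n * s)
        rw [mul_add]
        exact Real.cos_add_nat_mul_two_pi _ _
      · intro s
        show Real.cos (n * (s - π / n)) = -Real.cos (n * s)
        rw [mul_sub, mul_div_cancel₀ _ hn0, Real.cos_sub_pi]
    · refine hint (fun s => Real.sin (n * s)) (by fun_prop)
        (avg_zero hQ hadd hper hu1 hu2 v n hn _ (by fun_prop) ?_ ?_)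
      · intro s
        show Real.sin (n * (s + 2 * π)) = Real.sin (n * s)
        rw [mul_add]
        exact Real.sin_add_nat_mul_two_pi _ _
      · intro s
        show Real.sin (n * (s - π / n)) = -Real.sin (n * s)
        rw [mul_sub, mul_div_cancel₀ _ hn0, Real.sin_sub_pi]) s
  simp only [h0, ContinuousLinearMap.id_apply] at key
  rw [key]
  simp only [map_add, map_sub, map_smul, smul_eq_mul]
  ring

/-- the circle argument: all antiinvariant vectors are complex multiples of one -/
theorem rank (hL : ∀ (C : Set ℂ) (g : ℂ → ℂ), Convex ℝ C → ContinuousOn g C →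
    (∀ x ∈ C, ‖g x‖ = 1) → ∃ γ : ℂ → ℝ, ContinuousOn γ C ∧
      ∀ x ∈ C, g x = Complex.exp (γ x * Complex.I))
    (hadd : ∀ a b, Q (a + b) = (Q a).comp (Q b))
    (huc : ContinuousOn u {v | ∃ s, Q s v ≠ v})
    (hu1 : ∀ v, (∃ s, Q s v ≠ v) → ‖u v‖ = 1)
    (hu2 : ∀ s v, (∃ s, Q s v ≠ v) → u (Q s v) = Complex.exp (s * Complex.I) * u v)
    (hM : ∀ w, Q π w = -w → ∀ s, Q s w = Real.cos s • w + Real.sin s • Q (π / 2) w)
    {v : E} (hv : Q π v = -v) (hv0 : v ≠ 0) (v' : E) (hv' : Q π v' = -v') :
    ∃ x y : ℝ, v' = x • v + y • Q (π / 2) v := by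
  by_contra hcon
  push Not at hcon
  have hJJ : ∀ w, Q (π / 2) (Q (π / 2) w) = Q π w := by
    intro w
    have h1 := hadd (π / 2) (π / 2)
    rw [add_halves] at h1
    rw [h1]
    rfl
  have hJM : Q π (Q (π / 2) v) = -Q (π / 2) v := by
    rw [← hJJ, hJJ v, hv, map_neg]
  have hnf : ∀ w, w ≠ 0 → Q π w = -w → ∃ s, Q s w ≠ w := by
    intro w hw h1
    refine ⟨π, fun h2 => hw ?_⟩
    have h3 : w = -w := by rw [← h1, h2]
    have h4 : (2 : ℝ) • w = 0 := by
      rw [two_smul]
      nth_rewrite 1 [h3]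
      exact neg_add_cancel w
    exact (smul_eq_zero.1 h4).resolve_left two_ne_zero
  let m : ℂ → E := fun a => a.re • v + a.im • Q (π / 2) v + Real.sqrt (1 - ‖a‖ ^ 2) • v'
  have hmc : Continuous m := by
    refine ((Complex.continuous_re.smul continuous_const).add
      (Complex.continuous_im.smul continuous_const)).add (Continuous.smul ?_ continuous_const)
    fun_prop
  have hmM : ∀ a, Q π (m a) = -m a := by
    intro a
    show Q π (a.re • v + a.im • Q (π / 2) v + Real.sqrt (1 - ‖a‖ ^ 2) • v') = _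
    rw [map_add, map_add, map_smul, map_smul, map_smul, hv, hJM, hv']
    simp only [m, smul_neg]
    abel
  have hm0 : ∀ a : ℂ, ‖a‖ ≤ 1 → m a ≠ 0 := by
    intro a ha h1
    have h2 : a.re • v + a.im • Q (π / 2) v + Real.sqrt (1 - ‖a‖ ^ 2) • v' = 0 := h1
    by_cases hs : Real.sqrt (1 - ‖a‖ ^ 2) = 0
    · rw [hs, zero_smul, add_zero] at h2
      have h3 : ‖a‖ ^ 2 = 1 := by
        have h4 : (0 : ℝ) ≤ 1 - ‖a‖ ^ 2 := by
          have := norm_nonneg a
          nlinarith
        have h5 := (Real.sqrt_eq_zero h4).1 hs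
        linarith
      have h4 : a.re • Q (π / 2) v - a.im • v = 0 := by
        have h5 := congrArg (Q (π / 2)) h2
        rw [map_add, map_smul, map_smul, hJJ, hv, map_zero, smul_neg, ← sub_eq_add_neg] at h5
        exact h5
      have h5 : (‖a‖ ^ 2) • v = 0 := by
        rw [Complex.sq_norm, Complex.normSq_apply]
        have h6 : (a.re * a.re + a.im * a.im) • v =
            a.re • (a.re • v + a.im • Q (π / 2) v) - a.im • (a.re • Q (π / 2) v - a.im • v) := by
          module
        rw [h6, h2, h4, smul_zero, smul_zero, sub_zero]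
      rw [h3, one_smul] at h5
      exact hv0 h5
    · refine hcon (-(Real.sqrt (1 - ‖a‖ ^ 2))⁻¹ * a.re) (-(Real.sqrt (1 - ‖a‖ ^ 2))⁻¹ * a.im) ?_
      have h3 : Real.sqrt (1 - ‖a‖ ^ 2) • v' = -(a.re • v + a.im • Q (π / 2) v) := by
        rw [add_comm] at h2
        exact eq_neg_of_add_eq_zero_left h2
      have h4 : v' = (Real.sqrt (1 - ‖a‖ ^ 2))⁻¹ • (Real.sqrt (1 - ‖a‖ ^ 2) • v') := by
        rw [smul_smul, inv_mul_cancel₀ hs, one_smul]
      rw [h4, h3]
      module
  have hmaps : ∀ a ∈ Metric.closedBall (0 : ℂ) 1, m a ∈ {v : E | ∃ s, Q s v ≠ v} := by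
    intro a ha
    rw [mem_closedBall_zero_iff] at ha
    exact hnf _ (hm0 a ha) (hmM a)
  obtain ⟨γ, hγc, hγ⟩ := hL (Metric.closedBall 0 1) (fun a => u (m a))
    (convex_closedBall _ _) (huc.comp hmc.continuousOn hmaps) fun a ha => hu1 _ (hmaps a ha)
  -- the circle
  have hmem : ∀ θ : ℝ, Complex.exp (θ * Complex.I) ∈ Metric.closedBall (0 : ℂ) 1 := by
    intro θ
    rw [mem_closedBall_zero_iff, Complex.norm_exp_ofReal_mul_I]
  have hcirc : ∀ θ : ℝ, m (Complex.exp (θ * Complex.I)) = Q θ v := by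
    intro θ
    show (Complex.exp (θ * Complex.I)).re • v + (Complex.exp (θ * Complex.I)).im • Q (π / 2) v +
      Real.sqrt (1 - ‖Complex.exp (θ * Complex.I)‖ ^ 2) • v' = _
    rw [Complex.norm_exp_ofReal_mul_I, Complex.exp_ofReal_mul_I_re, Complex.exp_ofReal_mul_I_im,
      hM v hv θ]
    simp
  have hvn : ∃ s, Q s v ≠ v := hnf v hv0 hv
  have h1 : ∀ θ : ℝ, Complex.exp (γ (Complex.exp (θ * Complex.I)) * Complex.I) =
      Complex.exp (θ * Complex.I) * u v := by
    intro θ
    rw [← hγ _ (hmem θ), hcirc, hu2 θ v hvn]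
  let φ : ℝ → ℝ := fun θ => γ (Complex.exp (θ * Complex.I)) - θ - γ 1
  have hφc : Continuous φ := by
    have h2 : Continuous fun θ : ℝ => γ (Complex.exp (θ * Complex.I)) :=
      hγc.comp_continuous (by fun_prop) hmem
    exact (h2.sub continuous_id).sub continuous_const
  have hφ0 : φ 0 = 0 := by
    simp [φ]
  have hφ1 : φ (2 * π) = -(2 * π) := by
    have h2 : Complex.exp (((2 * π : ℝ) : ℂ) * Complex.I) = 1 := by
      push_cast
      exact Complex.exp_two_pi_mul_I
    simp only [φ]
    rw [h2]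
    ring
  have hint : ∀ θ, ∃ k : ℤ, φ θ = k * (2 * π) := by
    intro θ
    have h2 := h1 θ
    have h3 := h1 0
    have h4 : Complex.exp (((0 : ℝ) : ℂ) * Complex.I) = 1 := by simp
    rw [h4, one_mul] at h3
    rw [← h3, ← Complex.exp_add] at h2
    rw [Complex.exp_eq_exp_iff_exists_int] at h2
    obtain ⟨k, hk⟩ := h2
    refine ⟨k, ?_⟩
    have h5 : ((φ θ : ℝ) : ℂ) * Complex.I = ((k * (2 * π) : ℝ) : ℂ) * Complex.I := by
      simp only [φ]
      push_cast
      rw [sub_mul, sub_mul, hk]
      ring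
    have h6 := mul_right_cancel₀ Complex.I_ne_zero h5
    exact_mod_cast h6
  have hpi := Real.pi_pos
  obtain ⟨θ, -, hθ⟩ : -π ∈ φ '' Icc 0 (2 * π) :=
    intermediate_value_Icc' (by linarith) hφc.continuousOn (by
      rw [hφ0, hφ1]
      constructor <;> linarith)
  obtain ⟨k, hk⟩ := hint θ
  rw [hθ] at hk
  have h7 : (-1 : ℝ) = 2 * k := by
    have h8 : π * (-1 - 2 * k) = 0 := by linarith
    rcases mul_eq_zero.1 h8 with h9 | h9
    · exact absurd h9 hpi.ne'
    · linarith
  have h8 : (-1 : ℤ) = 2 * k := by exact_mod_cast h7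
  omega

end

end Pool.Agent.CRC.LAL

namespace Pool.Agent.CRC

open LAL

theorem thm_LAL (hCLF : St_CLF) : St_LAL := by
  intro E _ _ _ Q u hQ h0 hadd hper hne huc hu1 hu2
  have hform := fun v s => formula hQ h0 hadd hper hu1 hu2 v s
  have hJJ : ∀ w, Q (Real.pi / 2) (Q (Real.pi / 2) w) = Q Real.pi w := by
    intro w
    have h1 := hadd (Real.pi / 2) (Real.pi / 2)
    rw [add_halves] at h1
    rw [h1]
    rfl
  have hcomm : ∀ a b w, Q a (Q b w) = Q b (Q a w) := by
    intro a b w
    have h1 : Q (a + b) w = Q a (Q b w) := by rw [hadd]; rfl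
    have h2 : Q (b + a) w = Q b (Q a w) := by rw [hadd]; rfl
    rw [← h1, ← h2, add_comm]
  have hππ : ∀ w, Q Real.pi (Q Real.pi w) = w := by
    intro w
    have h1 : Q (0 + 2 * Real.pi) w = w := by
      rw [hper, h0]
      rfl
    have h2 : Q (Real.pi + Real.pi) w = Q Real.pi (Q Real.pi w) := by rw [hadd]; rfl
    rw [← h2, ← two_mul, ← zero_add (2 * Real.pi), h1]
  have hM : ∀ w, Q Real.pi w = -w →
      ∀ s, Q s w = Real.cos s • w + Real.sin s • Q (Real.pi / 2) w := by
    intro w hw s
    have e : (1 / 2 : ℝ) • (w - -w) = w := by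
      rw [sub_neg_eq_add, ← two_smul ℝ w, smul_smul]
      norm_num
    rw [hform w s, hw, e, add_neg_cancel, smul_zero, sub_zero, zero_add]
  -- the projection to the antiinvariant vectors
  let A : E →ₗ[ℝ] E := (1 / 2 : ℝ) • (LinearMap.id - (Q Real.pi : E →ₗ[ℝ] E))
  have hA : ∀ w, A w = (1 / 2 : ℝ) • (w - Q Real.pi w) := fun w => rfl
  have hAM : ∀ w, Q Real.pi (A w) = -A w := by
    intro w
    rw [hA, map_smul, map_sub, hππ, ← smul_neg, neg_sub]
  have hAid : ∀ w, Q Real.pi w = -w → A w = w := by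
    intro w hw
    rw [hA, hw, sub_neg_eq_add, ← two_smul ℝ w, smul_smul]
    norm_num
  have hAfix : ∀ w, A w = 0 ↔ ∀ s, Q s w = w := by
    intro w
    constructor
    · intro h1
      have h2 : Q Real.pi w = w := by
        rw [hA] at h1
        have h3 := (smul_eq_zero.1 h1).resolve_left (by norm_num)
        exact (sub_eq_zero.1 h3).symm
      refine fix_of hu1 hu2 h2 ?_
      rw [Complex.exp_pi_mul_I]
      norm_num
    · intro h1
      rw [hA, h1, sub_self, smul_zero]
  obtain ⟨s₀, v₀, hv₀⟩ := hne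
  let v := A v₀
  have hv : Q Real.pi v = -v := hAM v₀
  have hv0 : v ≠ 0 := fun h => hv₀ ((hAfix v₀).1 h s₀)
  have hJM : Q Real.pi (Q (Real.pi / 2) v) = -Q (Real.pi / 2) v := by
    rw [hcomm, hv, map_neg]
  let κ : ℂ →ₗ[ℝ] E :=
    { toFun := fun a => a.re • v + a.im • Q (Real.pi / 2) v
      map_add' := fun a b => by
        simp only [Complex.add_re, Complex.add_im]
        module
      map_smul' := fun c a => by
        simp only [Complex.real_smul, Complex.mul_re, Complex.mul_im, Complex.ofReal_re,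
          Complex.ofReal_im, zero_mul, sub_zero, add_zero, RingHom.id_apply]
        module }
  have hκ : ∀ a : ℂ, κ a = a.re • v + a.im • Q (Real.pi / 2) v := fun a => rfl
  have hκM : ∀ a, Q Real.pi (κ a) = -κ a := by
    intro a
    rw [hκ, map_add, map_smul, map_smul, hv, hJM, smul_neg, smul_neg, neg_add]
  have hinj : Function.Injective κ := by
    rw [injective_iff_map_eq_zero]
    intro a h2
    rw [hκ] at h2
    have h4 : a.re • Q (Real.pi / 2) v - a.im • v = 0 := by
      have h5 := congrArg (Q (Real.pi / 2)) h2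
      rw [map_add, map_smul, map_smul, hJJ, hv, map_zero, smul_neg, ← sub_eq_add_neg] at h5
      exact h5
    have h5 : (‖a‖ ^ 2) • v = 0 := by
      rw [Complex.sq_norm, Complex.normSq_apply]
      have h6 : (a.re * a.re + a.im * a.im) • v =
          a.re • (a.re • v + a.im • Q (Real.pi / 2) v) -
            a.im • (a.re • Q (Real.pi / 2) v - a.im • v) := by
        module
      rw [h6, h2, h4, smul_zero, smul_zero, sub_zero]
    have h6 := (smul_eq_zero.1 h5).resolve_right hv0
    exact norm_eq_zero.1 (pow_eq_zero_iff two_ne_zero |>.1 h6)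
  have hrange : ∀ w, A w ∈ LinearMap.range κ := by
    intro w
    obtain ⟨x, y, hxy⟩ := rank (hCLF ℂ).1 hadd huc hu1 hu2 hM hv hv0 (A w) (hAM w)
    exact ⟨⟨x, y⟩, hxy.symm⟩
  let α₀ : E →ₗ[ℝ] ℂ := ((LinearEquiv.ofInjective κ hinj).symm : _ →ₗ[ℝ] ℂ) ∘ₗ
    (A.codRestrict (LinearMap.range κ) hrange)
  have hα : ∀ w, κ (α₀ w) = A w := by
    intro w
    have h1 : ((LinearEquiv.ofInjective κ hinj) ((LinearEquiv.ofInjective κ hinj).symm
      (A.codRestrict (LinearMap.range κ) hrange w)) : E) = A w := by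
      rw [LinearEquiv.apply_symm_apply]
      rfl
    exact h1
  refine ⟨LinearMap.toContinuousLinearMap α₀, fun a => ⟨κ a, ?_⟩, fun s w => ?_, fun w => ?_⟩
  · refine hinj ?_
    show κ (α₀ (κ a)) = κ a
    rw [hα, hAid _ (hκM a)]
  · refine hinj ?_
    show κ (α₀ (Q s w)) = κ (Complex.exp (s * Complex.I) * α₀ w)
    have h1 : A (Q s w) = Q s (A w) := by
      rw [hA, hA, hcomm, map_smul, map_sub]
    rw [hα, h1, ← hα, hκ, hκ, map_add, map_smul, map_smul, hM v hv s,
      hM (Q (Real.pi / 2) v) hJM s, hJJ, hv]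
    simp only [Complex.mul_re, Complex.mul_im, Complex.exp_ofReal_mul_I_re,
      Complex.exp_ofReal_mul_I_im]
    module
  · rw [← hAfix, ← hα]
    constructor
    · intro h1
      have h2 : α₀ w = 0 := h1
      rw [h2, map_zero]
    · intro h1
      have h2 : α₀ w = 0 := hinj (by rw [h1, map_zero])
      exact h2

end Pool.Agent.CRC
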