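import Pool.Agent.CRC.St

/-!
# CRC [LCH]: global smooth maps of weight one and zero which are a chart at a zero of `f`
-/

set_option autoImplicit false

open scoped ContDiff Topology
open Set Function TopologicalSpace MeasureTheory

namespace Pool.Agent.CRC

open Pool.Agent.Helper17 Pool.Agent.Helper42 Pool.Agent.H50.Susp

section LCH

variable {E : Type} [NormedAddCommGroup E] [NormedSpace ℝ E]

lemma LCH_bdd {Q : ℝ → (E →L[ℝ] E)} (hc : Continuous Q)
    (hper : ∀ s, Q (s + 2 * Real.pi) = Q s) : ∃ M : ℝ, 0 < M ∧ ∀ s, ‖Q s‖ ≤ M := by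
  obtain ⟨M, hM⟩ := (isCompact_Icc (a := (0 : ℝ)) (b := 2 * Real.pi)).exists_bound_of_continuousOn
    (f := Q) hc.continuousOn
  have hp : Function.Periodic Q (2 * Real.pi) := hper
  refine ⟨M + 1, ?_, fun s => ?_⟩
  · have := (norm_nonneg _).trans (hM 0 ⟨le_rfl, by positivity⟩)
    linarith
  · obtain ⟨y, hy, h⟩ := hp.exists_mem_Ico₀ (by positivity) s
    rw [h]
    have := hM y ⟨hy.1, hy.2.le⟩
    linarith

/-- an invariant norm -/
lemma LCH_norm {Q : ℝ → (E →L[ℝ] E)} (hc : Continuous Q)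
    (h0 : Q 0 = ContinuousLinearMap.id ℝ E) (hadd : ∀ a b, Q (a + b) = (Q a).comp (Q b))
    (hper : ∀ s, Q (s + 2 * Real.pi) = Q s) :
    ∃ N : E → ℝ, Continuous N ∧ (∀ s v, N (Q s v) = N v) ∧
      (∀ (c : ℝ) (v : E), 0 ≤ c → N (c • v) = c * N v) ∧ ∃ c : ℝ, 0 < c ∧ ∀ v, c * ‖v‖ ≤ N v := by
  obtain ⟨M, hM0, hM⟩ := LCH_bdd hc hper
  have hcv : ∀ v, Continuous fun s => ‖Q s v‖ := fun v => (hc.clm_apply continuous_const).norm
  refine ⟨fun v => ∫ s in (0 : ℝ)..(2 * Real.pi), ‖Q s v‖, ?_, fun t v => ?_, fun c v hc0 => ?_,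
    2 * Real.pi / M, by positivity, fun v => ?_⟩
  · refine intervalIntegral.continuous_parametric_intervalIntegral_of_continuous' ?_ _ _
    exact ((hc.comp continuous_snd).clm_apply continuous_fst).norm
  · have h1 : ∀ s, ‖Q s (Q t v)‖ = (fun r => ‖Q r v‖) (s + t) := fun s => by
      show ‖Q s (Q t v)‖ = ‖Q (s + t) v‖
      rw [hadd]
      rfl
    simp only [h1]
    rw [intervalIntegral.integral_comp_add_right (fun r => ‖Q r v‖) t]
    have hp : Function.Periodic (fun r => ‖Q r v‖) (2 * Real.pi) := fun s => by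
      show ‖Q (s + 2 * Real.pi) v‖ = ‖Q s v‖
      rw [hper]
    have h2 := hp.intervalIntegral_add_eq t 0
    rw [zero_add, add_comm (2 * Real.pi) t, h2, zero_add]
  · have h1 : ∀ s, ‖Q s (c • v)‖ = c * ‖Q s v‖ := fun s => by
      rw [map_smul, norm_smul, Real.norm_eq_abs, abs_of_nonneg hc0]
    simp only [h1]
    exact intervalIntegral.integral_const_mul _ _
  · have h1 : ∀ s, ‖v‖ / M ≤ ‖Q s v‖ := fun s => by
      have h2 : Q (-s) (Q s v) = v := by
        have := hadd (-s) s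
        rw [neg_add_cancel, h0] at this
        exact (congrArg (fun A : E →L[ℝ] E => A v) this).symm
      rw [div_le_iff₀ hM0]
      calc ‖v‖ = ‖Q (-s) (Q s v)‖ := by rw [h2]
        _ ≤ ‖Q (-s)‖ * ‖Q s v‖ := (Q (-s)).le_opNorm _
        _ ≤ M * ‖Q s v‖ := mul_le_mul_of_nonneg_right (hM _) (norm_nonneg _)
        _ = ‖Q s v‖ * M := mul_comm _ _
    have h3 : ∫ s in (0 : ℝ)..(2 * Real.pi), ‖v‖ / M ≤ ∫ s in (0 : ℝ)..(2 * Real.pi), ‖Q s v‖ :=
      intervalIntegral.integral_mono_on (by positivity) (by simp)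
        ((hcv v).intervalIntegrable _ _) fun s _ => h1 s
    rw [intervalIntegral.integral_const, smul_eq_mul, sub_zero] at h3
    calc 2 * Real.pi / M * ‖v‖ = 2 * Real.pi * (‖v‖ / M) := by ring
      _ ≤ _ := h3

/-- the projection to the fixed vectors -/
lemma LCH_avg [CompleteSpace E] {Q : ℝ → (E →L[ℝ] E)} (hc : Continuous Q)
    (hadd : ∀ a b, Q (a + b) = (Q a).comp (Q b)) (hper : ∀ s, Q (s + 2 * Real.pi) = Q s) :
    ∃ P : E →L[ℝ] E, (∀ s v, P (Q s v) = P v) ∧ (∀ s v, Q s (P v) = P v) ∧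
      ∀ v, (∀ s, Q s v = v) → P v = v := by
  have hi : IntervalIntegrable Q volume 0 (2 * Real.pi) := hc.intervalIntegrable _ _
  have hcv : ∀ v, Continuous fun s => Q s v := fun v => hc.clm_apply continuous_const
  set P : E →L[ℝ] E := (2 * Real.pi)⁻¹ • ∫ s in (0 : ℝ)..(2 * Real.pi), Q s with hP
  have hPv : ∀ v, P v = (2 * Real.pi)⁻¹ • ∫ s in (0 : ℝ)..(2 * Real.pi), Q s v := fun v => by
    rw [hP, smul_apply, ContinuousLinearMap.intervalIntegral_apply hi]
  have hsh : ∀ t v, ∫ s in (0 : ℝ)..(2 * Real.pi), Q (s + t) v =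
      ∫ s in (0 : ℝ)..(2 * Real.pi), Q s v := fun t v => by
    rw [intervalIntegral.integral_comp_add_right (fun r => Q r v) t]
    have hp : Function.Periodic (fun r => Q r v) (2 * Real.pi) := fun s => by
      show Q (s + 2 * Real.pi) v = Q s v
      rw [hper]
    have h2 := hp.intervalIntegral_add_eq t 0
    rw [zero_add, add_comm (2 * Real.pi) t, h2, zero_add]
  refine ⟨P, fun t v => ?_, fun t v => ?_, fun v hv => ?_⟩
  · rw [hPv, hPv, ← hsh t v]
    congr 1
    refine intervalIntegral.integral_congr fun s _ => ?_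
    show Q s (Q t v) = Q (s + t) v
    rw [hadd]
    rfl
  · rw [hPv, map_smul, ← (Q t).intervalIntegral_comp_comm ((hcv v).intervalIntegrable _ _),
      ← hsh t v]
    congr 1
    refine intervalIntegral.integral_congr fun s _ => ?_
    show Q t (Q s v) = Q (s + t) v
    rw [add_comm, hadd]
    rfl
  · rw [hPv]
    have h1 : ∫ s in (0 : ℝ)..(2 * Real.pi), Q s v = ∫ s in (0 : ℝ)..(2 * Real.pi), v :=
      intervalIntegral.integral_congr fun s _ => hv s
    rw [h1, intervalIntegral.integral_const, sub_zero, smul_smul,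
      inv_mul_cancel₀ (by positivity), one_smul]

/-- the local inverse of the linearisation -/
lemma LCH_loc [CompleteSpace E] {Q : ℝ → (E →L[ℝ] E)} (Φ : ℝ → E → E)
    (hΦ : Continuous fun q : ℝ × E => Φ q.1 q.2) (hper : ∀ s x, Φ (s + 2 * Real.pi) x = Φ s x)
    (p : E) (hp : ∀ s, Φ s p = p) (L : E → E) (hL : ContDiff ℝ ∞ L)
    (hLe : ∀ s x, L (Φ s x) = Q s (L x)) (hLp : L p = 0)
    (hD : fderiv ℝ L p = ContinuousLinearMap.id ℝ E) :
    ∃ (V : Set E) (ψ : E → E), IsOpen V ∧ (0 : E) ∈ V ∧ ContinuousOn ψ V ∧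
      (∀ v ∈ V, L (ψ v) = v) ∧ ∀ v ∈ V, ∀ s, ψ (Q s v) = Φ s (ψ v) := by
  have hs : HasStrictFDerivAt L
      ((ContinuousLinearEquiv.refl ℝ E : E ≃L[ℝ] E) : E →L[ℝ] E) p := by
    have h1 := hL.contDiffAt.hasStrictFDerivAt (x := p) (by simp)
    rw [hD] at h1
    exact h1
  set e := hs.toOpenPartialHomeomorph L with he
  have heL : ∀ x, e x = L x := fun x => rfl
  have hps : p ∈ e.source := hs.mem_toOpenPartialHomeomorph_source
  have ht : ∀ᶠ x in 𝓝 p, ∀ s ∈ Icc (0 : ℝ) (2 * Real.pi), Φ s x ∈ e.source := by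
    refine isCompact_Icc.eventually_forall_of_forall_eventually fun s _ => ?_
    have h1 : Continuous fun z : E × ℝ => Φ z.2 z.1 := hΦ.comp (continuous_snd.prodMk continuous_fst)
    have h2 : (fun z : E × ℝ => Φ z.2 z.1) (p, s) ∈ e.source := by
      show Φ s p ∈ e.source
      rw [hp]
      exact hps
    exact h1.continuousAt.eventually (e.open_source.mem_nhds h2)
  obtain ⟨O, hO, hOo, hpO⟩ := eventually_nhds_iff.1 ht
  have hall : ∀ x ∈ O, ∀ s, Φ s x ∈ e.source := fun x hx s => by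
    have hpe : Function.Periodic (fun s => Φ s x) (2 * Real.pi) := fun s => hper s x
    obtain ⟨y, hy, h⟩ := hpe.exists_mem_Ico₀ (by positivity) s
    rw [h]
    exact hO x hx y ⟨hy.1, hy.2.le⟩
  have h0t : (0 : E) ∈ e.target := by
    rw [← hLp, ← heL]
    exact e.map_source hps
  have h0s : e.symm 0 = p := by
    rw [← hLp, ← heL]
    exact e.left_inv hps
  refine ⟨e.target ∩ e.symm ⁻¹' O, e.symm, e.isOpen_inter_preimage_symm hOo, ⟨h0t, ?_⟩,
    e.continuousOn_symm.mono inter_subset_left, fun v hv => ?_, fun v hv s => ?_⟩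
  · show e.symm 0 ∈ O
    rw [h0s]
    exact hpO
  · rw [← heL]
    exact e.right_inv hv.1
  · have h1 : L (Φ s (e.symm v)) = Q s v := by
      rw [hLe]
      congr 1
      rw [← heL]
      exact e.right_inv hv.1
    rw [← h1, ← heL]
    exact e.left_inv (hall _ hv.2 s)

end LCH

theorem thm_LCH (hACT : St_ACT) (hUFN : St_UFN) (hLIN : St_LIN) (hNTR : St_NTR)
    (hLAL : St_LAL) : St_LCH := by
  intro n R f Φ hf hΦ p hfp
  obtain ⟨hf0, hfc, hfix⟩ := hACT n R f Φ hf hΦ
  obtain ⟨R', u, hu⟩ := hUFN n R f Φ hf hΦ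
  obtain ⟨hQc, hQ0, hQadd, hQper, L, hL, hLe, hLp, hLD⟩ := hLIN n R f Φ hf hΦ p hfp
  obtain ⟨s₀, v₀, hv₀⟩ := hNTR n R f Φ hf hΦ p hfp
  have hp : ∀ s, Φ s p = p := (hfix p).1 hfp
  obtain ⟨N, hN, hNi, hNs, c, hc, hNc⟩ := LCH_norm hQc hQ0 hQadd hQper
  obtain ⟨P, hP1, hP2, hP3⟩ := LCH_avg hQc hQadd hQper
  obtain ⟨V, ψ, hV, h0V, hψ, hLψ, hψe⟩ := LCH_loc Φ hΦ.cf.continuous hΦ.per p hp L hL hLe hLp hLD
  obtain ⟨ε, hε, hεV⟩ := Metric.isOpen_iff.1 hV 0 h0V
  have hN0 : ∀ v, 0 ≤ N v := fun v => (mul_nonneg hc.le (norm_nonneg v)).trans (hNc v)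
  set δ := c * ε with hδ
  have hδ0 : 0 < δ := mul_pos hc hε
  have hNV : ∀ w, N w < δ → w ∈ V := fun w hw => by
    refine hεV ?_
    rw [mem_ball_zero_iff]
    have := (hNc w).trans_lt hw
    exact lt_of_mul_lt_mul_left this hc.le
  set r : Phase (n + 1) → ℝ := fun v => δ / (2 * (1 + N v)) with hr
  have hr0 : ∀ v, 0 < r v := fun v => by
    have := hN0 v
    have : 0 < 1 + N v := by linarith
    simp only [hr]
    positivity
  have hrc : Continuous r := by
    refine continuous_const.div (continuous_const.mul (continuous_const.add hN)) fun v => ?_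
    have := hN0 v
    have : 0 < 1 + N v := by linarith
    positivity
  have hrV : ∀ v, r v • v ∈ V := fun v => by
    refine hNV _ ?_
    have h1 := hN0 v
    have h2 : 0 < 1 + N v := by linarith
    rw [hNs _ _ (hr0 v).le]
    simp only [hr]
    rw [div_mul_eq_mul_div, div_lt_iff₀ (by positivity)]
    nlinarith
  have hre : ∀ s v, r (fderiv ℝ (Φ s) p v) = r v := fun s v => by
    simp only [hr, hNi]
  have hpos : ∀ v, (∃ s, fderiv ℝ (Φ s) p v ≠ v) → 0 < f (ψ (r v • v)) := fun v hv => by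
    refine lt_of_le_of_ne (hf0 _) fun h => ?_
    obtain ⟨s, hs⟩ := hv
    refine hs ?_
    have h1 := (hfix _).1 h.symm s
    have h2 := hψe _ (hrV v) s
    have h3 : L (ψ (fderiv ℝ (Φ s) p (r v • v))) = r v • v := by
      rw [h2, h1, hLψ _ (hrV v)]
    have h4 : fderiv ℝ (Φ s) p (r v • v) = r v • v := by
      have h5 := hLe s (ψ (r v • v))
      rw [hLψ _ (hrV v), h1, hLψ _ (hrV v)] at h5
      exact h5.symm
    rw [map_smul] at h4
    exact smul_right_injective _ (hr0 v).ne' h4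
  obtain ⟨α₀, hα₀s, hα₀e, hα₀0⟩ := hLAL (Phase (n + 1)) (fun s => fderiv ℝ (Φ s) p)
    (fun v => u (ψ (r v • v))) hQc hQ0 hQadd hQper ⟨s₀, v₀, hv₀⟩ (by
      refine ContinuousOn.comp (t := {x | 0 < f x}) hu.smooth.continuousOn ?_ fun v hv => hpos v hv
      exact hψ.comp (hrc.smul continuous_id).continuousOn fun v _ => hrV v)
    (fun v hv => hu.norm _ (hpos v hv)) (fun s v hv => by
      show u (ψ (r (fderiv ℝ (Φ s) p v) • fderiv ℝ (Φ s) p v)) = _
      rw [hre, ← map_smul, hψe _ (hrV v) s]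
      exact hu.wt s _ (hpos v hv))
  -- the fixed vectors
  have hker : ∀ v, P v ∈ LinearMap.ker (α₀ : Phase (n + 1) →ₗ[ℝ] ℂ) := fun v => by
    rw [LinearMap.mem_ker]
    exact (hα₀0 _).2 fun s => hP2 s v
  have hfr1 : Module.finrank ℝ (LinearMap.ker (α₀ : Phase (n + 1) →ₗ[ℝ] ℂ)) =
      Module.finrank ℝ (Phase n) := by
    have h1 := LinearMap.finrank_range_add_finrank_ker (α₀ : Phase (n + 1) →ₗ[ℝ] ℂ)
    have h2 : LinearMap.range (α₀ : Phase (n + 1) →ₗ[ℝ] ℂ) = ⊤ :=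
      LinearMap.range_eq_top.2 hα₀s
    rw [h2, finrank_top, Complex.finrank_real_complex] at h1
    have h3 : Module.finrank ℝ (Phase (n + 1)) = 2 * (n + 1) := by
      simp [Phase]
      omega
    have h4 : Module.finrank ℝ (Phase n) = 2 * n := by
      simp [Phase]
      omega
    omega
  set eq := ContinuousLinearEquiv.ofFinrankEq hfr1 with heq
  set P' : Phase (n + 1) →L[ℝ] LinearMap.ker (α₀ : Phase (n + 1) →ₗ[ℝ] ℂ) :=
    P.codRestrict _ hker with hP'
  set β₀ : Phase (n + 1) →L[ℝ] Phase n :=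
    (eq : LinearMap.ker (α₀ : Phase (n + 1) →ₗ[ℝ] ℂ) →L[ℝ] Phase n).comp P' with hβ₀
  have hβ₀0 : ∀ v, β₀ v = 0 → P v = 0 := fun v hv => by
    have h1 : eq (P' v) = 0 := hv
    have h2 : P' v = 0 := by
      have := eq.injective (h1.trans (map_zero eq).symm)
      exact this
    have h3 := congrArg Subtype.val h2
    exact h3
  have hβ₀e : ∀ s v, β₀ (fderiv ℝ (Φ s) p v) = β₀ v := fun s v => by
    show eq (P' (fderiv ℝ (Φ s) p v)) = eq (P' v)
    congr 1
    exact Subtype.ext (hP1 s v)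
  refine ⟨fun x => α₀ (L x), fun x => β₀ (L x), α₀.contDiff.comp hL, β₀.contDiff.comp hL,
    fun s x => ?_, fun s x => ?_, ?_, ?_, ?_⟩
  · show α₀ (L (Φ s x)) = _
    rw [hLe]
    exact hα₀e s _
  · show β₀ (L (Φ s x)) = _
    rw [hLe]
    exact hβ₀e s _
  · show α₀ (L p) = 0
    rw [hLp, map_zero]
  · show β₀ (L p) = 0
    rw [hLp, map_zero]
  · have hd : HasFDerivAt L (ContinuousLinearMap.id ℝ (Phase (n + 1))) p := by
      rw [← hLD]
      exact (hL.differentiable (by simp) p).hasFDerivAt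
    have h1 : HasFDerivAt (fun x => (α₀ (L x), β₀ (L x)))
        ((α₀.prod β₀).comp (ContinuousLinearMap.id ℝ (Phase (n + 1)))) p :=
      ((α₀.prod β₀).hasFDerivAt (x := L p)).comp p hd
    rw [h1.fderiv, ContinuousLinearMap.comp_id]
    have hinj : Injective (α₀.prod β₀) := by
      rw [injective_iff_map_eq_zero]
      intro v hv
      have h2 : α₀ v = 0 := congrArg Prod.fst hv
      have h3 : β₀ v = 0 := congrArg Prod.snd hv
      rw [← hP3 v ((hα₀0 v).1 h2)]
      exact hβ₀0 v h3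
    refine ⟨hinj, ?_⟩
    have hfr : Module.finrank ℝ (Phase (n + 1)) = Module.finrank ℝ (ℂ × Phase n) := by
      rw [Module.finrank_prod, Complex.finrank_real_complex]
      simp [Phase]
      omega
    exact (LinearMap.injective_iff_surjective_of_finrank_eq_finrank
      (f := ((α₀.prod β₀ : Phase (n + 1) →L[ℝ] ℂ × Phase n) :
        Phase (n + 1) →ₗ[ℝ] ℂ × Phase n)) hfr).1 hinj

end Pool.Agent.CRC
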