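import Pool.Agent.CRC.St
import Pool.Agent.CRC.Basic

/-!
# CRC, module LFA: the lifting property of the map to circle Hamiltonians
-/

set_option autoImplicit false

open scoped ContDiff Topology
open Set Function TopologicalSpace

namespace Pool.Agent.CRC

open Pool.Agent.Helper17 Pool.Agent.Helper42 Pool.Agent.H50.Susp

namespace LFA

variable {n : ℕ}

private lemma ex_mono {R R' : ℝ} (h : R ≤ R') {a : Phase (n + 1) → ℂ} (ha : Ex R a) : Ex R' a :=
  ⟨ha.smooth, fun p hp => ha.std p (h.trans_lt hp), ha.br⟩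

private lemma norm_sq_eq (p : Phase (n + 1)) : ‖zz p‖ ^ 2 = 2 * mu p := by
  rw [mu_eq]
  ring

/-- The functions of a family in `CircHam` with common support are circle Hamiltonians. -/
private lemma circ_family {T : Type} (f : T → CircHam n) (K : Compacts (Phase (n + 1)))
    (hK : ∀ t, ∀ x ∉ K, (f t).1 x = mu x) :
    ∃ R : ℝ, ∀ t, Circ R (f t).1 := by
  obtain ⟨R, hR⟩ := K.isCompact.isBounded.subset_closedBall (0 : Phase (n + 1))
  refine ⟨R, fun t => ⟨(f t).2.1, fun p hp => hK t p fun hpK => ?_, (f t).2.2.2⟩⟩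
  have h := hR hpK
  rw [mem_closedBall_zero_iff] at h
  exact absurd hp (not_lt.2 h)

end LFA

open LFA

theorem thm_LFA (hTOP : St_TOP) (hLO2 : St_LO2) (hLIF : St_LIF) (hEXR : St_EXR) (hUNI : St_UNI)
    (hBRK : St_BRK) (hONT : St_ONT) : St_LFA := by
  intro n q hq T _ _ _ f N T₀ hN hT₀ hTN g hg
  -- the family of Hamiltonians
  obtain ⟨hCF, K, hK⟩ := (hTOP n).2 T f f.continuous
  obtain ⟨R₀, hR₀⟩ := circ_family f K hK
  -- the coordinate of the given lift
  have : CompactSpace N := isCompact_iff_compactSpace.1 hN.isCompact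
  obtain ⟨hgCF, K', hK'⟩ := CF_of_continuous g.continuous
  obtain ⟨R₁, hR₁⟩ := K'.isCompact.isBounded.subset_closedBall (0 : Phase (n + 1))
  have haCF : CF (fun (t : N) (p : Phase (n + 1)) => zz ((g t : Equiv.Perm (Phase (n + 1))) p)) :=
    hgCF.clm (zzL n)
  have haEx : ∀ t : N, Ex R₁ (fun p : Phase (n + 1) =>
      zz ((g t : Equiv.Perm (Phase (n + 1))) p)) := by
    intro t
    refine (hBRK n).2.2.1 R₁ (g t) fun p hp => hK' t p fun hpK => ?_
    have h := hR₁ hpK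
    rw [mem_closedBall_zero_iff] at h
    exact absurd hp (not_lt.2 h)
  have haN : ∀ (t : N) (p : Phase (n + 1)),
      ‖zz ((g t : Equiv.Perm (Phase (n + 1))) p)‖ ^ 2 = 2 * (f t).1 p := by
    intro t p
    rw [norm_sq_eq, ← hq, hg]
  -- local lifts away from the closed set
  have hloc : ∀ s : {t : T // t ∉ T₀}, ∃ (C : Set T) (R' : ℝ), IsClosed C ∧ s.1 ∈ interior C ∧
      (∀ t ∈ C, t ∉ T₀) ∧ ∃ a : C → Phase (n + 1) → ℂ, CF a ∧
      (∀ t, Ex R' (a t)) ∧ ∀ (t : C) (p : Phase (n + 1)), ‖a t p‖ ^ 2 = 2 * (f t).1 p := by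
    rintro ⟨t₀, ht₀⟩
    obtain ⟨φ, hφ⟩ := hONT n R₀ (f t₀).1 (hR₀ t₀)
    obtain ⟨C, R', hC, htC, a, ha, haE, haF⟩ :=
      hLO2 n T R₀ (fun t => (f t).1) t₀ φ hCF hR₀ hφ
    obtain ⟨D, hD, hDc, hDs⟩ := exists_mem_nhds_isClosed_subset
      (hT₀.isOpen_compl.mem_nhds ht₀ : T₀ᶜ ∈ 𝓝 t₀)
    refine ⟨C ∩ D, R', hC.inter hDc, ?_, fun t ht => hDs ht.2,
      fun t => a ⟨t.1, t.2.1⟩, ?_, fun t => haE _, fun t p => haF _ p⟩
    · rw [mem_interior_iff_mem_nhds] at htC ⊢
      exact Filter.inter_mem htC hD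
    · exact ha.base (h := fun t : ↥(C ∩ D) => (⟨t.1, t.2.1⟩ : C))
        (continuous_subtype_val.subtype_mk _)
  choose C R' hC hsC hCT a ha haE haF using hloc
  -- the cover
  let CC : Option {t : T // t ∉ T₀} → Set T := fun o => o.elim N C
  let RR : Option {t : T // t ∉ T₀} → ℝ := fun o => o.elim R₁ R'
  let aa : ∀ o, CC o → Phase (n + 1) → ℂ := fun o => match o with
    | none => fun t p => zz ((g t : Equiv.Perm (Phase (n + 1))) p)
    | some s => a s
  have hcov : (univ : Set T) ⊆ ⋃ o, interior (CC o) := by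
    intro t _
    rw [mem_iUnion]
    by_cases ht : t ∈ T₀
    · exact ⟨none, hTN ht⟩
    · exact ⟨some ⟨t, ht⟩, hsC ⟨t, ht⟩⟩
  obtain ⟨u, hu⟩ := isCompact_univ.elim_finite_subcover _ (fun o => isOpen_interior) hcov
  classical
  obtain ⟨R, hR⟩ := Finite.exists_le (fun i : {o // o ∈ insert none u} => RR i.1)
  have hCC : ∀ o, IsClosed (CC o) := by
    rintro (_ | s)
    · exact hN
    · exact hC s
  have haa : ∀ o, CF (aa o) := by
    rintro (_ | s)
    · exact haCF
    · exact ha s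
  have haaE : ∀ (o) (t : CC o), Ex (RR o) (aa o t) := by
    rintro (_ | s) t
    · exact haEx t
    · exact haE s t
  have haaF : ∀ (o) (t : CC o) (p : Phase (n + 1)), ‖aa o t p‖ ^ 2 = 2 * (f t).1 p := by
    rintro (_ | s) t p
    · exact haN t p
    · exact haF s t p
  obtain ⟨A, hA, hAE, hAF, hAu⟩ := hLIF n T R (fun t => (f t).1) {o // o ∈ insert none u}
    (fun i => CC i.1) (fun i => aa i.1) (fun i => hCC i.1)
    (fun t => by
      obtain ⟨o, ho, hto⟩ := mem_iUnion₂.1 (hu (mem_univ t))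
      exact ⟨⟨o, Finset.mem_insert_of_mem ho⟩, hto⟩)
    (fun i => haa i.1) (fun i t => ex_mono (hR i) (haaE i.1 t)) (fun i => haaF i.1) hCF
  obtain ⟨φ, hφ, hφA⟩ := hEXR n T R A hA hAE
  refine ⟨⟨φ, hφ⟩, fun t => ?_, fun t ht => ?_⟩
  · refine Subtype.ext (funext fun p => ?_)
    change (q (φ t)).1 p = (f t).1 p
    rw [hq, mu_eq, hφA, hAF]
    ring
  · refine hUNI n _ _ fun p => ?_
    change zz ((φ t : Equiv.Perm (Phase (n + 1))) p) = _
    have huniq : ∀ l : {o // o ∈ insert none u}, t ∈ CC l.1 →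
        l = ⟨none, Finset.mem_insert_self _ _⟩ := by
      rintro ⟨_ | s, hs⟩ hl
      · rfl
      · exact absurd ht (hCT s t hl)
    rw [hφA]
    exact hAu t ⟨none, Finset.mem_insert_self _ _⟩ (interior_subset (hTN ht)) huniq p

end Pool.Agent.CRC
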