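import Pool.Agent.CRC.St

/-!
# CRC, module LIF: gluing of local lifts over a finite closed cover

Circle theorem for MP_ec5dc5_gt (architect helper16).
-/

set_option autoImplicit false

open scoped ContDiff Topology
open Set Function TopologicalSpace

namespace Pool.Agent.CRC

open Pool.Agent.Helper17 Pool.Agent.Helper42 Pool.Agent.H50.Susp

section local_param

variable {T : Type} [TopologicalSpace T] {E : Type} [NormedAddCommGroup E] [NormedSpace ℝ E]

lemma LIF_CFk_local {k : ℕ} : ∀ {E' : Type} [NormedAddCommGroup E'] [NormedSpace ℝ E']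
    {F : T → E → E'}, (∀ t₀ : T, ∃ V : Set T, IsOpen V ∧ t₀ ∈ V ∧
      CFk V E k E' (fun (t : V) x => F t x)) → CFk T E k E' F := by
  have hcont : ∀ {E' : Type} [NormedAddCommGroup E'] [NormedSpace ℝ E'] {F : T → E → E'},
      (∀ t₀ : T, ∃ V : Set T, IsOpen V ∧ t₀ ∈ V ∧
        Continuous (fun p : V × E => F p.1 p.2)) → Continuous (fun p : T × E => F p.1 p.2) := by
    intro E' _ _ F h
    rw [continuous_iff_continuousAt]
    rintro ⟨t, x⟩
    obtain ⟨V, hV, ht, hF⟩ := h t
    have h1 : Topology.IsOpenEmbedding (Prod.map (Subtype.val : V → T) (id : E → E)) :=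
      hV.isOpenEmbedding_subtypeVal.prodMap Topology.IsOpenEmbedding.id
    exact (h1.continuousAt_iff (g := fun p : T × E => F p.1 p.2) (x := (⟨t, ht⟩, x))).1
      hF.continuousAt
  induction k with
  | zero =>
    intro E' _ _ F h
    exact hcont h
  | succ k ih =>
    intro E' _ _ F h
    refine ⟨hcont fun t₀ => ?_, fun t => ?_, ih fun t₀ => ?_⟩
    · obtain ⟨V, hV, ht, hF⟩ := h t₀
      exact ⟨V, hV, ht, hF.1⟩
    · obtain ⟨V, hV, ht, hF⟩ := h t
      exact hF.2.1 ⟨t, ht⟩
    · obtain ⟨V, hV, ht, hF⟩ := h t₀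
      exact ⟨V, hV, ht, hF.2.2⟩

/-- a family is smooth if it is smooth locally in the parameter -/
lemma LIF_CF_local {E' : Type} [NormedAddCommGroup E'] [NormedSpace ℝ E'] {F : T → E → E'}
    (h : ∀ t₀ : T, ∃ V : Set T, t₀ ∈ interior V ∧ CF (fun (t : V) x => F t x)) : CF F := by
  intro k
  apply LIF_CFk_local
  intro t₀
  obtain ⟨V, ht, hF⟩ := h t₀
  refine ⟨interior V, isOpen_interior, ht, ?_⟩
  have h1 : Continuous (fun t : interior V => (⟨t.1, interior_subset t.2⟩ : V)) :=
    continuous_subtype_val.subtype_mk _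
  exact (CF.base h1 hF) k

lemma LIF_CF_sum {ι : Type} (s : Finset ι) {F : ι → T → E → ℝ} (h : ∀ i ∈ s, CF (F i)) :
    CF (fun t x => ∑ i ∈ s, F i t x) := by
  classical
  induction s using Finset.induction_on with
  | empty =>
    simp only [Finset.sum_empty]
    exact CF.const (f := fun _ : E => (0 : ℝ)) contDiff_const
  | insert i s hi ih =>
    simp only [Finset.sum_insert hi]
    exact (h i (Finset.mem_insert_self i s)).add
      (ih fun j hj => h j (Finset.mem_insert_of_mem hj))

/-- multiplication by a phase -/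
lemma LIF_CF_phase {a : T → E → ℂ} {η : T → E → ℝ} (ha : CF a) (hη : CF η) :
    CF (fun t x => a t x * Complex.exp (η t x * Complex.I)) := by
  have h1 : ContDiff ℝ ∞ (fun q : ℂ × ℝ => q.1 * Complex.exp (q.2 * Complex.I)) := by
    have h2 : ContDiff ℝ ∞ (fun q : ℂ × ℝ => (q.2 : ℂ)) :=
      Complex.ofRealCLM.contDiff.comp contDiff_snd
    exact contDiff_fst.mul (h2.mul contDiff_const).cexp
  exact (ha.prodMk hη).comp_smooth (g := fun q : ℂ × ℝ => q.1 * Complex.exp (q.2 * Complex.I))
    (fun _ _ => h1.contDiffAt)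

end local_param

theorem thm_LIF (hFIB : St_FIB) (hEXP : St_EXP) : St_LIF := by
  classical
  intro n T _ _ _ R f ι _ C a hC hcov ha hex hn _
  cases nonempty_fintype ι
  obtain ⟨κ, hκ⟩ := PartitionOfUnity.exists_isSubordinate isClosed_univ
    (fun j => interior (C j)) (fun j => isOpen_interior)
    (by intro t _; obtain ⟨j, hj⟩ := hcov t; exact mem_iUnion.2 ⟨j, hj⟩)
  -- the logarithms
  have H0 : ∀ j l, ∃ η : ↥(C j ∩ C l) → Phase (n + 1) → ℝ, CF η ∧
      (∀ t p, R < ‖p‖ → η t p = 0) ∧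
      ∀ t p, a l ⟨t.1, t.2.2⟩ p = a j ⟨t.1, t.2.1⟩ p * Complex.exp (η t p * Complex.I) := by
    intro j l
    have hK : CompactSpace ↥(C j ∩ C l) :=
      isCompact_iff_compactSpace.1 ((hC j).inter (hC l)).isCompact
    have hj : Continuous (fun t : ↥(C j ∩ C l) => (⟨t.1, t.2.1⟩ : C j)) :=
      continuous_subtype_val.subtype_mk _
    have hl : Continuous (fun t : ↥(C j ∩ C l) => (⟨t.1, t.2.2⟩ : C l)) :=
      continuous_subtype_val.subtype_mk _
    refine (hFIB n R).1 ↥(C j ∩ C l) (fun t => a j ⟨t.1, t.2.1⟩) (fun t => a l ⟨t.1, t.2.2⟩)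
      (CF.base hj (ha j)) (CF.base hl (ha l)) (fun t => hex j _) (fun t => hex l _) ?_
    intro t p
    have h1 := hn j ⟨t.1, t.2.1⟩ p
    have h2 := hn l ⟨t.1, t.2.2⟩ p
    exact (sq_eq_sq₀ (norm_nonneg _) (norm_nonneg _)).1 (h1.trans h2.symm)
  choose η hη1 hη2 hη3 using H0
  let H : ι → ι → T → Phase (n + 1) → ℝ := fun j l t p =>
    if h : t ∈ C j ∩ C l then η j l ⟨t, h⟩ p else 0
  have H_pos : ∀ {j l t} (h : t ∈ C j ∩ C l) p, H j l t p = η j l ⟨t, h⟩ p :=
    fun h p => dif_pos h
  have H_smooth : ∀ j l t, ContDiff ℝ ∞ (H j l t) := by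
    intro j l t
    by_cases h : t ∈ C j ∩ C l
    · have : H j l t = η j l ⟨t, h⟩ := by
        funext p
        exact H_pos h p
      rw [this]
      exact (hη1 j l).contDiff _
    · have : H j l t = fun _ => 0 := by
        funext p
        exact dif_neg h
      rw [this]
      exact contDiff_const
  have H_zero : ∀ j l t p, R < ‖p‖ → H j l t p = 0 := by
    intro j l t p hp
    by_cases h : t ∈ C j ∩ C l
    · rw [H_pos h]
      exact hη2 j l _ p hp
    · exact dif_neg h
  have H_eq : ∀ {j l t} (hj : t ∈ C j) (hl : t ∈ C l) p,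
      a l ⟨t, hl⟩ p = a j ⟨t, hj⟩ p * Complex.exp (H j l t p * Complex.I) := by
    intro j l t hj hl p
    rw [H_pos ⟨hj, hl⟩]
    exact hη3 j l ⟨t, hj, hl⟩ p
  have H_coc : ∀ {j l m t}, t ∈ C j → t ∈ C l → t ∈ C m → ∀ p,
      H j m t p = H j l t p + H l m t p := by
    intro j l m t hj hl hm
    have h1 := (hFIB n R).2 (a j ⟨t, hj⟩) (H j m t) (fun p => H j l t p + H l m t p) (hex j _)
      (H_smooth j m t).continuous ((H_smooth j l t).continuous.add (H_smooth l m t).continuous)
      (H_zero j m t) (fun p hp => by rw [H_zero j l t p hp, H_zero l m t p hp, add_zero])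
      (fun p => by
        rw [← H_eq hj hm, H_eq hl hm, H_eq hj hl, mul_assoc, ← Complex.exp_add]
        congr 2
        push_cast
        ring)
    exact fun p => congrFun h1 p
  have H_self : ∀ {j t}, t ∈ C j → ∀ p, H j j t p = 0 := by
    intro j t hj p
    have h1 := H_coc hj hj hj p
    linarith
  have H_pb : ∀ {j l t}, t ∈ C j → t ∈ C l → ∀ p, pb (f t) (H j l t) p = 0 := by
    intro j l t hj hl
    refine (hEXP n R (f t) (a j ⟨t, hj⟩) (H j l t) (hex j _) (hn j _) (H_smooth j l t)
      (H_zero j l t)).1 ?_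
    have : (fun p => a j ⟨t, hj⟩ p * Complex.exp (H j l t p * Complex.I)) = a l ⟨t, hl⟩ := by
      funext p
      exact (H_eq hj hl p).symm
    rw [this]
    exact hex l _
  have hκC : ∀ {l t}, κ l t ≠ 0 → t ∈ C l := fun {l t} h =>
    interior_subset (hκ l (subset_tsupport _ h))
  have hκ1 : ∀ t, ∑ l, κ l t = 1 := by
    intro t
    rw [← finsum_eq_sum_of_fintype]
    exact κ.sum_eq_one (mem_univ t)
  -- the phase
  let Θ : ι → T → Phase (n + 1) → ℝ := fun j t p => ∑ l, κ l t * H j l t p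
  have Θ_smooth : ∀ j t, ContDiff ℝ ∞ (Θ j t) := fun j t =>
    ContDiff.sum fun l _ => contDiff_const.mul (H_smooth j l t)
  have Θ_zero : ∀ j t p, R < ‖p‖ → Θ j t p = 0 := fun j t p hp =>
    Finset.sum_eq_zero fun l _ => by rw [H_zero j l t p hp, mul_zero]
  have Θ_pb : ∀ {j t}, t ∈ C j → ∀ p, pb (f t) (Θ j t) p = 0 := by
    intro j t hj p
    have h1 : HasFDerivAt (Θ j t) (∑ l, κ l t • fderiv ℝ (H j l t) p) p := by
      refine HasFDerivAt.fun_sum fun l _ => ?_
      exact (((H_smooth j l t).differentiable (by simp)) p).hasFDerivAt.const_mul (κ l t)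
    rw [pb, h1.fderiv, sum_apply]
    refine Finset.sum_eq_zero fun l _ => ?_
    rw [smul_apply, smul_eq_mul]
    by_cases h : κ l t = 0
    · rw [h, zero_mul]
    · have h2 := H_pb hj (hκC h) p
      rw [pb] at h2
      rw [h2, mul_zero]
  have Θ_cf : ∀ j, CF (fun (t : C j) p => Θ j t p) := by
    intro j
    refine LIF_CF_sum Finset.univ (F := fun l (t : C j) p => κ l t * H j l t p) fun l _ => ?_
    refine LIF_CF_local fun t₀ => ?_
    by_cases h0 : (t₀ : T) ∈ tsupport (κ l)
    · refine ⟨{t : C j | (t : T) ∈ C l}, ?_, ?_⟩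
      · refine mem_interior.2 ⟨{t : C j | (t : T) ∈ interior (C l)},
          fun t ht => (interior_subset : interior (C l) ⊆ C l) ht,
          isOpen_interior.preimage continuous_subtype_val,
          hκ l h0⟩
      · have h1 : Continuous (fun t : {t : C j | (t : T) ∈ C l} =>
            (⟨t.1.1, t.1.2, t.2⟩ : ↥(C j ∩ C l))) :=
          (continuous_subtype_val.comp continuous_subtype_val).subtype_mk _
        have h2 : CF (fun (t : {t : C j | (t : T) ∈ C l}) (_ : Phase (n + 1)) => κ l t.1.1) :=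
          CF.param ((κ l).continuous.comp (continuous_subtype_val.comp continuous_subtype_val))
        have h3 := h2.smul (CF.base h1 (hη1 j l))
        have h4 : (fun (t : {t : C j | (t : T) ∈ C l}) (p : Phase (n + 1)) =>
            κ l t.1.1 * H j l t.1.1 p) =
            fun t p => κ l t.1.1 • η j l ⟨t.1.1, t.1.2, t.2⟩ p := by
          funext t p
          rw [H_pos ⟨t.1.2, t.2⟩, smul_eq_mul]
        rw [h4]
        exact h3
    · refine ⟨{t : C j | (t : T) ∉ tsupport (κ l)}, ?_, ?_⟩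
      · have h1 : IsOpen {t : C j | (t : T) ∉ tsupport (κ l)} :=
          (isClosed_tsupport (κ l)).isOpen_compl.preimage continuous_subtype_val
        rw [h1.interior_eq]
        exact h0
      · have h4 : (fun (t : {t : C j | (t : T) ∉ tsupport (κ l)}) (p : Phase (n + 1)) =>
            κ l t.1.1 * H j l t.1.1 p) = fun _ _ => 0 := by
          funext t p
          have : κ l t.1.1 = 0 := image_eq_zero_of_notMem_tsupport t.2
          rw [this, zero_mul]
        rw [h4]
        exact CF.const (f := fun _ : Phase (n + 1) => (0 : ℝ)) contDiff_const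
  -- the glued lift
  choose jj hjj using hcov
  have hjC : ∀ t, t ∈ C (jj t) := fun t => interior_subset (hjj t)
  let A : T → Phase (n + 1) → ℂ := fun t p =>
    a (jj t) ⟨t, hjC t⟩ p * Complex.exp (Θ (jj t) t p * Complex.I)
  have key : ∀ (t : T) (j : ι) (ht : t ∈ C j) p,
      A t p = a j ⟨t, ht⟩ p * Complex.exp (Θ j t p * Complex.I) := by
    intro t j ht p
    change a (jj t) ⟨t, hjC t⟩ p * Complex.exp (Θ (jj t) t p * Complex.I) = _
    rw [H_eq ht (hjC t), mul_assoc, ← Complex.exp_add]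
    have h1 : H j (jj t) t p + Θ (jj t) t p = Θ j t p := by
      change H j (jj t) t p + ∑ l, κ l t * H (jj t) l t p = ∑ l, κ l t * H j l t p
      have h2 : H j (jj t) t p = ∑ l, κ l t * H j (jj t) t p := by
        rw [← Finset.sum_mul, hκ1, one_mul]
      rw [h2, ← Finset.sum_add_distrib]
      refine Finset.sum_congr rfl fun l _ => ?_
      by_cases h : κ l t = 0
      · rw [h, zero_mul, zero_mul, zero_mul, add_zero]
      · rw [H_coc ht (hjC t) (hκC h) p, mul_add]
    rw [← h1]
    congr 2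
    push_cast
    ring
  refine ⟨A, ?_, ?_, ?_, ?_⟩
  · refine LIF_CF_local fun t₀ => ⟨C (jj t₀), hjj t₀, ?_⟩
    have h1 : (fun (t : C (jj t₀)) p => A t p) = fun (t : C (jj t₀)) p =>
        a (jj t₀) t p * Complex.exp (Θ (jj t₀) t p * Complex.I) := by
      funext t p
      exact key t (jj t₀) t.2 p
    rw [h1]
    exact LIF_CF_phase (ha (jj t₀)) (Θ_cf (jj t₀))
  · intro t
    exact (hEXP n R (f t) (a (jj t) ⟨t, hjC t⟩) (Θ (jj t) t) (hex _ _) (hn _ _)
      (Θ_smooth _ t) (Θ_zero _ t)).2 (Θ_pb (hjC t))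
  · intro t p
    change ‖a (jj t) ⟨t, hjC t⟩ p * Complex.exp (Θ (jj t) t p * Complex.I)‖ ^ 2 = _
    rw [norm_mul, Complex.norm_exp_ofReal_mul_I, mul_one]
    exact hn _ ⟨t, hjC t⟩ p
  · intro t j ht hu p
    rw [key t j ht p]
    have h1 : Θ j t p = 0 := by
      refine Finset.sum_eq_zero fun l _ => ?_
      by_cases h : κ l t = 0
      · rw [h, zero_mul]
      · have h2 := hu l (hκC h)
        subst h2
        rw [H_self ht, mul_zero]
    rw [h1]
    simp

end Pool.Agent.CRC
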