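import Pool.Agent.CRC.St
import Pool.Agent.Helper42.Susp.CFInverse

/-!
# CRC, module LOC: local section near `mu` (helper40)
-/

set_option autoImplicit false
set_option maxSynthPendingDepth 3

open scoped ContDiff Topology
open Set Function TopologicalSpace Filter

namespace Pool.Agent.CRC

open Pool.Agent.Helper17 Pool.Agent.Helper42 Pool.Agent.H50.Susp

namespace LOC

variable {n : ℕ}

/-- `zz` as a continuous linear map -/
noncomputable def zL (n : ℕ) : Phase (n + 1) →L[ℝ] ℂ :=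
  LinearMap.toContinuousLinearMap
    { toFun := zz
      map_add' := fun p q => by
        apply Complex.ext <;> simp [zz]
      map_smul' := fun c p => by
        apply Complex.ext <;> simp [zz] }

lemma zL_apply (p : Phase (n + 1)) : zL n p = zz p := rfl

/-- `mkZ` as a continuous linear map -/
noncomputable def mL (n : ℕ) : ℂ × Phase n →L[ℝ] Phase (n + 1) :=
  (Complex.reCLM.comp (ContinuousLinearMap.fst ℝ ℂ (Phase n))).smulRight (eX 0) +
    (Complex.imCLM.comp (ContinuousLinearMap.fst ℝ ℂ (Phase n))).smulRight (eY 0) +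
    (wE n).comp (ContinuousLinearMap.snd ℝ ℂ (Phase n))

lemma mL_apply (q : ℂ × Phase n) : mL n q = mkZ q.1 q.2 := by
  simp [mL, mkZ]

lemma wE_apply (w : Phase n) (k : Fin (n + 1) ⊕ Fin (n + 1)) : wE n w k =
    Sum.elim (Fin.cons 0 fun j => w (Sum.inl j)) (Fin.cons 0 fun j => w (Sum.inr j)) k := rfl

lemma mk_inl0 (z : ℂ) (w : Phase n) : mkZ z w (Sum.inl 0) = z.re := by
  simp [mkZ, eX, eY, wE_apply]

lemma mk_inr0 (z : ℂ) (w : Phase n) : mkZ z w (Sum.inr 0) = z.im := by
  simp [mkZ, eX, eY, wE_apply]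

lemma mk_inlS (z : ℂ) (w : Phase n) (j : Fin n) : mkZ z w (Sum.inl j.succ) = w (Sum.inl j) := by
  simp [mkZ, eX, eY, wE_apply]

lemma mk_inrS (z : ℂ) (w : Phase n) (j : Fin n) : mkZ z w (Sum.inr j.succ) = w (Sum.inr j) := by
  simp [mkZ, eX, eY, wE_apply]

lemma wW_inl (p : Phase (n + 1)) (j : Fin n) : wW n p (Sum.inl j) = p (Sum.inl j.succ) := rfl

lemma wW_inr (p : Phase (n + 1)) (j : Fin n) : wW n p (Sum.inr j) = p (Sum.inr j.succ) := rfl

lemma mk_eta (p : Phase (n + 1)) : mkZ (zz p) (wW n p) = p := by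
  ext k
  rcases k with k | k
  · refine Fin.cases ?_ (fun j => ?_) k
    · rw [mk_inl0]
      rfl
    · rw [mk_inlS, wW_inl]
  · refine Fin.cases ?_ (fun j => ?_) k
    · rw [mk_inr0]
      rfl
    · rw [mk_inrS, wW_inr]

lemma zz_mk (z : ℂ) (w : Phase n) : zz (mkZ z w) = z := by
  apply Complex.ext
  · exact mk_inl0 z w
  · exact mk_inr0 z w

lemma wW_mk (z : ℂ) (w : Phase n) : wW n (mkZ z w) = w := by
  ext k
  rcases k with j | j
  · rw [wW_inl, mk_inlS]
  · rw [wW_inr, mk_inrS]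

lemma norm_mk (z : ℂ) (w : Phase n) : ‖mkZ z w‖ ^ 2 = ‖z‖ ^ 2 + ‖w‖ ^ 2 := by
  rw [EuclideanSpace.norm_sq_eq, EuclideanSpace.norm_sq_eq, Fintype.sum_sum_type,
    Fintype.sum_sum_type, Fin.sum_univ_succ, Fin.sum_univ_succ, mk_inl0, mk_inr0, Complex.sq_norm,
    Complex.normSq_apply]
  simp only [mk_inlS, mk_inrS, Real.norm_eq_abs, sq_abs]
  ring

lemma mu_eq (p : Phase (n + 1)) : mu p = ‖zz p‖ ^ 2 / 2 := by
  rw [Complex.sq_norm, Complex.normSq_apply]
  show (p (Sum.inl 0) ^ 2 + p (Sum.inr 0) ^ 2) / 2 =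
    (p (Sum.inl 0) * p (Sum.inl 0) + p (Sum.inr 0) * p (Sum.inr 0)) / 2
  ring

lemma zz_rot (s : ℝ) (p : Phase (n + 1)) : zz (rot s p) = Complex.exp (s * Complex.I) * zz p :=
  zz_mk _ _

lemma wW_rot (s : ℝ) (p : Phase (n + 1)) : wW n (rot s p) = wW n p := wW_mk _ _

lemma mk_rot (s : ℝ) (z : ℂ) (w : Phase n) :
    mkZ (Complex.exp (s * Complex.I) * z) w = rot s (mkZ z w) := by
  rw [rot, zz_mk, wW_mk]

lemma rot_fix (s : ℝ) {p : Phase (n + 1)} (h : zz p = 0) : rot s p = p := by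
  rw [rot, h, mul_zero, ← h, mk_eta]

lemma dense_fst : Dense {q : ℂ × Phase n | q.1 ≠ 0} := by
  have h1 : Dense ({0}ᶜ : Set ℂ) := dense_compl_singleton 0
  exact h1.preimage isOpenMap_fst

lemma dense_zz : Dense {p : Phase (n + 1) | zz p ≠ 0} := by
  intro p
  have h1 : Continuous fun q : ℂ × Phase n => mL n q := (mL n).continuous
  have h2 : (zz p, wW n p) ∈ closure {q : ℂ × Phase n | q.1 ≠ 0} := dense_fst _
  have h3 := map_mem_closure h1 h2 (t := {p : Phase (n + 1) | zz p ≠ 0}) (fun q hq => by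
    show zz (mL n q) ≠ 0
    rw [mL_apply, zz_mk]
    exact hq)
  have h4 : mL n (zz p, wW n p) = p := by
    rw [mL_apply]
    exact mk_eta p
  rwa [h4] at h3

lemma norm_le_mL (q : ℂ × Phase n) : ‖q‖ ≤ ‖mL n q‖ := by
  have h1 : ‖mL n q‖ ^ 2 = ‖q.1‖ ^ 2 + ‖q.2‖ ^ 2 := by
    rw [mL_apply, norm_mk]
  have h0 := norm_nonneg (mL n q)
  rw [Prod.norm_def]
  refine max_le ?_ ?_
  · refine le_of_sq_le_sq ?_ h0
    rw [h1]
    nlinarith [sq_nonneg ‖q.2‖]
  · refine le_of_sq_le_sq ?_ h0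
    rw [h1]
    nlinarith [sq_nonneg ‖q.1‖]

end LOC

open LOC

theorem thm_LOC (hFLW : St_FLW) (hAVG : St_AVG) (hACT : St_ACT) (hDIV : St_DIV) (hBRK : St_BRK) :
    St_LOC := by
  intro n T _ _ _ R f t₀ hf hC h0
  obtain ⟨Φ, hΦ, hFl⟩ := hFLW n T R f hf hC
  obtain ⟨A, hA, hAeq, hAout, hA0⟩ := hAVG n T R f Φ hΦ hFl
  have hAid : A t₀ = fun p => p := funext (hA0 t₀ h0)
  -- the derivative is near the identity
  have hAd : ∀ᶠ t in 𝓝 t₀, ∀ p : Phase (n + 1),
      ‖fderiv ℝ (A t) p - ContinuousLinearMap.id ℝ (Phase (n + 1))‖ < 1 / 2 := by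
    have hc : Continuous fun q : T × Phase (n + 1) =>
        ‖fderiv ℝ (A q.1) q.2 - ContinuousLinearMap.id ℝ (Phase (n + 1))‖ :=
      (hA.fderiv.continuous.sub continuous_const).norm
    have h1 : ∀ᶠ t in 𝓝 t₀, ∀ p ∈ Metric.closedBall (0 : Phase (n + 1)) R,
        ‖fderiv ℝ (A t) p - ContinuousLinearMap.id ℝ (Phase (n + 1))‖ < 1 / 2 := by
      apply (isCompact_closedBall (0 : Phase (n + 1)) R).eventually_forall_of_forall_eventually
      intro p _
      refine (hc.continuousAt (x := (t₀, p))).eventually_lt continuousAt_const ?_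
      show ‖fderiv ℝ (A t₀) p - ContinuousLinearMap.id ℝ (Phase (n + 1))‖ < 1 / 2
      rw [hAid, fderiv_fun_id, sub_self, norm_zero]
      norm_num
    filter_upwards [h1] with t ht p
    by_cases hp : R < ‖p‖
    · have h2 : A t =ᶠ[𝓝 p] fun q => q := by
        filter_upwards [(isOpen_lt continuous_const continuous_norm).mem_nhds hp] with q hq
        exact hAout t q hq
      rw [h2.fderiv_eq, fderiv_fun_id, sub_self, norm_zero]
      norm_num
    · exact ht p (mem_closedBall_zero_iff.2 (not_lt.1 hp))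
  obtain ⟨C₁, hC₁n, -, hC₁⟩ := exists_mem_nhds_isClosed_subset hAd
  have ht₀ : t₀ ∈ C₁ := mem_of_mem_nhds hC₁n
  -- the inverses
  have hA₁ : CF (fun (t : C₁) p => A t p) := hA.base continuous_subtype_val
  obtain ⟨G, hG, hAG, hGA, hGout⟩ := exists_CF_inverse hA₁
    (isCompact_closedBall (0 : Phase (n + 1)) R)
    (fun t x hx => hAout t x (not_le.1 fun h => hx (mem_closedBall_zero_iff.2 h)))
    (fun t x => by
      rw [injective_iff_map_eq_zero]
      intro v hv
      have h1 := hC₁ t.2 x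
      have h2 : (fderiv ℝ (A t) x - ContinuousLinearMap.id ℝ (Phase (n + 1))) v = -v := by
        have hv' : fderiv ℝ (A t) x v = 0 := hv
        rw [sub_apply, hv', ContinuousLinearMap.id_apply, zero_sub]
      have h3 := ContinuousLinearMap.le_opNorm
        (fderiv ℝ (A t) x - ContinuousLinearMap.id ℝ (Phase (n + 1))) v
      rw [h2, norm_neg] at h3
      have h4 := norm_nonneg v
      have h5 : ‖v‖ ≤ 1 / 2 * ‖v‖ := h3.trans (mul_le_mul_of_nonneg_right h1.le h4)
      exact norm_eq_zero.1 (by linarith))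
  -- the functions `F`
  have hF : CF (fun (t : C₁) p => f t (G t p)) := (hf.base continuous_subtype_val).comp hG
  have hGrot : ∀ (t : C₁) (s : ℝ) (p : Phase (n + 1)), G t (rot s p) = Φ t s (G t p) := by
    intro t s p
    have h1 := hAeq t s (G t p)
    rw [hAG t p] at h1
    rw [← h1]
    exact hGA t _
  have hFrot : ∀ (t : C₁) (s : ℝ) (p : Phase (n + 1)), f t (G t (rot s p)) = f t (G t p) := by
    intro t s p
    rw [hGrot, (hFl t).cons]
  have hF0 : ∀ (t : C₁) (p : Phase (n + 1)), zz p = 0 → f t (G t p) = 0 := by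
    intro t p hp
    refine ((hACT n R (f t) (Φ t) (hC t) (hFl t)).2.2 _).2 fun s => ?_
    rw [← hGrot, rot_fix s hp]
  have hFout : ∀ (t : C₁) (p : Phase (n + 1)), R < ‖p‖ → f t (G t p) = mu p := by
    intro t p hp
    rw [hGout t p (fun h => not_le.2 hp (mem_closedBall_zero_iff.1 h)), (hC t).std p hp]
  -- division
  have hh : CF (fun (t : C₁) (q : ℂ × Phase n) => f t (G t (mL n q))) :=
    hF.comp (CF.const (mL n).contDiff)
  obtain ⟨k, hk, hk1, hk2⟩ := (hDIV C₁ (Phase n)).2 _ hh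
    (fun t s z w => by
      rw [mL_apply, mL_apply]
      show f t (G t (mkZ (Complex.exp (s * Complex.I) * z) w)) = f t (G t (mkZ z w))
      rw [mk_rot, hFrot])
    (fun t w => by
      rw [mL_apply]
      exact hF0 t _ (zz_mk _ _))
  have hkc : ∀ t, Continuous (k t) := fun t => (hk.contDiff t).continuous
  have hkstd : ∀ (t : C₁) (q : ℂ × Phase n),
      (∀ᶠ q' in 𝓝 q, f t (G t (mL n q')) = ‖q'.1‖ ^ 2 / 2) → k t q = 1 / 2 := by
    intro t q hq
    by_contra hne
    have h1 := (hkc t).continuousAt.eventually_ne hne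
    obtain ⟨q', hq'0, hq'⟩ := (dense_fst (n := n)).inter_nhds_nonempty (hq.and h1)
    have h2 := hk1 t q'.1 q'.2
    have h3 : f t (G t (mL n q')) = ‖q'.1‖ ^ 2 * k t q' := h2
    rw [hq'.1] at h3
    have h4 : 0 < ‖q'.1‖ ^ 2 := by
      have := norm_pos_iff.2 hq'0
      positivity
    refine hq'.2 ?_
    have h5 : ‖q'.1‖ ^ 2 * k t q' = ‖q'.1‖ ^ 2 * (1 / 2) := by linarith
    exact mul_left_cancel₀ h4.ne' h5
  have hkt₀ : ∀ q, k ⟨t₀, ht₀⟩ q = 1 / 2 := by
    intro q
    refine hkstd _ q (Eventually.of_forall fun q' => ?_)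
    have h1 : G ⟨t₀, ht₀⟩ (mL n q') = mL n q' := by
      have h2 := hAG ⟨t₀, ht₀⟩ (mL n q')
      have h3 : A t₀ (G ⟨t₀, ht₀⟩ (mL n q')) = mL n q' := h2
      rw [hAid] at h3
      exact h3
    show f t₀ (G ⟨t₀, ht₀⟩ (mL n q')) = _
    rw [h1, h0, mu_eq, mL_apply, zz_mk]
  have hkout : ∀ (t : C₁) (q : ℂ × Phase n), R < ‖mL n q‖ → k t q = 1 / 2 := by
    intro t q hq
    refine hkstd t q ?_
    filter_upwards [(isOpen_lt continuous_const (mL n).continuous.norm).mem_nhds hq] with q' hq'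
    rw [hFout t _ hq', mu_eq, mL_apply, zz_mk]
  -- positivity
  have hK' : IsCompact {q : ℂ × Phase n | ‖mL n q‖ ≤ R} := by
    refine (isCompact_closedBall (0 : ℂ × Phase n) R).of_isClosed_subset
      (isClosed_le (mL n).continuous.norm continuous_const) fun q hq => ?_
    exact mem_closedBall_zero_iff.2 ((norm_le_mL q).trans hq)
  have hpos : ∀ᶠ t in 𝓝 (⟨t₀, ht₀⟩ : C₁), ∀ q ∈ {q : ℂ × Phase n | ‖mL n q‖ ≤ R},
      0 < k t q := by
    apply hK'.eventually_forall_of_forall_eventually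
    intro q _
    refine continuousAt_const.eventually_lt (hk.continuous.continuousAt (x := (⟨t₀, ht₀⟩, q))) ?_
    show 0 < k ⟨t₀, ht₀⟩ q
    rw [hkt₀]
    norm_num
  have hS : {t : T | ∃ h : t ∈ C₁, ∀ q, 0 < k ⟨t, h⟩ q} ∈ 𝓝 t₀ := by
    obtain ⟨V, hV, hVs⟩ := (mem_nhds_subtype C₁ ⟨t₀, ht₀⟩ _).1 hpos
    filter_upwards [hV, hC₁n] with t h1 h2
    refine ⟨h2, fun q => ?_⟩
    by_cases hq : R < ‖mL n q‖
    · rw [hkout _ q hq]
      norm_num
    · exact hVs (show (⟨t, h2⟩ : C₁) ∈ Subtype.val ⁻¹' V from h1) q (not_lt.1 hq)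
  obtain ⟨C, hCn, hCc, hCs⟩ := exists_mem_nhds_isClosed_subset hS
  have hCC : ∀ t : C, (t : T) ∈ C₁ := fun t => (hCs t.2).elim fun h _ => h
  set ι : C → C₁ := fun t => ⟨t, hCC t⟩ with hι
  have hιc : Continuous ι := continuous_subtype_val.subtype_mk _
  have hkpos : ∀ (t : C) (q : ℂ × Phase n), 0 < k (ι t) q := by
    intro t q
    obtain ⟨h, hq⟩ := hCs t.2
    exact hq q
  refine ⟨C, hCc, mem_interior_iff_mem_nhds.2 hCn, ?_⟩
  -- the exact pair
  have hAC : CF (fun (t : C) p => A t p) := hA.base continuous_subtype_val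
  have hW : CF (fun (t : C) p => (zz (A t p), wW n (A t p))) :=
    (hAC.clm (zL n)).prodMk (hAC.clm (wW n))
  have hκ : CF (fun (t : C) p => k (ι t) (zz (A t p), wW n (A t p))) := (hk.base hιc).comp hW
  have hsq : CF (fun (t : C) p => Real.sqrt (2 * k (ι t) (zz (A t p), wW n (A t p)))) := by
    refine hκ.comp_smooth (g := fun x : ℝ => Real.sqrt (2 * x)) fun t p => ?_
    have h1 := hkpos t (zz (A t p), wW n (A t p))
    refine ContDiffAt.sqrt (contDiffAt_const.mul contDiffAt_id) ?_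
    have : 0 < 2 * k (ι t) (zz (A t p), wW n (A t p)) := by linarith
    exact this.ne'
  have ha : CF (fun (t : C) p =>
      Real.sqrt (2 * k (ι t) (zz (A t p), wW n (A t p))) • zz (A t p)) :=
    hsq.smul (hAC.clm (zL n))
  have hmk : ∀ (t : C) (p : Phase (n + 1)), mL n (zz (A t p), wW n (A t p)) = A t p := by
    intro t p
    rw [mL_apply]
    exact mk_eta _
  have hnorm : ∀ (t : C) (p : Phase (n + 1)),
      ‖Real.sqrt (2 * k (ι t) (zz (A t p), wW n (A t p))) • zz (A t p)‖ ^ 2 = 2 * f t p := by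
    intro t p
    have h1 := hkpos t (zz (A t p), wW n (A t p))
    rw [norm_smul, Real.norm_eq_abs, abs_of_nonneg (Real.sqrt_nonneg _), mul_pow,
      Real.sq_sqrt (by linarith)]
    have h2 := hk1 (ι t) (zz (A t p)) (wW n (A t p))
    have h3 : f t (G (ι t) (mL n (zz (A t p), wW n (A t p)))) =
        ‖zz (A t p)‖ ^ 2 * k (ι t) (zz (A t p), wW n (A t p)) := h2
    have h4 : G (ι t) (A t p) = p := hGA (ι t) p
    rw [hmk, h4] at h3
    rw [h3]
    ring
  have hwt : ∀ (t : C) (s : ℝ) (p : Phase (n + 1)),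
      Real.sqrt (2 * k (ι t) (zz (A t (Φ t s p)), wW n (A t (Φ t s p)))) • zz (A t (Φ t s p)) =
      Complex.exp (s * Complex.I) *
        (Real.sqrt (2 * k (ι t) (zz (A t p), wW n (A t p))) • zz (A t p)) := by
    intro t s p
    rw [hAeq, zz_rot, wW_rot, hk2, mul_smul_comm]
  refine ⟨fun t p => Real.sqrt (2 * k (ι t) (zz (A t p), wW n (A t p))) • zz (A t p), ha,
    fun t => ⟨ha.contDiff t, fun p hp => ?_, ?_⟩, hnorm⟩
  · have h1 : R < ‖mL n (zz (A t p), wW n (A t p))‖ := by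
      rw [hmk, hAout t p hp]
      exact hp
    show Real.sqrt (2 * k (ι t) (zz (A t p), wW n (A t p))) • zz (A t p) = zz p
    rw [hkout (ι t) _ h1, hAout t p hp]
    norm_num
  · have hsm := ha.contDiff t
    have hre : ContDiff ℝ ∞ fun q =>
        (Real.sqrt (2 * k (ι t) (zz (A t q), wW n (A t q))) • zz (A t q)).re :=
      Complex.reCLM.contDiff.comp hsm
    have him : ContDiff ℝ ∞ fun q =>
        (Real.sqrt (2 * k (ι t) (zz (A t q), wW n (A t q))) • zz (A t q)).im :=
      Complex.imCLM.contDiff.comp hsm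
    have hcont : Continuous (pb
        (fun q => (Real.sqrt (2 * k (ι t) (zz (A t q), wW n (A t q))) • zz (A t q)).re)
        (fun q => (Real.sqrt (2 * k (ι t) (zz (A t q), wW n (A t q))) • zz (A t q)).im)) := by
      unfold pb
      refine (him.continuous_fderiv (by simp)).clm_apply ?_
      unfold hamV
      exact ((sharp (n + 1)).continuous.comp (hre.continuous_fderiv (by simp))).neg
    have hopen : IsOpenMap (A t) := by
      have hGc : Continuous (G (ι t)) := (hG.contDiff (ι t)).continuous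
      exact ({ toFun := A t
               invFun := G (ι t)
               left_inv := fun p => hGA (ι t) p
               right_inv := fun p => hAG (ι t) p
               continuous_toFun := (hA.contDiff t).continuous
               continuous_invFun := hGc } : Phase (n + 1) ≃ₜ Phase (n + 1)).isOpenMap
    have hd : Dense (A t ⁻¹' {p | zz p ≠ 0}) := dense_zz.preimage hopen
    have heq := Continuous.ext_on hd hcont continuous_const (g := fun _ => (1 : ℝ)) fun p hp => by
      refine (hBRK n).1 R (f t) (Φ t) _ (hFl t) hsm (hnorm t) (hwt t) p ?_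
      have h1 := hkpos t (zz (A t p), wW n (A t p))
      exact smul_ne_zero (Real.sqrt_pos.2 (by linarith)).ne' hp
    intro p
    exact congrFun heq p

end Pool.Agent.CRC
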