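import Pool.Agent.CRC.St

/-!
# CRC, module LOG: compactly supported logarithms in families

Circle theorem for MP_ec5dc5_gt (architect helper16).
-/

set_option autoImplicit false

open scoped ContDiff Topology ComplexConjugate
open Set Function TopologicalSpace MeasureTheory

namespace Pool.Agent.CRC

open Pool.Agent.Helper17 Pool.Agent.Helper42 Pool.Agent.H50.Susp

/-- a continuous real function on a preconnected set with `exp (i η) = 1` is constant -/
lemma LOG_const {X : Type} [TopologicalSpace X] {S : Set X} (hS : IsPreconnected S) {η : X → ℝ}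
    (hη : ContinuousOn η S) (h : ∀ x ∈ S, Complex.exp (η x * Complex.I) = 1) {x y : X}
    (hx : x ∈ S) (hy : y ∈ S) : η x = η y := by
  have hd : DiscreteTopology (range (fun k : ℤ => (k : ℝ))) :=
    Int.isClosedEmbedding_coe_real.isEmbedding.toHomeomorph.symm.isEmbedding.discreteTopology
  have h2 : ∀ x ∈ S, η x / (2 * Real.pi) ∈ range (fun k : ℤ => (k : ℝ)) := by
    intro x hx
    obtain ⟨k, hk⟩ := Complex.exp_eq_one_iff.1 (h x hx)
    refine ⟨k, ?_⟩
    have h3 : (η x : ℂ) = ((k * (2 * Real.pi) : ℝ) : ℂ) := by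
      have h4 : (η x : ℂ) * Complex.I = (k * (2 * Real.pi)) * Complex.I := by
        rw [hk]
        ring
      have h5 := mul_right_cancel₀ Complex.I_ne_zero h4
      rw [h5]
      push_cast
      ring
    have h6 : η x = k * (2 * Real.pi) := by exact_mod_cast h3
    rw [h6]
    field_simp
  have h3 := hS.constant_of_mapsTo (T := range (fun k : ℤ => (k : ℝ)))
    (f := fun x => η x / (2 * Real.pi)) ⟨hd⟩ (hη.div_const _) h2 hx hy
  have h4 : (2 * Real.pi) ≠ 0 := by positivity
  exact (div_left_inj' h4).1 h3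

lemma LOG_rank (N : ℕ) : 1 < Module.rank ℝ (Phase (N + 1)) := by
  rw [← Module.finrank_eq_rank, finrank_euclideanSpace]
  simp only [Fintype.card_sum, Fintype.card_fin]
  exact_mod_cast (by omega : 1 < N + 1 + (N + 1))

/-- the complement of a ball is connected -/
lemma LOG_conn (N : ℕ) (R : ℝ) : IsPreconnected {p : Phase (N + 1) | R < ‖p‖} := by
  rcases lt_or_ge R 0 with hR | hR
  · have : {p : Phase (N + 1) | R < ‖p‖} = univ :=
      eq_univ_of_forall fun p => lt_of_lt_of_le hR (norm_nonneg p)
    rw [this]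
    exact isPreconnected_univ
  · have h1 : IsPreconnected (Metric.sphere (0 : Phase (N + 1)) 1 ×ˢ Ioi R) :=
      (isPreconnected_sphere (LOG_rank N) 0 1).prod isPreconnected_Ioi
    have h2 : {p : Phase (N + 1) | R < ‖p‖} =
        (fun q : Phase (N + 1) × ℝ => q.2 • q.1) '' (Metric.sphere (0 : Phase (N + 1)) 1 ×ˢ Ioi R) := by
      ext p
      constructor
      · intro hp
        have hp' : R < ‖p‖ := hp
        have h0 : 0 < ‖p‖ := lt_of_le_of_lt hR hp'
        refine ⟨(‖p‖⁻¹ • p, ‖p‖), ⟨?_, hp'⟩, ?_⟩
        · rw [mem_sphere_zero_iff_norm, norm_smul, norm_inv, norm_norm, inv_mul_cancel₀ h0.ne']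
        · change ‖p‖ • ‖p‖⁻¹ • p = p
          rw [smul_smul, mul_inv_cancel₀ h0.ne', one_smul]
      · rintro ⟨⟨u, r⟩, ⟨hu, hr⟩, rfl⟩
        have hu' : ‖u‖ = 1 := mem_sphere_zero_iff_norm.1 hu
        have hr' : R < r := hr
        change R < ‖r • u‖
        rw [norm_smul, hu', mul_one, Real.norm_of_nonneg (hR.trans hr'.le)]
        exact hr'
    rw [h2]
    exact h1.image _ (continuous_snd.smul continuous_fst).continuousOn

lemma LOG_exists_far (N : ℕ) (R : ℝ) : ∃ P : Phase (N + 1), R < ‖P‖ := by
  refine ⟨(|R| + 1) • EuclideanSpace.single (Sum.inl 0) 1, ?_⟩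
  rw [norm_smul, PiLp.norm_single, norm_one, mul_one,
    Real.norm_of_nonneg (by positivity)]
  have := le_abs_self R
  linarith

/-- the angular form -/
noncomputable def LOG_th {N : ℕ} (B : Phase (N + 1) → ℂ) (x v : Phase (N + 1)) : ℝ :=
  (conj (B x) * fderiv ℝ B x v).im

lemma LOG_fderiv {N : ℕ} {B : Phase (N + 1) → ℂ} (hB : Differentiable ℝ B)
    (h1 : ∀ p, ‖B p‖ = 1) (x v : Phase (N + 1)) :
    fderiv ℝ B x v = (LOG_th B x v : ℂ) * Complex.I * B x := by
  have h2 : ∀ p, (B p).re * (B p).re + (B p).im * (B p).im = 1 := by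
    intro p
    have := h1 p
    rw [Complex.norm_def, Real.sqrt_eq_one] at this
    rw [← this, Complex.normSq_apply]
  have hre : HasFDerivAt (fun p => (B p).re) (Complex.reCLM.comp (fderiv ℝ B x)) x :=
    Complex.reCLM.hasFDerivAt.comp x (hB x).hasFDerivAt
  have him : HasFDerivAt (fun p => (B p).im) (Complex.imCLM.comp (fderiv ℝ B x)) x :=
    Complex.imCLM.hasFDerivAt.comp x (hB x).hasFDerivAt
  have h3 := ((hre.mul hre).add (him.mul him)).unique
    (by
      have : (fun p => (B p).re * (B p).re + (B p).im * (B p).im) = fun _ => (1 : ℝ) := by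
        funext p
        exact h2 p
      change HasFDerivAt (fun p => (B p).re * (B p).re + (B p).im * (B p).im) _ x
      rw [this]
      exact hasFDerivAt_const (1 : ℝ) x)
  have h4 := congrArg (fun L => L v) h3
  simp only [add_apply, smul_apply, ContinuousLinearMap.comp_apply, Complex.reCLM_apply,
    Complex.imCLM_apply, smul_eq_mul, zero_apply] at h4
  have h5 := h2 x
  apply Complex.ext
  · simp only [LOG_th, Complex.mul_re, Complex.mul_im, Complex.conj_re, Complex.conj_im,
      Complex.ofReal_re, Complex.ofReal_im, Complex.I_re, Complex.I_im]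
    linear_combination (-(fderiv ℝ B x v).re) * h5 + (B x).re / 2 * h4
  · simp only [LOG_th, Complex.mul_re, Complex.mul_im, Complex.conj_re, Complex.conj_im,
      Complex.ofReal_re, Complex.ofReal_im, Complex.I_re, Complex.I_im]
    linear_combination (-(fderiv ℝ B x v).im) * h5 + (B x).im / 2 * h4

/-- the integral of the angular form along a ray -/
noncomputable def LOG_h {N : ℕ} (B : Phase (N + 1) → ℂ) (p : Phase (N + 1)) : ℝ :=
  ∫ τ in Icc (0 : ℝ) 1, LOG_th B (τ • p) p ∂(volume.restrict (Icc (0 : ℝ) 1))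

lemma LOG_ray {N : ℕ} {B : Phase (N + 1) → ℂ} (hB : ContDiff ℝ ∞ B) (h1 : ∀ p, ‖B p‖ = 1)
    (p : Phase (N + 1)) : B p = B 0 * Complex.exp (LOG_h B p * Complex.I) := by
  have hd : Differentiable ℝ B := hB.differentiable (by simp)
  have hk : Continuous (fun τ : ℝ => LOG_th B (τ • p) p) := by
    have h2 : Continuous (fun τ : ℝ => τ • p) := continuous_id.smul continuous_const
    have h3 : Continuous (fun τ : ℝ => fderiv ℝ B (τ • p) p) :=
      ((hB.continuous_fderiv (by simp)).comp h2).clm_apply continuous_const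
    exact Complex.continuous_im.comp ((Complex.continuous_conj.comp (hB.continuous.comp h2)).mul h3)
  let k : ℝ → ℝ := fun τ => LOG_th B (τ • p) p
  have hG : ∀ τ : ℝ, HasDerivAt (fun τ : ℝ => B (τ • p) *
      Complex.exp (-((∫ σ in (0 : ℝ)..τ, k σ : ℝ) * Complex.I))) 0 τ := by
    intro τ
    have h2 : HasDerivAt (fun τ : ℝ => τ • p) p τ := by
      have := (hasDerivAt_id τ).smul_const p
      simpa using this
    have h3 : HasDerivAt (fun τ : ℝ => B (τ • p)) (fderiv ℝ B (τ • p) p) τ :=
      (hd (τ • p)).hasFDerivAt.comp_hasDerivAt τ h2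
    have h4 : HasDerivAt (fun τ : ℝ => ∫ σ in (0 : ℝ)..τ, k σ) (k τ) τ :=
      intervalIntegral.integral_hasDerivAt_right (hk.intervalIntegrable _ _)
        (hk.stronglyMeasurableAtFilter _ _) hk.continuousAt
    have h5 := ((h4.ofReal_comp.mul_const Complex.I).neg).cexp
    have h6 := h3.mul h5
    refine h6.congr_deriv ?_
    rw [LOG_fderiv hd h1]
    change _ + B (τ • p) * (_ * -((LOG_th B (τ • p) p : ℂ) * Complex.I)) = 0
    ring
  have h7 := is_const_of_deriv_eq_zero (fun τ => (hG τ).differentiableAt)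
    (fun τ => (hG τ).deriv) 1 0
  simp only [one_smul, zero_smul, intervalIntegral.integral_same, Complex.ofReal_zero, zero_mul,
    neg_zero, Complex.exp_zero, mul_one] at h7
  have h8 : LOG_h B p = ∫ σ in (0 : ℝ)..1, k σ := by
    rw [LOG_h, Measure.restrict_restrict measurableSet_Icc, inter_self,
      intervalIntegral.integral_of_le zero_le_one, integral_Icc_eq_integral_Ioc]
  rw [h8, ← h7, mul_assoc, ← Complex.exp_add]
  simp

lemma LOG_cf {N : ℕ} {T : Type} [TopologicalSpace T] {B : T → Phase (N + 1) → ℂ} (hB : CF B) :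
    CF (fun t p => LOG_h (B t) p) := by
  have hray : CF (fun (q : T × ℝ) (p : Phase (N + 1)) => q.2 • p) :=
    (CF.param continuous_snd).smul (CF.const contDiff_id)
  have hB1 : CF (fun (q : T × ℝ) p => B q.1 p) := CF.base continuous_fst hB
  have hb : CF (fun (q : T × ℝ) p => B q.1 (q.2 • p)) := hB1.comp hray
  have hd : CF (fun (q : T × ℝ) p => fderiv ℝ (B q.1) (q.2 • p)) := (hB1.fderiv).comp hray
  have hdp : CF (fun (q : T × ℝ) p => fderiv ℝ (B q.1) (q.2 • p) p) :=
    hd.clm_apply (CF.const contDiff_id)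
  have hF : CF (fun (q : T × ℝ) p => LOG_th (B q.1) (q.2 • p) p) := by
    have hs : ContDiff ℝ ∞ (fun w : ℂ × ℂ => (conj w.1 * w.2).im) := by
      have h1 : ContDiff ℝ ∞ (fun w : ℂ × ℂ => conj w.1) :=
        Complex.conjCLE.contDiff.comp contDiff_fst
      exact Complex.imCLM.contDiff.comp (h1.mul contDiff_snd)
    exact (hb.prodMk hdp).comp_smooth (g := fun w : ℂ × ℂ => (conj w.1 * w.2).im)
      (fun _ _ => hs.contDiffAt)
  exact CF.setIntegral (isCompact_Icc (a := (0 : ℝ)) (b := 1)) (volume.restrict (Icc (0 : ℝ) 1)) hF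

theorem thm_LOG : St_LOG := by
  intro N R
  obtain ⟨P, hP⟩ := LOG_exists_far N R
  refine ⟨?_, ?_⟩
  · intro T _ B hB h1 hout
    refine ⟨fun t p => LOG_h (B t) p - LOG_h (B t) P, ?_, ?_, ?_⟩
    · exact (LOG_cf hB).sub (CF.param (by
        have h2 := (LOG_cf hB).continuous
        exact h2.comp (continuous_id.prodMk continuous_const)))
    · have key : ∀ t p, B t p = Complex.exp ((LOG_h (B t) p - LOG_h (B t) P : ℝ) * Complex.I) := by
        intro t p
        have h2 := LOG_ray (hB.contDiff t) (h1 t) p
        have h3 := LOG_ray (hB.contDiff t) (h1 t) P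
        rw [hout t P hP] at h3
        have h4 : B t 0 = Complex.exp (-(LOG_h (B t) P * Complex.I)) := by
          rw [Complex.exp_neg]
          exact eq_inv_of_mul_eq_one_left h3.symm
        rw [h2, h4, ← Complex.exp_add]
        congr 1
        push_cast
        ring
      intro t p hp
      have hc : Continuous (fun p => LOG_h (B t) p - LOG_h (B t) P) :=
        ((LOG_cf hB).contDiff t).continuous.sub continuous_const
      have h5 := LOG_const (LOG_conn N R) (η := fun p => LOG_h (B t) p - LOG_h (B t) P)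
        hc.continuousOn (fun x hx => by
          rw [← key]
          exact hout t x hx) (x := p) (y := P) hp hP
      rw [sub_self] at h5
      exact h5
    · intro t p
      have h2 := LOG_ray (hB.contDiff t) (h1 t) p
      have h3 := LOG_ray (hB.contDiff t) (h1 t) P
      rw [hout t P hP] at h3
      have h4 : B t 0 = Complex.exp (-(LOG_h (B t) P * Complex.I)) := by
        rw [Complex.exp_neg]
        exact eq_inv_of_mul_eq_one_left h3.symm
      rw [h2, h4, ← Complex.exp_add]
      congr 1
      push_cast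
      ring
  · intro η η' hη hη' h0 h0' h
    funext p
    have hu : IsPreconnected (univ : Set (Phase (N + 1))) := convex_univ.isPreconnected
    have h1 := LOG_const hu (η := fun p => η p - η' p)
      (hη.sub hη').continuousOn (fun x _ => by
        have h2 : ((η x - η' x : ℝ) : ℂ) * Complex.I = η x * Complex.I - η' x * Complex.I := by
          push_cast
          ring
        rw [h2, Complex.exp_sub, h x, div_self (Complex.exp_ne_zero _)])
      (mem_univ p) (mem_univ P)
    simp only [h0 P hP, h0' P hP, sub_self] at h1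
    exact sub_eq_zero.1 h1

end Pool.Agent.CRC
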