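import Pool.Agent.CRC.St

/-!
# CRC, module LSO: local solutions (helper69)

In a slice the Hamiltonian is `‖z‖ ^ 2 * k (z, w)` with `k > 0`.
-/

set_option autoImplicit false

open scoped ContDiff Topology
open Set Function TopologicalSpace Filter

namespace Pool.Agent.CRC

open Pool.Agent.Helper17 Pool.Agent.Helper42 Pool.Agent.H50.Susp

namespace LSO

/-- an invariant cut-off function for polydiscs -/
private lemma exists_cut (n : ℕ) {d e : ℝ} (hd : 0 < d) (he : d < e) :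
    ∃ χ : ℂ × Phase n → ℝ, ContDiff ℝ ∞ χ ∧ (∀ q, ‖q.1‖ ≤ d → ‖q.2‖ ≤ d → χ q = 1) ∧
      (∀ q, (e ≤ ‖q.1‖ ∨ e ≤ ‖q.2‖) → χ q = 0) ∧
      ∀ (s : ℝ) (z : ℂ) (w : Phase n), χ (Complex.exp (s * Complex.I) * z, w) = χ (z, w) := by
  have hpos : 0 < e ^ 2 - d ^ 2 := by nlinarith
  refine ⟨fun q => Real.smoothTransition ((e ^ 2 - ‖q.1‖ ^ 2) / (e ^ 2 - d ^ 2)) *
    Real.smoothTransition ((e ^ 2 - ‖q.2‖ ^ 2) / (e ^ 2 - d ^ 2)), ?_, ?_, ?_, ?_⟩
  · refine (Real.smoothTransition.contDiff.comp ?_).mul (Real.smoothTransition.contDiff.comp ?_)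
    · exact (contDiff_const.sub (contDiff_fst.norm_sq ℝ)).div_const _
    · exact (contDiff_const.sub (contDiff_snd.norm_sq ℝ)).div_const _
  · intro q h1 h2
    have key : ∀ x : ℝ, 0 ≤ x → x ≤ d →
        Real.smoothTransition ((e ^ 2 - x ^ 2) / (e ^ 2 - d ^ 2)) = 1 := by
      intro x hx0 hx
      refine Real.smoothTransition.one_of_one_le ?_
      rw [le_div_iff₀ hpos]
      nlinarith
    show _ * _ = (1 : ℝ)
    rw [key _ (norm_nonneg _) h1, key _ (norm_nonneg _) h2, mul_one]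
  · intro q h
    have key : ∀ x : ℝ, e ≤ x →
        Real.smoothTransition ((e ^ 2 - x ^ 2) / (e ^ 2 - d ^ 2)) = 0 := by
      intro x hx
      refine Real.smoothTransition.zero_of_nonpos ?_
      refine div_nonpos_of_nonpos_of_nonneg ?_ hpos.le
      nlinarith
    show _ * _ = (0 : ℝ)
    rcases h with h | h
    · rw [key _ h, zero_mul]
    · rw [key _ h, mul_zero]
  · intro s z w
    have h1 : ‖Complex.exp (s * Complex.I) * z‖ = ‖z‖ := by
      rw [norm_mul, Complex.norm_exp_ofReal_mul_I, one_mul]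
    show _ * _ = _ * _
    rw [h1]

private lemma isOpen_poly (n : ℕ) (e : ℝ) : IsOpen {q : ℂ × Phase n | ‖q.1‖ < e ∧ ‖q.2‖ < e} :=
  (isOpen_lt continuous_fst.norm continuous_const).inter
    (isOpen_lt continuous_snd.norm continuous_const)

/-- division of an invariant function by the square of the modulus on a smaller polydisc -/
private lemma divide (hDIV : St_DIV) (n : ℕ) {d e : ℝ} (hd : 0 < d) (he : d < e)
    (g : ℂ × Phase n → ℝ) (hg : ContDiffOn ℝ ∞ g {q | ‖q.1‖ < e ∧ ‖q.2‖ < e})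
    (hw : ∀ (s : ℝ) (z : ℂ) (w : Phase n), ‖z‖ < e → ‖w‖ < e →
      g (Complex.exp (s * Complex.I) * z, w) = g (z, w))
    (h0 : ∀ w : Phase n, ‖w‖ < e → g (0, w) = 0) :
    ∃ k : ℂ × Phase n → ℝ, ContDiff ℝ ∞ k ∧
      ∀ z w, ‖z‖ ≤ d → ‖w‖ ≤ d → g (z, w) = ‖z‖ ^ 2 * k (z, w) := by
  have hm1 : d < (d + e) / 2 := by linarith
  have hm2 : (d + e) / 2 < e := by linarith
  obtain ⟨χ, hχ, hχ1, hχ0, hχw⟩ := exists_cut n hd hm1
  let b : ℂ × Phase n → ℝ := fun q => χ q * g q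
  have hb : ContDiff ℝ ∞ b := by
    rw [contDiff_iff_contDiffAt]
    intro q
    by_cases h : ‖q.1‖ < e ∧ ‖q.2‖ < e
    · exact hχ.contDiffAt.mul ((hg q h).contDiffAt ((isOpen_poly n e).mem_nhds h))
    · have hopen : IsOpen {q : ℂ × Phase n | (d + e) / 2 < ‖q.1‖ ∨ (d + e) / 2 < ‖q.2‖} :=
        (isOpen_lt continuous_const continuous_fst.norm).union
          (isOpen_lt continuous_const continuous_snd.norm)
      have hq : q ∈ {q : ℂ × Phase n | (d + e) / 2 < ‖q.1‖ ∨ (d + e) / 2 < ‖q.2‖} := by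
        rw [not_and_or, not_lt, not_lt] at h
        rcases h with h | h
        · exact Or.inl (lt_of_lt_of_le hm2 h)
        · exact Or.inr (lt_of_lt_of_le hm2 h)
      have h1 : b =ᶠ[𝓝 q] fun _ => 0 := by
        filter_upwards [hopen.mem_nhds hq] with y hy
        have h2 : χ y = 0 := hχ0 y (hy.imp le_of_lt le_of_lt)
        show χ y * g y = 0
        rw [h2, zero_mul]
      exact contDiffAt_const.congr_of_eventuallyEq h1
  obtain ⟨k, hk, hk1, -⟩ := (hDIV Unit (Phase n)).2 (fun _ => b) (CF.const hb) (by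
    intro _ s z w
    show χ (Complex.exp (s * Complex.I) * z, w) * g (Complex.exp (s * Complex.I) * z, w) =
      χ (z, w) * g (z, w)
    rw [hχw]
    by_cases h : ‖z‖ < e ∧ ‖w‖ < e
    · rw [hw s z w h.1 h.2]
    · have h2 : χ (z, w) = 0 := by
        refine hχ0 _ ?_
        rw [not_and_or, not_lt, not_lt] at h
        rcases h with h | h
        · exact Or.inl (le_trans hm2.le h)
        · exact Or.inr (le_trans hm2.le h)
      rw [h2, zero_mul, zero_mul]) (by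
    intro _ w
    show χ (0, w) * g (0, w) = 0
    by_cases h : ‖w‖ < e
    · rw [h0 w h, mul_zero]
    · have h2 : χ (0, w) = 0 := hχ0 _ (Or.inr (le_trans hm2.le (not_lt.1 h)))
      rw [h2, zero_mul])
  refine ⟨k (), hk.contDiff (), fun z w hz hw' => ?_⟩
  have h1 : χ (z, w) * g (z, w) = ‖z‖ ^ 2 * k () (z, w) := hk1 () z w
  rw [hχ1 (z, w) hz hw', one_mul] at h1
  exact h1

/-- restriction of a slice to a smaller polydisc -/
private lemma restrict {n : ℕ} {Φ : ℝ → Phase (n + 1) → Phase (n + 1)}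
    {U : Set (Phase (n + 1))} {δ d : ℝ} {α : Phase (n + 1) → ℂ} {β : Phase (n + 1) → Phase n}
    {ψ : ℂ × Phase n → Phase (n + 1)} (S : Slice Φ U δ α β ψ) (hd : 0 < d) (hle : d ≤ δ) :
    Slice Φ {x | x ∈ U ∧ ‖α x‖ < d ∧ ‖β x‖ < d} d α β ψ where
  pos := hd
  openU := S.openU.inter ((isOpen_lt S.sα.continuous.norm continuous_const).inter
    (isOpen_lt S.sβ.continuous.norm continuous_const))
  bdd := S.bdd.subset fun x hx => hx.1
  inv := by
    rintro s x ⟨h1, h2, h3⟩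
    refine ⟨S.inv s x h1, ?_, ?_⟩
    · rw [S.eα, norm_mul, Complex.norm_exp_ofReal_mul_I, one_mul]
      exact h2
    · rw [S.eβ]
      exact h3
  sα := S.sα
  sβ := S.sβ
  eα := S.eα
  eβ := S.eβ
  sψ := S.sψ.mono fun q hq => ⟨lt_of_lt_of_le hq.1 hle, lt_of_lt_of_le hq.2 hle⟩
  maps := fun x hx => hx.2
  left := fun x hx => S.left x hx.1
  right := by
    intro z w hz hw
    obtain ⟨h1, h2, h3⟩ := S.right z w (lt_of_lt_of_le hz hle) (lt_of_lt_of_le hw hle)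
    refine ⟨⟨h1, ?_, ?_⟩, h2, h3⟩
    · rw [h2]
      exact hz
    · rw [h3]
      exact hw

/-- the derivative of `α` along the Hamiltonian vector field -/
private lemma alpha_der {n : ℕ} {R : ℝ} {f : Phase (n + 1) → ℝ}
    {Φ : ℝ → Phase (n + 1) → Phase (n + 1)} (hF : Fl R f Φ)
    {α : Phase (n + 1) → ℂ} (sα : ContDiff ℝ ∞ α)
    (eα : ∀ (s : ℝ) x, α (Φ s x) = Complex.exp (s * Complex.I) * α x) (y : Phase (n + 1)) :
    fderiv ℝ α y (hamV f y) = Complex.I * α y := by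
  have h1 : HasDerivAt (fun s : ℝ => α (Φ s y)) (fderiv ℝ α (Φ 0 y) (hamV f (Φ 0 y))) 0 :=
    ((sα.differentiable (by simp)) (Φ 0 y)).hasFDerivAt.comp_hasDerivAt (0 : ℝ) (hF.der 0 y)
  rw [hF.zero] at h1
  have h2 : HasDerivAt (fun s : ℝ => α (Φ s y)) (Complex.I * α y) 0 := by
    have h3 : HasDerivAt (fun s : ℝ => Complex.exp ((s : ℂ) * Complex.I)) Complex.I 0 := by
      have h4 : HasDerivAt (fun s : ℝ => (s : ℂ) * Complex.I) (1 * Complex.I) 0 :=
        (Complex.ofRealCLM.hasDerivAt (x := (0 : ℝ))).mul_const Complex.I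
      have h5 := h4.cexp
      simpa using h5
    have h6 := h3.mul_const (α y)
    refine h6.congr_of_eventuallyEq (Eventually.of_forall fun s => ?_)
    exact eα s y
  exact h1.unique h2

/-- the bound which excludes zeros of `κ` -/
private lemma alpha_bound {n : ℕ} {R : ℝ} {f : Phase (n + 1) → ℝ}
    {Φ : ℝ → Phase (n + 1) → Phase (n + 1)} (hF : Fl R f Φ)
    {α : Phase (n + 1) → ℂ} (sα : ContDiff ℝ ∞ α)
    (eα : ∀ (s : ℝ) x, α (Φ s x) = Complex.exp (s * Complex.I) * α x)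
    {κ : Phase (n + 1) → ℝ} (hκ : ContDiff ℝ ∞ κ) {V : Set (Phase (n + 1))} (hV : IsOpen V)
    (hf : ∀ y ∈ V, f y = ‖α y‖ ^ 2 * κ y) (y : Phase (n + 1)) (hy : y ∈ V) (h0 : α y ≠ 0) :
    1 ≤ ‖fderiv ℝ α y‖ * (‖α y‖ * ‖fderiv ℝ κ y‖ + |κ y| * (2 * ‖fderiv ℝ α y‖)) := by
  have hα : HasFDerivAt α (fderiv ℝ α y) y := ((sα.differentiable (by simp)) y).hasFDerivAt
  have hκ1 : HasFDerivAt κ (fderiv ℝ κ y) y := ((hκ.differentiable (by simp)) y).hasFDerivAt
  have h1 : HasFDerivAt (fun x => ‖α x‖ ^ 2) (2 • (innerSL ℝ (α y)).comp (fderiv ℝ α y)) y :=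
    hα.norm_sq
  have h2 : HasFDerivAt (fun x => ‖α x‖ ^ 2 * κ x)
      (‖α y‖ ^ 2 • fderiv ℝ κ y + κ y • (2 • (innerSL ℝ (α y)).comp (fderiv ℝ α y))) y := h1.mul hκ1
  have h3 : fderiv ℝ f y =
      ‖α y‖ ^ 2 • fderiv ℝ κ y + κ y • (2 • (innerSL ℝ (α y)).comp (fderiv ℝ α y)) := by
    have h4 : HasFDerivAt f
        (‖α y‖ ^ 2 • fderiv ℝ κ y + κ y • (2 • (innerSL ℝ (α y)).comp (fderiv ℝ α y))) y := by
      refine h2.congr_of_eventuallyEq ?_
      filter_upwards [hV.mem_nhds hy] with x hx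
      exact hf x hx
    exact h4.fderiv
  have hn : 0 < ‖α y‖ := norm_pos_iff.2 h0
  have h5 : ‖fderiv ℝ f y‖ ≤
      ‖α y‖ * (‖α y‖ * ‖fderiv ℝ κ y‖ + |κ y| * (2 * ‖fderiv ℝ α y‖)) := by
    rw [h3]
    have h6 : ‖(innerSL ℝ (α y)).comp (fderiv ℝ α y)‖ ≤ ‖α y‖ * ‖fderiv ℝ α y‖ := by
      refine (ContinuousLinearMap.opNorm_comp_le _ _).trans ?_
      rw [innerSL_apply_norm]
    have h7 : ‖(2 : ℕ) • (innerSL ℝ (α y)).comp (fderiv ℝ α y)‖ ≤
        2 * (‖α y‖ * ‖fderiv ℝ α y‖) := by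
      rw [two_smul]
      refine (norm_add_le _ _).trans ?_
      linarith
    refine (norm_add_le _ _).trans ?_
    rw [norm_smul, norm_smul, Real.norm_eq_abs, Real.norm_eq_abs, abs_of_nonneg (sq_nonneg _)]
    have h8 := mul_le_mul_of_nonneg_left h7 (abs_nonneg (κ y))
    nlinarith [h8]
  have h9 : ‖hamV f y‖ ≤ ‖fderiv ℝ f y‖ := by
    rw [hamV, norm_neg]
    exact norm_sharp_le _
  have h10 : ‖α y‖ ≤ ‖fderiv ℝ α y‖ * ‖fderiv ℝ f y‖ := by
    have h11 : ‖fderiv ℝ α y (hamV f y)‖ = ‖α y‖ := by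
      rw [alpha_der hF sα eα, norm_mul, Complex.norm_I, one_mul]
    rw [← h11]
    refine (ContinuousLinearMap.le_opNorm _ _).trans ?_
    exact mul_le_mul_of_nonneg_left h9 (norm_nonneg _)
  have h12 : ‖α y‖ * 1 ≤ ‖α y‖ *
      (‖fderiv ℝ α y‖ * (‖α y‖ * ‖fderiv ℝ κ y‖ + |κ y| * (2 * ‖fderiv ℝ α y‖))) := by
    rw [mul_one]
    refine h10.trans ?_
    refine (mul_le_mul_of_nonneg_left h5 (norm_nonneg _)).trans (le_of_eq ?_)
    ring
  exact le_of_mul_le_mul_left h12 hn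

/-- the points with `α ≠ 0` are dense in a slice -/
private lemma mem_closure_ne {n : ℕ} {Φ : ℝ → Phase (n + 1) → Phase (n + 1)}
    {U : Set (Phase (n + 1))} {δ : ℝ} {α : Phase (n + 1) → ℂ} {β : Phase (n + 1) → Phase n}
    {ψ : ℂ × Phase n → Phase (n + 1)} (S : Slice Φ U δ α β ψ) (x : Phase (n + 1)) (hx : x ∈ U) :
    x ∈ closure {y | y ∈ U ∧ α y ≠ 0} := by
  by_cases h : α x = 0
  · have hβ := (S.maps x hx).2
    have hopen : IsOpen {q : ℂ × Phase n | ‖q.1‖ < δ ∧ ‖q.2‖ < δ} := isOpen_poly n δ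
    have h1 : ContinuousAt ψ ((0 : ℂ), β x) :=
      (S.sψ.continuousOn).continuousAt (hopen.mem_nhds ⟨by simpa using S.pos, hβ⟩)
    have h2 : Tendsto (fun t : ℝ => ((t : ℂ), β x)) (𝓝[>] 0) (𝓝 ((0 : ℂ), β x)) := by
      have h3 : Continuous (fun t : ℝ => ((t : ℂ), β x)) := by fun_prop
      have h4 := h3.tendsto 0
      simp only [Complex.ofReal_zero] at h4
      exact h4.mono_left nhdsWithin_le_nhds
    have h5 : Tendsto (fun t : ℝ => ψ ((t : ℂ), β x)) (𝓝[>] 0) (𝓝 x) := by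
      have h6 := h1.tendsto.comp h2
      have h7 : ψ ((0 : ℂ), β x) = x := by
        rw [← h]
        exact S.left x hx
      rw [h7] at h6
      exact h6
    refine mem_closure_of_tendsto h5 ?_
    have h8 : ∀ᶠ t : ℝ in 𝓝[>] 0, t < δ :=
      nhdsWithin_le_nhds (Iio_mem_nhds S.pos)
    filter_upwards [h8, self_mem_nhdsWithin] with t ht ht0
    have ht0' : (0 : ℝ) < t := ht0
    have h9 : ‖(t : ℂ)‖ < δ := by
      rw [Complex.norm_real, Real.norm_eq_abs, abs_of_pos ht0']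
      exact ht
    obtain ⟨h10, h11, -⟩ := S.right (t : ℂ) (β x) h9 hβ
    refine ⟨h10, ?_⟩
    rw [h11]
    exact_mod_cast ht0'.ne'
  · exact subset_closure ⟨hx, h⟩

end LSO

open LSO in
theorem thm_LSO (hACT : St_ACT) (hDIV : St_DIV) (hSLC : St_SLC) : St_LSO := by
  intro n R f Φ hC hF p O hp hO hpO
  obtain ⟨hS1, hS2⟩ := hSLC n R f Φ hC hF
  obtain ⟨hA0, -, -⟩ := hACT n R f Φ hC hF
  obtain ⟨U₁, e, α, β, ψ, S, hpU, hUO⟩ := hS1 p O hp hO hpO
  have hαp : α p = 0 := (hS2 U₁ e α β ψ S p hpU).1 hp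
  have hβp : ‖β p‖ < e := (S.maps p hpU).2
  have he := S.pos
  set d : ℝ := (‖β p‖ + e) / 2 with hd
  have hd0 : 0 < d := by
    have := norm_nonneg (β p)
    linarith
  have hde : d < e := by linarith
  have hβd : ‖β p‖ < d := by linarith
  -- division
  obtain ⟨k, hk, hk1⟩ := divide hDIV n hd0 hde (fun q => f (ψ q))
    (hC.smooth.comp_contDiffOn S.sψ) (by
      intro s z w hz hw
      obtain ⟨h1, h2, h3⟩ := S.right z w hz hw
      have h4 : ψ (Complex.exp (s * Complex.I) * z, w) = Φ s (ψ (z, w)) := by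
        have h5 := S.left _ (S.inv s _ h1)
        rw [S.eα, S.eβ, h2, h3] at h5
        exact h5
      show f (ψ (Complex.exp (s * Complex.I) * z, w)) = f (ψ (z, w))
      rw [h4, hF.cons]) (by
      intro w hw
      obtain ⟨h1, h2, h3⟩ := S.right 0 w (by simpa using he) hw
      exact (hS2 U₁ e α β ψ S _ h1).2 h2)
  set κ : Phase (n + 1) → ℝ := fun x => k (α x, β x) with hκdef
  have hκ : ContDiff ℝ ∞ κ := hk.comp (S.sα.prodMk S.sβ)
  have S' := restrict S hd0 hde.le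
  set U : Set (Phase (n + 1)) := {x | x ∈ U₁ ∧ ‖α x‖ < d ∧ ‖β x‖ < d} with hU
  have hfκ : ∀ x ∈ U, f x = ‖α x‖ ^ 2 * κ x := by
    rintro x ⟨h1, h2, h3⟩
    have h4 := hk1 (α x) (β x) h2.le h3.le
    rw [S.left x h1] at h4
    exact h4
  have hκ1 : ∀ x ∈ U, α x ≠ 0 → 0 < κ x := by
    intro x hx h0
    have h1 : f x ≠ 0 := fun h => h0 ((hS2 U₁ e α β ψ S x hx.1).1 h)
    have h2 : 0 < f x := lt_of_le_of_ne (hA0 x) (Ne.symm h1)
    rw [hfκ x hx] at h2
    exact (pos_iff_pos_of_mul_pos h2).1 (by have := norm_pos_iff.2 h0; positivity)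
  have hcont : Continuous fun y => ‖fderiv ℝ α y‖ *
      (‖α y‖ * ‖fderiv ℝ κ y‖ + |κ y| * (2 * ‖fderiv ℝ α y‖)) := by
    have h1 : Continuous (fun y => fderiv ℝ α y) := S.sα.continuous_fderiv (by simp)
    have h2 : Continuous (fun y => fderiv ℝ κ y) := hκ.continuous_fderiv (by simp)
    have h3 := S.sα.continuous
    have h4 := hκ.continuous
    exact h1.norm.mul ((h3.norm.mul h2.norm).add (h4.abs.mul (continuous_const.mul h1.norm)))
  have hκ2 : ∀ x ∈ U, 0 < κ x := by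
    intro x hx
    by_cases h0 : α x = 0
    · have hcl := mem_closure_ne S' x hx
      have h1 : IsClosed {y | 1 ≤ ‖fderiv ℝ α y‖ *
          (‖α y‖ * ‖fderiv ℝ κ y‖ + |κ y| * (2 * ‖fderiv ℝ α y‖))} :=
        isClosed_le continuous_const hcont
      have h2 : IsClosed {y | 0 ≤ κ y} := isClosed_le continuous_const hκ.continuous
      have h3 : x ∈ {y | 1 ≤ ‖fderiv ℝ α y‖ *
          (‖α y‖ * ‖fderiv ℝ κ y‖ + |κ y| * (2 * ‖fderiv ℝ α y‖))} := by
        refine closure_minimal ?_ h1 hcl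
        rintro y ⟨hy, hy0⟩
        exact alpha_bound hF S.sα S.eα hκ S'.openU hfκ y hy hy0
      have h4 : x ∈ {y | 0 ≤ κ y} := by
        refine closure_minimal ?_ h2 hcl
        rintro y ⟨hy, hy0⟩
        exact (hκ1 y hy hy0).le
      have h5 : 0 ≤ κ x := h4
      refine lt_of_le_of_ne h5 fun h6 => ?_
      have h7 : 1 ≤ ‖fderiv ℝ α x‖ *
          (‖α x‖ * ‖fderiv ℝ κ x‖ + |κ x| * (2 * ‖fderiv ℝ α x‖)) := h3
      rw [h0, ← h6, norm_zero, zero_mul, abs_zero, zero_mul, add_zero, mul_zero] at h7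
      linarith
    · exact hκ1 x hx h0
  refine ⟨U, d, α, β, ψ, fun x => Real.sqrt (2 * κ x), S', ⟨hpU, ?_, hβd⟩,
    fun x hx => hUO hx.1, ?_, ?_, ?_⟩
  · rw [hαp, norm_zero]
    exact hd0
  · intro x hx
    have h1 := hκ2 x hx
    exact ((contDiffAt_const.mul hκ.contDiffAt).sqrt (by positivity)).contDiffWithinAt
  · intro x hx
    have h1 := hκ2 x hx
    exact Real.sqrt_pos.2 (by positivity)
  · intro x hx
    have h1 := hκ2 x hx
    show 2 * f x = ‖α x‖ ^ 2 * Real.sqrt (2 * κ x) ^ 2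
    rw [Real.sq_sqrt (by positivity), hfκ x hx]
    ring

end Pool.Agent.CRC
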