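import Pool.Agent.CRC.St
import Pool.Agent.CRC.Basic

/-!
# CRC: module MOM, the Hamiltonian orbits of `mu ∘ φ`
-/

set_option autoImplicit false

open scoped ContDiff Topology
open Set Function TopologicalSpace

namespace Pool.Agent.CRC

open Pool.Agent.Helper17 Pool.Agent.Helper42 Pool.Agent.H50.Susp

namespace MOM

lemma symp_surj {N : ℕ} {A : Phase N →L[ℝ] Phase N}
    (hA : ∀ u v, omegaStd (A u) (A v) = omegaStd u v) : Surjective A := by
  have hinj : Injective A := by
    rw [injective_iff_map_eq_zero]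
    intro v hv
    apply eq_zero_of_omegaStd
    intro w
    rw [← hA v w, hv, omegaStd_zero_left]
  exact (LinearMap.injective_iff_surjective (f := (A : Phase N →ₗ[ℝ] Phase N))).1 hinj

/-- The derivative of a symplectomorphism maps Hamiltonian vector fields to such. -/
lemma map_hamV {N : ℕ} {f : Phase N → ℝ} (hf : Differentiable ℝ f) (φ : SympCt N)
    (p : Phase N) :
    fderiv ℝ (φ : Equiv.Perm (Phase N)) p (hamV (fun p => f ((φ : Equiv.Perm (Phase N)) p)) p) =
      hamV f ((φ : Equiv.Perm (Phase N)) p) := by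
  set A := fderiv ℝ (φ : Equiv.Perm (Phase N)) p with hA
  have hAs : ∀ u v, omegaStd (A u) (A v) = omegaStd u v := fun u v => φ.2.2.2.1 p u v
  rw [← sub_eq_zero]
  apply eq_zero_of_omegaStd
  intro w'
  obtain ⟨w, rfl⟩ := symp_surj hAs w'
  have h1 : HasFDerivAt (fun p => f ((φ : Equiv.Perm (Phase N)) p))
      ((fderiv ℝ f ((φ : Equiv.Perm (Phase N)) p)).comp A) p :=
    (hf _).hasFDerivAt.comp p (SympCt.differentiable φ p).hasFDerivAt
  rw [omegaStd_sub_left, hAs, omegaStd_hamV, omegaStd_hamV, h1.fderiv]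
  simp

end MOM

theorem thm_MOM : St_MOM := by
  intro n φ c
  have hmu : Differentiable ℝ (mu : Phase (n + 1) → ℝ) := contDiff_mu.differentiable (by simp)
  constructor
  · intro hc s
    have hd : ∀ s, HasDerivAt (fun s => (φ : Equiv.Perm (Phase (n + 1))) (c s))
        (hamV mu ((φ : Equiv.Perm (Phase (n + 1))) (c s))) s := by
      intro s
      have h2 := (SympCt.differentiable φ (c s)).hasFDerivAt.comp_hasDerivAt s (hc s)
      rwa [MOM.map_hamV hmu] at h2
    rw [Equiv.eq_symm_apply]
    exact rot_uniq _ hd s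
  · intro hc s
    have hfun : c = fun s => ((φ⁻¹ : SympCt (n + 1)) : Equiv.Perm (Phase (n + 1)))
        (rot s ((φ : Equiv.Perm (Phase (n + 1))) (c 0))) := funext fun s => hc s
    have hcomp : Differentiable ℝ (fun p => mu ((φ : Equiv.Perm (Phase (n + 1))) p)) :=
      hmu.comp (SympCt.differentiable φ)
    have h1 := (SympCt.differentiable φ⁻¹
      (rot s ((φ : Equiv.Perm (Phase (n + 1))) (c 0)))).hasFDerivAt.comp_hasDerivAt s
      (hasDerivAt_rot s ((φ : Equiv.Perm (Phase (n + 1))) (c 0)))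
    have h2 := MOM.map_hamV hcomp φ⁻¹ (rot s ((φ : Equiv.Perm (Phase (n + 1))) (c 0)))
    have h3 : (fun p => mu ((φ : Equiv.Perm (Phase (n + 1)))
        (((φ⁻¹ : SympCt (n + 1)) : Equiv.Perm (Phase (n + 1))) p))) = mu := by
      funext p
      congr 1
      exact Equiv.apply_symm_apply (φ : Equiv.Perm (Phase (n + 1))) p
    simp only [h3] at h2
    rw [h2] at h1
    have h4 : ((φ⁻¹ : SympCt (n + 1)) : Equiv.Perm (Phase (n + 1)))
        (rot s ((φ : Equiv.Perm (Phase (n + 1))) (c 0))) = c s := (hc s).symm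
    rw [h4] at h1
    have h5 := h1.congr_of_eventuallyEq (f₁ := c) (Filter.Eventually.of_forall fun s => hc s)
    exact h5

end Pool.Agent.CRC
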