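import Pool.Agent.CRC.St
import Pool.Agent.CRC.Basic

/-!
# CRC, MUC: the continuous map `φ ↦ |z_0 ∘ φ| ^ 2 / 2`
-/

set_option autoImplicit false
set_option maxSynthPendingDepth 3

open scoped ContDiff Distributions Topology
open Set Function TopologicalSpace

namespace Pool.Agent.CRC

open Pool.Agent.Helper17 Pool.Agent.Helper42 Pool.Agent.H50.Susp

namespace MUC

variable {n : ℕ}

/-- The tautological family over the stages of the direct limit. -/
private lemma cf_supp {N : ℕ} (K : Compacts (Phase N)) :
    CF (fun (t : SympSupp N K) x => (t.1 : Equiv.Perm (Phase N)) x) := by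
  have h1 : CF (fun (t : SympSupp N K) x => (t.1 : Equiv.Perm (Phase N)) x - x) := by
    intro k
    apply CFk.of_iteratedFDeriv
    · intro t
      exact (SympCt.contDiff t.1).sub contDiff_id
    · intro i
      have h2 : Continuous (fun t : SympSupp N K => ContDiffMapSupportedIn.structureMapCLM ℝ ⊤ i
          (SympSupp.disp K t)) :=
        (ContDiffMapSupportedIn.structureMapCLM ℝ ⊤ i).continuous.comp
          (SympSupp.isInducing_disp K).continuous
      have h3 : ∀ q : SympSupp N K × Phase N, iteratedFDeriv ℝ i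
          (fun x => (q.1.1 : Equiv.Perm (Phase N)) x - x) q.2 =
          (ContDiffMapSupportedIn.structureMapCLM ℝ ⊤ i (SympSupp.disp K q.1)) q.2 := by
        intro q
        rw [ContDiffMapSupportedIn.structureMapCLM_top_apply]
        rfl
      simp_rw [h3]
      exact Continuous.eval (h2.comp continuous_fst) continuous_snd
  have h2 := h1.add (CF.const (T := SympSupp N K) (contDiff_id (E := Phase N)))
  have e : (fun (t : SympSupp N K) x => (t.1 : Equiv.Perm (Phase N)) x) =
      fun (t : SympSupp N K) x => ((t.1 : Equiv.Perm (Phase N)) x - x) + id x := by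
    funext t x
    simp
  rw [e]
  exact h2

/-- The function `|z_0 ∘ φ| ^ 2 / 2` as a point of `CircHam n`. -/
noncomputable def map (hMOM : St_MOM) (φ : SympCt (n + 1)) : CircHam n :=
  ⟨fun p => mu ((φ : Equiv.Perm (Phase (n + 1))) p), contDiff_mu.comp (SympCt.contDiff φ), by
    obtain ⟨-, -, -, L, hL, h'⟩ := φ.2
    exact ⟨L, hL, fun p hp => by
      beta_reduce
      rw [h' p hp]⟩, fun c hc s => by
    have h1 : ∀ s, HasDerivAt c (hamV (fun p => mu ((φ : Equiv.Perm (Phase (n + 1))) p)) (c s)) s :=
      fun s => by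
        rw [← hamField_eqV]
        exact hc s
    have h2 := (hMOM n φ c).1 h1
    rw [h2 (s + 2 * Real.pi), rot_two_pi, ← h2 s]⟩

end MUC

theorem thm_MUC (hMOM : St_MOM) (hTOP : St_TOP) : St_MUC := by
  intro n
  refine ⟨⟨MUC.map hMOM, ?_⟩, fun φ p => rfl⟩
  rw [continuous_iSup_dom]
  intro K
  rw [continuous_coinduced_dom]
  refine (hTOP n).1 (SympSupp (n + 1) K)
    (fun t x => mu ((t.1 : Equiv.Perm (Phase (n + 1))) x)) K _ ?_ ?_ (fun t x => rfl)
  · exact CF.comp_smooth (g := mu) (fun _ _ => contDiff_mu.contDiffAt) (MUC.cf_supp K)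
  · intro t x hx
    rw [t.2 x hx]

end Pool.Agent.CRC
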