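import Pool.Agent.CRC.St

/-!
# CRC, module NTR: the linearisation at a zero is not trivial
-/

set_option autoImplicit false

open scoped ContDiff Topology
open Set Function TopologicalSpace

namespace Pool.Agent.CRC

open Pool.Agent.Helper17 Pool.Agent.Helper42 Pool.Agent.H50.Susp

namespace NTR

/-- The points whose orbit meets a closed set. -/
lemma isClosed_meet {P : Type} [TopologicalSpace P] {Φ : ℝ → P → P}
    (hΦ : Continuous fun q : ℝ × P => Φ q.1 q.2) {C : Set P}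
    (hC : IsClosed C) : IsClosed {x | ∃ s ∈ Icc 0 (2 * Real.pi), Φ s x ∈ C} := by
  have h1 : IsClosed {q : Icc 0 (2 * Real.pi) × P | Φ q.1 q.2 ∈ C} :=
    hC.preimage (hΦ.comp ((continuous_subtype_val.comp continuous_fst).prodMk continuous_snd))
  have h2 := isClosedMap_snd_of_compactSpace _ h1
  have h3 : {x | ∃ s ∈ Icc 0 (2 * Real.pi), Φ s x ∈ C} =
      Prod.snd '' {q : Icc 0 (2 * Real.pi) × P | Φ q.1 q.2 ∈ C} := by
    ext x
    constructor
    · rintro ⟨s, hs, hx⟩
      exact ⟨(⟨s, hs⟩, x), hx, rfl⟩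
    · rintro ⟨⟨⟨s, hs⟩, y⟩, hy, rfl⟩
      exact ⟨s, hs, hy⟩
  rw [h3]
  exact h2

/-- A fixed point with an invariant local diffeomorphism is interior to the fixed points. -/
lemma open_step {P : Type} [NormedAddCommGroup P] [NormedSpace ℝ P] [CompleteSpace P]
    {Φ : ℝ → P → P} (hΦ : Continuous fun q : ℝ × P => Φ q.1 q.2) (h0 : ∀ x, Φ 0 x = x)
    (hper : ∀ s x, Φ (s + 2 * Real.pi) x = Φ s x) {p : P} (hfix : ∀ s, Φ s p = p)
    {L : P → P} (hL : ContDiff ℝ ∞ L) (hL' : fderiv ℝ L p = ContinuousLinearMap.id ℝ P)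
    (hinv : ∀ s x, L (Φ s x) = L x) :
    ∃ O : Set P, IsOpen O ∧ p ∈ O ∧ ∀ y ∈ O, ∀ s, Φ s y = y := by
  have h1 : HasStrictFDerivAt L
      ((ContinuousLinearEquiv.refl ℝ P : P ≃L[ℝ] P) : P →L[ℝ] P) p := by
    have h2 := hL.contDiffAt (x := p).hasStrictFDerivAt (by simp)
    rw [hL'] at h2
    exact h2
  set e := h1.toOpenPartialHomeomorph L with he
  have hp : p ∈ e.source := h1.mem_toOpenPartialHomeomorph_source
  have hinj : InjOn L e.source := e.injOn
  refine ⟨{x | ∃ s ∈ Icc 0 (2 * Real.pi), Φ s x ∈ e.sourceᶜ}ᶜ,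
    (isClosed_meet hΦ e.open_source.isClosed_compl).isOpen_compl, ?_, ?_⟩
  · rintro ⟨s, -, hs⟩
    rw [hfix] at hs
    exact hs hp
  · intro y hy s
    have hall : ∀ s ∈ Icc 0 (2 * Real.pi), Φ s y ∈ e.source := by
      intro s hs
      by_contra h
      exact hy ⟨s, hs, h⟩
    have hy0 : y ∈ e.source := by
      have h3 := hall 0 ⟨le_rfl, by positivity⟩
      rwa [h0] at h3
    have hP : Function.Periodic (fun s => Φ s y) (2 * Real.pi) := fun s => hper s y
    obtain ⟨s', hs', hss'⟩ := hP.exists_mem_Ico₀ (by positivity) s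
    have hss : Φ s y = Φ s' y := hss'
    rw [hss]
    exact hinj (hall s' ⟨hs'.1, hs'.2.le⟩) hy0 (hinv s' y)

end NTR

theorem thm_NTR (hACT : St_ACT) (hLIN : St_LIN) : St_NTR := by
  intro n R f Φ hf hΦ p hp
  by_contra hcon
  have hcon' : ∀ s, fderiv ℝ (Φ s) p = ContinuousLinearMap.id ℝ (Phase (n + 1)) := by
    intro s
    ext1 v
    by_contra h
    exact hcon ⟨s, v, h⟩
  obtain ⟨-, -, hfix⟩ := hACT n R f Φ hf hΦ
  have hΦc : Continuous fun q : ℝ × Phase (n + 1) => Φ q.1 q.2 := hΦ.cf.continuous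
  set A : Set (Phase (n + 1)) := {x | f x = 0 ∧
    ∀ s, fderiv ℝ (Φ s) x = ContinuousLinearMap.id ℝ (Phase (n + 1))} with hA
  have hclosed : IsClosed A := by
    have h1 : A = {x | f x = 0} ∩ ⋂ s : ℝ,
        {x | fderiv ℝ (Φ s) x = ContinuousLinearMap.id ℝ (Phase (n + 1))} := by
      ext x
      simp [hA]
    rw [h1]
    refine (isClosed_eq hf.smooth.continuous continuous_const).inter (isClosed_iInter fun s => ?_)
    exact isClosed_eq ((hΦ.cf.contDiff s).continuous_fderiv (by simp)) continuous_const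
  have hopen : IsOpen A := by
    rw [isOpen_iff_mem_nhds]
    rintro x ⟨hx, hx'⟩
    obtain ⟨-, -, -, -, L, hL, hLe, -, hL'⟩ := hLIN n R f Φ hf hΦ x hx
    obtain ⟨O, hO, hxO, hfO⟩ := NTR.open_step hΦc hΦ.zero hΦ.per ((hfix x).mp hx) hL hL'
      (fun s y => by rw [hLe, hx' s]; rfl)
    refine Filter.mem_of_superset (hO.mem_nhds hxO) fun y hy => ⟨(hfix y).mpr (hfO y hy), ?_⟩
    intro s
    have h2 : Φ s =ᶠ[𝓝 y] id := by
      filter_upwards [hO.mem_nhds hy] with z hz using hfO z hz s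
    rw [h2.fderiv_eq, fderiv_id]
  have huniv : A = univ := IsClopen.eq_univ ⟨hclosed, hopen⟩ ⟨p, hp, hcon'⟩
  set x : Phase (n + 1) := (|R| + 1) • eX 0 with hx
  have hxn : R < ‖x‖ := by
    have h1 : ‖(eX 0 : Phase (n + 1))‖ = 1 := by
      rw [eX, EuclideanSpace.norm_single, norm_one]
    rw [hx, norm_smul, h1, mul_one, Real.norm_eq_abs, abs_of_pos (by positivity)]
    linarith [le_abs_self R]
  have h1 : f x = 0 := by
    have h2 : x ∈ A := by rw [huniv]; trivial
    exact h2.1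
  rw [hf.std x hxn] at h1
  have h3 : x (Sum.inl 0) = |R| + 1 := by
    rw [hx]
    simp [eX]
  have h4 : 0 < x (Sum.inl 0) := by rw [h3]; positivity
  have h5 : 0 < mu x := by
    unfold mu
    positivity
  exact h5.ne' h1

end Pool.Agent.CRC
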