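import Pool.Agent.CRC.St
import Pool.Agent.CRC.Basic

/-!
# CRC ONT: every circle Hamiltonian is standard
-/

set_option autoImplicit false

open scoped ContDiff Topology
open Set Function TopologicalSpace

namespace Pool.Agent.CRC

open Pool.Agent.Helper17 Pool.Agent.Helper42 Pool.Agent.H50.Susp

/-- The complement of the zero set of a circle Hamiltonian is dense. -/
lemma dense_pos (hACT : St_ACT) (hSLC : St_SLC) {n : ℕ} {R : ℝ} {f : Phase (n + 1) → ℝ}
    {Φ : ℝ → Phase (n + 1) → Phase (n + 1)} (hf : Circ R f) (hΦ : Fl R f Φ) :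
    Dense {p | 0 < f p} := by
  obtain ⟨h0, -, -⟩ := hACT n R f Φ hf hΦ
  rw [dense_iff_inter_open]
  rintro O hO ⟨p, hp⟩
  rcases (h0 p).lt_or_eq with h | h
  · exact ⟨p, hp, h⟩
  · obtain ⟨U, δ, α, β, ψ, hS, hpU, hUO⟩ := (hSLC n R f Φ hf hΦ).1 p O h.symm hO hp
    have hδ := hS.pos
    have hn : ‖((δ / 2 : ℝ) : ℂ)‖ < δ := by
      rw [Complex.norm_real, Real.norm_eq_abs, abs_of_pos (by linarith)]
      linarith
    obtain ⟨h1, h2, -⟩ := hS.right ((δ / 2 : ℝ) : ℂ) 0 hn (by rw [norm_zero]; exact hδ)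
    refine ⟨ψ (((δ / 2 : ℝ) : ℂ), 0), hUO h1, ?_⟩
    refine lt_of_le_of_ne (h0 _) fun h3 => ?_
    have h4 := ((hSLC n R f Φ hf hΦ).2 U δ α β ψ hS _ h1).1 h3.symm
    rw [h2] at h4
    have h5 : (δ / 2 : ℝ) = 0 := by exact_mod_cast h4
    linarith

/-- A smooth function of weight one with the right modulus is an exact pair. -/
lemma ex_of_weight (hBRK : St_BRK) {n : ℕ} {R R' : ℝ} {f : Phase (n + 1) → ℝ}
    {Φ : ℝ → Phase (n + 1) → Phase (n + 1)} {a : Phase (n + 1) → ℂ} (hΦ : Fl R f Φ)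
    (ha : ContDiff ℝ ∞ a) (hn : ∀ p, ‖a p‖ ^ 2 = 2 * f p)
    (hw : ∀ s p, a (Φ s p) = Complex.exp (s * Complex.I) * a p)
    (hd : Dense {p | 0 < f p}) (hs : ∀ p, R' < ‖p‖ → a p = zz p) : Ex R' a := by
  refine ⟨ha, hs, ?_⟩
  have hre : ContDiff ℝ ∞ (fun q => (a q).re) := Complex.reCLM.contDiff.comp ha
  have him : ContDiff ℝ ∞ (fun q => (a q).im) := Complex.imCLM.contDiff.comp ha
  have hc : Continuous (fun p => pb (fun q => (a q).re) (fun q => (a q).im) p) := by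
    have h1 : Continuous (fun p => fderiv ℝ (fun q => (a q).im) p) :=
      him.continuous_fderiv (by simp)
    have h2 : Continuous (fun p => hamV (fun q => (a q).re) p) :=
      ((sharp (n + 1)).continuous.comp (hre.continuous_fderiv (by simp))).neg
    exact h1.clm_apply h2
  have h3 : (fun p => pb (fun q => (a q).re) (fun q => (a q).im) p) = fun _ => 1 := by
    refine Continuous.ext_on hd hc continuous_const fun p hp => ?_
    have hp' : 0 < f p := hp
    refine (hBRK n).1 R f Φ a hΦ ha hn hw p fun h => ?_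
    have := hn p
    rw [h, norm_zero] at this
    linarith
  exact fun p => congrFun h3 p

theorem thm_ONT (hFLW : St_FLW) (hACT : St_ACT) (hUFN : St_UFN) (hSLC : St_SLC) (hGLU : St_GLU)
    (hBRK : St_BRK) (hEXR : St_EXR) : St_ONT := by
  intro n R f hf
  obtain ⟨Φ, -, hΦ⟩ := hFLW n Unit R (fun _ => f) (CF.const hf.smooth) (fun _ => hf)
  have hF : Fl R f (Φ ()) := hΦ ()
  obtain ⟨R', u, hu⟩ := hUFN n R f (Φ ()) hf hF
  obtain ⟨R'', a, ha, hn, hw, hs⟩ := hGLU n R R' f (Φ ()) u hf hF hu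
  have hE : Ex R'' a := ex_of_weight hBRK hF ha hn hw (dense_pos hACT hSLC hf hF) hs
  obtain ⟨φ, -, hφ⟩ := hEXR n Unit R'' (fun _ => a) (CF.const ha) (fun _ => hE)
  refine ⟨φ (), fun p => ?_⟩
  rw [mu_eq, hφ () p, hn]
  ring

end Pool.Agent.CRC
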