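import Pool.Agent.CRC.St

/-!
# Patches around the zeros of `f`
-/

set_option autoImplicit false

open scoped ContDiff Topology
open Set Function TopologicalSpace

namespace Pool.Agent.CRC

open Pool.Agent.Helper17 Pool.Agent.Helper42 Pool.Agent.H50.Susp

theorem thm_PAT (hLSO : St_LSO) (hCLF : St_CLF) : St_PAT := by
  intro n R R' f Φ u hC hΦ hu p hp
  obtain ⟨U, δ, α, β, ψ, m, hS, hpU, -, hm, hm0, hf⟩ := hLSO n R f Φ hC hΦ p univ hp isOpen_univ
    trivial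
  have hδ := hS.pos
  -- positivity
  have hαf : ∀ x ∈ U, α x ≠ 0 → 0 < f x := by
    intro x hx h
    have h1 := hf x hx
    have h2 : 0 < ‖α x‖ ^ 2 * m x ^ 2 :=
      mul_pos (pow_pos (norm_pos_iff.2 h) 2) (pow_pos (hm0 x hx) 2)
    linarith
  have hfα : ∀ x ∈ U, 0 < f x → α x ≠ 0 := by
    intro x hx h h0
    have h1 := hf x hx
    rw [h0] at h1
    simp at h1
    linarith
  -- the slice of real positive points
  set C : Set (ℝ × Phase n) := Ioo 0 δ ×ˢ Metric.ball 0 δ with hCdef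
  have hCo : IsOpen C := isOpen_Ioo.prod Metric.isOpen_ball
  have hCc : Convex ℝ C := (convex_Ioo 0 δ).prod (convex_ball 0 δ)
  have hCm : ∀ q ∈ C, ‖((q.1 : ℝ) : ℂ)‖ < δ ∧ ‖q.2‖ < δ := by
    rintro ⟨r, w⟩ ⟨hr, hw⟩
    refine ⟨?_, by simpa using hw⟩
    rw [Complex.norm_real, Real.norm_eq_abs, abs_of_pos hr.1]
    exact hr.2
  have hψC : ∀ q ∈ C, ψ ((q.1 : ℂ), q.2) ∈ U ∧ α (ψ ((q.1 : ℂ), q.2)) = (q.1 : ℂ) ∧
      β (ψ ((q.1 : ℂ), q.2)) = q.2 := fun q hq => hS.right _ _ (hCm q hq).1 (hCm q hq).2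
  have hfC : ∀ q ∈ C, 0 < f (ψ ((q.1 : ℂ), q.2)) := by
    intro q hq
    apply hαf _ (hψC q hq).1
    rw [(hψC q hq).2.1]
    have : (0 : ℝ) < q.1 := hq.1.1
    exact_mod_cast this.ne'
  have hmapsC : ∀ x ∈ U, 0 < f x → (‖α x‖, β x) ∈ C := by
    intro x hx h
    refine ⟨⟨norm_pos_iff.2 (hfα x hx h), (hS.maps x hx).1⟩, ?_⟩
    simpa using (hS.maps x hx).2
  -- the logarithm
  set G : ℝ × Phase n → ℂ := fun q => (u (ψ ((q.1 : ℂ), q.2)))⁻¹ with hG
  have hun : ∀ q ∈ C, ‖u (ψ ((q.1 : ℂ), q.2))‖ = 1 := fun q hq => hu.norm _ (hfC q hq)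
  have hGs : ContDiffOn ℝ ∞ G C := by
    have h1 : ContDiffOn ℝ ∞ (fun q : ℝ × Phase n => (((q.1 : ℝ) : ℂ), q.2)) C :=
      ((Complex.ofRealCLM.contDiff.comp contDiff_fst).prodMk contDiff_snd).contDiffOn
    have h2 : ContDiffOn ℝ ∞ (fun q : ℝ × Phase n => ψ ((q.1 : ℂ), q.2)) C :=
      hS.sψ.comp h1 (fun q hq => hCm q hq)
    have h3 : ContDiffOn ℝ ∞ (fun q : ℝ × Phase n => u (ψ ((q.1 : ℂ), q.2))) C :=
      hu.smooth.comp h2 (fun q hq => hfC q hq)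
    refine h3.inv (fun q hq h0 => ?_)
    have := hun q hq
    rw [h0, norm_zero] at this
    exact zero_ne_one this
  have hGn : ∀ q ∈ C, ‖G q‖ = 1 := by
    intro q hq
    simp only [hG, norm_inv, hun q hq, inv_one]
  obtain ⟨γ, hγc, hγ⟩ := (hCLF (ℝ × Phase n)).1 C G hCc hGs.continuousOn hGn
  have hγs : ContDiffOn ℝ ∞ γ C := (hCLF (ℝ × Phase n)).2 C G γ hCo hGs hγc hγ
  refine ⟨U, fun x => α x * (m x : ℂ), fun x => γ (‖α x‖, β x), ?_, hpU, hS.bdd⟩
  have hsqrt : ∀ x ∈ U, 0 < f x → Real.sqrt (2 * f x) = ‖α x‖ * m x := by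
    intro x hx _
    rw [hf x hx, ← mul_pow, Real.sqrt_sq (mul_nonneg (norm_nonneg _) (hm0 x hx).le)]
  constructor
  · exact hS.openU
  · exact hS.inv
  · exact hS.sα.contDiffOn.mul (Complex.ofRealCLM.contDiff.comp_contDiffOn hm)
  · intro x hx
    rw [norm_mul, mul_pow, Complex.norm_real, Real.norm_eq_abs, sq_abs, ← hf x hx]
  · have h1 : ContDiffOn ℝ ∞ (fun x => (‖α x‖, β x)) (U ∩ {x | 0 < f x}) := by
      refine ContDiffOn.prodMk ?_ hS.sβ.contDiffOn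
      intro x hx
      exact (hS.sα.contDiffAt.norm ℝ (hfα x hx.1 hx.2)).contDiffWithinAt
    exact hγs.comp h1 (fun x hx => hmapsC x hx.1 hx.2)
  · intro s x hx _
    simp only [hS.eα, hS.eβ, norm_mul, Complex.norm_exp_ofReal_mul_I, one_mul]
  · intro x hx h
    have hq := hmapsC x hx h
    obtain ⟨hx'U, hαx', hβx'⟩ := hψC _ hq
    have hfx' := hfC _ hq
    set x' := ψ (((‖α x‖ : ℝ) : ℂ), β x) with hx'
    set s := Complex.arg (α x) with hs
    have hpol : ((‖α x‖ : ℝ) : ℂ) * Complex.exp (s * Complex.I) = α x :=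
      Complex.norm_mul_exp_arg_mul_I (α x)
    have h1 : Φ s x' = x := by
      have h2 := hS.left (Φ s x') (hS.inv s x' hx'U)
      rw [hS.eα, hS.eβ, hαx', hβx', mul_comm, hpol, hS.left x hx] at h2
      exact h2.symm
    have h3 : u x = Complex.exp (s * Complex.I) * u x' := by
      rw [← hu.wt s x' hfx', h1]
    have h4 : (u x')⁻¹ = Complex.exp (γ (‖α x‖, β x) * Complex.I) := hγ _ hq
    have h5 : u x' ≠ 0 := by
      intro h0
      have := hu.norm x' hfx'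
      rw [h0, norm_zero] at this
      exact zero_ne_one this
    rw [← h4, h3, hsqrt x hx h, Complex.ofReal_mul]
    conv_lhs => rw [← hpol]
    field_simp

end Pool.Agent.CRC
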