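import Pool.Agent.CRC.St

/-!
# CRC, module PTU: invariant partitions of unity near the zeros of the Hamiltonian
-/

set_option autoImplicit false

open scoped ContDiff Topology Manifold
open Set Function TopologicalSpace MeasureTheory

namespace Pool.Agent.CRC

open Pool.Agent.Helper17 Pool.Agent.Helper42 Pool.Agent.H50.Susp

namespace PTU

variable {P : Type} [NormedAddCommGroup P] [NormedSpace ℝ P]

/-- The average over a period. -/
noncomputable def avg (Φ : ℝ → P → P) (g : P → ℝ) (x : P) : ℝ :=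
  (2 * Real.pi)⁻¹ * ∫ s in Icc 0 (2 * Real.pi), g (Φ s x) ∂(volume.restrict (Icc 0 (2 * Real.pi)))

lemma avg_eq (Φ : ℝ → P → P) (g : P → ℝ) (x : P) :
    avg Φ g x = (2 * Real.pi)⁻¹ * ∫ s in (0 : ℝ)..(2 * Real.pi), g (Φ s x) := by
  unfold avg
  rw [Measure.restrict_restrict measurableSet_Icc, inter_self,
    integral_Icc_eq_integral_Ioc, intervalIntegral.integral_of_le (by positivity)]

lemma contDiff_avg {Φ : ℝ → P → P} (hΦ : CF Φ) {g : P → ℝ} (hg : ContDiff ℝ ∞ g) :
    ContDiff ℝ ∞ (avg Φ g) := by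
  have h1 : CF (fun (q : Unit × ℝ) x => g (Φ q.2 x)) :=
    CF.comp_smooth (fun _ _ => hg.contDiffAt) (CF.base continuous_snd hΦ)
  have h2 := CF.setIntegral (S := Icc 0 (2 * Real.pi)) isCompact_Icc
    (volume.restrict (Icc 0 (2 * Real.pi))) h1
  have h3 := h2.contDiff ()
  exact contDiff_const.mul h3

lemma avg_inv {Φ : ℝ → P → P} (hadd : ∀ a b p, Φ (a + b) p = Φ a (Φ b p))
    (hper : ∀ s p, Φ (s + 2 * Real.pi) p = Φ s p) (g : P → ℝ) (a : ℝ) (x : P) :
    avg Φ g (Φ a x) = avg Φ g x := by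
  rw [avg_eq, avg_eq]
  congr 1
  have h1 : (fun s => g (Φ s (Φ a x))) = fun s => (fun s => g (Φ s x)) (s + a) := by
    funext s
    show _ = g (Φ (s + a) x)
    rw [hadd]
  have hp : Function.Periodic (fun s => g (Φ s x)) (2 * Real.pi) := fun s => by
    show g (Φ (s + 2 * Real.pi) x) = g (Φ s x)
    rw [hper]
  rw [h1, intervalIntegral.integral_comp_add_right (fun s => g (Φ s x)) a]
  have h2 := hp.intervalIntegral_add_eq a 0
  rw [zero_add] at h2
  rw [zero_add, add_comm (2 * Real.pi) a]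
  exact h2

lemma avg_zero {Φ : ℝ → P → P} (g : P → ℝ) (x : P)
    (h : ∀ s ∈ Icc 0 (2 * Real.pi), g (Φ s x) = 0) : avg Φ g x = 0 := by
  unfold avg
  rw [setIntegral_eq_zero_of_forall_eq_zero h, mul_zero]

/-- The points whose orbit meets a closed set. -/
lemma isClosed_meet {Φ : ℝ → P → P} (hΦ : Continuous fun q : ℝ × P => Φ q.1 q.2) {C : Set P}
    (hC : IsClosed C) : IsClosed {x | ∃ s ∈ Icc 0 (2 * Real.pi), Φ s x ∈ C} := by
  have h1 : IsClosed {q : Icc 0 (2 * Real.pi) × P | Φ q.1 q.2 ∈ C} :=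
    hC.preimage (hΦ.comp ((continuous_subtype_val.comp continuous_fst).prodMk continuous_snd))
  have h2 := isClosedMap_snd_of_compactSpace _ h1
  have h3 : {x | ∃ s ∈ Icc 0 (2 * Real.pi), Φ s x ∈ C} =
      Prod.snd '' {q : Icc 0 (2 * Real.pi) × P | Φ q.1 q.2 ∈ C} := by
    ext x
    constructor
    · rintro ⟨s, hs, hx⟩
      exact ⟨(⟨s, hs⟩, x), hx, rfl⟩
    · rintro ⟨⟨⟨s, hs⟩, y⟩, hy, rfl⟩
      exact ⟨s, hs, hy⟩
  rw [h3]
  exact h2

end PTU

theorem thm_PTU : St_PTU := by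
  intro n R f Φ hf hΦ ι _ U hU hinv hcov
  have hΦc : Continuous fun q : ℝ × Phase (n + 1) => Φ q.1 q.2 := hΦ.cf.continuous
  have hZ : IsClosed {x : Phase (n + 1) | f x = 0} :=
    isClosed_eq hf.smooth.continuous continuous_const
  obtain ⟨W, hW, hZW, hWU⟩ := normal_exists_closure_subset hZ (isOpen_iUnion hU) (fun x hx => by
    obtain ⟨i, hi⟩ := hcov x hx
    exact mem_iUnion.mpr ⟨i, hi⟩)
  obtain ⟨χ', hχ'⟩ := SmoothPartitionOfUnity.exists_isSubordinate
    (𝓘(ℝ, Phase (n + 1))) (isClosed_closure (s := W)) U hU hWU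
  have hsm : ∀ i, ContDiff ℝ ∞ (χ' i) := fun i => (χ' i).contMDiff.contDiff
  have hback : ∀ s x, Φ (-s) (Φ s x) = x := fun s x => by
    rw [← hΦ.add, neg_add_cancel, hΦ.zero]
  refine ⟨fun i => PTU.avg Φ (χ' i), fun i => PTU.contDiff_avg hΦ.cf (hsm i),
    fun i s x => PTU.avg_inv hΦ.add hΦ.per _ s x, ?_, ?_⟩
  · intro i
    have h1 : Function.support (PTU.avg Φ (χ' i)) ⊆
        {x | ∃ s ∈ Icc 0 (2 * Real.pi), Φ s x ∈ tsupport (χ' i)} := by
      intro x hx
      by_contra hcon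
      refine hx (PTU.avg_zero _ x fun s hs => ?_)
      by_contra h0
      exact hcon ⟨s, hs, subset_tsupport _ h0⟩
    have h2 := closure_minimal h1 (PTU.isClosed_meet hΦc (isClosed_tsupport _))
    refine h2.trans ?_
    rintro x ⟨s, -, hx⟩
    have h3 := hinv i (-s) _ (hχ' i hx)
    rw [hback] at h3
    exact h3
  · refine ⟨{x | ∃ s ∈ Icc 0 (2 * Real.pi), Φ s x ∈ Wᶜ}ᶜ,
      (PTU.isClosed_meet hΦc hW.isClosed_compl).isOpen_compl, ?_, ?_⟩
    · rintro x hx ⟨s, -, hs⟩
      refine hs (hZW ?_)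
      show f (Φ s x) = 0
      rw [hΦ.cons, hx]
    · intro x hx
      have hx' : ∀ s ∈ Icc 0 (2 * Real.pi), Φ s x ∈ W := by
        intro s hs
        by_contra h0
        exact hx ⟨s, hs, h0⟩
      have hcont : ∀ i, Continuous fun s => χ' i (Φ s x) := fun i =>
        (hsm i).continuous.comp (hΦc.comp (continuous_id.prodMk continuous_const))
      show ∑ i, PTU.avg Φ (χ' i) x = 1
      have h1 : ∀ i, PTU.avg Φ (χ' i) x =
          (2 * Real.pi)⁻¹ * ∫ s in (0 : ℝ)..(2 * Real.pi), χ' i (Φ s x) := fun i =>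
        PTU.avg_eq _ _ _
      rw [Finset.sum_congr rfl fun i _ => h1 i, ← Finset.mul_sum,
        ← intervalIntegral.integral_finsetSum fun i _ => (hcont i).intervalIntegrable _ _]
      have h2 : ∫ s in (0 : ℝ)..(2 * Real.pi), ∑ i, χ' i (Φ s x) =
          ∫ s in (0 : ℝ)..(2 * Real.pi), (1 : ℝ) := by
        refine intervalIntegral.integral_congr fun s hs => ?_
        rw [uIcc_of_le (by positivity)] at hs
        have h3 := χ'.sum_eq_one (subset_closure (hx' s hs))
        rw [finsum_eq_sum_of_fintype] at h3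
        exact h3
      rw [h2, intervalIntegral.integral_const, smul_eq_mul, mul_one, sub_zero]
      exact inv_mul_cancel₀ (by positivity)

end Pool.Agent.CRC
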