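import Pool.Agent.CRC.St

/-!
# CRC, module RAT: two patches differ by a smooth function across the zeros of `f` (helper22)
-/

set_option autoImplicit false

open scoped ContDiff Topology
open Set Function TopologicalSpace Filter

namespace Pool.Agent.CRC

open Pool.Agent.Helper17 Pool.Agent.Helper42 Pool.Agent.H50.Susp

namespace RAT

/-- an invariant cut-off function for polydiscs -/
private lemma exists_cut (n : ℕ) {d e : ℝ} (hd : 0 < d) (he : d < e) :
    ∃ χ : ℂ × Phase n → ℝ, ContDiff ℝ ∞ χ ∧ (∀ q, ‖q.1‖ ≤ d → ‖q.2‖ ≤ d → χ q = 1) ∧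
      (∀ q, (e ≤ ‖q.1‖ ∨ e ≤ ‖q.2‖) → χ q = 0) ∧
      ∀ (s : ℝ) (z : ℂ) (w : Phase n), χ (Complex.exp (s * Complex.I) * z, w) = χ (z, w) := by
  have hpos : 0 < e ^ 2 - d ^ 2 := by nlinarith
  refine ⟨fun q => Real.smoothTransition ((e ^ 2 - ‖q.1‖ ^ 2) / (e ^ 2 - d ^ 2)) *
    Real.smoothTransition ((e ^ 2 - ‖q.2‖ ^ 2) / (e ^ 2 - d ^ 2)), ?_, ?_, ?_, ?_⟩
  · refine (Real.smoothTransition.contDiff.comp ?_).mul (Real.smoothTransition.contDiff.comp ?_)
    · exact (contDiff_const.sub (contDiff_fst.norm_sq ℝ)).div_const _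
    · exact (contDiff_const.sub (contDiff_snd.norm_sq ℝ)).div_const _
  · intro q h1 h2
    have key : ∀ x : ℝ, 0 ≤ x → x ≤ d →
        Real.smoothTransition ((e ^ 2 - x ^ 2) / (e ^ 2 - d ^ 2)) = 1 := by
      intro x hx0 hx
      refine Real.smoothTransition.one_of_one_le ?_
      rw [le_div_iff₀ hpos]
      nlinarith
    show _ * _ = (1 : ℝ)
    rw [key _ (norm_nonneg _) h1, key _ (norm_nonneg _) h2, mul_one]
  · intro q h
    have key : ∀ x : ℝ, e ≤ x →
        Real.smoothTransition ((e ^ 2 - x ^ 2) / (e ^ 2 - d ^ 2)) = 0 := by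
      intro x hx
      refine Real.smoothTransition.zero_of_nonpos ?_
      refine div_nonpos_of_nonpos_of_nonneg ?_ hpos.le
      nlinarith
    show _ * _ = (0 : ℝ)
    rcases h with h | h
    · rw [key _ h, zero_mul]
    · rw [key _ h, mul_zero]
  · intro s z w
    have h1 : ‖Complex.exp (s * Complex.I) * z‖ = ‖z‖ := by
      rw [norm_mul, Complex.norm_exp_ofReal_mul_I, one_mul]
    show _ * _ = _ * _
    rw [h1]

private lemma isOpen_poly (n : ℕ) (e : ℝ) : IsOpen {q : ℂ × Phase n | ‖q.1‖ < e ∧ ‖q.2‖ < e} :=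
  (isOpen_lt continuous_fst.norm continuous_const).inter
    (isOpen_lt continuous_snd.norm continuous_const)

private lemma convex_poly (n : ℕ) (e : ℝ) : Convex ℝ {q : ℂ × Phase n | ‖q.1‖ < e ∧ ‖q.2‖ < e} := by
  have h1 : {q : ℂ × Phase n | ‖q.1‖ < e ∧ ‖q.2‖ < e} =
      Metric.ball (0 : ℂ) e ×ˢ Metric.ball (0 : Phase n) e := by
    ext q
    simp [Metric.mem_ball, dist_zero_right]
  rw [h1]
  exact (convex_ball _ _).prod (convex_ball _ _)

/-- division by the first variable on a smaller polydisc -/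
private lemma divide (hDIV : St_DIV) (n : ℕ) {d e : ℝ} (hd : 0 < d) (he : d < e)
    (g : ℂ × Phase n → ℂ) (hg : ContDiffOn ℝ ∞ g {q | ‖q.1‖ < e ∧ ‖q.2‖ < e})
    (hw : ∀ (s : ℝ) (z : ℂ) (w : Phase n), ‖z‖ < e → ‖w‖ < e →
      g (Complex.exp (s * Complex.I) * z, w) = Complex.exp (s * Complex.I) * g (z, w)) :
    ∃ B : ℂ × Phase n → ℂ, ContDiff ℝ ∞ B ∧
      ∀ z w, ‖z‖ ≤ d → ‖w‖ ≤ d → g (z, w) = z * B (z, w) := by
  have hm1 : d < (d + e) / 2 := by linarith
  have hm2 : (d + e) / 2 < e := by linarith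
  obtain ⟨χ, hχ, hχ1, hχ0, hχw⟩ := exists_cut n hd hm1
  let b : ℂ × Phase n → ℂ := fun q => (χ q : ℂ) * g q
  have hb : ContDiff ℝ ∞ b := by
    rw [contDiff_iff_contDiffAt]
    intro q
    by_cases h : ‖q.1‖ < e ∧ ‖q.2‖ < e
    · exact (Complex.ofRealCLM.contDiff.comp hχ).contDiffAt.mul
        ((hg q h).contDiffAt ((isOpen_poly n e).mem_nhds h))
    · have hopen : IsOpen {q : ℂ × Phase n | (d + e) / 2 < ‖q.1‖ ∨ (d + e) / 2 < ‖q.2‖} :=
        (isOpen_lt continuous_const continuous_fst.norm).union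
          (isOpen_lt continuous_const continuous_snd.norm)
      have hq : q ∈ {q : ℂ × Phase n | (d + e) / 2 < ‖q.1‖ ∨ (d + e) / 2 < ‖q.2‖} := by
        rw [not_and_or, not_lt, not_lt] at h
        rcases h with h | h
        · exact Or.inl (lt_of_lt_of_le hm2 h)
        · exact Or.inr (lt_of_lt_of_le hm2 h)
      have h1 : b =ᶠ[𝓝 q] fun _ => 0 := by
        filter_upwards [hopen.mem_nhds hq] with y hy
        have h2 : χ y = 0 := hχ0 y (hy.imp le_of_lt le_of_lt)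
        show (χ y : ℂ) * g y = 0
        rw [h2, Complex.ofReal_zero, zero_mul]
      exact contDiffAt_const.congr_of_eventuallyEq h1
  obtain ⟨B, hB, hB1, -⟩ := (hDIV Unit (Phase n)).1 (fun _ => b) (CF.const hb) (by
    intro _ s z w
    show (χ (Complex.exp (s * Complex.I) * z, w) : ℂ) * g (Complex.exp (s * Complex.I) * z, w) =
      Complex.exp (s * Complex.I) * ((χ (z, w) : ℂ) * g (z, w))
    rw [hχw]
    by_cases h : ‖z‖ < e ∧ ‖w‖ < e
    · rw [hw s z w h.1 h.2]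
      ring
    · have h2 : χ (z, w) = 0 := by
        refine hχ0 _ ?_
        rw [not_and_or, not_lt, not_lt] at h
        rcases h with h | h
        · exact Or.inl (le_trans hm2.le h)
        · exact Or.inr (le_trans hm2.le h)
      rw [h2, Complex.ofReal_zero, zero_mul, zero_mul, mul_zero])
  refine ⟨B (), hB.contDiff (), fun z w hz hw' => ?_⟩
  have h1 : (χ (z, w) : ℂ) * g (z, w) = z * B () (z, w) := hB1 () z w
  rw [hχ1 (z, w) hz hw', Complex.ofReal_one, one_mul] at h1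
  exact h1

/-- patches have weight one -/
private lemma patch_wt {n : ℕ} {R R' : ℝ} {f : Phase (n + 1) → ℝ}
    {Φ : ℝ → Phase (n + 1) → Phase (n + 1)} {u : Phase (n + 1) → ℂ} (hF : Fl R f Φ)
    (hu : UF R' f Φ u) {U : Set (Phase (n + 1))} {a : Phase (n + 1) → ℂ} {η : Phase (n + 1) → ℝ}
    (hP : Patch f Φ u U a η) (s : ℝ) (y : Phase (n + 1)) (hy : y ∈ U) :
    a (Φ s y) = Complex.exp (s * Complex.I) * a y := by
  have h0 : 0 ≤ f y := by
    have h1 := hP.na y hy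
    nlinarith [sq_nonneg ‖a y‖]
  rcases h0.lt_or_eq with h | h
  · rw [hP.eq _ (hP.inv s y hy) (by rw [hF.cons]; exact h), hP.eq y hy h, hF.cons, hu.wt s y h,
      hP.iη s y hy h]
    ring
  · have h1 : a y = 0 := by
      have h2 := hP.na y hy
      rw [← h, mul_zero] at h2
      exact norm_eq_zero.1 (pow_eq_zero_iff (two_ne_zero)|>.1 h2)
    have h3 : a (Φ s y) = 0 := by
      have h2 := hP.na _ (hP.inv s y hy)
      rw [hF.cons, ← h, mul_zero] at h2
      exact norm_eq_zero.1 (pow_eq_zero_iff (two_ne_zero)|>.1 h2)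
    rw [h1, h3, mul_zero]

/-- the punctured polydisc is connected -/
private lemma preconn (n : ℕ) (d : ℝ) :
    IsPreconnected {q : ℂ × Phase n | (‖q.1‖ < d ∧ ‖q.2‖ < d) ∧ q.1 ≠ 0} := by
  let S : Set (ℝ × ℝ × Phase n) := Ioo 0 d ×ˢ (univ ×ˢ Metric.ball (0 : Phase n) d)
  have hS : IsPreconnected S :=
    ((convex_Ioo 0 d).prod (convex_univ.prod (convex_ball _ _))).isPreconnected
  let F : ℝ × ℝ × Phase n → ℂ × Phase n :=
    fun q => ((q.1 : ℂ) * Complex.exp (q.2.1 * Complex.I), q.2.2)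
  have hF : Continuous F := by fun_prop
  have h1 : {q : ℂ × Phase n | (‖q.1‖ < d ∧ ‖q.2‖ < d) ∧ q.1 ≠ 0} = F '' S := by
    ext q
    constructor
    · rintro ⟨⟨h1, h2⟩, h3⟩
      refine ⟨(‖q.1‖, Complex.arg q.1, q.2), ⟨⟨norm_pos_iff.2 h3, h1⟩, mem_univ _, ?_⟩, ?_⟩
      · rw [Metric.mem_ball, dist_zero_right]
        exact h2
      · show ((‖q.1‖ : ℂ) * Complex.exp (Complex.arg q.1 * Complex.I), q.2) = q
        rw [Complex.norm_mul_exp_arg_mul_I]
    · rintro ⟨⟨r, t, w⟩, ⟨⟨hr0, hr⟩, -, hw⟩, rfl⟩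
      have h4 : ‖(r : ℂ) * Complex.exp (t * Complex.I)‖ = r := by
        rw [norm_mul, Complex.norm_exp_ofReal_mul_I, mul_one, Complex.norm_real,
          Real.norm_of_nonneg hr0.le]
      rw [Metric.mem_ball, dist_zero_right] at hw
      refine ⟨⟨?_, hw⟩, ?_⟩
      · show ‖(r : ℂ) * Complex.exp (t * Complex.I)‖ < d
        rw [h4]
        exact hr
      · show (r : ℂ) * Complex.exp (t * Complex.I) ≠ 0
        rw [← norm_pos_iff, h4]
        exact hr0
  rw [h1]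
  exact hS.image F hF.continuousOn

/-- continuous functions with values in `2 π ℤ` on connected sets are constant -/
private lemma const_of_int {X : Type} [TopologicalSpace X] {S : Set X} (hS : IsPreconnected S)
    {h : X → ℝ} (hc : ContinuousOn h S) (hi : ∀ x ∈ S, ∃ k : ℤ, h x = k * (2 * Real.pi)) :
    ∃ c : ℝ, ∀ x ∈ S, h x = c := by
  rcases S.eq_empty_or_nonempty with rfl | ⟨x₀, hx₀⟩
  · exact ⟨0, fun x hx => absurd hx (notMem_empty x)⟩
  refine ⟨h x₀, fun x hx => ?_⟩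
  have hpi : 0 < 2 * Real.pi := by positivity
  have hI : OrdConnected (h '' S) := (hS.image h hc).ordConnected
  -- two different values
  have key : ∀ x ∈ S, ∀ y ∈ S, ¬ h x < h y := by
    intro x hx y hy hlt
    obtain ⟨k, hk⟩ := hi x hx
    obtain ⟨l, hl⟩ := hi y hy
    have hkl : k < l := by
      rw [hk, hl] at hlt
      have h1 : (k : ℝ) < l := lt_of_mul_lt_mul_right hlt hpi.le
      exact_mod_cast h1
    have hkl' : (k : ℝ) + 1 ≤ l := by exact_mod_cast hkl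
    have hm : h x + Real.pi ∈ h '' S := by
      refine hI.out (mem_image_of_mem h hx) (mem_image_of_mem h hy) ⟨?_, ?_⟩
      · linarith [Real.pi_pos]
      · rw [hk, hl]
        nlinarith [Real.pi_pos]
    obtain ⟨z, hz, hz'⟩ := hm
    obtain ⟨j, hj⟩ := hi z hz
    rw [hj, hk] at hz'
    have h2 : (j : ℝ) * 2 = k * 2 + 1 := by
      have h3 : ((j : ℝ) * 2 - (k * 2 + 1)) * Real.pi = 0 := by linarith
      rcases mul_eq_zero.1 h3 with h4 | h4
      · linarith
      · exact absurd h4 Real.pi_ne_zero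
    have h5 : j * 2 = k * 2 + 1 := by exact_mod_cast h2
    omega
  exact le_antisymm (not_lt.1 (key x₀ hx₀ x hx)) (not_lt.1 (key x hx x₀ hx₀))

end RAT

theorem thm_RAT (hLSO : St_LSO) (hDIV : St_DIV) (hCLF : St_CLF) : St_RAT := by
  intro n R R' f Φ u hC hF hu U U' a a' η η' hP hP' x hx hfx
  obtain ⟨U₀, δ, α, β, ψ, m, hS, hxU, hU₀, hm, hmp, hm2⟩ :=
    hLSO n R f Φ hC hF x (U ∩ U') hfx (hP.openU.inter hP'.openU) hx
  have hUU : ∀ y ∈ U₀, y ∈ U := fun y hy => (hU₀ hy).1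
  have hUU' : ∀ y ∈ U₀, y ∈ U' := fun y hy => (hU₀ hy).2
  -- the radius
  obtain ⟨hαx, hβx⟩ := hS.maps x hxU
  have hαx0 : α x = 0 := by
    have h1 := hm2 x hxU
    rw [hfx, mul_zero] at h1
    have h2 : ‖α x‖ ^ 2 = 0 := by
      rcases mul_eq_zero.1 h1.symm with h3 | h3
      · exact h3
      · exact absurd h3 (pow_ne_zero 2 (hmp x hxU).ne')
    exact norm_eq_zero.1 ((pow_eq_zero_iff two_ne_zero).1 h2)
  let d : ℝ := (‖β x‖ + δ) / 2
  have hd0 : 0 < d := by
    have := norm_nonneg (β x)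
    have := hS.pos
    show 0 < (‖β x‖ + δ) / 2
    linarith
  have hdδ : d < δ := by
    show (‖β x‖ + δ) / 2 < δ
    linarith
  have hβd : ‖β x‖ < d := by
    show ‖β x‖ < (‖β x‖ + δ) / 2
    linarith
  let C : Set (ℂ × Phase n) := {q | ‖q.1‖ < d ∧ ‖q.2‖ < d}
  have hCδ : ∀ q ∈ C, ‖q.1‖ < δ ∧ ‖q.2‖ < δ := fun q hq => ⟨hq.1.trans hdδ, hq.2.trans hdδ⟩
  have hCo : IsOpen C := RAT.isOpen_poly n d
  have hψU : ∀ q ∈ {q : ℂ × Phase n | ‖q.1‖ < δ ∧ ‖q.2‖ < δ}, ψ q ∈ U₀ := fun q hq =>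
    (hS.right q.1 q.2 hq.1 hq.2).1
  -- equivariance of `ψ`
  have hψe : ∀ (s : ℝ) (z : ℂ) (w : Phase n), ‖z‖ < δ → ‖w‖ < δ →
      ψ (Complex.exp (s * Complex.I) * z, w) = Φ s (ψ (z, w)) := by
    intro s z w hz hw
    obtain ⟨h1, h2, h3⟩ := hS.right z w hz hw
    have h4 := hS.left _ (hS.inv s _ h1)
    rw [hS.eα, hS.eβ, h2, h3] at h4
    exact h4
  have hdiv : ∀ {V : Set (Phase (n + 1))} {b : Phase (n + 1) → ℂ} {θ : Phase (n + 1) → ℝ},
      Patch f Φ u V b θ → (∀ y ∈ U₀, y ∈ V) → ∃ B : ℂ × Phase n → ℂ, ContDiff ℝ ∞ B ∧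
      (∀ q ∈ C, b (ψ q) = q.1 * B q) ∧ ∀ q ∈ C, ‖B q‖ = m (ψ q) := by
    intro V b θ hb hV
    obtain ⟨B, hB, hB1⟩ := RAT.divide hDIV n hd0 hdδ (fun q => b (ψ q))
      (hb.sa.comp hS.sψ fun q hq => hV _ (hψU q hq)) (by
        intro s z w hz hw
        show b (ψ (Complex.exp (s * Complex.I) * z, w)) = _
        rw [hψe s z w hz hw]
        exact RAT.patch_wt hF hu hb s _ (hV _ (hψU (z, w) ⟨hz, hw⟩)))
    have hB2 : ∀ q ∈ C, b (ψ q) = q.1 * B q := fun q hq => hB1 q.1 q.2 hq.1.le hq.2.le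
    refine ⟨B, hB, hB2, ?_⟩
    have hne : ∀ q ∈ C, q.1 ≠ 0 → ‖B q‖ = m (ψ q) := by
      intro q hq hq0
      have hq' := hψU q (hCδ q hq)
      have h1 := hb.na _ (hV _ hq')
      rw [hB2 q hq, norm_mul, mul_pow, hm2 _ hq',
        (hS.right q.1 q.2 (hCδ q hq).1 (hCδ q hq).2).2.1] at h1
      have h2 : ‖B q‖ ^ 2 = m (ψ q) ^ 2 :=
        mul_left_cancel₀ (pow_ne_zero 2 (norm_ne_zero_iff.2 hq0)) h1
      exact (pow_left_inj₀ (norm_nonneg _) (hmp _ hq').le two_ne_zero).1 h2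
    intro q hq
    by_cases hq0 : q.1 = 0
    · have hct : ContinuousAt (fun q => ‖B q‖ - m (ψ q)) q := by
        refine (hB.continuous.norm.continuousAt).sub ?_
        have h1 : ContinuousOn (fun q => m (ψ q)) {q : ℂ × Phase n | ‖q.1‖ < δ ∧ ‖q.2‖ < δ} :=
          hm.continuousOn.comp hS.sψ.continuousOn hψU
        exact h1.continuousAt ((RAT.isOpen_poly n δ).mem_nhds (hCδ q hq))
      have hp : ContinuousAt (fun t : ℝ => ((t : ℂ), q.2)) 0 := by fun_prop
      have hp0 : ((((0 : ℝ) : ℂ), q.2) : ℂ × Phase n) = q := by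
        refine Prod.ext ?_ rfl
        show ((0 : ℝ) : ℂ) = q.1
        rw [hq0, Complex.ofReal_zero]
      have h2 : Tendsto (fun t : ℝ => ‖B ((t : ℂ), q.2)‖ - m (ψ ((t : ℂ), q.2))) (𝓝[>] 0)
          (𝓝 (‖B q‖ - m (ψ q))) := by
        have h3 : ContinuousAt ((fun q => ‖B q‖ - m (ψ q)) ∘ fun t : ℝ => ((t : ℂ), q.2)) 0 := by
          refine ContinuousAt.comp ?_ hp
          rw [hp0]
          exact hct
        have h4 := h3.tendsto.mono_left (nhdsWithin_le_nhds (s := Ioi (0 : ℝ)))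
        have h5 : ((fun q => ‖B q‖ - m (ψ q)) ∘ fun t : ℝ => ((t : ℂ), q.2)) 0 =
            ‖B q‖ - m (ψ q) := congrArg (fun q => ‖B q‖ - m (ψ q)) hp0
        rw [h5] at h4
        exact h4
      have h6 : (fun t : ℝ => ‖B ((t : ℂ), q.2)‖ - m (ψ ((t : ℂ), q.2))) =ᶠ[𝓝[>] 0]
          fun _ => 0 := by
        filter_upwards [Ioo_mem_nhdsGT hd0] with t ht
        rw [sub_eq_zero]
        refine hne _ ⟨?_, hq.2⟩ ?_
        · show ‖(t : ℂ)‖ < d
          rw [Complex.norm_real, Real.norm_of_nonneg ht.1.le]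
          exact ht.2
        · show (t : ℂ) ≠ 0
          exact_mod_cast ht.1.ne'
      have h7 := tendsto_nhds_unique (h2.congr' h6) tendsto_const_nhds
      exact sub_eq_zero.1 h7
    · exact hne q hq hq0
  obtain ⟨B, hB, hB1, hB2⟩ := hdiv hP hUU
  obtain ⟨B', hB', hB1', hB2'⟩ := hdiv hP' hUU'
  have hBne' : ∀ q ∈ C, B' q ≠ 0 := fun q hq => by
    rw [← norm_pos_iff, hB2' q hq]
    exact hmp _ (hψU q (hCδ q hq))
  have hBne : ∀ q ∈ C, B q ≠ 0 := fun q hq => by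
    rw [← norm_pos_iff, hB2 q hq]
    exact hmp _ (hψU q (hCδ q hq))
  -- the logarithm of the quotient
  have hgs : ContDiffOn ℝ ∞ (fun q => B q / B' q) C := by
    have h1 : (fun q => B q / B' q) = fun q => B q * (B' q)⁻¹ := by
      funext q
      exact div_eq_mul_inv _ _
    rw [h1]
    exact hB.contDiffOn.mul (hB'.contDiffOn.inv hBne')
  have hgn : ∀ q ∈ C, ‖B q / B' q‖ = 1 := by
    intro q hq
    rw [norm_div, hB2 q hq, hB2' q hq]
    exact div_self (hmp _ (hψU q (hCδ q hq))).ne'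
  obtain ⟨γ, hγc, hγ⟩ := (hCLF (ℂ × Phase n)).1 C (fun q => B q / B' q) (RAT.convex_poly n d)
    hgs.continuousOn hgn
  have hγs : ContDiffOn ℝ ∞ γ C := (hCLF (ℂ × Phase n)).2 C _ γ hCo hgs hγc hγ
  -- the open set
  let O : Set (Phase (n + 1)) := U₀ ∩ {y | (α y, β y) ∈ C}
  have hcab : Continuous fun y => (α y, β y) := hS.sα.continuous.prodMk hS.sβ.continuous
  have hOo : IsOpen O := hS.openU.inter (hCo.preimage hcab)
  have hxO : x ∈ O := by
    refine ⟨hxU, ?_, hβd⟩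
    show ‖α x‖ < d
    rw [hαx0, norm_zero]
    exact hd0
  have hα0 : ∀ y ∈ U₀, 0 < f y → α y ≠ 0 := by
    intro y hy hfy h0
    have h1 := hm2 y hy
    rw [h0, norm_zero] at h1
    nlinarith
  have hf0 : ∀ y ∈ U₀, α y ≠ 0 → 0 < f y := by
    intro y hy h0
    have h1 := hm2 y hy
    have h2 : 0 < ‖α y‖ ^ 2 * m y ^ 2 :=
      mul_pos (pow_pos (norm_pos_iff.2 h0) 2) (pow_pos (hmp y hy) 2)
    linarith
  -- the difference is integral
  have hint : ∀ y ∈ O, 0 < f y → ∃ k : ℤ, η y - η' y - γ (α y, β y) = k * (2 * Real.pi) := by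
    intro y hy hfy
    have h1 : a y = α y * B (α y, β y) := by
      have h2 := hB1 _ hy.2
      rw [hS.left y hy.1] at h2
      exact h2
    have h1' : a' y = α y * B' (α y, β y) := by
      have h2 := hB1' _ hy.2
      rw [hS.left y hy.1] at h2
      exact h2
    have h3 : B (α y, β y) = Complex.exp (γ (α y, β y) * Complex.I) * B' (α y, β y) := by
      have h4 := hγ _ hy.2
      rw [← h4]
      exact (div_mul_cancel₀ _ (hBne' _ hy.2)).symm
    have h5 := hP.eq y (hUU y hy.1) hfy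
    have h5' := hP'.eq y (hUU' y hy.1) hfy
    have hr : (Real.sqrt (2 * f y) : ℂ) * u y ≠ 0 := by
      refine mul_ne_zero ?_ ?_
      · have : 0 < Real.sqrt (2 * f y) := Real.sqrt_pos.2 (by linarith)
        exact_mod_cast this.ne'
      · rw [← norm_pos_iff, hu.norm y hfy]
        exact one_pos
    have h6 : a y = Complex.exp (γ (α y, β y) * Complex.I) * a' y := by
      rw [h1, h1', h3]
      ring
    have h7 : Complex.exp (η y * Complex.I) =
        Complex.exp (γ (α y, β y) * Complex.I) * Complex.exp (η' y * Complex.I) := by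
      refine mul_left_cancel₀ hr ?_
      rw [← h5, h6, h5']
      ring
    have h8 : Complex.exp (((η y - η' y - γ (α y, β y) : ℝ) : ℂ) * Complex.I) = 1 := by
      have h9 : (((η y - η' y - γ (α y, β y) : ℝ) : ℂ) * Complex.I) =
          η y * Complex.I - (γ (α y, β y) * Complex.I + η' y * Complex.I) := by
        push_cast
        ring
      rw [h9, Complex.exp_sub, Complex.exp_add, ← h7]
      exact div_self (Complex.exp_ne_zero _)
    obtain ⟨k, hk⟩ := Complex.exp_eq_one_iff.1 h8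
    refine ⟨k, ?_⟩
    have h10 : ((η y - η' y - γ (α y, β y) : ℝ) : ℂ) = ((k * (2 * Real.pi) : ℝ) : ℂ) := by
      refine mul_right_cancel₀ Complex.I_ne_zero ?_
      rw [hk]
      push_cast
      ring
    exact_mod_cast h10
  -- the difference is constant
  let D : Set (ℂ × Phase n) := {q | (‖q.1‖ < d ∧ ‖q.2‖ < d) ∧ q.1 ≠ 0}
  have hDψ : ∀ q ∈ D, ψ q ∈ O ∧ 0 < f (ψ q) ∧ (α (ψ q), β (ψ q)) = q := by
    intro q hq
    obtain ⟨h1, h2, h3⟩ := hS.right q.1 q.2 (hCδ q hq.1).1 (hCδ q hq.1).2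
    have h4 : (α (ψ q), β (ψ q)) = q := Prod.ext h2 h3
    refine ⟨⟨h1, ?_⟩, hf0 _ h1 ?_, h4⟩
    · show (α (ψ q), β (ψ q)) ∈ C
      rw [h4]
      exact hq.1
    · have h5 : α (ψ q) = q.1 := h2
      rw [h5]
      exact hq.2
  obtain ⟨c, hc⟩ := RAT.const_of_int (RAT.preconn n d)
    (h := fun q => η (ψ q) - η' (ψ q) - γ q) (by
      have hψc : ContinuousOn ψ D := hS.sψ.continuousOn.mono fun q hq => hCδ q hq.1
      refine ((ContinuousOn.comp (t := U ∩ {x | 0 < f x}) hP.sη.continuousOn hψc fun q hq =>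
        ⟨hUU _ (hDψ q hq).1.1, (hDψ q hq).2.1⟩).sub (ContinuousOn.comp
        (t := U' ∩ {x | 0 < f x}) hP'.sη.continuousOn hψc fun q hq =>
        ⟨hUU' _ (hDψ q hq).1.1, (hDψ q hq).2.1⟩)).sub (hγc.mono fun q hq => hq.1)) (by
      intro q hq
      obtain ⟨h1, h2, h3⟩ := hDψ q hq
      obtain ⟨k, hk⟩ := hint _ h1 h2
      rw [h3] at hk
      exact ⟨k, hk⟩)
  refine ⟨O, fun y => γ (α y, β y) + c, hOo, hxO, ?_, ?_⟩
  · refine ContDiffOn.add ?_ contDiffOn_const
    exact hγs.comp (hS.sα.prodMk hS.sβ).contDiffOn fun y hy => hy.2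
  · intro y hy hfy
    have h1 : (α y, β y) ∈ D := ⟨hy.2, hα0 y hy.1 hfy⟩
    have h2 := hc _ h1
    rw [hS.left y hy.1] at h2
    show η y - η' y = γ (α y, β y) + c
    linarith

end Pool.Agent.CRC
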