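import Pool.Agent.CRC.St

/-!
# CRC: slices at the zeros of a circle Hamiltonian
-/

set_option autoImplicit false

open scoped ContDiff Topology
open Set Function TopologicalSpace

namespace Pool.Agent.CRC

open Pool.Agent.Helper17 Pool.Agent.Helper42 Pool.Agent.H50.Susp

namespace SLC

/-- An orbit which stays in an open set has a neighbourhood whose orbits do. -/
lemma tube {E : Type} [TopologicalSpace E] {Φ : ℝ → E → E}
    (hc : Continuous fun q : ℝ × E => Φ q.1 q.2) (per : ∀ s x, Φ (s + 2 * Real.pi) x = Φ s x)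
    (p : E) (hp : ∀ s, Φ s p = p) (O : Set E) (hO : IsOpen O) (hpO : p ∈ O) :
    ∃ O₁ : Set E, IsOpen O₁ ∧ p ∈ O₁ ∧ ∀ s, ∀ x ∈ O₁, Φ s x ∈ O := by
  have h1 : ∀ᶠ x in 𝓝 p, ∀ s ∈ Icc (0 : ℝ) (2 * Real.pi), Φ s x ∈ O := by
    refine (isCompact_Icc (a := (0 : ℝ)) (b := 2 * Real.pi)).eventually_forall_of_forall_eventually
      (P := fun x s => Φ s x ∈ O) fun s _ => ?_
    have h2 : Continuous fun z : E × ℝ => Φ z.2 z.1 := hc.comp continuous_swap
    have h3 : Φ s p ∈ O := by rw [hp]; exact hpO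
    exact h2.continuousAt.eventually_mem (hO.mem_nhds h3)
  obtain ⟨O₁, h2, h3, h4⟩ := eventually_nhds_iff.1 h1
  refine ⟨O₁, h3, h4, fun s x hx => ?_⟩
  have h5 : Function.Periodic (fun s => Φ s x) (2 * Real.pi) := fun s => per s x
  obtain ⟨y, hy, h6⟩ := h5.exists_mem_Ico₀ Real.two_pi_pos s
  have h7 : Φ s x = Φ y x := h6
  rw [h7]
  exact h2 x hx y ⟨hy.1, hy.2.le⟩

/-- The slice, from the equivariant chart. -/
lemma exists_slice {n : ℕ} {Φ : ℝ → Phase (n + 1) → Phase (n + 1)}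
    (hc : Continuous fun q : ℝ × Phase (n + 1) => Φ q.1 q.2)
    (zero : ∀ x, Φ 0 x = x) (per : ∀ s x, Φ (s + 2 * Real.pi) x = Φ s x)
    (p : Phase (n + 1)) (hp : ∀ s, Φ s p = p) (O : Set (Phase (n + 1))) (hO : IsOpen O)
    (hpO : p ∈ O) (α : Phase (n + 1) → ℂ) (β : Phase (n + 1) → Phase n)
    (hα : ContDiff ℝ ∞ α) (hβ : ContDiff ℝ ∞ β)
    (eα : ∀ s x, α (Φ s x) = Complex.exp (s * Complex.I) * α x) (eβ : ∀ s x, β (Φ s x) = β x)
    (hαp : α p = 0) (hβp : β p = 0) (hb : Bijective (fderiv ℝ (fun x => (α x, β x)) p)) :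
    ∃ (U : Set (Phase (n + 1))) (δ : ℝ) (ψ : ℂ × Phase n → Phase (n + 1)),
      Slice Φ U δ α β ψ ∧ p ∈ U ∧ U ⊆ O := by
  set Ψ : Phase (n + 1) → ℂ × Phase n := fun x => (α x, β x) with hΨ
  have hΨs : ContDiff ℝ ∞ Ψ := hα.prodMk hβ
  have hΨd : Differentiable ℝ Ψ := hΨs.differentiable (by simp)
  -- the derivative at `p` is an equivalence
  let L : Phase (n + 1) ≃L[ℝ] ℂ × Phase n := ContinuousLinearEquiv.ofBijective (fderiv ℝ Ψ p)
    (LinearMap.ker_eq_bot.2 hb.1) (LinearMap.range_eq_top.2 hb.2)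
  have hL : (L : Phase (n + 1) →L[ℝ] ℂ × Phase n) = fderiv ℝ Ψ p :=
    ContinuousLinearEquiv.coe_ofBijective _ _ _
  have hLd : HasFDerivAt Ψ (L : Phase (n + 1) →L[ℝ] ℂ × Phase n) p := by
    rw [hL]; exact (hΨd p).hasFDerivAt
  let e := hΨs.contDiffAt.toOpenPartialHomeomorph Ψ hLd (by simp)
  have hpe : p ∈ e.source :=
    hΨs.contDiffAt.mem_toOpenPartialHomeomorph_source hLd (by simp)
  have hee : ∀ x, e x = Ψ x := fun x => rfl
  -- the set where the derivative is invertible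
  let D : Set (Phase (n + 1)) := (fun x => fderiv ℝ Ψ x) ⁻¹'
    (range ((↑) : (Phase (n + 1) ≃L[ℝ] ℂ × Phase n) → Phase (n + 1) →L[ℝ] ℂ × Phase n))
  have hD : IsOpen D :=
    (ContinuousLinearEquiv.isOpen (𝕜 := ℝ) (E := Phase (n + 1)) (F := ℂ × Phase n)).preimage
      (hΨs.continuous_fderiv (by simp))
  have hpD : p ∈ D := ⟨L, hL⟩
  have hO₀ : IsOpen (O ∩ e.source ∩ D ∩ Metric.ball p 1) :=
    ((hO.inter e.open_source).inter hD).inter Metric.isOpen_ball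
  have hpO₀ : p ∈ O ∩ e.source ∩ D ∩ Metric.ball p 1 :=
    ⟨⟨⟨hpO, hpe⟩, hpD⟩, Metric.mem_ball_self one_pos⟩
  obtain ⟨O₁, h1, h2, h3⟩ := tube hc per p hp _ hO₀ hpO₀
  have h4 : ∀ x ∈ O₁, x ∈ O ∩ e.source ∩ D ∩ Metric.ball p 1 := fun x hx => by
    have h5 := h3 0 x hx
    rwa [zero] at h5
  have h5 : O₁ ⊆ e.source := fun x hx => (h4 x hx).1.1.2
  have h6 : IsOpen (e '' O₁) := e.isOpen_image_of_subset_source h1 h5
  have h7 : (0 : ℂ × Phase n) ∈ e '' O₁ := ⟨p, h2, by rw [hee, hΨ]; simp [hαp, hβp]⟩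
  obtain ⟨δ, hδ, h8⟩ := Metric.isOpen_iff.1 h6 0 h7
  have h9 : ∀ q : ℂ × Phase n, ‖q.1‖ < δ → ‖q.2‖ < δ → q ∈ e '' O₁ := fun q hq1 hq2 => by
    refine h8 ?_
    rw [mem_ball_zero_iff, Prod.norm_def]
    exact max_lt hq1 hq2
  have h10 : ∀ x ∈ O₁, ‖α x‖ < δ → ‖β x‖ < δ → ∀ s, Φ s x ∈ O₁ := by
    intro x hx hx1 hx2 s
    have k1 : ‖(Ψ (Φ s x)).1‖ < δ := by
      change ‖α (Φ s x)‖ < δ
      rw [eα, norm_mul, Complex.norm_exp_ofReal_mul_I, one_mul]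
      exact hx1
    have k2 : ‖(Ψ (Φ s x)).2‖ < δ := by
      change ‖β (Φ s x)‖ < δ
      rw [eβ]
      exact hx2
    obtain ⟨y, hy, hy1⟩ := h9 (Ψ (Φ s x)) k1 k2
    have k3 : Φ s x ∈ e.source := (h3 s x hx).1.1.2
    have k4 : y = Φ s x := e.injOn (h5 hy) k3 hy1
    rw [← k4]
    exact hy
  refine ⟨{x | x ∈ O₁ ∧ ‖α x‖ < δ ∧ ‖β x‖ < δ}, δ, e.symm, ?_, ?_, ?_⟩
  · refine ⟨hδ, ?_, ?_, ?_, hα, hβ, eα, eβ, ?_, fun x hx => hx.2, ?_, ?_⟩
    · exact h1.inter ((isOpen_lt hα.continuous.norm continuous_const).inter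
        (isOpen_lt hβ.continuous.norm continuous_const))
    · exact (Metric.isBounded_ball (x := p) (r := 1)).subset fun x hx => (h4 x hx.1).2
    · rintro s x ⟨hx, hx1, hx2⟩
      refine ⟨h10 x hx hx1 hx2 s, ?_, ?_⟩
      · rw [eα, norm_mul, Complex.norm_exp_ofReal_mul_I, one_mul]
        exact hx1
      · rw [eβ]
        exact hx2
    · rintro q ⟨hq1, hq2⟩
      obtain ⟨y, hy, rfl⟩ := h9 q hq1 hq2
      have k1 : e.symm (e y) = y := e.left_inv (h5 hy)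
      obtain ⟨M, hM⟩ := (h4 y hy).1.2
      have k2 : HasFDerivAt e (M : Phase (n + 1) →L[ℝ] ℂ × Phase n) (e.symm (e y)) := by
        rw [k1, hM]
        exact (hΨd y).hasFDerivAt
      exact (e.contDiffAt_symm (e.map_source (h5 hy)) k2
        (by rw [k1]; exact hΨs.contDiffAt)).contDiffWithinAt
    · intro x hx
      exact e.left_inv (h5 hx.1)
    · intro z w hz hw
      obtain ⟨y, hy, hy1⟩ := h9 (z, w) hz hw
      have k1 : e.symm (z, w) = y := by rw [← hy1]; exact e.left_inv (h5 hy)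
      have k2 : α y = z := congrArg Prod.fst hy1
      have k3 : β y = w := congrArg Prod.snd hy1
      rw [k1, k2, k3]
      exact ⟨⟨hy, by rw [k2]; exact hz, by rw [k3]; exact hw⟩, rfl, rfl⟩
  · exact ⟨h2, by rw [hαp, norm_zero]; exact hδ, by rw [hβp, norm_zero]; exact hδ⟩
  · exact fun x hx => (h4 x hx.1).1.1.1

end SLC

/-- **SLC**. Slices at the zeros of `f`, arbitrarily small. -/
theorem thm_SLC (hACT : St_ACT) (hLCH : St_LCH) : St_SLC := by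
  intro n R f Φ hf hΦ
  obtain ⟨-, -, hfix⟩ := hACT n R f Φ hf hΦ
  constructor
  · intro p O hp hO hpO
    obtain ⟨α, β, hα, hβ, eα, eβ, hαp, hβp, hb⟩ := hLCH n R f Φ hf hΦ p hp
    obtain ⟨U, δ, ψ, h1, h2, h3⟩ := SLC.exists_slice hΦ.cf.continuous hΦ.zero hΦ.per p
      ((hfix p).1 hp) O hO hpO α β hα hβ eα eβ hαp hβp hb
    exact ⟨U, δ, α, β, ψ, h1, h2, h3⟩
  · intro U δ α β ψ hS x hx
    rw [hfix]
    constructor
    · intro h
      have h1 := hS.eα Real.pi x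
      rw [h, Complex.exp_pi_mul_I] at h1
      have h2 : (2 : ℂ) * α x = 0 := by linear_combination h1
      exact (mul_eq_zero.1 h2).resolve_left two_ne_zero
    · intro h s
      have h1 := hS.left (Φ s x) (hS.inv s x hx)
      rw [hS.eα, hS.eβ, h, mul_zero, ← h, hS.left x hx] at h1
      exact h1.symm

end Pool.Agent.CRC
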