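import Pool.Agent.CRC.St
import Pool.Agent.Helper17.DirectLimit
import Pool.Agent.Helper17.SympFamily

/-!
# CRC, module TOP: continuous maps to `CircHam n` and smooth families

Copy of `Pool/Agent/Helper42/NT/Top.lean` with `stdX` replaced by `mu`.
-/

set_option autoImplicit false
set_option maxSynthPendingDepth 3

open scoped ContDiff Distributions Topology
open Set Function TopologicalSpace Filter Topology

namespace Pool.Agent.CRC

open Pool.Agent.Helper17 Pool.Agent.Helper42

namespace TOP

variable {n : ℕ}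

lemma CHSupp.isInducing_disp (K : Compacts (Phase (n + 1))) :
    IsInducing (CHSupp.disp K : CHSupp n K → 𝓓_{K}(Phase (n + 1), ℝ)) := ⟨rfl⟩

lemma CHSupp.continuous_incl (K : Compacts (Phase (n + 1))) :
    Continuous (CHSupp.incl K : CHSupp n K → CircHam n) :=
  continuous_iSup_rng (i := K) continuous_coinduced_rng

lemma CHSupp.incl_injective (K : Compacts (Phase (n + 1))) :
    Injective (CHSupp.incl K : CHSupp n K → CircHam n) := Subtype.val_injective

/-- The inclusion between the spaces attached to `K ≤ L`. -/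
def CHSupp.mono {K L : Compacts (Phase (n + 1))} (h : K ≤ L) (φ : CHSupp n K) : CHSupp n L :=
  ⟨φ.1, fun p hp => φ.2 p fun hK => hp (h hK)⟩

lemma CHSupp.topology_eq (K : Compacts (Phase (n + 1))) :
    (instTopologicalSpaceCHSupp n K : TopologicalSpace (CHSupp n K)) =
      ⨅ i : ℕ, TopologicalSpace.induced
        (fun φ : CHSupp n K => ContDiffMapSupportedIn.structureMapLM ℝ ⊤ i (CHSupp.disp K φ))
        inferInstance := by
  change TopologicalSpace.induced (CHSupp.disp K) (⨅ i : ℕ, TopologicalSpace.induced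
    (ContDiffMapSupportedIn.structureMapLM ℝ ⊤ i) inferInstance) = _
  rw [induced_iInf]
  refine iInf_congr fun i => ?_
  rw [induced_compose]
  rfl

lemma CHSupp.isInducing_mono {K L : Compacts (Phase (n + 1))} (h : K ≤ L) :
    IsInducing (CHSupp.mono h : CHSupp n K → CHSupp n L) := by
  constructor
  rw [CHSupp.topology_eq K, CHSupp.topology_eq L, induced_iInf]
  refine iInf_congr fun i => ?_
  rw [induced_compose]
  congr 1

lemma CHSupp.continuous_eval (K : Compacts (Phase (n + 1))) (p : Phase (n + 1)) :
    Continuous (fun φ : CHSupp n K => φ.1.1 p) := by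
  have h1 : Continuous (fun φ : CHSupp n K => CHSupp.disp K φ p) :=
    (continuous_eval_const p).comp (CHSupp.isInducing_disp K).continuous
  have h2 : (fun φ : CHSupp n K => φ.1.1 p) =
      fun φ : CHSupp n K => CHSupp.disp K φ p + mu p := by
    ext1 φ
    change _ = (φ.1.1 p - mu p) + mu p
    abel
  rw [h2]
  exact h1.add continuous_const

instance (K : Compacts (Phase (n + 1))) : T2Space (CHSupp n K) := by
  rw [t2Space_iff]
  intro φ ψ hne
  have : ∃ p, φ.1.1 p ≠ ψ.1.1 p := by
    by_contra h
    push Not at h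
    exact hne (Subtype.ext (Subtype.ext (funext h)))
  obtain ⟨p, hp⟩ := this
  obtain ⟨U, V, hU, hV, h1, h2, h3⟩ := t2_separation hp
  exact ⟨_, _, hU.preimage (CHSupp.continuous_eval K p),
    hV.preimage (CHSupp.continuous_eval K p), h1, h2, h3.preimage _⟩

lemma CHSupp.isClosedEmbedding_mono {K L : Compacts (Phase (n + 1))} (h : K ≤ L) :
    IsClosedEmbedding (CHSupp.mono h : CHSupp n K → CHSupp n L) where
  toIsInducing := CHSupp.isInducing_mono h
  injective := fun φ ψ hφψ => Subtype.ext (by
    have : (CHSupp.mono h φ).1 = (CHSupp.mono h ψ).1 := by rw [hφψ]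
    exact this)
  isClosed_range := by
    have : range (CHSupp.mono h : CHSupp n K → CHSupp n L) =
        ⋂ p : {p : Phase (n + 1) // p ∉ K}, {φ : CHSupp n L | φ.1.1 p.1 = mu p.1} := by
      ext φ
      simp only [mem_range, mem_iInter, Subtype.forall]
      constructor
      · rintro ⟨ψ, rfl⟩ p hp
        exact ψ.2 p hp
      · intro hφ
        exact ⟨⟨φ.1, hφ⟩, rfl⟩
    rw [this]
    exact isClosed_iInter fun p => isClosed_eq (CHSupp.continuous_eval L p.1) continuous_const

lemma isClosed_iff_forall_ch (s : Set (CircHam n)) :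
    IsClosed s ↔ ∀ K : Compacts (Phase (n + 1)), IsClosed (CHSupp.incl K ⁻¹' s) := by
  rw [isClosed_iSup_iff]
  simp only [isClosed_coinduced]

lemma CHSupp.isClosedEmbedding_incl (K : Compacts (Phase (n + 1))) :
    IsClosedEmbedding (CHSupp.incl K : CHSupp n K → CircHam n) := by
  refine IsClosedEmbedding.of_continuous_injective_isClosedMap (CHSupp.continuous_incl K)
    (CHSupp.incl_injective K) ?_
  intro s hs
  rw [isClosed_iff_forall_ch]
  intro L
  have h1 : CHSupp.incl L ⁻¹' (CHSupp.incl K '' s) =
      CHSupp.mono (le_sup_right : L ≤ K ⊔ L) ⁻¹' (CHSupp.mono (le_sup_left : K ≤ K ⊔ L) '' s) := by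
    ext φ
    constructor
    · rintro ⟨ψ, hψ, h⟩
      exact ⟨ψ, hψ, Subtype.ext h⟩
    · rintro ⟨ψ, hψ, h⟩
      exact ⟨ψ, hψ, congrArg Subtype.val h⟩
  rw [h1]
  exact ((CHSupp.isClosedEmbedding_mono _).isClosedMap s hs).preimage
    (CHSupp.isInducing_mono _).continuous

lemma exists_supported_ballC_ch (φ : CircHam n) :
    ∃ N, ∀ M, N ≤ M → ∀ p ∉ ballC (n + 1) M, φ.1 p = mu p := by
  obtain ⟨-, ⟨K, hK, hφK⟩, -⟩ := φ.2
  obtain ⟨N, hN⟩ := exists_ballC_ge (⟨K, hK⟩ : Compacts (Phase (n + 1)))
  exact ⟨N, fun M hM p hp => hφK p fun h => hp (ballC_mono hM (hN h))⟩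

/-- A compact set of functions consists of functions which are standard outside a common ball. -/
lemma exists_ballC_of_isCompact_ch {C : Set (CircHam n)} (hC : IsCompact C) :
    ∃ N, ∀ φ ∈ C, ∀ p ∉ ballC (n + 1) N, φ.1 p = mu p := by
  by_contra hcon
  push Not at hcon
  choose φ hφC hφ using hcon
  obtain ⟨c, hcC, hc⟩ := hC.exists_mapClusterPt (f := atTop) (u := φ) (by
    rw [le_principal_iff]
    exact Filter.mem_map.2 (Filter.Eventually.of_forall hφC))
  obtain ⟨M, hM⟩ := exists_supported_ballC_ch c
  set S : Set (CircHam n) := range φ \ {c} with hS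
  have hclosed : IsClosed S := by
    rw [isClosed_iff_forall_ch]
    intro K
    obtain ⟨L, hL⟩ := exists_ballC_ge K
    have hfin : (CHSupp.incl K ⁻¹' S).Finite := by
      have : (CHSupp.incl K ⁻¹' S) ⊆ CHSupp.incl K ⁻¹' (φ '' {N | N < L}) := by
        rintro ψ ⟨⟨N, hN⟩, -⟩
        refine ⟨N, ?_, hN⟩
        by_contra hNL
        obtain ⟨p, hp, hne⟩ := hφ N
        have h1 : L ≤ N := not_lt.1 hNL
        apply hne
        rw [hN]
        exact ψ.2 p fun h => hp (ballC_mono h1 (hL h))
      refine Finite.subset ?_ this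
      exact ((finite_lt_nat L).image φ).preimage (CHSupp.incl_injective K).injOn
    exact hfin.isClosed
  have hnhds : Sᶜ ∈ 𝓝 c := hclosed.isOpen_compl.mem_nhds (by simp [hS])
  have hfreq := (mapClusterPt_iff_frequently.1 hc) Sᶜ hnhds
  obtain ⟨N, hN, hNS⟩ := (Filter.frequently_atTop.1 hfreq) M
  have hNc : φ N = c := by
    by_contra h
    exact hNS ⟨⟨N, rfl⟩, h⟩
  obtain ⟨p, hp, hne⟩ := hφ N
  rw [hNc] at hne
  exact hne (hM N hN p hp)

/-- A continuous map from a compact space factors through a stage. -/
lemma exists_lift_of_compact_ch {T : Type*} [TopologicalSpace T] [CompactSpace T]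
    (f : T → CircHam n) (hf : Continuous f) :
    ∃ N, ∃ g : T → CHSupp n (ballC (n + 1) N), Continuous g ∧ ∀ t, (g t).1 = f t := by
  obtain ⟨N, hN⟩ := exists_ballC_of_isCompact_ch (isCompact_range hf)
  have hN' : ∀ t, ∀ p ∉ ballC (n + 1) N, (f t).1 p = mu p :=
    fun t => hN (f t) (mem_range_self t)
  refine ⟨N, fun t => ⟨f t, hN' t⟩, ?_, fun t => rfl⟩
  exact (CHSupp.isClosedEmbedding_incl (ballC (n + 1) N)).isInducing.continuous_iff.2 hf

/-- Smooth families which are standard outside a common compact set are continuous. -/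
lemma continuous_ch_of_CF {T : Type} [TopologicalSpace T] {F : T → Phase (n + 1) → ℝ}
    (hF : CF F) (K : Compacts (Phase (n + 1))) (hK : ∀ t, ∀ x ∉ K, F t x = mu x)
    {g : T → CircHam n} (hg : ∀ t x, (g t).1 x = F t x) : Continuous g := by
  set gK : T → CHSupp n K := fun t => ⟨g t, fun p hp => by rw [hg, hK t p hp]⟩ with hgK
  have hcont : Continuous gK := by
    rw [continuous_induced_rng, ContDiffMapSupportedIn.continuous_iff_comp]
    intro i
    apply continuous_bcf_of_joint _ K.isCompact
    · intro t x hx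
      simp only [comp_apply]
      rw [ContDiffMapSupportedIn.structureMapCLM_top_apply]
      exact ContDiffMapSupportedIn.iteratedFDeriv_zero_on_compl _ hx
    · have h1 : ∀ q : T × Phase (n + 1),
          ((ContDiffMapSupportedIn.structureMapCLM ℝ ⊤ i ∘ CHSupp.disp K ∘ gK) q.1) q.2 =
          iteratedFDeriv ℝ i (fun x => F q.1 x - mu x) q.2 := by
        intro q
        simp only [comp_apply]
        rw [ContDiffMapSupportedIn.structureMapCLM_top_apply]
        have : (CHSupp.disp K (gK q.1) : Phase (n + 1) → ℝ) =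
            fun x => F q.1 x - mu x := by
          funext x
          change (g q.1).1 x - mu x = _
          rw [hg]
        rw [this]
      simp_rw [h1]
      exact (hF.sub (CF.const contDiff_mu)).continuous_iteratedFDeriv i
  exact (CHSupp.continuous_incl K).comp hcont

/-- A continuous map from a compact space is a smooth family, standard outside a common compact
set. -/
lemma CF_of_continuous_ch {T : Type} [TopologicalSpace T] [CompactSpace T] {f : T → CircHam n}
    (hf : Continuous f) : CF (fun t x => (f t).1 x) ∧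
      ∃ K : Compacts (Phase (n + 1)), ∀ t, ∀ x ∉ K, (f t).1 x = mu x := by
  obtain ⟨N, g, hg, hgf⟩ := exists_lift_of_compact_ch f hf
  refine ⟨?_, ballC (n + 1) N, fun t x hx => by rw [← hgf t]; exact (g t).2 x hx⟩
  have h1 : CF (fun t x => (f t).1 x - mu x) := by
    intro k
    apply CFk.of_iteratedFDeriv
    · intro t
      exact (f t).2.1.sub contDiff_mu
    · intro i
      have h2 : Continuous (fun t => ContDiffMapSupportedIn.structureMapCLM ℝ ⊤ i
          (CHSupp.disp (ballC (n + 1) N) (g t))) :=
        (ContDiffMapSupportedIn.structureMapCLM ℝ ⊤ i).continuous.comp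
          ((CHSupp.isInducing_disp (ballC (n + 1) N)).continuous.comp hg)
      have h3 : ∀ q : T × Phase (n + 1), iteratedFDeriv ℝ i
          (fun x => (f q.1).1 x - mu x) q.2 =
          (ContDiffMapSupportedIn.structureMapCLM ℝ ⊤ i
          (CHSupp.disp (ballC (n + 1) N) (g q.1))) q.2 := by
        intro q
        rw [ContDiffMapSupportedIn.structureMapCLM_top_apply]
        have : (CHSupp.disp (ballC (n + 1) N) (g q.1) : Phase (n + 1) → ℝ) =
            fun x => (f q.1).1 x - mu x := by
          funext x
          change ((g q.1).1).1 x - mu x = _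
          rw [hgf]
        rw [this]
      simp_rw [h3]
      exact Continuous.eval (h2.comp continuous_fst) continuous_snd
  have h2 := h1.add (CF.const (T := T) (contDiff_mu (n := n)))
  have h3 : (fun (t : T) (x : Phase (n + 1)) => (f t).1 x) =
      fun t x => (f t).1 x - mu x + mu x := by
    funext t x
    exact (sub_add_cancel _ _).symm
  rw [h3]
  exact h2

end TOP

theorem thm_TOP : St_TOP := fun _ =>
  ⟨fun _ _ _ K _ hF hK hg => TOP.continuous_ch_of_CF hF K hK hg,
    fun _ _ _ _ hf => TOP.CF_of_continuous_ch hf⟩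

end Pool.Agent.CRC
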