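import Pool.Agent.CRC.St
import Pool.Agent.CRC.Basic

/-!
# CRC, UFN: the function `u`

Statement: see `St_UFN` in `Pool/Agent/CRC/St.lean`. On `{f ≥ ε}` the forward flow `θ` of `V` (the flow
of the cut-off field) exists, `f (θ τ p) = f p + τ`, and `u p` is the phase of `z_0` at `θ L p`, where `L`
is larger than the maximum of `f` on the ball. Outside the ball the flow lines are radial and stay
outside the ball.
-/

set_option autoImplicit false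
set_option maxSynthPendingDepth 3

open scoped ContDiff Topology NNReal
open Set Function TopologicalSpace Filter

namespace Pool.Agent.CRC

open Pool.Agent.Helper17 Pool.Agent.Helper42 Pool.Agent.H50.Susp

namespace UFN

/-! ### Flows of cut-off fields -/

/-- The flow of a smooth field with bounded derivative. -/
theorem flow {E : Type} [NormedAddCommGroup E] [NormedSpace ℝ E] [FiniteDimensional ℝ E]
    (X : E → E) (hX : ContDiff ℝ ∞ X) (l : ℝ) (hl : ∀ p, ‖fderiv ℝ X p‖ ≤ l) :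
    ∃ θ : ℝ → E → E, (∀ x, θ 0 x = x) ∧ (∀ x τ, HasDerivAt (fun τ => θ τ x) (X (θ τ x)) τ) ∧
      (∀ τ, ContDiff ℝ ∞ (θ τ)) ∧
      ∀ (c : ℝ → E), (∀ s, 0 ≤ s → HasDerivAt c (X (c s)) s) → ∀ s, 0 ≤ s → c s = θ s (c 0) := by
  obtain ⟨θ, h0, hd, -, hCF, -⟩ := exists_global_flow (T := Unit) (fun _ => X) (CF.const hX)
    (ℓ := l) (fun _ => hl)
  refine ⟨θ (), h0 (), hd (), fun τ => ?_, ?_⟩
  · exact (hCF |τ|).contDiff ((), ⟨τ, neg_abs_le τ, le_abs_self τ⟩)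
  · intro c hc s hs
    have hL : LipschitzWith (Real.toNNReal |l|) X := by
      apply LipschitzWith.of_dist_le_mul
      intro x y
      rw [dist_eq_norm, dist_eq_norm, Real.coe_toNNReal _ (abs_nonneg _)]
      exact convex_univ.norm_image_sub_le_of_norm_fderiv_le (𝕜 := ℝ)
        (fun z _ => (hX.differentiable (by simp)) z)
        (fun z _ => (hl z).trans (le_abs_self l)) (mem_univ y) (mem_univ x)
    exact ode_unique hL (a := 0) (b := s) (r := c) (r' := fun τ => θ () τ (c 0))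
      (fun t ht => hc t ht.1) (fun t _ => hd () _ t) (h0 () _).symm ⟨hs, le_rfl⟩

/-- The forward flow of a field with `D f (V) = 1` on `{f > 0}`, on the set `{ε ≤ f}`. -/
theorem forward {E : Type} [NormedAddCommGroup E] [NormedSpace ℝ E] [FiniteDimensional ℝ E]
    (f : E → ℝ) (hf : ContDiff ℝ ∞ f) (V : E → E) (hV : ∀ p, 0 < f p → fderiv ℝ f p (V p) = 1)
    (ε : ℝ) (hε : 0 < ε) (X : E → E) (hX : ContDiff ℝ ∞ X) (l : ℝ)
    (hl : ∀ p, ‖fderiv ℝ X p‖ ≤ l) (hXV : ∀ p, ε ≤ f p → X p = V p) :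
    ∃ θ : ℝ → E → E, (∀ x, θ 0 x = x) ∧ (∀ τ, ContDiff ℝ ∞ (θ τ)) ∧
      (∀ p, ε ≤ f p → ∀ τ, 0 ≤ τ → f (θ τ p) = f p + τ) ∧
      (∀ p, ε ≤ f p → ∀ τ, 0 ≤ τ → HasDerivAt (fun τ => θ τ p) (V (θ τ p)) τ) ∧
      ∀ c : ℝ → E, (∀ s, 0 ≤ s → ε ≤ f (c s) ∧ HasDerivAt c (V (c s)) s) →
        ∀ s, 0 ≤ s → c s = θ s (c 0) := by
  obtain ⟨θ, h0, hd, hs, hu⟩ := flow X hX l hl
  have hfd : ∀ p τ, HasDerivAt (fun τ => f (θ τ p)) (fderiv ℝ f (θ τ p) (X (θ τ p))) τ :=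
    fun p τ => ((hf.differentiable (by simp)) _).hasFDerivAt.comp_hasDerivAt τ (hd p τ)
  have hge : ∀ p, ε ≤ f p → ∀ τ, 0 ≤ τ → ε ≤ f (θ τ p) := by
    intro p hp τ hτ
    have h1 := image_le_of_deriv_right_lt_deriv_boundary (f := fun τ => -f (θ τ p))
      (f' := fun τ => -fderiv ℝ f (θ τ p) (X (θ τ p))) (a := 0) (b := τ) (B := fun _ => -ε)
      (B' := fun _ => 0) (fun t _ => (hfd p t).neg.continuousAt.continuousWithinAt)
      (fun t _ => (hfd p t).neg.hasDerivWithinAt) (by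
        simp only [h0]
        linarith) (fun t => hasDerivAt_const t _) (fun t _ ht => by
        have h2 : f (θ t p) = ε := by linarith [ht]
        rw [hXV _ h2.ge, hV _ (by rw [h2]; exact hε)]
        norm_num) ⟨hτ, le_rfl⟩
    have h2 : -f (θ τ p) ≤ -ε := h1
    linarith
  refine ⟨θ, h0, hs, ?_, ?_, ?_⟩
  · intro p hp τ hτ
    have h1 : ∀ t ∈ Icc (0 : ℝ) τ, HasDerivWithinAt (fun τ => f (θ τ p) - τ) 0 (Icc 0 τ) t := by
      intro t ht
      have h2 := ((hfd p t).sub (hasDerivAt_id t)).hasDerivWithinAt (s := Icc 0 τ)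
      refine h2.congr_deriv ?_
      rw [hXV _ (hge p hp t ht.1), hV _ (lt_of_lt_of_le hε (hge p hp t ht.1)), sub_self]
    have h3 := (convex_Icc (0 : ℝ) τ).norm_image_sub_le_of_norm_hasDerivWithin_le
      (f := fun τ => f (θ τ p) - τ) (f' := fun _ => 0) (C := 0) h1
      (fun t _ => by simp) (left_mem_Icc.2 hτ) (right_mem_Icc.2 hτ)
    rw [zero_mul, norm_le_zero_iff, sub_eq_zero] at h3
    simp only [h0] at h3
    linarith
  · intro p hp τ hτ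
    rw [← hXV _ (hge p hp τ hτ)]
    exact hd p τ
  · intro c hc s hs
    refine hu c (fun t ht => ?_) s hs
    rw [hXV _ (hc t ht).1]
    exact (hc t ht).2

/-! ### The phase -/

theorem phase_smul (z : ℂ) : z / (‖z‖ : ℂ) = ‖z‖⁻¹ • z := by
  rw [Complex.real_smul, Complex.ofReal_inv, mul_comm, div_eq_mul_inv]

theorem phase_norm {z : ℂ} (h : z ≠ 0) : ‖z / (‖z‖ : ℂ)‖ = 1 := by
  rw [norm_div, Complex.norm_real, norm_norm, div_self (norm_ne_zero_iff.2 h)]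

theorem phase_mul {a : ℂ} (ha : ‖a‖ = 1) (z : ℂ) :
    a * z / (‖a * z‖ : ℂ) = a * (z / (‖z‖ : ℂ)) := by
  rw [norm_mul, ha, one_mul, mul_div_assoc]

theorem phase_pos {r : ℝ} (hr : 0 < r) (z : ℂ) (hz : z ≠ 0) :
    ((r : ℂ) * (z / (‖z‖ : ℂ))) / (‖(r : ℂ) * (z / (‖z‖ : ℂ))‖ : ℂ) = z / (‖z‖ : ℂ) := by
  rw [norm_mul, phase_norm hz, mul_one, Complex.norm_real, Real.norm_eq_abs, abs_of_pos hr]
  exact mul_div_cancel_left₀ _ (Complex.ofReal_ne_zero.2 hr.ne')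

theorem phase_contDiffAt {z : ℂ} (h : z ≠ 0) : ContDiffAt ℝ ∞ (fun z : ℂ => z / (‖z‖ : ℂ)) z := by
  have h1 : (fun z : ℂ => z / (‖z‖ : ℂ)) = fun z : ℂ => ‖z‖⁻¹ • z := funext phase_smul
  rw [h1]
  exact ((contDiffAt_norm ℝ h).inv (norm_ne_zero_iff.2 h)).smul contDiffAt_id

/-! ### The radial flow lines -/

/-- the radial curve through `p` -/
noncomputable def ray {n : ℕ} (p : Phase (n + 1)) (τ : ℝ) : Phase (n + 1) :=
  mkZ ((Real.sqrt (‖zz p‖ ^ 2 + 2 * τ) : ℂ) * (zz p / (‖zz p‖ : ℂ))) (wW n p)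

theorem zz_ray {n : ℕ} (p : Phase (n + 1)) (τ : ℝ) :
    zz (ray p τ) = (Real.sqrt (‖zz p‖ ^ 2 + 2 * τ) : ℂ) * (zz p / (‖zz p‖ : ℂ)) := by
  rw [ray, zz_mkZ]

theorem ray_zero {n : ℕ} (p : Phase (n + 1)) (hz : zz p ≠ 0) : ray p 0 = p := by
  refine ext_zw ?_ ?_
  · rw [zz_ray, mul_zero, add_zero, Real.sqrt_sq (norm_nonneg _)]
    exact mul_div_cancel₀ _ (Complex.ofReal_ne_zero.2 (norm_ne_zero_iff.2 hz))
  · rw [ray, wW_mkZ]

theorem norm_zz_ray {n : ℕ} (p : Phase (n + 1)) (hz : zz p ≠ 0) {τ : ℝ} (hτ : 0 ≤ τ) :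
    ‖zz (ray p τ)‖ ^ 2 = ‖zz p‖ ^ 2 + 2 * τ := by
  rw [zz_ray, norm_mul, phase_norm hz, mul_one, Complex.norm_real, Real.norm_eq_abs, sq_abs,
    Real.sq_sqrt (by positivity)]

theorem norm_ray {n : ℕ} (p : Phase (n + 1)) (hz : zz p ≠ 0) {τ : ℝ} (hτ : 0 ≤ τ) :
    ‖p‖ ≤ ‖ray p τ‖ := by
  have h1 := norm_sq_zw (ray p τ)
  have h2 := norm_sq_zw p
  have h3 : wW n (ray p τ) = wW n p := by rw [ray, wW_mkZ]
  rw [norm_zz_ray p hz hτ, h3] at h1
  exact (sq_le_sq₀ (norm_nonneg _) (norm_nonneg _)).1 (by linarith)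

theorem hasDerivAt_ray {n : ℕ} (p : Phase (n + 1)) (hz : zz p ≠ 0) {τ : ℝ} (hτ : 0 ≤ τ) :
    HasDerivAt (ray p) (mkZ (zz (ray p τ) / ((‖zz (ray p τ)‖ ^ 2 : ℝ) : ℂ)) 0) τ := by
  have hpos : 0 < ‖zz p‖ ^ 2 + 2 * τ := by
    have := norm_pos_iff.2 hz
    positivity
  have h1 : HasDerivAt (fun τ : ℝ => ‖zz p‖ ^ 2 + 2 * τ) 2 τ := by
    simpa using ((hasDerivAt_id τ).const_mul 2).const_add (‖zz p‖ ^ 2)
  have h2 : HasDerivAt (fun τ : ℝ => Real.sqrt (‖zz p‖ ^ 2 + 2 * τ))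
      (1 / Real.sqrt (‖zz p‖ ^ 2 + 2 * τ)) τ := by
    refine (h1.sqrt hpos.ne').congr_deriv ?_
    field_simp
  have h3 := ((Complex.ofRealCLM.hasFDerivAt.comp_hasDerivAt τ h2).mul_const
    (zz p / (‖zz p‖ : ℂ))).prodMk (hasDerivAt_const τ (wW n p))
  have h4 := (zwE n).symm.hasFDerivAt.comp_hasDerivAt τ h3
  refine h4.congr_deriv ?_
  change mkZ _ _ = _
  rw [norm_zz_ray p hz hτ, zz_ray]
  congr 1
  have h5 : (Real.sqrt (‖zz p‖ ^ 2 + 2 * τ) : ℂ) ≠ 0 :=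
    Complex.ofReal_ne_zero.2 (Real.sqrt_pos.2 hpos).ne'
  have h6 : ((‖zz p‖ ^ 2 + 2 * τ : ℝ) : ℂ) =
      (Real.sqrt (‖zz p‖ ^ 2 + 2 * τ) : ℂ) * (Real.sqrt (‖zz p‖ ^ 2 + 2 * τ) : ℂ) := by
    rw [← Complex.ofReal_mul, Real.mul_self_sqrt hpos.le]
  rw [h6]
  change ((1 / Real.sqrt (‖zz p‖ ^ 2 + 2 * τ) : ℝ) : ℂ) * _ = _
  rw [Complex.ofReal_div, Complex.ofReal_one, mul_div_mul_left _ _ h5]
  ring

end UFN

open UFN in
/-- **UFN** -/
theorem thm_UFN (hVEC : St_VEC) : St_UFN := by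
  intro n R f Φ hC hF
  obtain ⟨V, hV1, hV2, hV3, hV4⟩ := hVEC n R f Φ hC hF
  have hfl : ∀ ε : ℝ, 0 < ε → ∃ θ : ℝ → Phase (n + 1) → Phase (n + 1), (∀ x, θ 0 x = x) ∧
      (∀ τ, ContDiff ℝ ∞ (θ τ)) ∧ (∀ p, ε ≤ f p → ∀ τ, 0 ≤ τ → f (θ τ p) = f p + τ) ∧
      (∀ p, ε ≤ f p → ∀ τ, 0 ≤ τ → HasDerivAt (fun τ => θ τ p) (V (θ τ p)) τ) ∧
      ∀ c : ℝ → Phase (n + 1), (∀ s, 0 ≤ s → ε ≤ f (c s) ∧ HasDerivAt c (V (c s)) s) →
        ∀ s, 0 ≤ s → c s = θ s (c 0) := by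
    intro ε hε
    obtain ⟨X, hX, ⟨l, hl⟩, hXV⟩ := hV1 ε hε
    exact forward f hC.smooth V hV2 ε hε X hX l hl hXV
  choose! θ h0 hs hf hd hu using hfl
  -- outside the ball
  have hout : ∀ q : Phase (n + 1), R < ‖q‖ → 0 < f q → zz q ≠ 0 := by
    intro q hq h1 h2
    rw [hC.std q hq, mu_eq, h2] at h1
    simp at h1
  obtain ⟨L, hL0, hL⟩ : ∃ L : ℝ, 0 < L ∧ ∀ q : Phase (n + 1), L < f q → R < ‖q‖ := by
    obtain ⟨C, hC'⟩ := (isCompact_closedBall (0 : Phase (n + 1)) R).exists_bound_of_continuousOn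
      (f := f) hC.smooth.continuous.continuousOn
    refine ⟨|C| + 1, by positivity, fun q hq => ?_⟩
    by_contra hcon
    have h1 := hC' q (by rw [mem_closedBall_zero_iff]; exact not_lt.1 hcon)
    have h2 := le_abs_self (f q)
    have h3 := le_abs_self C
    rw [Real.norm_eq_abs] at h1
    linarith
  -- independence of the cut-off
  have hind : ∀ ε p, 0 < ε → ε ≤ f p → ∀ τ, 0 ≤ τ → θ (f p) τ p = θ ε τ p := by
    intro ε p hε hp τ hτ
    have hfp : 0 < f p := lt_of_lt_of_le hε hp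
    have h1 := hu ε hε (fun τ => θ (f p) τ p) (fun s hs => ⟨by
      rw [hf (f p) hfp p le_rfl s hs]
      linarith, hd (f p) hfp p le_rfl s hs⟩) τ hτ
    simp only [h0 (f p) hfp] at h1
    exact h1
  have hLf : ∀ p, 0 < f p → L < f (θ (f p) L p) := by
    intro p hp
    rw [hf (f p) hp p le_rfl L hL0.le]
    linarith
  have hzL : ∀ p, 0 < f p → zz (θ (f p) L p) ≠ 0 := fun p hp =>
    hout _ (hL _ (hLf p hp)) (hL0.trans (hLf p hp))
  refine ⟨R, fun p => zz (θ (f p) L p) / (‖zz (θ (f p) L p)‖ : ℂ), ?_, ?_, ?_, ?_⟩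
  · intro p hp
    have hp' : 0 < f p := hp
    have hε : 0 < f p / 2 := by linarith
    have h1 : ContDiffAt ℝ ∞ (fun q => zz (θ (f p / 2) L q) / (‖zz (θ (f p / 2) L q)‖ : ℂ)) p := by
      have h2 : zz (θ (f p / 2) L p) ≠ 0 := by
        rw [← hind (f p / 2) p hε (by linarith) L hL0.le]
        exact hzL p hp'
      exact (phase_contDiffAt h2).comp p
        (contDiff_zz.contDiffAt.comp p (hs (f p / 2) hε L).contDiffAt)
    refine (h1.congr_of_eventuallyEq ?_).contDiffWithinAt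
    have h3 : {q | f p / 2 < f q} ∈ 𝓝 p :=
      (isOpen_lt continuous_const hC.smooth.continuous).mem_nhds (by
        change f p / 2 < f p
        linarith)
    filter_upwards [h3] with q hq
    have hq' : f p / 2 < f q := hq
    rw [hind (f p / 2) q hε hq'.le L hL0.le]
  · intro p hp
    exact phase_norm (hzL p hp)
  · intro s p hp
    have h1 : f (Φ s p) = f p := hF.cons s p
    have h2 : Φ s (θ (f p) L p) = θ (f p) L (Φ s p) := by
      have h3 := hu (f p) hp (fun τ => Φ s (θ (f p) τ p)) (fun τ hτ => ⟨by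
        rw [hF.cons, hf (f p) hp p le_rfl τ hτ]
        linarith, by
        have h4 : 0 < f (θ (f p) τ p) := by
          rw [hf (f p) hp p le_rfl τ hτ]
          linarith
        rw [← hV3 s _ h4]
        exact (hF.cf.differentiable s _).hasFDerivAt.comp_hasDerivAt τ
          (hd (f p) hp p le_rfl τ hτ)⟩) L hL0.le
      simp only [h0 (f p) hp] at h3
      exact h3
    rw [h1, ← h2, hF.std s _ (hL _ (hLf p hp)), zz_rot]
    exact phase_mul (Complex.norm_exp_ofReal_mul_I s) _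
  · intro p hp hfp
    have hz := hout p hp hfp
    have h1 := hu (f p) hfp (ray p) (fun τ hτ => by
      have h2 : R < ‖ray p τ‖ := lt_of_lt_of_le hp (norm_ray p hz hτ)
      have h3 : f p ≤ f (ray p τ) := by
        rw [hC.std _ h2, hC.std p hp, mu_eq, mu_eq, norm_zz_ray p hz hτ]
        linarith
      refine ⟨h3, ?_⟩
      rw [hV4 _ h2 (lt_of_lt_of_le hfp h3)]
      exact hasDerivAt_ray p hz hτ) L hL0.le
    rw [ray_zero p hz] at h1
    rw [← h1, zz_ray]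
    refine phase_pos (Real.sqrt_pos.2 ?_) _ hz
    positivity

end Pool.Agent.CRC
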