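import Pool.Agent.CRC.St

/-!
# CRC, module UNI: a symplectomorphism is determined by its first complex coordinate
-/

set_option autoImplicit false

open scoped ContDiff Topology
open Set Function TopologicalSpace

namespace Pool.Agent.CRC

open Pool.Agent.Helper17 Pool.Agent.Helper42 Pool.Agent.H50.Susp

namespace UNI

variable {n : ℕ}

lemma omega_eX (v : Phase (n + 1)) : omegaStd (eX 0) v = v (Sum.inr 0) := by
  simp [omegaStd, eX]

lemma step (χ : Equiv.Perm (Phase (n + 1))) (h : IsSympCt χ) (hz : ∀ p, zz (χ p) = zz p)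
    (p : Phase (n + 1)) : χ p = p := by
  obtain ⟨hs, -, hω, K, hK, hKχ⟩ := h
  have hd : ∀ p, HasFDerivAt χ (fderiv ℝ χ p) p := fun p =>
    (hs.differentiable (by simp) p).hasFDerivAt
  have hDy : ∀ p v, (fderiv ℝ χ p v) (Sum.inr 0) = v (Sum.inr 0) := by
    intro p v
    have h1 : HasFDerivAt (fun p => coordL (Sum.inr 0) (χ p))
        ((coordL (Sum.inr 0)).comp (fderiv ℝ χ p)) p :=
      (coordL (Sum.inr 0)).hasFDerivAt.comp p (hd p)
    have h2 : (fun p => coordL (Sum.inr 0) (χ p)) = fun p => coordL (Sum.inr 0) p := by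
      funext q
      exact congrArg Complex.im (hz q)
    rw [h2] at h1
    have h3 := h1.unique ((coordL (Sum.inr 0) : Phase (n + 1) →L[ℝ] ℝ).hasFDerivAt)
    exact congrArg (fun L : Phase (n + 1) →L[ℝ] ℝ => L v) h3
  have hsurj : ∀ p, Surjective (fderiv ℝ χ p) := by
    intro p
    have hinj : Injective (fderiv ℝ χ p : Phase (n + 1) →ₗ[ℝ] Phase (n + 1)) := by
      rw [injective_iff_map_eq_zero]
      intro v hv
      apply eq_zero_of_omegaStd
      intro w
      have hv' : fderiv ℝ χ p v = 0 := hv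
      rw [← hω p v w, hv']
      simp [omegaStd]
    exact LinearMap.surjective_of_injective hinj
  have hX : ∀ p, fderiv ℝ χ p (eX 0) = eX 0 := by
    intro p
    rw [← sub_eq_zero]
    apply eq_zero_of_omegaStd
    intro w
    obtain ⟨v, rfl⟩ := hsurj p w
    rw [omegaStd_sub_left, hω, omega_eX, omega_eX, hDy, sub_self]
  have hcurve : ∀ a : ℝ, HasDerivAt (fun a : ℝ => χ (p + a • eX 0) - a • eX 0) 0 a := by
    intro a
    have h1 : HasDerivAt (fun a : ℝ => a • (eX 0 : Phase (n + 1))) (eX 0) a := by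
      have h2 := (hasDerivAt_id a).smul_const (eX 0 : Phase (n + 1))
      rw [one_smul] at h2
      exact h2
    have h2 : HasDerivAt (fun a : ℝ => p + a • (eX 0 : Phase (n + 1))) (eX 0) a := h1.const_add p
    have h3 := (hd (p + a • eX 0)).comp_hasDerivAt a h2
    have h4 := h3.sub h1
    rw [hX, sub_self] at h4
    exact h4
  have hconst : ∀ a : ℝ, χ (p + a • eX 0) - a • eX 0 = χ p := by
    intro a
    have h1 := is_const_of_deriv_eq_zero (fun a => (hcurve a).differentiableAt)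
      (fun a => (hcurve a).deriv) a 0
    simp only [zero_smul, add_zero, sub_zero] at h1
    exact h1
  obtain ⟨B, hB⟩ := hK.isBounded.exists_norm_le
  have hnorm : ‖(eX 0 : Phase (n + 1))‖ = 1 := by simp [eX]
  have hout : p + (|B| + ‖p‖ + 1) • eX 0 ∉ K := by
    intro hmem
    have h1 := hB _ hmem
    have h2 : ‖(|B| + ‖p‖ + 1) • (eX 0 : Phase (n + 1))‖ = |B| + ‖p‖ + 1 := by
      rw [norm_smul, hnorm, mul_one, Real.norm_eq_abs, abs_of_nonneg (by positivity)]
    have h3 : ‖(|B| + ‖p‖ + 1) • (eX 0 : Phase (n + 1))‖ ≤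
        ‖p + (|B| + ‖p‖ + 1) • (eX 0 : Phase (n + 1))‖ + ‖p‖ := by
      have h4 := norm_sub_le (p + (|B| + ‖p‖ + 1) • (eX 0 : Phase (n + 1))) p
      rwa [add_sub_cancel_left] at h4
    have h5 := le_abs_self B
    linarith
  rw [← hconst (|B| + ‖p‖ + 1), hKχ _ hout, add_sub_cancel_right]

end UNI

theorem thm_UNI : St_UNI := by
  intro n φ ψ h
  have h1 : IsSympCt ((φ : Equiv.Perm (Phase (n + 1))) * (ψ : Equiv.Perm (Phase (n + 1)))⁻¹) :=
    IsSympCt.mul φ.2 (IsSympCt.inv ψ.2)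
  have h2 := UNI.step _ h1 (fun p => by
    show zz ((φ : Equiv.Perm (Phase (n + 1))) ((ψ : Equiv.Perm (Phase (n + 1)))⁻¹ p)) = zz p
    rw [h]
    congr 1
    exact Equiv.apply_symm_apply _ p)
  apply Subtype.ext
  apply Equiv.ext
  intro p
  have h3 := h2 ((ψ : Equiv.Perm (Phase (n + 1))) p)
  have h4 : ((φ : Equiv.Perm (Phase (n + 1))) * (ψ : Equiv.Perm (Phase (n + 1)))⁻¹)
      ((ψ : Equiv.Perm (Phase (n + 1))) p) = (φ : Equiv.Perm (Phase (n + 1))) p := by
    show (φ : Equiv.Perm (Phase (n + 1))) ((ψ : Equiv.Perm (Phase (n + 1)))⁻¹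
      ((ψ : Equiv.Perm (Phase (n + 1))) p)) = _
    congr 1
    exact Equiv.symm_apply_apply _ p
  rw [← h4, h3]

end Pool.Agent.CRC
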