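import Pool.Agent.CRC.St
import Pool.Agent.CRC.Basic

/-!
# CRC, module VEC: the invariant vector field `V` with `D f (V) = 1`
-/

set_option autoImplicit false

open scoped ContDiff Topology NNReal
open Set Function TopologicalSpace MeasureTheory

namespace Pool.Agent.CRC

open Pool.Agent.Helper17 Pool.Agent.Helper42 Pool.Agent.H50.Susp

namespace VEC

/-! ### the normalised gradient -/

section grad

variable {N : ℕ}

/-- the square of the length of the gradient -/
noncomputable def N2 (f : Phase N → ℝ) (p : Phase N) : ℝ :=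
  ∑ k, (fderiv ℝ f p (EuclideanSpace.single k 1)) ^ 2

/-- the gradient -/
noncomputable def gr (f : Phase N → ℝ) (p : Phase N) : Phase N :=
  ∑ k, (fderiv ℝ f p (EuclideanSpace.single k 1)) • EuclideanSpace.single k (1 : ℝ)

/-- the normalised gradient -/
noncomputable def G (f : Phase N → ℝ) (p : Phase N) : Phase N := (N2 f p)⁻¹ • gr f p

theorem fderiv_gr (f : Phase N → ℝ) (p : Phase N) : fderiv ℝ f p (gr f p) = N2 f p := by
  rw [gr, map_sum, N2]
  refine Finset.sum_congr rfl fun k _ => ?_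
  rw [map_smul, smul_eq_mul, pow_two]

theorem N2_ne {f : Phase N → ℝ} {p : Phase N} (h : fderiv ℝ f p ≠ 0) : N2 f p ≠ 0 := by
  intro h0
  apply h
  rw [N2, Finset.sum_eq_zero_iff_of_nonneg (fun k _ => sq_nonneg _)] at h0
  refine ContinuousLinearMap.ext fun v => ?_
  have h1 : v = ∑ k, v k • EuclideanSpace.single k (1 : ℝ) := by
    have h2 := (EuclideanSpace.basisFun (Fin N ⊕ Fin N) ℝ).sum_repr v
    simpa using h2.symm
  rw [h1, map_sum, zero_apply]
  refine Finset.sum_eq_zero fun k hk => ?_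
  rw [map_smul, pow_eq_zero_iff (two_ne_zero) |>.1 (h0 k hk), smul_zero]

theorem fderiv_G {f : Phase N → ℝ} {p : Phase N} (h : fderiv ℝ f p ≠ 0) :
    fderiv ℝ f p (G f p) = 1 := by
  rw [G, map_smul, fderiv_gr, smul_eq_mul, inv_mul_cancel₀ (N2_ne h)]

theorem contDiff_comp {f : Phase N → ℝ} (hf : ContDiff ℝ ∞ f) (v : Phase N) :
    ContDiff ℝ ∞ (fun p => fderiv ℝ f p v) :=
  (hf.fderiv_right (by simp)).clm_apply contDiff_const

theorem contDiff_N2 {f : Phase N → ℝ} (hf : ContDiff ℝ ∞ f) : ContDiff ℝ ∞ (N2 f) :=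
  ContDiff.sum fun _ _ => (contDiff_comp hf _).pow 2

theorem contDiff_gr {f : Phase N → ℝ} (hf : ContDiff ℝ ∞ f) : ContDiff ℝ ∞ (gr f) :=
  ContDiff.sum fun _ _ => (contDiff_comp hf _).smul contDiff_const

/-- the cut-off function -/
noncomputable def cut (x : ℝ) : ℝ := Real.smoothTransition (2 * x - 1)

theorem contDiff_cut : ContDiff ℝ ∞ cut :=
  Real.smoothTransition.contDiff.comp ((contDiff_const.mul contDiff_id).sub contDiff_const)

theorem cut_zero {x : ℝ} (h : x ≤ 1 / 2) : cut x = 0 :=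
  Real.smoothTransition.zero_of_nonpos (by linarith)

theorem cut_one {x : ℝ} (h : 1 ≤ x) : cut x = 1 :=
  Real.smoothTransition.one_of_one_le (by linarith)

/-- the normalised gradient with a cut-off -/
noncomputable def Ge (f : Phase N → ℝ) (ε : ℝ) (p : Phase N) : Phase N := cut (f p / ε) • G f p

theorem contDiff_Ge {f : Phase N → ℝ} (hf : ContDiff ℝ ∞ f) {ε : ℝ} (hε : 0 < ε)
    (h : ∀ p, 0 < f p → fderiv ℝ f p ≠ 0) : ContDiff ℝ ∞ (Ge f ε) := by
  rw [contDiff_iff_contDiffAt]
  intro p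
  by_cases hp : 0 < f p
  · have h1 : ContDiffAt ℝ ∞ (fun p => (N2 f p)⁻¹) p :=
      (contDiff_N2 hf).contDiffAt.inv (N2_ne (h p hp))
    have h2 : ContDiffAt ℝ ∞ (G f) p := h1.smul (contDiff_gr hf).contDiffAt
    have h3 : ContDiffAt ℝ ∞ (fun p => cut (f p / ε)) p :=
      (contDiff_cut.comp (hf.div_const ε)).contDiffAt
    exact h3.smul h2
  · have h1 : Ge f ε =ᶠ[𝓝 p] fun _ => 0 := by
      have h2 : ∀ᶠ q in 𝓝 p, f q < ε / 2 := by
        refine hf.continuous.continuousAt.eventually (gt_mem_nhds ?_)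
        push Not at hp
        linarith [half_pos hε]
      filter_upwards [h2] with q hq
      rw [Ge, cut_zero, zero_smul]
      rw [div_le_iff₀ hε]
      linarith
    exact contDiffAt_const.congr_of_eventuallyEq h1

end grad

/-! ### averages -/

section avg

variable {n : ℕ}

/-- the integrand -/
noncomputable def W (Φ : ℝ → Phase (n + 1) → Phase (n + 1)) (g : Phase (n + 1) → Phase (n + 1))
    (s : ℝ) (p : Phase (n + 1)) : Phase (n + 1) := fderiv ℝ (Φ (-s)) (Φ s p) (g (Φ s p))

/-- the average of a vector field -/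
noncomputable def A (Φ : ℝ → Phase (n + 1) → Phase (n + 1)) (g : Phase (n + 1) → Phase (n + 1))
    (p : Phase (n + 1)) : Phase (n + 1) :=
  (2 * Real.pi)⁻¹ • ∫ s in (0 : ℝ)..(2 * Real.pi), W Φ g s p

theorem CF_W {Φ : ℝ → Phase (n + 1) → Phase (n + 1)} (hΦ : CF Φ)
    {g : Phase (n + 1) → Phase (n + 1)} (hg : ContDiff ℝ ∞ g) : CF (W Φ g) := by
  have h1 : CF (fun (s : ℝ) p => Φ (-s) p) := CF.base (h := fun s : ℝ => -s) continuous_neg hΦ
  have h2 : CF (fun (s : ℝ) p => fderiv ℝ (Φ (-s)) (Φ s p)) := CF.comp (CF.fderiv h1) hΦ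
  have h3 : CF (fun (s : ℝ) p => g (Φ s p)) := CF.comp_smooth (fun _ _ => hg.contDiffAt) hΦ
  exact CF.clm_apply h2 h3

theorem contDiff_A {Φ : ℝ → Phase (n + 1) → Phase (n + 1)} (hΦ : CF Φ)
    {g : Phase (n + 1) → Phase (n + 1)} (hg : ContDiff ℝ ∞ g) : ContDiff ℝ ∞ (A Φ g) := by
  have h1 : CF (fun (q : Unit × ℝ) x => W Φ g q.2 x) := CF.base continuous_snd (CF_W hΦ hg)
  have h2 := CF.setIntegral (S := Icc 0 (2 * Real.pi)) isCompact_Icc
    (volume.restrict (Icc 0 (2 * Real.pi))) h1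
  have h3 := h2.contDiff ()
  have h4 : A Φ g = fun p => (2 * Real.pi)⁻¹ •
      ∫ s in Icc 0 (2 * Real.pi), W Φ g s p ∂(volume.restrict (Icc 0 (2 * Real.pi))) := by
    funext p
    rw [A, Measure.restrict_restrict measurableSet_Icc, inter_self,
      integral_Icc_eq_integral_Ioc, intervalIntegral.integral_of_le (by positivity)]
  rw [h4]
  exact h3.const_smul (2 * Real.pi)⁻¹

theorem continuous_W {Φ : ℝ → Phase (n + 1) → Phase (n + 1)} (hΦ : CF Φ)
    {g : Phase (n + 1) → Phase (n + 1)} (hg : ContDiff ℝ ∞ g) (p : Phase (n + 1)) :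
    Continuous (fun s => W Φ g s p) :=
  (CF_W hΦ hg).continuous.comp (continuous_id.prodMk continuous_const)

end avg

/-! ### the model at infinity -/

section model

/-- the radial field -/
noncomputable def rd (z : ℂ) : ℂ := z / ((‖z‖ ^ 2 : ℝ) : ℂ)

/-- the radial field with a cut-off -/
noncomputable def hr (ε : ℝ) (z : ℂ) : ℂ := cut (‖z‖ ^ 2 / 2 / ε) • rd z

theorem rd_eq (z : ℂ) : rd z = (starRingEnd ℂ z)⁻¹ := by
  by_cases h : z = 0
  · subst h
    simp [rd]
  · have h1 : (((‖z‖ ^ 2 : ℝ) : ℂ)) = starRingEnd ℂ z * z := by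
      rw [← Complex.normSq_eq_norm_sq, Complex.normSq_eq_conj_mul_self]
    rw [rd, h1]
    have h2 : starRingEnd ℂ z ≠ 0 := by
      rw [Ne, map_eq_zero]
      exact h
    field_simp

theorem contDiff_hr {ε : ℝ} (hε : 0 < ε) : ContDiff ℝ ∞ (hr ε) := by
  rw [contDiff_iff_contDiffAt]
  intro z
  by_cases hz : z = 0
  · have h1 : hr ε =ᶠ[𝓝 z] fun _ => 0 := by
      have h2 : ∀ᶠ w in 𝓝 z, ‖w‖ ^ 2 < ε := by
        have h3 : Continuous fun w : ℂ => ‖w‖ ^ 2 := continuous_norm.pow 2
        refine h3.continuousAt.eventually (gt_mem_nhds ?_)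
        show ‖z‖ ^ 2 < ε
        rw [hz, norm_zero]
        simpa using hε
      filter_upwards [h2] with w hw
      rw [hr, cut_zero, zero_smul]
      rw [div_le_iff₀ hε]
      linarith
    exact contDiffAt_const.congr_of_eventuallyEq h1
  · have h1 : ContDiffAt ℝ ∞ (fun w : ℂ => ‖w‖ ^ 2) z := (contDiff_norm_sq ℝ).contDiffAt
    have h2 : ContDiffAt ℝ ∞ (fun w : ℂ => cut (‖w‖ ^ 2 / 2 / ε)) z :=
      contDiff_cut.contDiffAt.comp z ((h1.div_const 2).div_const ε)
    have h3 : ContDiffAt ℝ ∞ rd z := by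
      have h4 : rd = fun w : ℂ => (‖w‖ ^ 2)⁻¹ • w := by
        funext w
        rw [rd, Complex.real_smul, Complex.ofReal_inv, div_eq_mul_inv, mul_comm]
      rw [h4]
      refine (h1.inv ?_).smul contDiffAt_id
      have := norm_pos_iff.2 hz
      positivity
    exact h2.smul h3

theorem bound_hr {ε : ℝ} (hε : 0 < ε) : ∃ C : ℝ, ∀ z, ‖fderiv ℝ (hr ε) z‖ ≤ C := by
  have hc : Continuous (fderiv ℝ (hr ε)) :=
    (contDiff_hr hε).continuous_fderiv (by simp)
  have hK : IsCompact (Metric.closedBall (0 : ℂ) (Real.sqrt (2 * ε))) := isCompact_closedBall _ _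
  obtain ⟨C, hC⟩ := hK.exists_bound_of_continuousOn hc.continuousOn
  have hb : 0 ≤ (2 * ε)⁻¹ := by positivity
  refine ⟨max C (2 * ε)⁻¹, fun z => ?_⟩
  by_cases hz : ‖z‖ ≤ Real.sqrt (2 * ε)
  · exact (hC z (by simpa using hz)).trans (le_max_left _ _)
  · push Not at hz
    refine le_trans ?_ (le_max_right _ _)
    refine norm_fderiv_le_of_lip' ℝ hb ?_
    have h1 : ∀ᶠ w in 𝓝 z, Real.sqrt (2 * ε) < ‖w‖ :=
      continuous_norm.continuousAt.eventually (lt_mem_nhds hz)
    have h2 : ∀ w : ℂ, Real.sqrt (2 * ε) < ‖w‖ → hr ε w = (starRingEnd ℂ w)⁻¹ := by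
      intro w hw
      have h3 : 2 * ε < ‖w‖ ^ 2 := (Real.sqrt_lt (by positivity) (norm_nonneg w)).1 hw
      rw [hr, cut_one, one_smul, rd_eq]
      rw [le_div_iff₀ hε]
      linarith
    filter_upwards [h1] with w hw
    rw [h2 w hw, h2 z hz]
    have hs : 0 < Real.sqrt (2 * ε) := Real.sqrt_pos.2 (by positivity)
    have hw0 : 0 < ‖w‖ := hs.trans hw
    have hz0 : 0 < ‖z‖ := hs.trans hz
    have hw1 : starRingEnd ℂ w ≠ 0 := by
      rw [Ne, map_eq_zero]
      exact norm_pos_iff.1 hw0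
    have hz1 : starRingEnd ℂ z ≠ 0 := by
      rw [Ne, map_eq_zero]
      exact norm_pos_iff.1 hz0
    rw [inv_sub_inv hw1 hz1, ← map_sub, norm_div, norm_mul, RCLike.norm_conj, RCLike.norm_conj,
      RCLike.norm_conj, norm_sub_rev, div_eq_inv_mul]
    refine mul_le_mul_of_nonneg_right ?_ (norm_nonneg _)
    refine inv_anti₀ (by positivity) ?_
    have h4 := mul_le_mul hw.le hz.le hs.le hw0.le
    rwa [Real.mul_self_sqrt (by positivity)] at h4

end model

end VEC

open VEC in
/-- **VEC** -/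
theorem thm_VEC (hACT : St_ACT) : St_VEC := by
  intro n R f Φ hC hF
  obtain ⟨hf0, hf1, hf2⟩ := hACT n R f Φ hC hF
  have hne : ∀ p, 0 < f p → fderiv ℝ f p ≠ 0 := fun p hp h => hp.ne' ((hf1 p).2 h)
  have hinv : ∀ s p, Φ (-s) (Φ s p) = p := fun s p => by
    rw [← hF.add, neg_add_cancel, hF.zero]
  have hinv' : ∀ s p, Φ s (Φ (-s) p) = p := fun s p => by
    rw [← hF.add, add_neg_cancel, hF.zero]
  have hdiff : ∀ s, Differentiable ℝ (Φ s) := fun s => hF.cf.differentiable s
  have hper : ∀ s, Φ (s + 2 * Real.pi) = Φ s := fun s => funext fun p => hF.per s p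
  have hfd : Differentiable ℝ f := hC.smooth.differentiable (by simp)
  -- the cut-off commutes with the average
  have hWe : ∀ ε s p, W Φ (Ge f ε) s p = cut (f p / ε) • W Φ (G f) s p := by
    intro ε s p
    rw [W, W, Ge, hF.cons, map_smul]
  have hAe : ∀ ε p, A Φ (Ge f ε) p = cut (f p / ε) • A Φ (G f) p := by
    intro ε p
    rw [A, A]
    simp only [hWe]
    rw [intervalIntegral.integral_smul, smul_comm]
  -- continuity of the integrand
  have hcont : ∀ p, 0 < f p → Continuous (fun s => W Φ (G f) s p) := by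
    intro p hp
    have h1 := continuous_W hF.cf (contDiff_Ge hC.smooth hp hne) p
    simp only [hWe] at h1
    rw [div_self hp.ne', cut_one le_rfl] at h1
    simpa only [one_smul] using h1
  have hint : ∀ p, 0 < f p →
      IntervalIntegrable (fun s => W Φ (G f) s p) volume 0 (2 * Real.pi) :=
    fun p hp => (hcont p hp).intervalIntegrable _ _
  -- outside the ball
  have hout : ∀ s p, R < ‖p‖ → R < ‖Φ s p‖ := by
    intro s p hp
    rw [hF.std s p hp, norm_rot]
    exact hp
  have hGout : ∀ q, R < ‖q‖ → G f q = mkZ (rd (zz q)) 0 := by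
    intro q hq
    have h1 : f =ᶠ[𝓝 q] mu := by
      filter_upwards [(isOpen_outside R).mem_nhds hq] with x hx
      exact hC.std x hx
    have h2 : ∀ k, fderiv ℝ f q (EuclideanSpace.single k 1) =
        q (Sum.inl 0) * (EuclideanSpace.single k (1 : ℝ) : Phase (n + 1)) (Sum.inl 0) +
        q (Sum.inr 0) * (EuclideanSpace.single k (1 : ℝ) : Phase (n + 1)) (Sum.inr 0) := by
      intro k
      rw [h1.fderiv_eq, fderiv_mu]
    have h3 : gr f q = mkZ (zz q) 0 := by
      rw [gr]
      simp only [h2, Fintype.sum_sum_type, Fin.sum_univ_succ]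
      simp [mkZ, eX, eY]
    have h4 : N2 f q = ‖zz q‖ ^ 2 := by
      rw [N2]
      simp only [h2, Fintype.sum_sum_type, Fin.sum_univ_succ]
      rw [← Complex.normSq_eq_norm_sq, Complex.normSq_apply]
      simp
      ring
    rw [G, h3, h4]
    have h5 := mkZ_smul (n := n) ((‖zz q‖ ^ 2)⁻¹) (zz q) 0
    rw [smul_zero] at h5
    rw [← h5, rd, Complex.real_smul, Complex.ofReal_inv, div_eq_mul_inv, mul_comm]
  have hWout : ∀ s p, R < ‖p‖ → W Φ (G f) s p = mkZ (rd (zz p)) 0 := by
    intro s p hp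
    have h1 : Φ (-s) =ᶠ[𝓝 (Φ s p)] rotL n (-s) := by
      filter_upwards [(isOpen_outside R).mem_nhds (hout s p hp)] with x hx
      rw [rotL_apply]
      exact hF.std (-s) x hx
    rw [W, h1.fderiv_eq, ContinuousLinearMap.fderiv, rotL_apply, hGout _ (hout s p hp),
      rot_mkZ, hF.std s p hp, zz_rot]
    congr 1
    rw [rd, rd, norm_mul, Complex.norm_exp_ofReal_mul_I, one_mul, mul_div_assoc, ← mul_assoc,
      ← Complex.exp_add]
    simp
  have hAout : ∀ p, R < ‖p‖ → A Φ (G f) p = mkZ (rd (zz p)) 0 := by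
    intro p hp
    rw [A]
    simp only [hWout _ p hp]
    rw [intervalIntegral.integral_const, sub_zero, smul_smul,
      inv_mul_cancel₀ (by positivity), one_smul]
  refine ⟨A Φ (G f), ?_, ?_, ?_, ?_⟩
  · intro ε hε
    refine ⟨A Φ (Ge f ε), contDiff_A hF.cf (contDiff_Ge hC.smooth hε hne), ?_, ?_⟩
    · have hs := contDiff_A hF.cf (contDiff_Ge hC.smooth hε hne)
      have hc : Continuous (fderiv ℝ (A Φ (Ge f ε))) := hs.continuous_fderiv (by simp)
      have hK : IsCompact (Metric.closedBall (0 : Phase (n + 1)) R) := isCompact_closedBall _ _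
      obtain ⟨C, hC1⟩ := hK.exists_bound_of_continuousOn hc.continuousOn
      obtain ⟨C', hC'⟩ := bound_hr hε
      let L : ℂ →L[ℝ] Phase (n + 1) :=
        (zwE n).symm.toContinuousLinearMap.comp (ContinuousLinearMap.inl ℝ ℂ (Phase n))
      refine ⟨max C (‖L‖ * (C' * ‖zzL n‖)), fun p => ?_⟩
      by_cases hp : R < ‖p‖
      · refine le_trans ?_ (le_max_right _ _)
        have h1 : A Φ (Ge f ε) =ᶠ[𝓝 p] fun q => L (hr ε (zzL n q)) := by
          filter_upwards [(isOpen_outside R).mem_nhds hp] with q hq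
          rw [hAe, hAout q hq, hC.std q hq, mu_eq]
          show _ = mkZ (hr ε (zz q)) 0
          have h5 := mkZ_smul (n := n) (cut (‖zz q‖ ^ 2 / 2 / ε)) (rd (zz q)) 0
          rw [smul_zero] at h5
          rw [← h5]
          rfl
        have h2 : HasFDerivAt (fun q => L (hr ε (zzL n q)))
            (L.comp ((fderiv ℝ (hr ε) (zzL n p)).comp (zzL n))) p :=
          L.hasFDerivAt.comp p ((((contDiff_hr hε).differentiable (by simp))
            (zzL n p)).hasFDerivAt.comp p (zzL n).hasFDerivAt)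
        rw [h1.fderiv_eq, h2.fderiv]
        refine (ContinuousLinearMap.opNorm_comp_le _ _).trans ?_
        refine mul_le_mul_of_nonneg_left ?_ (norm_nonneg _)
        refine (ContinuousLinearMap.opNorm_comp_le _ _).trans ?_
        exact mul_le_mul_of_nonneg_right (hC' _) (norm_nonneg _)
      · push Not at hp
        exact (hC1 p (by simpa using hp)).trans (le_max_left _ _)
    · intro p hp
      rw [hAe, cut_one, one_smul]
      rw [le_div_iff₀ hε]
      linarith
  · intro p hp
    have h1 : ∀ s, fderiv ℝ f p (W Φ (G f) s p) = 1 := by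
      intro s
      have h2 : f ∘ Φ (-s) = f := funext fun q => hF.cons (-s) q
      have h3 : fderiv ℝ f (Φ s p) = (fderiv ℝ f p).comp (fderiv ℝ (Φ (-s)) (Φ s p)) := by
        have h4 := fderiv_comp (Φ s p) (hfd (Φ (-s) (Φ s p))) (hdiff (-s) (Φ s p))
        rw [h2, hinv] at h4
        exact h4
      have h5 : fderiv ℝ f p (W Φ (G f) s p) = fderiv ℝ f (Φ s p) (G f (Φ s p)) := by
        rw [h3]
        rfl
      rw [h5]
      refine fderiv_G (hne _ ?_)
      rw [hF.cons]
      exact hp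
    rw [A, map_smul, ← ContinuousLinearMap.intervalIntegral_comp_comm _ (hint p hp)]
    simp only [h1]
    rw [intervalIntegral.integral_const, sub_zero, smul_smul,
      inv_mul_cancel₀ (by positivity), one_smul]
  · intro t p hp
    have h1 : ∀ s, fderiv ℝ (Φ t) p (W Φ (G f) s p) = W Φ (G f) (s - t) (Φ t p) := by
      intro s
      have h2 : Φ t ∘ Φ (-s) = Φ (-(s - t)) := funext fun q => by
        rw [comp_apply, ← hF.add]
        congr 1
        ring
      have h3 : fderiv ℝ (Φ (-(s - t))) (Φ s p) =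
          (fderiv ℝ (Φ t) p).comp (fderiv ℝ (Φ (-s)) (Φ s p)) := by
        have h4 := fderiv_comp (Φ s p) (hdiff t (Φ (-s) (Φ s p))) (hdiff (-s) (Φ s p))
        rw [h2, hinv] at h4
        exact h4
      have h5 : Φ (s - t) (Φ t p) = Φ s p := by
        rw [← hF.add, sub_add_cancel]
      rw [W, W, h5, h3]
      rfl
    have hP : Function.Periodic (fun s => W Φ (G f) s (Φ t p)) (2 * Real.pi) := by
      intro s
      have h2 : Φ (-(s + 2 * Real.pi)) = Φ (-s) := by
        rw [← hper (-(s + 2 * Real.pi))]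
        congr 1
        ring
      show W Φ (G f) (s + 2 * Real.pi) (Φ t p) = W Φ (G f) s (Φ t p)
      rw [W, W, h2, hper]
    rw [A, map_smul, ← ContinuousLinearMap.intervalIntegral_comp_comm _ (hint p hp), A]
    simp only [h1]
    rw [intervalIntegral.integral_comp_sub_right (fun s => W Φ (G f) s (Φ t p)) t]
    have h6 := hP.intervalIntegral_add_eq (-t) 0
    rw [zero_add] at h6
    rw [zero_sub, ← h6]
    congr 2
    ring
  · intro p hp _
    exact hAout p hp

end Pool.Agent.CRC
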