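import Pool.Agent.CRC.ACT
import Pool.Agent.CRC.AVG
import Pool.Agent.CRC.BRK
import Pool.Agent.CRC.CLF
import Pool.Agent.CRC.DIV
import Pool.Agent.CRC.EXA
import Pool.Agent.CRC.EXP
import Pool.Agent.CRC.EXR
import Pool.Agent.CRC.FIB
import Pool.Agent.CRC.FIN
import Pool.Agent.CRC.FLW
import Pool.Agent.CRC.GLU
import Pool.Agent.CRC.HGP
import Pool.Agent.CRC.LAL
import Pool.Agent.CRC.LCH
import Pool.Agent.CRC.LFA
import Pool.Agent.CRC.LIF
import Pool.Agent.CRC.LIN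
import Pool.Agent.CRC.LO2
import Pool.Agent.CRC.LOC
import Pool.Agent.CRC.LOG
import Pool.Agent.CRC.LSO
import Pool.Agent.CRC.MOM
import Pool.Agent.CRC.MUC
import Pool.Agent.CRC.NTR
import Pool.Agent.CRC.ONT
import Pool.Agent.CRC.PAT
import Pool.Agent.CRC.PTU
import Pool.Agent.CRC.RAT
import Pool.Agent.CRC.SLC
import Pool.Agent.CRC.TOP
import Pool.Agent.CRC.UFN
import Pool.Agent.CRC.UNI
import Pool.Agent.CRC.VEC

/-!
# CRC: assembly
-/

set_option autoImplicit false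

namespace Pool.Agent.CRC

theorem circle : St_FIN := by
  have hACT := thm_ACT
  have hBRK := thm_BRK
  have hFLW := thm_FLW
  have hCLF := thm_CLF
  have hDIV := thm_DIV
  have hLOG := thm_LOG
  have hMOM := thm_MOM
  have hTOP := thm_TOP
  have hUNI := thm_UNI
  have hEXP := thm_EXP
  have hEXR := thm_EXR thm_EXA
  have hMUC := thm_MUC hMOM hTOP
  have hUFN := thm_UFN (thm_VEC hACT)
  have hLIN := thm_LIN hACT
  have hLCH := thm_LCH hACT hUFN hLIN (thm_NTR hACT hLIN) (thm_LAL hCLF)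
  have hSLC := thm_SLC hACT hLCH
  have hLSO := thm_LSO hACT hDIV hSLC
  have hGLU := thm_GLU hACT (thm_PAT hLSO hCLF) (thm_RAT hLSO hDIV hCLF) thm_PTU
  have hONT := thm_ONT hFLW hACT hUFN hSLC hGLU hBRK hEXR
  have hLO2 := thm_LO2 (thm_LOC hFLW thm_AVG hACT hDIV hBRK)
  have hFIB := thm_FIB hEXR hBRK hMOM hDIV hLOG hFLW
  have hLFA := thm_LFA hTOP hLO2 (thm_LIF hFIB hEXP) hEXR hUNI hBRK hONT
  exact thm_FIN hMUC hLFA thm_HGP hFIB hEXP hBRK hEXR hUNI

end Pool.Agent.CRC
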