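import Mathlib
import Pool.Agent.Helper42.NT.Def

/-!
# CRC: Hamiltonian circle actions on `ℝ^{2n+2}` which are standard at infinity: definitions

Circle theorem for MP_ec5dc5_gt (architect helper16); paper: HUNT_ec5dc5_circle_helper16.md in the
team store.
-/

set_option autoImplicit false

open scoped ContDiff Distributions Topology
open Set Function TopologicalSpace

namespace Pool.Agent.CRC

open Pool.Agent.Helper17 Pool.Agent.Helper42

/-- The first complex coordinate `z_0 = x_0 + i y_0` of `ℝ^{2n+2}`. -/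
noncomputable def zz {n : ℕ} (p : Phase (n + 1)) : ℂ := ⟨p (Sum.inl 0), p (Sum.inr 0)⟩

/-- The function `|z_0| ^ 2 / 2`; its Hamiltonian flow is the rotation of the first complex
coordinate. -/
noncomputable def mu {n : ℕ} (p : Phase (n + 1)) : ℝ :=
  (p (Sum.inl 0) ^ 2 + p (Sum.inr 0) ^ 2) / 2

lemma contDiff_mu {n : ℕ} : ContDiff ℝ ∞ (mu : Phase (n + 1) → ℝ) := by
  have h1 : ContDiff ℝ ∞ (fun p : Phase (n + 1) => p (Sum.inl 0)) :=
    ContinuousLinearMap.contDiff (𝕜 := ℝ)
      (EuclideanSpace.proj (Sum.inl (0 : Fin (n + 1))) : Phase (n + 1) →L[ℝ] ℝ)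
  have h2 : ContDiff ℝ ∞ (fun p : Phase (n + 1) => p (Sum.inr 0)) :=
    ContinuousLinearMap.contDiff (𝕜 := ℝ)
      (EuclideanSpace.proj (Sum.inr (0 : Fin (n + 1))) : Phase (n + 1) →L[ℝ] ℝ)
  exact ((h1.pow 2).add (h2.pow 2)).div_const 2

/-- The space of Hamiltonian circle actions on `ℝ^{2n+2}` which are standard at infinity: smooth
functions on `ℝ^{2n+2}`, equal to `|z_0| ^ 2 / 2` outside a compact set, all of whose Hamiltonian
orbits have period `2 π`. -/
def CircHam (n : ℕ) : Type :=
  {f : Phase (n + 1) → ℝ // ContDiff ℝ ∞ f ∧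
    (∃ K : Set (Phase (n + 1)), IsCompact K ∧ ∀ p ∉ K, f p = mu p) ∧
    ∀ c : ℝ → Phase (n + 1), IsHamOrbit f c → Function.Periodic c (2 * Real.pi)}

/-- The elements of `CircHam n` which are equal to `|z_0| ^ 2 / 2` outside the compact set `K`. -/
def CHSupp (n : ℕ) (K : Compacts (Phase (n + 1))) : Type :=
  {f : CircHam n // ∀ p ∉ K, f.1 p = mu p}

/-- The inclusion. -/
def CHSupp.incl {n : ℕ} (K : Compacts (Phase (n + 1))) : CHSupp n K → CircHam n := Subtype.val

/-- The difference to `|z_0| ^ 2 / 2`, as an element of the Fréchet space of smooth functions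
supported in `K`. -/
noncomputable def CHSupp.disp {n : ℕ} (K : Compacts (Phase (n + 1))) (f : CHSupp n K) :
    𝓓_{K}(Phase (n + 1), ℝ) where
  toFun p := f.1.1 p - mu p
  contDiff' := f.1.2.1.sub contDiff_mu
  zero_on_compl' := fun p hp => by
    have := f.2 p hp
    simp [this]

/-- The `C^∞` topology on the elements of `CircHam n` equal to `|z_0| ^ 2 / 2` outside `K`: uniform
convergence of all derivatives. -/
noncomputable instance (n : ℕ) (K : Compacts (Phase (n + 1))) : TopologicalSpace (CHSupp n K) :=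
  TopologicalSpace.induced (CHSupp.disp K) inferInstance

/-- The direct limit topology on `CircHam n`: the finest topology for which all the inclusions of
the spaces `CHSupp n K` are continuous. -/
noncomputable instance (n : ℕ) : TopologicalSpace (CircHam n) :=
  ⨆ K : Compacts (Phase (n + 1)), TopologicalSpace.coinduced (CHSupp.incl K) inferInstance

lemma fderiv_mu {n : ℕ} (p v : Phase (n + 1)) : fderiv ℝ (mu : Phase (n + 1) → ℝ) p v =
    p (Sum.inl 0) * v (Sum.inl 0) + p (Sum.inr 0) * v (Sum.inr 0) := by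
  have h1 : HasFDerivAt (fun p : Phase (n + 1) => p (Sum.inl 0))
      (EuclideanSpace.proj (Sum.inl 0) : Phase (n + 1) →L[ℝ] ℝ) p :=
    (EuclideanSpace.proj (Sum.inl 0) : Phase (n + 1) →L[ℝ] ℝ).hasFDerivAt
  have h2 : HasFDerivAt (fun p : Phase (n + 1) => p (Sum.inr 0))
      (EuclideanSpace.proj (Sum.inr 0) : Phase (n + 1) →L[ℝ] ℝ) p :=
    (EuclideanSpace.proj (Sum.inr 0) : Phase (n + 1) →L[ℝ] ℝ).hasFDerivAt
  have h3 := ((h1.mul h1).add (h2.mul h2)).mul_const (2 : ℝ)⁻¹
  have h4 : (mu : Phase (n + 1) → ℝ) =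
      fun p => (p (Sum.inl 0) * p (Sum.inl 0) + p (Sum.inr 0) * p (Sum.inr 0)) * (2 : ℝ)⁻¹ := by
    funext q
    rw [mu, div_eq_mul_inv, pow_two, pow_two]
  have h5 := h3.fderiv
  rw [h4]
  erw [h5]
  simp
  ring

/-- The orbits of `|z_0| ^ 2 / 2` have period `2 π`. -/
lemma periodic_mu {n : ℕ} (c : ℝ → Phase (n + 1)) (hc : IsHamOrbit mu c) :
    Function.Periodic c (2 * Real.pi) := by
  have hcoord : ∀ (k : Fin (n + 1) ⊕ Fin (n + 1)) (s : ℝ),
      HasDerivAt (fun s => (c s) k) ((hamField mu (c s)) k) s := fun k s =>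
    ((EuclideanSpace.proj k : Phase (n + 1) →L[ℝ] ℝ).hasFDerivAt).comp_hasDerivAt s (hc s)
  have hinl : ∀ (j : Fin (n + 1)) (p : Phase (n + 1)), (hamField mu p) (Sum.inl j) =
      -(if j = 0 then p (Sum.inr 0) else 0) := by
    intro j p
    simp only [hamField, fderiv_mu, Sum.elim_inl]
    by_cases h : j = 0
    · subst h
      simp
    · have h' : (0 : Fin (n + 1)) ≠ j := fun e => h e.symm
      simp [h, h']
  have hinr : ∀ (j : Fin (n + 1)) (p : Phase (n + 1)), (hamField mu p) (Sum.inr j) =
      if j = 0 then p (Sum.inl 0) else 0 := by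
    intro j p
    simp only [hamField, fderiv_mu, Sum.elim_inr]
    by_cases h : j = 0
    · subst h
      simp
    · have h' : (0 : Fin (n + 1)) ≠ j := fun e => h e.symm
      simp [h, h']
  have hx : ∀ s, HasDerivAt (fun s => (c s) (Sum.inl 0)) (-(c s) (Sum.inr 0)) s := fun s => by
    have := hcoord (Sum.inl 0) s
    rwa [hinl, if_pos rfl] at this
  have hy : ∀ s, HasDerivAt (fun s => (c s) (Sum.inr 0)) ((c s) (Sum.inl 0)) s := fun s => by
    have := hcoord (Sum.inr 0) s
    rwa [hinr, if_pos rfl] at this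
  -- the first complex coordinate rotates
  have hu : ∀ s, (c s) (Sum.inl 0) * Real.cos s + (c s) (Sum.inr 0) * Real.sin s =
      (c 0) (Sum.inl 0) := by
    intro s
    have h1 : ∀ s, HasDerivAt (fun s => (c s) (Sum.inl 0) * Real.cos s +
        (c s) (Sum.inr 0) * Real.sin s) 0 s := by
      intro s
      have := ((hx s).mul (Real.hasDerivAt_cos s)).add ((hy s).mul (Real.hasDerivAt_sin s))
      refine this.congr_deriv ?_
      ring
    have h2 := is_const_of_deriv_eq_zero (fun s => (h1 s).differentiableAt)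
      (fun s => (h1 s).deriv) s 0
    simpa using h2
  have hv : ∀ s, (c s) (Sum.inr 0) * Real.cos s - (c s) (Sum.inl 0) * Real.sin s =
      (c 0) (Sum.inr 0) := by
    intro s
    have h1 : ∀ s, HasDerivAt (fun s => (c s) (Sum.inr 0) * Real.cos s -
        (c s) (Sum.inl 0) * Real.sin s) 0 s := by
      intro s
      have := ((hy s).mul (Real.hasDerivAt_cos s)).sub ((hx s).mul (Real.hasDerivAt_sin s))
      refine this.congr_deriv ?_
      ring
    have h2 := is_const_of_deriv_eq_zero (fun s => (h1 s).differentiableAt)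
      (fun s => (h1 s).deriv) s 0
    simpa using h2
  have hX : ∀ s, (c s) (Sum.inl 0) =
      (c 0) (Sum.inl 0) * Real.cos s - (c 0) (Sum.inr 0) * Real.sin s := by
    intro s
    rw [← hu s, ← hv s]
    have := Real.sin_sq_add_cos_sq s
    linear_combination (-(c s) (Sum.inl 0)) * this
  have hY : ∀ s, (c s) (Sum.inr 0) =
      (c 0) (Sum.inl 0) * Real.sin s + (c 0) (Sum.inr 0) * Real.cos s := by
    intro s
    rw [← hu s, ← hv s]
    have := Real.sin_sq_add_cos_sq s
    linear_combination (-(c s) (Sum.inr 0)) * this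
  intro s
  ext k
  by_cases h0 : k = Sum.inl 0
  · subst h0
    rw [hX, hX s, Real.cos_add_two_pi, Real.sin_add_two_pi]
  by_cases h1 : k = Sum.inr 0
  · subst h1
    rw [hY, hY s, Real.cos_add_two_pi, Real.sin_add_two_pi]
  have hd : ∀ s, HasDerivAt (fun s => (c s) k) 0 s := by
    intro s
    have h2 := hcoord k s
    rcases k with j | j
    · rwa [hinl, if_neg (fun e => h0 (by rw [e])), neg_zero] at h2
    · rwa [hinr, if_neg (fun e => h1 (by rw [e]))] at h2
  exact is_const_of_deriv_eq_zero (fun s => (hd s).differentiableAt)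
    (fun s => (hd s).deriv) _ _

/-- The function `|z_0| ^ 2 / 2`, as a point of `CircHam n`. -/
noncomputable def CircHam.std {n : ℕ} : CircHam n :=
  ⟨mu, contDiff_mu, ⟨∅, isCompact_empty, fun _ _ => rfl⟩, periodic_mu⟩

/-- The homotopy group `π_k` of the space `CircHam n` of circle actions on `ℝ^{2n+2}` standard at
infinity, with base point `|z_0| ^ 2 / 2`; for `k = 0` the set of path components. -/
abbrev PiC (k n : ℕ) : Type := HomotopyGroup (Fin k) (CircHam n) CircHam.std

/-- The continuous maps of the cube `[0,1]^k` to `CircHam n` which are equal to `|z_0| ^ 2 / 2` on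
the boundary. -/
def LoopC (k n : ℕ) : Type := GenLoop (Fin k) (CircHam n) CircHam.std

/-- The Hamiltonian with parameter `t`. -/
noncomputable def LoopC.at {k n : ℕ} (f : LoopC k n) (t : Fin k → unitInterval) :
    Phase (n + 1) → ℝ := (f.1 t).1

/-- The class in the homotopy group. -/
noncomputable def LoopC.cls {k n : ℕ} (f : LoopC k n) : PiC k n := Quotient.mk _ f

/-- The family `f` of Hamiltonians is the family of the functions `|z_0 ∘ φ| ^ 2 / 2`. -/
def IsMoment {k n : ℕ} (φ : LoopG k (n + 1)) (f : LoopC k n) : Prop :=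
  ∀ t p, f.at t p = mu (φ.at t p)

end Pool.Agent.CRC
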