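import Pool.Agent.CRC.Defs

/-!
# CRC: phases

Definitions for the description of the fibres of `φ ↦ |z_0 ∘ φ| ^ 2 / 2`.
-/

set_option autoImplicit false

open scoped ContDiff
open Set Function

namespace Pool.Agent.CRC

open Pool.Agent.Helper17 Pool.Agent.Helper42

/-- The function `|z_0 ∘ φ| ^ 2 / 2`. -/
noncomputable def moment {n : ℕ} (φ : SympCt (n + 1)) (p : Phase (n + 1)) : ℝ :=
  mu ((φ : Equiv.Perm (Phase (n + 1))) p)

/-- `η` is a smooth function with compact support whose Poisson bracket with `f` is zero: it is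
constant on the Hamiltonian orbits of `f`. -/
def IsInvariant {N : ℕ} (f η : Phase N → ℝ) : Prop :=
  ContDiff ℝ ∞ η ∧ HasCompactSupport η ∧ ∀ p, fderiv ℝ η p (hamField f p) = 0

/-- `z_0 ∘ ψ = e^{i η} (z_0 ∘ φ)`. -/
def IsTwist {n : ℕ} (φ : SympCt (n + 1)) (η : Phase (n + 1) → ℝ) (ψ : SympCt (n + 1)) : Prop :=
  ∀ p, zz ((ψ : Equiv.Perm (Phase (n + 1))) p) =
    zz ((φ : Equiv.Perm (Phase (n + 1))) p) * Complex.exp (η p * Complex.I)

end Pool.Agent.CRC
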