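import Pool.Agent.CRC.Defs
import Pool.Agent.H50.Susp.Straighten

/-!
# CRC: circle actions, exact pairs, slices: internal definitions

`hamV f` (`Pool.Agent.H50.Susp`, file `Straighten.lean`) is the Hamiltonian vector field,
`hamField f = hamV f` (`hamField_eqV` in `CRC/Basic.lean`); the Poisson bracket `{f, g}` is
`pb f g p = fderiv ℝ g p (hamV f p)`.
-/

set_option autoImplicit false

open scoped ContDiff Topology
open Set Function TopologicalSpace

namespace Pool.Agent.CRC

open Pool.Agent.Helper17 Pool.Agent.Helper42 Pool.Agent.H50.Susp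

/-- the last `n` pairs of coordinates -/
noncomputable def wLin (n : ℕ) : Phase (n + 1) →ₗ[ℝ] Phase n where
  toFun p := WithLp.toLp 2 (fun k => p (Sum.map Fin.succ Fin.succ k))
  map_add' p q := by ext k; simp
  map_smul' c p := by ext k; simp

/-- the projection to the last `n` pairs of coordinates -/
noncomputable def wW (n : ℕ) : Phase (n + 1) →L[ℝ] Phase n :=
  LinearMap.toContinuousLinearMap (wLin n)

/-- the inclusion of the last `n` pairs of coordinates -/
noncomputable def embLin (n : ℕ) : Phase n →ₗ[ℝ] Phase (n + 1) where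
  toFun w := WithLp.toLp 2 (Sum.elim (Fin.cons 0 fun j => w (Sum.inl j))
    (Fin.cons 0 fun j => w (Sum.inr j)))
  map_add' p q := by
    ext k
    rcases k with k | k <;> refine Fin.cases ?_ (fun j => ?_) k <;> simp
  map_smul' c p := by
    ext k
    rcases k with k | k <;> refine Fin.cases ?_ (fun j => ?_) k <;> simp

/-- the inclusion of the last `n` pairs of coordinates -/
noncomputable def wE (n : ℕ) : Phase n →L[ℝ] Phase (n + 1) :=
  LinearMap.toContinuousLinearMap (embLin n)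

/-- the point with first complex coordinate `z` and remaining coordinates `w` -/
noncomputable def mkZ {n : ℕ} (z : ℂ) (w : Phase n) : Phase (n + 1) :=
  z.re • eX 0 + z.im • eY 0 + wE n w

/-- rotation of the first complex coordinate by the angle `s` -/
noncomputable def rot {n : ℕ} (s : ℝ) (p : Phase (n + 1)) : Phase (n + 1) :=
  mkZ (Complex.exp (s * Complex.I) * zz p) (wW n p)

/-- the Poisson bracket `{f, g}` -/
noncomputable def pb {N : ℕ} (f g : Phase N → ℝ) (p : Phase N) : ℝ := fderiv ℝ g p (hamV f p)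

/-- `f` generates a circle action which is standard outside the ball of radius `R`. -/
structure Circ {n : ℕ} (R : ℝ) (f : Phase (n + 1) → ℝ) : Prop where
  smooth : ContDiff ℝ ∞ f
  std : ∀ p, R < ‖p‖ → f p = mu p
  per : ∀ c : ℝ → Phase (n + 1), IsHamOrbit f c → Function.Periodic c (2 * Real.pi)

/-- `Φ` is the flow of `f`. -/
structure Fl {n : ℕ} (R : ℝ) (f : Phase (n + 1) → ℝ)
    (Φ : ℝ → Phase (n + 1) → Phase (n + 1)) : Prop where
  cf : CF Φ
  zero : ∀ p, Φ 0 p = p
  der : ∀ s p, HasDerivAt (fun s => Φ s p) (hamV f (Φ s p)) s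
  add : ∀ a b p, Φ (a + b) p = Φ a (Φ b p)
  per : ∀ s p, Φ (s + 2 * Real.pi) p = Φ s p
  symp : ∀ s p u v, omegaStd (fderiv ℝ (Φ s) p u) (fderiv ℝ (Φ s) p v) = omegaStd u v
  std : ∀ s p, R < ‖p‖ → Φ s p = rot s p
  ball : ∀ s p, ‖p‖ ≤ R → ‖Φ s p‖ ≤ R
  cons : ∀ s p, f (Φ s p) = f p
  uniq : ∀ c : ℝ → Phase (n + 1), (∀ s, HasDerivAt c (hamV f (c s)) s) → ∀ s, c s = Φ s (c 0)

/-- `a` is an exact pair, standard outside the ball of radius `R`. -/
structure Ex {n : ℕ} (R : ℝ) (a : Phase (n + 1) → ℂ) : Prop where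
  smooth : ContDiff ℝ ∞ a
  std : ∀ p, R < ‖p‖ → a p = zz p
  br : ∀ p, pb (fun q => (a q).re) (fun q => (a q).im) p = 1

/-- `u` is a smooth function of weight one and modulus one on `{f > 0}`, standard outside the ball
of radius `R`. -/
structure UF {n : ℕ} (R : ℝ) (f : Phase (n + 1) → ℝ) (Φ : ℝ → Phase (n + 1) → Phase (n + 1))
    (u : Phase (n + 1) → ℂ) : Prop where
  smooth : ContDiffOn ℝ ∞ u {p | 0 < f p}
  norm : ∀ p, 0 < f p → ‖u p‖ = 1
  wt : ∀ s p, 0 < f p → u (Φ s p) = Complex.exp (s * Complex.I) * u p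
  std : ∀ p, R < ‖p‖ → 0 < f p → u p = zz p / (‖zz p‖ : ℂ)

/-- A slice: the smooth maps `α`, `β` on all of `ℝ^{2n+2}` of weight one and zero restrict to a
diffeomorphism of the invariant open set `U` to the polydisc of radius `δ`, with inverse `ψ`. -/
structure Slice {n : ℕ} (Φ : ℝ → Phase (n + 1) → Phase (n + 1)) (U : Set (Phase (n + 1))) (δ : ℝ)
    (α : Phase (n + 1) → ℂ) (β : Phase (n + 1) → Phase n) (ψ : ℂ × Phase n → Phase (n + 1)) :
    Prop where
  pos : 0 < δ
  openU : IsOpen U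
  bdd : Bornology.IsBounded U
  inv : ∀ s, ∀ x ∈ U, Φ s x ∈ U
  sα : ContDiff ℝ ∞ α
  sβ : ContDiff ℝ ∞ β
  eα : ∀ s x, α (Φ s x) = Complex.exp (s * Complex.I) * α x
  eβ : ∀ s x, β (Φ s x) = β x
  sψ : ContDiffOn ℝ ∞ ψ {q | ‖q.1‖ < δ ∧ ‖q.2‖ < δ}
  maps : ∀ x ∈ U, ‖α x‖ < δ ∧ ‖β x‖ < δ
  left : ∀ x ∈ U, ψ (α x, β x) = x
  right : ∀ (z : ℂ) (w : Phase n), ‖z‖ < δ → ‖w‖ < δ →
    ψ (z, w) ∈ U ∧ α (ψ (z, w)) = z ∧ β (ψ (z, w)) = w

/-- A patch: a local solution `a` of `|a| ^ 2 = 2 f` on the invariant open set `U`, with its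
logarithm `η` relative to `√(2 f) u` on `U ∩ {f > 0}`. -/
structure Patch {n : ℕ} (f : Phase (n + 1) → ℝ) (Φ : ℝ → Phase (n + 1) → Phase (n + 1))
    (u : Phase (n + 1) → ℂ) (U : Set (Phase (n + 1))) (a : Phase (n + 1) → ℂ)
    (η : Phase (n + 1) → ℝ) : Prop where
  openU : IsOpen U
  inv : ∀ s, ∀ x ∈ U, Φ s x ∈ U
  sa : ContDiffOn ℝ ∞ a U
  na : ∀ x ∈ U, ‖a x‖ ^ 2 = 2 * f x
  sη : ContDiffOn ℝ ∞ η (U ∩ {x | 0 < f x})
  iη : ∀ s, ∀ x ∈ U, 0 < f x → η (Φ s x) = η x
  eq : ∀ x ∈ U, 0 < f x →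
    a x = (Real.sqrt (2 * f x) : ℂ) * u x * Complex.exp (η x * Complex.I)

/-- The lifting property of a continuous map: lifts near a closed subset of a compact Hausdorff
space extend to the whole space. -/
def LiftP {X Y : Type} [TopologicalSpace X] [TopologicalSpace Y] (q : C(X, Y)) : Prop :=
  ∀ (T : Type) [TopologicalSpace T] [CompactSpace T] [T2Space T] (f : C(T, Y)) (N T₀ : Set T)
    (_ : IsClosed N) (_ : IsClosed T₀) (hN : T₀ ⊆ interior N) (g : C(N, X)),
    (∀ t : N, q (g t) = f t) →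
    ∃ G : C(T, X), (∀ t, q (G t) = f t) ∧
      ∀ t (ht : t ∈ T₀), G t = g ⟨t, interior_subset (hN ht)⟩

/-- The map on homotopy groups induced by a continuous map. -/
noncomputable def hgMap {X Y : Type} [TopologicalSpace X] [TopologicalSpace Y] (k : ℕ)
    (q : C(X, Y)) (x : X) (y : Y) (h : q x = y) :
    HomotopyGroup (Fin k) X x → HomotopyGroup (Fin k) Y y :=
  Quotient.map (fun γ => ⟨q.comp γ.1, fun t ht => by
      change q (γ.1 t) = y
      rw [γ.2 t ht, h]⟩)
    (fun γ γ' H => by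
      obtain ⟨H⟩ := H
      exact ⟨{ toFun := fun p => q (H p)
               continuous_toFun := q.continuous.comp H.continuous
               map_zero_left := fun p => by rw [H.apply_zero]; rfl
               map_one_left := fun p => by rw [H.apply_one]; rfl
               prop' := fun s p hp => by
                change q (H (s, p)) = q (γ.1 p)
                rw [H.eq_fst s hp] }⟩)

end Pool.Agent.CRC
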