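import Pool.Agent.CRC.St

/-!
# CRC, module LIN: linearisation at a zero of the Hamiltonian
-/

set_option autoImplicit false

open scoped ContDiff Topology
open Set Function TopologicalSpace MeasureTheory

namespace Pool.Agent.CRC

open Pool.Agent.Helper17 Pool.Agent.Helper42 Pool.Agent.H50.Susp

namespace LIN

variable {P : Type} [NormedAddCommGroup P] [NormedSpace ℝ P]

/-- The average of `D Φ_{-s}(p) (Φ s x - p)` over a period. -/
noncomputable def lin (Φ : ℝ → P → P) (p : P) (x : P) : P :=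
  (2 * Real.pi)⁻¹ • ∫ s in Icc 0 (2 * Real.pi), (fderiv ℝ (Φ (-s)) p) (Φ s x - p)
    ∂(volume.restrict (Icc 0 (2 * Real.pi)))

lemma lin_eq (Φ : ℝ → P → P) (p x : P) :
    lin Φ p x = (2 * Real.pi)⁻¹ •
      ∫ s in (0 : ℝ)..(2 * Real.pi), (fderiv ℝ (Φ (-s)) p) (Φ s x - p) := by
  unfold lin
  rw [Measure.restrict_restrict measurableSet_Icc, inter_self,
    integral_Icc_eq_integral_Ioc, intervalIntegral.integral_of_le (by positivity)]

lemma continuous_fd {Φ : ℝ → P → P} (hΦ : CF Φ) (p : P) :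
    Continuous (fun s => fderiv ℝ (Φ s) p) :=
  hΦ.fderiv.continuous.comp (continuous_id.prodMk continuous_const)

lemma cf_lin {Φ : ℝ → P → P} (hΦ : CF Φ) (p : P) :
    CF (fun (q : Unit × ℝ) x => (fderiv ℝ (Φ (-q.2)) p) (Φ q.2 x - p)) := by
  refine CF.clm_apply (A := fun (q : Unit × ℝ) (_ : P) => fderiv ℝ (Φ (-q.2)) p)
    (B := fun (q : Unit × ℝ) x => Φ q.2 x - p) ?_ ?_
  · exact CF.param ((continuous_fd hΦ p).comp continuous_snd.neg)
  · exact (CF.base continuous_snd hΦ).sub (CF.const contDiff_const)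

lemma contDiff_lin {Φ : ℝ → P → P} (hΦ : CF Φ) (p : P) : ContDiff ℝ ∞ (lin Φ p) := by
  have h2 := CF.setIntegral (S := Icc 0 (2 * Real.pi)) isCompact_Icc
    (volume.restrict (Icc 0 (2 * Real.pi))) (cf_lin hΦ p)
  have h3 := h2.contDiff ()
  exact contDiff_const.smul h3

lemma fd_zero {Φ : ℝ → P → P} (h0 : ∀ x, Φ 0 x = x) (p : P) :
    fderiv ℝ (Φ 0) p = ContinuousLinearMap.id ℝ P := by
  have h1 : Φ 0 = fun x => x := funext h0
  rw [h1]
  exact fderiv_fun_id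

lemma fd_add {Φ : ℝ → P → P} (hΦ : CF Φ) (hadd : ∀ a b x, Φ (a + b) x = Φ a (Φ b x)) {p : P}
    (hp : ∀ s, Φ s p = p) (a b : ℝ) :
    fderiv ℝ (Φ (a + b)) p = (fderiv ℝ (Φ a) p).comp (fderiv ℝ (Φ b) p) := by
  have h1 : Φ (a + b) = Φ a ∘ Φ b := funext (hadd a b)
  have h2 := fderiv_comp (𝕜 := ℝ) p (hΦ.differentiable a (Φ b p)) (hΦ.differentiable b p)
  rw [hp b] at h2
  rw [h1]
  exact h2

lemma fd_per {Φ : ℝ → P → P} (hper : ∀ s x, Φ (s + 2 * Real.pi) x = Φ s x) (p : P) (s : ℝ) :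
    fderiv ℝ (Φ (s + 2 * Real.pi)) p = fderiv ℝ (Φ s) p := by
  have h1 : Φ (s + 2 * Real.pi) = Φ s := funext (hper s)
  rw [h1]

lemma lin_self {Φ : ℝ → P → P} {p : P} (hp : ∀ s, Φ s p = p) : lin Φ p p = 0 := by
  unfold lin
  simp [hp]

lemma fderiv_lin {Φ : ℝ → P → P} (hΦ : CF Φ) (h0 : ∀ x, Φ 0 x = x)
    (hadd : ∀ a b x, Φ (a + b) x = Φ a (Φ b x)) {p : P} (hp : ∀ s, Φ s p = p) [CompleteSpace P] :
    fderiv ℝ (lin Φ p) p = ContinuousLinearMap.id ℝ P := by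
  have hc := cf_lin hΦ p
  have h1 := hasFDerivAt_setIntegral (S := Icc 0 (2 * Real.pi)) isCompact_Icc
    (volume.restrict (Icc 0 (2 * Real.pi))) hc.continuous hc.differentiable
    hc.fderiv.continuous () p
  have h2 : ∀ s : ℝ, fderiv ℝ (fun x => (fderiv ℝ (Φ (-s)) p) (Φ s x - p)) p =
      ContinuousLinearMap.id ℝ P := by
    intro s
    have h3 : HasFDerivAt (fun x => Φ s x - p) (fderiv ℝ (Φ s) p) p :=
      (hΦ.differentiable s p).hasFDerivAt.sub_const p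
    have h4 := ((fderiv ℝ (Φ (-s)) p).hasFDerivAt.comp p h3).fderiv
    have h5 : (fun x => (fderiv ℝ (Φ (-s)) p) (Φ s x - p)) =
        (fderiv ℝ (Φ (-s)) p) ∘ fun x => Φ s x - p := rfl
    rw [h5, h4, ← fd_add hΦ hadd hp, neg_add_cancel, fd_zero h0]
  have h6 : (∫ s in Icc 0 (2 * Real.pi),
      fderiv ℝ (fun x => (fderiv ℝ (Φ (-s)) p) (Φ s x - p)) p
        ∂(volume.restrict (Icc 0 (2 * Real.pi)))) = (2 * Real.pi) • ContinuousLinearMap.id ℝ P := by
    simp only [h2]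
    rw [Measure.restrict_restrict measurableSet_Icc, inter_self, setIntegral_const,
      Real.volume_real_Icc_of_le (by positivity), sub_zero]
  have h7 := (h1.const_smul (2 * Real.pi)⁻¹).fderiv
  have h8 : fderiv ℝ (lin Φ p) p = (2 * Real.pi)⁻¹ • ∫ s in Icc 0 (2 * Real.pi),
      fderiv ℝ (fun x => (fderiv ℝ (Φ (-s)) p) (Φ s x - p)) p
        ∂(volume.restrict (Icc 0 (2 * Real.pi))) := h7
  rw [h8, h6, smul_smul, inv_mul_cancel₀ (by positivity), one_smul]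

lemma lin_equiv {Φ : ℝ → P → P} (hΦ : CF Φ)
    (hadd : ∀ a b x, Φ (a + b) x = Φ a (Φ b x))
    (hper : ∀ s x, Φ (s + 2 * Real.pi) x = Φ s x) {p : P} (hp : ∀ s, Φ s p = p)
    [CompleteSpace P] (t : ℝ) (x : P) :
    lin Φ p (Φ t x) = fderiv ℝ (Φ t) p (lin Φ p x) := by
  rw [lin_eq, lin_eq, map_smul]
  congr 1
  set h : ℝ → P := fun s => (fderiv ℝ (Φ (-s)) p) (Φ s x - p) with hh
  have hcont : Continuous h := by
    have h1 := (cf_lin hΦ p).continuous
    exact h1.comp (((continuous_const (y := ())).prodMk continuous_id).prodMk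
      (continuous_const (y := x)))
  have h1 : (fun s => (fderiv ℝ (Φ (-s)) p) (Φ s (Φ t x) - p)) =
      fun s => (fderiv ℝ (Φ t) p) (h (s + t)) := by
    funext s
    have h2 : fderiv ℝ (Φ (-s)) p = (fderiv ℝ (Φ t) p).comp (fderiv ℝ (Φ (-(s + t))) p) := by
      rw [← fd_add hΦ hadd hp]
      congr 2
      ring
    rw [h2, hh]
    show _ = (fderiv ℝ (Φ t) p) ((fderiv ℝ (Φ (-(s + t))) p) (Φ (s + t) x - p))
    rw [hadd]
    rfl
  have hpd : Function.Periodic h (2 * Real.pi) := by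
    intro s
    show (fderiv ℝ (Φ (-(s + 2 * Real.pi))) p) (Φ (s + 2 * Real.pi) x - p) =
      (fderiv ℝ (Φ (-s)) p) (Φ s x - p)
    have h3 : fderiv ℝ (Φ (-(s + 2 * Real.pi))) p = fderiv ℝ (Φ (-s)) p := by
      rw [← fd_per hper p (-(s + 2 * Real.pi))]
      congr 2
      ring
    rw [h3, hper]
  rw [h1]
  have h4 : (∫ s in (0 : ℝ)..(2 * Real.pi), (fderiv ℝ (Φ t) p) (h (s + t))) =
      (fderiv ℝ (Φ t) p) (∫ s in (0 : ℝ)..(2 * Real.pi), h (s + t)) :=
    ContinuousLinearMap.intervalIntegral_comp_comm _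
      ((hcont.comp (continuous_id.add continuous_const)).intervalIntegrable _ _)
  rw [h4, intervalIntegral.integral_comp_add_right h t]
  congr 1
  have h2 := hpd.intervalIntegral_add_eq t 0
  rw [zero_add] at h2
  rw [zero_add, add_comm (2 * Real.pi) t]
  exact h2

end LIN

theorem thm_LIN (hACT : St_ACT) : St_LIN := by
  intro n R f Φ hf hΦ p hp
  have hfix : ∀ s, Φ s p = p := (hACT n R f Φ hf hΦ).2.2 p |>.1 hp
  refine ⟨LIN.continuous_fd hΦ.cf p, LIN.fd_zero hΦ.zero p, LIN.fd_add hΦ.cf hΦ.add hfix,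
    LIN.fd_per hΦ.per p, LIN.lin Φ p, LIN.contDiff_lin hΦ.cf p,
    LIN.lin_equiv hΦ.cf hΦ.add hΦ.per hfix, LIN.lin_self hfix,
    LIN.fderiv_lin hΦ.cf hΦ.zero hΦ.add hfix⟩

end Pool.Agent.CRC
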